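import Pool.Agent.Lib_MP_10b5ac_nt.Compound

/-!
# MP_4270a5_nt, piece ARCH: minors of `Uᴴ D U` and of `A D C`

`minor p A S T = (A.submatrix S T).det` and `minor_mul` (Cauchy-Binet), `minor_one` are in
`Lib_MP_10b5ac_nt` (namespace `Pool.Agent.Sub`).

PAPER PROOF. `arch_bound`: `T = Uᴴ D U`. `∑_K |minor T S K|² = ∑_K minor T S K * minor Tᴴ K S = minor (T * Tᴴ) S S` and
`T * Tᴴ = Uᴴ (D Dᴴ) U` (`U Uᴴ = 1` too), so it is `∑_K minor Uᴴ S K * (∏_a |y (K a)|²) * minor U K S = ∑_K |minor U K S|² ∏_a |y (K a)|²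
≤ (∏_i max 1 |y_i|²) ∑_K |minor U K S|² = (∏_i max 1 |y_i|²) minor (Uᴴ U) S S = ∏_i max 1 |y_i|²`.
`fin_bound`: `minor (A D C) S K = ∑_J minor A S J * (∏_a y (J a)) * minor C J K`, the minors of `A`, `C` have norm `≤ 1`,
ultrametric inequality.
-/

namespace MP4270U

open Finset Pool.Agent.Sub

/-- a minor of `A * diagonal y * C` -/
theorem minor_diag {R : Type*} [CommRing R] (n p : ℕ) (A C : Matrix (Fin n) (Fin n) R) (y : Fin n → R)
    (S T : Fin p ↪o Fin n) :
    minor p (A * Matrix.diagonal y * C) S T =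
      ∑ K : Fin p ↪o Fin n, minor p A S K * (∏ a, y (K a)) * minor p C K T := by
  rw [minor_mul]
  refine Finset.sum_congr rfl fun K _ => ?_
  congr 1
  unfold minor
  have h : (A * Matrix.diagonal y).submatrix S K =
      Matrix.of (fun i j => y (K j) * A.submatrix S K i j) := by
    ext i j
    rw [Matrix.submatrix_apply, Matrix.mul_diagonal, Matrix.of_apply, Matrix.submatrix_apply,
      mul_comm]
  rw [h, Matrix.det_mul_row, mul_comm]

private theorem arch_le_prod (n p : ℕ) (f : Fin n → ℝ) (hf : ∀ i, 0 ≤ f i) (K : Fin p ↪o Fin n) :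
    ∏ a, f (K a) ≤ ∏ i, max 1 (f i) := by
  classical
  have h1 : ∏ a, f (K a) ≤ ∏ a, max 1 (f (K a)) :=
    Finset.prod_le_prod (fun a _ => hf _) (fun a _ => le_max_right _ _)
  have h2 : ∏ a, max 1 (f (K a)) = ∏ i ∈ Finset.univ.image K, max 1 (f i) := by
    rw [Finset.prod_image (fun a _ b _ h => K.injective h)]
  have h3 : (1 : ℝ) ≤ ∏ i ∈ (Finset.univ.image K)ᶜ, max 1 (f i) :=
    Finset.prod_induction _ (fun x => (1 : ℝ) ≤ x)
      (fun a b ha hb => one_le_mul_of_one_le_of_one_le ha hb) le_rfl (fun i _ => le_max_left _ _)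
  have h4 : (0 : ℝ) ≤ ∏ i ∈ Finset.univ.image K, max 1 (f i) :=
    Finset.prod_nonneg fun i _ => le_trans zero_le_one (le_max_left _ _)
  rw [← Finset.prod_mul_prod_compl (Finset.univ.image K), ← h2]
  rw [← h2] at h4
  exact h1.trans (le_mul_of_one_le_right h4 h3)

private theorem arch_conj (n p : ℕ) (T : Matrix (Fin n) (Fin n) ℂ) (S K : Fin p ↪o Fin n) :
    minor p T.conjTranspose K S = star (minor p T S K) := by
  unfold minor
  rw [← Matrix.det_conjTranspose]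
  rfl

private theorem arch_sq (z : ℂ) : z * star z = ((‖z‖ ^ 2 : ℝ) : ℂ) := by
  have h := Complex.mul_conj z
  rw [Complex.normSq_eq_norm_sq] at h
  exact h

theorem arch_bound (n : ℕ) (U : Matrix (Fin n) (Fin n) ℂ) (hU : U.conjTranspose * U = 1)
    (y : Fin n → ℂ) (p : ℕ) (S : Fin p ↪o Fin n) :
    ∑ K : Fin p ↪o Fin n, ‖minor p (U.conjTranspose * Matrix.diagonal y * U) S K‖ ^ 2 ≤
      ∏ i, (max 1 ‖y i‖) ^ 2 := by
  classical
  have hU' : U * U.conjTranspose = 1 := mul_eq_one_comm.1 hU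
  set T := U.conjTranspose * Matrix.diagonal y * U with hT
  have hTT : T * T.conjTranspose =
      U.conjTranspose * Matrix.diagonal (fun i => y i * star (y i)) * U := by
    have h1 : T.conjTranspose = U.conjTranspose * Matrix.diagonal (fun i => star (y i)) * U := by
      rw [hT, Matrix.conjTranspose_mul, Matrix.conjTranspose_mul, Matrix.conjTranspose_conjTranspose,
        Matrix.diagonal_conjTranspose, Matrix.mul_assoc]
      rfl
    calc T * T.conjTranspose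
        = U.conjTranspose * Matrix.diagonal y * (U * U.conjTranspose) *
            Matrix.diagonal (fun i => star (y i)) * U := by
          rw [h1, hT]
          simp only [Matrix.mul_assoc]
      _ = U.conjTranspose * (Matrix.diagonal y * Matrix.diagonal (fun i => star (y i))) * U := by
          rw [hU', Matrix.mul_one, Matrix.mul_assoc U.conjTranspose]
      _ = _ := by rw [Matrix.diagonal_mul_diagonal]
  have e1 : ((∑ K : Fin p ↪o Fin n, ‖minor p T S K‖ ^ 2 : ℝ) : ℂ) =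
      minor p (T * T.conjTranspose) S S := by
    rw [minor_mul, Complex.ofReal_sum]
    refine Finset.sum_congr rfl fun K _ => ?_
    rw [arch_conj, arch_sq]
  have e2 : minor p (T * T.conjTranspose) S S =
      ((∑ K : Fin p ↪o Fin n, ‖minor p U K S‖ ^ 2 * ∏ a, ‖y (K a)‖ ^ 2 : ℝ) : ℂ) := by
    rw [hTT, minor_diag, Complex.ofReal_sum]
    refine Finset.sum_congr rfl fun K _ => ?_
    rw [arch_conj, Complex.ofReal_mul, ← arch_sq, Complex.ofReal_prod]
    simp only [← arch_sq]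
    ring
  have e3 : ((∑ K : Fin p ↪o Fin n, ‖minor p U K S‖ ^ 2 : ℝ) : ℂ) = 1 := by
    have h1 : minor p (U.conjTranspose * U) S S = 1 := by
      rw [hU, minor_one, if_pos rfl]
    rw [← h1, minor_mul, Complex.ofReal_sum]
    refine Finset.sum_congr rfl fun K _ => ?_
    rw [arch_conj, mul_comm, arch_sq]
  have e4 : ∑ K : Fin p ↪o Fin n, ‖minor p T S K‖ ^ 2 =
      ∑ K : Fin p ↪o Fin n, ‖minor p U K S‖ ^ 2 * ∏ a, ‖y (K a)‖ ^ 2 :=
    Complex.ofReal_injective (e1.trans e2)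
  have e5 : ∑ K : Fin p ↪o Fin n, ‖minor p U K S‖ ^ 2 = 1 := by
    have := e3
    rw [← Complex.ofReal_one] at this
    exact Complex.ofReal_injective this
  rw [e4]
  have hb : ∀ K : Fin p ↪o Fin n, ∏ a, ‖y (K a)‖ ^ 2 ≤ ∏ i, (max 1 ‖y i‖) ^ 2 := by
    intro K
    rw [Finset.prod_pow, Finset.prod_pow]
    exact pow_le_pow_left₀ (Finset.prod_nonneg fun a _ => norm_nonneg _)
      (arch_le_prod n p (fun i => ‖y i‖) (fun i => norm_nonneg _) K) 2
  calc ∑ K : Fin p ↪o Fin n, ‖minor p U K S‖ ^ 2 * ∏ a, ‖y (K a)‖ ^ 2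
      ≤ ∑ K : Fin p ↪o Fin n, ‖minor p U K S‖ ^ 2 * ∏ i, (max 1 ‖y i‖) ^ 2 :=
        Finset.sum_le_sum fun K _ => mul_le_mul_of_nonneg_left (hb K) (sq_nonneg _)
    _ = ∏ i, (max 1 ‖y i‖) ^ 2 := by rw [← Finset.sum_mul, e5, one_mul]

private theorem arch_int {E : Type*} [NormedField E] [IsUltrametricDist E] (p : ℕ)
    (T : Matrix (Fin p) (Fin p) E) (hT : ∀ i j, ‖T i j‖ ≤ 1) : ‖T.det‖ ≤ 1 := by
  rw [Matrix.det_apply]
  refine IsUltrametricDist.norm_sum_le_of_forall_le_of_nonneg zero_le_one fun σ _ => ?_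
  have h1 : ‖Equiv.Perm.sign σ • ∏ i, T (σ i) i‖ = ‖∏ i, T (σ i) i‖ := by
    rcases Int.units_eq_one_or (Equiv.Perm.sign σ) with h | h <;> rw [h] <;> simp
  rw [h1, norm_prod]
  exact Finset.prod_le_one (fun i _ => norm_nonneg _) fun i _ => hT _ _

theorem fin_bound {E : Type*} [NormedField E] [IsUltrametricDist E] (n : ℕ)
    (A C : Matrix (Fin n) (Fin n) E) (hA : ∀ i j, ‖A i j‖ ≤ 1) (hC : ∀ i j, ‖C i j‖ ≤ 1)
    (y : Fin n → E) (p : ℕ) (S K : Fin p ↪o Fin n) :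
    ‖minor p (A * Matrix.diagonal y * C) S K‖ ≤ ∏ i, max 1 ‖y i‖ := by
  rw [minor_diag]
  refine IsUltrametricDist.norm_sum_le_of_forall_le_of_nonneg
    (Finset.prod_nonneg fun i _ => le_trans zero_le_one (le_max_left _ _)) fun J _ => ?_
  have h1 : ‖minor p A S J‖ ≤ 1 := arch_int p _ fun i j => hA _ _
  have h2 : ‖minor p C J K‖ ≤ 1 := arch_int p _ fun i j => hC _ _
  have h3 : ‖∏ a, y (J a)‖ ≤ ∏ i, max 1 ‖y i‖ := by
    rw [norm_prod]
    exact arch_le_prod n p (fun i => ‖y i‖) (fun i => norm_nonneg _) J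
  rw [norm_mul, norm_mul]
  calc ‖minor p A S J‖ * ‖∏ a, y (J a)‖ * ‖minor p C J K‖
      ≤ ‖minor p A S J‖ * ‖∏ a, y (J a)‖ :=
        mul_le_of_le_one_right (mul_nonneg (norm_nonneg _) (norm_nonneg _)) h2
    _ ≤ ‖∏ a, y (J a)‖ := mul_le_of_le_one_left (norm_nonneg _) h1
    _ ≤ _ := h3

theorem int_bound {E : Type*} [NormedField E] [IsUltrametricDist E] (n : ℕ)
    (T : Matrix (Fin n) (Fin n) E) (hT : ∀ i j, ‖T i j‖ ≤ 1) (p : ℕ) (S K : Fin p ↪o Fin n) :
    ‖minor p T S K‖ ≤ 1 :=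
  arch_int p _ fun _ _ => hT _ _

end MP4270U
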