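import Pool.Agent.Lib_MP_4270a5_u.Cnt

/-!
# MP_4270a5_nt, piece BLK

PAPER PROOF. `A` = support of `u`; `B`, `B'` from `exists_basis` for `A` and `Aᶜ`. `M1` = `T` on `A × Bᶜ`, `M2` = `T` on
`Aᶜ × B'ᶜ`, both of rank `≤ d` (`rank_le_of_cnt`). `E = Bᶜ ∩ B'ᶜ`: the matrix `T` on `X × E` (columns in `E`, i.e. `T * diag(1_E)`) has
rank `|E|` (`T` invertible) and is the sum of the restrictions to the columns `E` of `M1` and `M2`, so `|E| ≤ 2d`. As
`|B| + |B'| = n`, `|B ∩ B'| = |Bᶜ ∩ B'ᶜ| ≤ 2d`. So `T` on `Aᶜ × B` has rank `≤ d + 2d` (columns in `B ∩ B'`, and columns in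
`B \ B' ⊆ B'ᶜ`: part of `M2`). `Qz u * T - T * Qz w` (`w` = indicator of `B`) is `T` on `A × Bᶜ` minus `T` on `Aᶜ × B`.
If `u = 1` then `A = univ`, `|B| = n`, so `w = 1`.
-/

namespace MP4270U

open Finset

variable {K : Type*} [Field K] {X : Type*} [Fintype X] [DecidableEq X]

/-- the rank of the coordinate projection to `E` -/
private theorem blk_diag (E : Finset X) :
    (Matrix.diagonal fun b => if b ∈ E then (1 : K) else 0).rank = E.card := by
  classical
  rw [Matrix.rank_diagonal, Fintype.card_subtype]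
  congr 1
  ext b
  simp

theorem blk (T : Matrix X X K) (hdet : T.det ≠ 0) (d : ℕ) (hd : ∀ A, cnt T A < 2 ^ (d + 1))
    (u : X → ZMod 2) :
    ∃ w : X → ZMod 2, (u = 1 → w = 1) ∧ (Qz K u * T - T * Qz K w).rank ≤ 4 * d := by
  classical
  set A : Finset X := univ.filter fun x => u x = 1 with hA
  obtain ⟨B, hBc, hBi⟩ := exists_basis T hdet A
  obtain ⟨B', hBc', hBi'⟩ := exists_basis T hdet Aᶜ
  have h1 := rank_le_of_cnt T A B hBc hBi d (hd A)
  have h2 := rank_le_of_cnt T Aᶜ B' hBc' hBi' d (hd Aᶜ)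
  set M1 : Matrix X X K := Matrix.of fun a b => if a ∈ A ∧ b ∉ B then T a b else 0 with hM1
  set M2 : Matrix X X K := Matrix.of fun a b => if a ∈ Aᶜ ∧ b ∉ B' then T a b else 0 with hM2
  have hcard : B.card + B'.card = Fintype.card X := by
    rw [hBc, hBc', Finset.card_add_card_compl]
  set E : Finset X := Bᶜ ∩ B'ᶜ with hE
  have hET : T * (Matrix.diagonal fun b => if b ∈ E then (1 : K) else 0) =
      (M1 + M2) * (Matrix.diagonal fun b => if b ∈ E then (1 : K) else 0) := by
    ext a b
    rw [Matrix.mul_diagonal, Matrix.mul_diagonal]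
    by_cases hb : b ∈ E
    · have hb' := hb
      rw [hE, Finset.mem_inter, Finset.mem_compl, Finset.mem_compl] at hb'
      by_cases ha : a ∈ A
      · simp [hM1, hM2, hb, hb'.1, hb'.2, ha]
      · simp [hM1, hM2, hb, hb'.1, hb'.2, ha]
    · simp [hb]
  have hEc : E.card ≤ 2 * d := by
    have e1 : (T * (Matrix.diagonal fun b => if b ∈ E then (1 : K) else 0)).rank = E.card := by
      rw [Matrix.rank_mul_eq_right_of_isUnit_det _ _ (isUnit_iff_ne_zero.2 hdet), blk_diag]
    rw [hET] at e1
    have e2 := Matrix.rank_mul_le_left (M1 + M2) (Matrix.diagonal fun b => if b ∈ E then (1 : K) else 0)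
    have e3 := rk_add M1 M2
    omega
  have hBB : (B ∩ B').card ≤ 2 * d := by
    have e1 : E.card + (B ∪ B').card = Fintype.card X := by
      rw [hE, ← Finset.compl_union, add_comm, Finset.card_add_card_compl]
    have e2 := Finset.card_union_add_card_inter B B'
    omega
  refine ⟨fun x => if x ∈ B then 1 else 0, ?_, ?_⟩
  · intro hu
    have hAu : A = univ := by
      rw [hA, Finset.filter_true_of_mem]
      intro x _
      rw [hu]
      rfl
    have hBu : B = univ := by
      rw [← Finset.card_eq_iff_eq_univ, hBc, hAu, Finset.card_univ]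
    funext x
    simp [hBu]
  · have hdec : Qz K u * T - T * Qz K (fun x => if x ∈ B then 1 else 0) =
        M1 - ((Matrix.of fun a b => if a ∈ Aᶜ ∧ b ∈ B ∩ B' then T a b else 0 : Matrix X X K) +
          M2 * (Matrix.diagonal fun b => if b ∈ B then (1 : K) else 0)) := by
      ext a b
      have hmem : (u a = 1) ↔ a ∈ A := by simp [hA]
      rw [Matrix.sub_apply, Matrix.sub_apply, Matrix.add_apply, Matrix.mul_diagonal]
      unfold Qz
      rw [Matrix.diagonal_mul, Matrix.mul_diagonal]
      by_cases ha : a ∈ A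
      · by_cases hb : b ∈ B
        · simp [hM1, hM2, hmem, ha, hb]
        · simp [hM1, hM2, hmem, ha, hb]
      · by_cases hb : b ∈ B
        · by_cases hb' : b ∈ B'
          · simp [hM1, hM2, hmem, ha, hb, hb']
          · simp [hM1, hM2, hmem, ha, hb, hb']
        · simp [hM1, hM2, hmem, ha, hb]
    rw [hdec]
    have e1 := rk_sub M1 ((Matrix.of fun a b => if a ∈ Aᶜ ∧ b ∈ B ∩ B' then T a b else 0 :
      Matrix X X K) + M2 * (Matrix.diagonal fun b => if b ∈ B then (1 : K) else 0))
    have e2 := rk_add (Matrix.of fun a b => if a ∈ Aᶜ ∧ b ∈ B ∩ B' then T a b else 0 :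
      Matrix X X K) (M2 * (Matrix.diagonal fun b => if b ∈ B then (1 : K) else 0))
    have e3 := Matrix.rank_mul_le_left M2 (Matrix.diagonal fun b => if b ∈ B then (1 : K) else 0)
    have e4 := rk_cols (Matrix.of fun a b => if a ∈ Aᶜ ∧ b ∈ B ∩ B' then T a b else 0 :
      Matrix X X K) (B ∩ B') (fun a b hb => by
        rw [Matrix.of_apply, if_neg]
        exact fun h => hb h.2)
    omega

end MP4270U
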