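import Pool.Agent.Lib_MP_4270a5_u.Core

/-!
# MP_4270a5_nt, piece CHR: the circulant of a sum of characters

`G` finite commutative group, `M` a field of characteristic zero with enough roots of unity, `X = (G →* Mˣ)`,
`y τ = ∑ i, a i * π i τ`, `TK φ ψ = ∑_{i : π i = φ / ψ} a i`.

PAPER PROOF. `chr_orth`: `sum_hom_units_eq_zero` for `φ⁻¹ * ψ`. `TK_F`: the `(φ, ψ)` entry of the right side is
`∑_τ (φ τ)⁻¹ y τ ψ τ = ∑_i a_i ∑_τ ((φ/ψ) τ)⁻¹ (π_i τ) = ∑_i a_i |G| [π_i = φ/ψ]`. `|X| = |G|`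
(`CommGroup.card_monoidHom_of_hasEnoughRootsOfUnity`), so `Fs * Fm = |G|` implies `Fm * Fs = |G|`
(`Matrix.mul_eq_one_comm_of_card_eq` or similar). `TK_det`: the inverse of `TK` is `|G|⁻¹ Fs diag(y⁻¹) Fm`.
`chr_core`: `core` gives `s`, `δ` with `rank (TK - δ Π_s) ≤ 2520 d`; `|G| (TK - δ Π_s) = Fs diag(y τ - δ s τ) Fm`, hence
`#{τ | y τ ≠ δ s τ} = rank diag ≤ 2520 d < |G| / 2`.
-/

namespace MP4270U

open Finset

variable {M : Type*} [Field M] [CharZero M] {G : Type*} [CommGroup G] [Fintype G]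

noncomputable instance instFinHom : Fintype (G →* Mˣ) := by
  have : Finite (G →* Mˣ) := inferInstance
  exact Fintype.ofFinite _

noncomputable instance instDecHom : DecidableEq (G →* Mˣ) := Classical.decEq _

noncomputable def TK {ι : Type*} [Fintype ι] (π : ι → (G →* Mˣ)) (a : ι → M) :
    Matrix (G →* Mˣ) (G →* Mˣ) M :=
  Matrix.of fun φ ψ => ∑ i, if π i = φ / ψ then a i else 0

noncomputable def Fm (M : Type*) [Field M] (G : Type*) [CommGroup G] : Matrix G (G →* Mˣ) M :=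
  Matrix.of fun τ ψ => ((ψ τ : Mˣ) : M)

noncomputable def Fs (M : Type*) [Field M] (G : Type*) [CommGroup G] : Matrix (G →* Mˣ) G M :=
  Matrix.of fun φ τ => (((φ τ)⁻¹ : Mˣ) : M)

set_option linter.unusedSectionVars false in
theorem chr_orth (φ ψ : G →* Mˣ) :
    ∑ τ, (((φ τ)⁻¹ : Mˣ) : M) * ((ψ τ : Mˣ) : M) = if φ = ψ then (Fintype.card G : M) else 0 := by
  classical
  have h1 : ∀ τ : G, (((φ τ)⁻¹ : Mˣ) : M) * ((ψ τ : Mˣ) : M) =
      ((Units.coeHom M).comp (φ⁻¹ * ψ)) τ := by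
    intro τ
    rw [MonoidHom.comp_apply, MonoidHom.mul_apply, MonoidHom.inv_apply, Units.coeHom_apply,
      Units.val_mul]
  by_cases h : φ = ψ
  · subst h
    rw [if_pos rfl]
    simp
  · rw [if_neg h, Finset.sum_congr rfl fun τ _ => h1 τ]
    apply sum_hom_units_eq_zero
    intro h2
    apply h
    ext τ
    have h3 := DFunLike.congr_fun h2 τ
    rw [← h1, MonoidHom.one_apply, ← Units.val_mul, Units.val_eq_one, inv_mul_eq_one] at h3
    rw [h3]

theorem Fs_mul_Fm : Fs M G * Fm M G =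
    (Fintype.card G : M) • (1 : Matrix (G →* Mˣ) (G →* Mˣ) M) := by
  ext φ ψ
  rw [Matrix.mul_apply, Matrix.smul_apply, Matrix.one_apply]
  simp only [Fs, Fm, Matrix.of_apply]
  rw [chr_orth, smul_eq_mul, mul_ite, mul_one, mul_zero]

set_option linter.unusedSectionVars false in
theorem TK_tr {ι : Type*} [Fintype ι] (π : ι → (G →* Mˣ)) (a : ι → M) (φ ψ c : G →* Mˣ) :
    TK π a (φ * c) (ψ * c) = TK π a φ ψ := by
  have h : φ * c / (ψ * c) = φ / ψ := mul_div_mul_right_eq_div φ ψ c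
  simp only [TK, Matrix.of_apply, h]

theorem TK_F [DecidableEq G] {ι : Type*} [Fintype ι] (π : ι → (G →* Mˣ)) (a : ι → M) (y : G → M)
    (hy : ∀ τ, y τ = ∑ i, a i * ((π i τ : Mˣ) : M)) :
    (Fintype.card G : M) • TK π a = Fs M G * Matrix.diagonal y * Fm M G := by
  ext φ ψ
  rw [Matrix.smul_apply, Matrix.mul_apply]
  simp only [Matrix.mul_diagonal, TK, Fs, Fm, Matrix.of_apply]
  have h1 : ∀ τ : G, (((φ τ)⁻¹ : Mˣ) : M) * y τ * ((ψ τ : Mˣ) : M) =
      ∑ i, a i * (((((φ / ψ) τ)⁻¹ : Mˣ) : M) * ((π i τ : Mˣ) : M)) := by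
    intro τ
    rw [hy, Finset.mul_sum, Finset.sum_mul]
    apply Finset.sum_congr rfl
    intro i _
    rw [MonoidHom.div_apply, inv_div, div_eq_mul_inv, Units.val_mul]
    ring
  rw [Finset.sum_congr rfl fun τ _ => h1 τ, Finset.sum_comm, smul_eq_mul, Finset.mul_sum]
  apply Finset.sum_congr rfl
  intro i _
  rw [← Finset.mul_sum, chr_orth]
  by_cases h : π i = φ / ψ
  · rw [if_pos h, if_pos h.symm, mul_comm]
  · rw [if_neg h, if_neg (Ne.symm h), mul_zero, mul_zero]

omit [CharZero M] in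
private theorem chr_card [HasEnoughRootsOfUnity M (Monoid.exponent G)] :
    Fintype.card (G →* Mˣ) = Fintype.card G := by
  rw [← Nat.card_eq_fintype_card, ← Nat.card_eq_fintype_card]
  exact CommGroup.card_monoidHom_of_hasEnoughRootsOfUnity G M

private theorem chr_ne : (Fintype.card G : M) ≠ 0 := by
  exact_mod_cast Fintype.card_ne_zero

private theorem Fm_mul_Fs [DecidableEq G] [HasEnoughRootsOfUnity M (Monoid.exponent G)] :
    Fm M G * Fs M G = (Fintype.card G : M) • (1 : Matrix G G M) := by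
  have h0 : (Fintype.card G : M) ≠ 0 := chr_ne
  have h1 : (((Fintype.card G : M)⁻¹ • Fs M G) * Fm M G) = 1 := by
    rw [Matrix.smul_mul, Fs_mul_Fm, smul_smul, inv_mul_cancel₀ h0, one_smul]
  have h2 := (Matrix.mul_eq_one_comm_of_equiv (Fintype.equivOfCardEq chr_card)).mp h1
  rw [Matrix.mul_smul] at h2
  rw [← h2, smul_smul, mul_inv_cancel₀ h0, one_smul]

theorem TK_det [HasEnoughRootsOfUnity M (Monoid.exponent G)] {ι : Type*} [Fintype ι]
    (π : ι → (G →* Mˣ)) (a : ι → M) (y : G → M)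
    (hy : ∀ τ, y τ = ∑ i, a i * ((π i τ : Mˣ) : M)) (hy0 : ∀ τ, y τ ≠ 0) : (TK π a).det ≠ 0 := by
  classical
  have h0 : (Fintype.card G : M) ≠ 0 := chr_ne
  have h1 := TK_F π a y hy
  have h2 : (Fintype.card G : M) • (TK π a *
      (Fs M G * Matrix.diagonal (fun τ => (y τ)⁻¹) * Fm M G)) =
      (Fintype.card G : M) • ((Fintype.card G : M) • (1 : Matrix (G →* Mˣ) (G →* Mˣ) M)) := by
    rw [← Matrix.smul_mul, h1]
    have h3 : Fs M G * Matrix.diagonal y * Fm M G *
        (Fs M G * Matrix.diagonal (fun τ => (y τ)⁻¹) * Fm M G) =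
        Fs M G * (Matrix.diagonal y * ((Fm M G * Fs M G) *
          Matrix.diagonal (fun τ => (y τ)⁻¹))) * Fm M G := by
      simp only [Matrix.mul_assoc]
    rw [h3, Fm_mul_Fs, Matrix.smul_mul, Matrix.one_mul, Matrix.mul_smul,
      Matrix.diagonal_mul_diagonal]
    have h4 : (fun τ => y τ * (y τ)⁻¹) = fun _ => (1 : M) := by
      funext τ
      exact mul_inv_cancel₀ (hy0 τ)
    rw [h4, Matrix.diagonal_one, Matrix.mul_smul, Matrix.mul_one, Matrix.smul_mul, Fs_mul_Fm]
  have h5 := smul_right_injective _ h0 h2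
  intro h6
  have h7 := congrArg Matrix.det h5
  rw [Matrix.det_mul, h6, zero_mul, Matrix.det_smul, Matrix.det_one, mul_one] at h7
  exact pow_ne_zero _ h0 h7.symm

theorem chr_core [DecidableEq M] [HasEnoughRootsOfUnity M (Monoid.exponent G)] {ι : Type*}
    [Fintype ι] (π : ι → (G →* Mˣ)) (a : ι → M) (y : G → M)
    (hy : ∀ τ, y τ = ∑ i, a i * ((π i τ : Mˣ) : M)) (hy0 : ∀ τ, y τ ≠ 0) (d : ℕ)
    (hd : ∀ A, cnt (TK π a) A < 2 ^ (d + 1)) (hn : 5040 * d < Fintype.card G) :
    ∃ (χ : G →* Mˣ) (δ : M),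
      Fintype.card G < 2 * (univ.filter fun τ : G => y τ = δ * ((χ τ : Mˣ) : M)).card := by
  classical
  have h0 : (Fintype.card G : M) ≠ 0 := chr_ne
  have hq1 : Fintype.card (G →* Mˣ) = Fintype.card G := chr_card
  have hq2 : 528 * d < Fintype.card (G →* Mˣ) := by
    rw [hq1]
    omega
  have hq3 : (TK π a).det ≠ 0 := TK_det π a y hy hy0
  have hq4 := core (TK π a) (TK_tr π a)
  have hq5 := hq4 hq3
  have hq6 := hq5 d hd
  obtain ⟨s, δ, hs⟩ := hq6 hq2
  refine ⟨s, δ, ?_⟩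
  -- the monomial matrix is the circulant of one character
  have h1 : (Matrix.of fun φ ψ => if φ = ψ * s then δ else 0 : Matrix (G →* Mˣ) (G →* Mˣ) M) =
      TK (fun _ : Unit => s) (fun _ => δ) := by
    ext φ ψ
    simp only [TK, Matrix.of_apply, Finset.univ_unique, Finset.sum_singleton]
    have h2 : φ = ψ * s ↔ s = φ / ψ := by
      have h3 := eq_div_iff_mul_eq' (a := s) (b := φ) (c := ψ)
      have h4 : s * ψ = ψ * s := mul_comm s ψ
      rw [h3, h4, eq_comm]
    by_cases h : φ = ψ * s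
    · rw [if_pos h, if_pos (h2.mp h)]
    · rw [if_neg h, if_neg (fun h3 => h (h2.mpr h3))]
  have h2 := TK_F π a y hy
  have h3 := TK_F (fun _ : Unit => s) (fun _ => δ) (fun τ => δ * ((s τ : Mˣ) : M))
    (fun τ => by simp)
  -- the diagonal matrix of the differences
  have h4 : Matrix.diagonal (fun τ => (Fintype.card G : M) * (y τ - δ * ((s τ : Mˣ) : M))) =
      Fm M G * (TK π a - TK (fun _ : Unit => s) (fun _ => δ)) * Fs M G := by
    have h5 : (Fintype.card G : M) • (Fm M G * (TK π a - TK (fun _ : Unit => s) (fun _ => δ)) *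
        Fs M G) = (Fintype.card G : M) • Matrix.diagonal
          (fun τ => (Fintype.card G : M) * (y τ - δ * ((s τ : Mˣ) : M))) := by
      have h6 : (Fintype.card G : M) • (Fm M G * (TK π a - TK (fun _ : Unit => s) (fun _ => δ)) *
          Fs M G) = Fm M G * ((Fintype.card G : M) • TK π a -
            (Fintype.card G : M) • TK (fun _ : Unit => s) (fun _ => δ)) * Fs M G := by
        rw [← smul_sub, Matrix.mul_smul, Matrix.smul_mul]
      rw [h6, h2, h3, ← Matrix.sub_mul, ← Matrix.mul_sub]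
      have h7 : Fm M G * (Fs M G * (Matrix.diagonal y -
          Matrix.diagonal fun τ => δ * ((s τ : Mˣ) : M)) * Fm M G) * Fs M G =
          (Fm M G * Fs M G) * (Matrix.diagonal y -
            Matrix.diagonal fun τ => δ * ((s τ : Mˣ) : M)) * (Fm M G * Fs M G) := by
        simp only [Matrix.mul_assoc]
      rw [h7, Fm_mul_Fs, Matrix.smul_mul, Matrix.one_mul, Matrix.mul_smul, Matrix.mul_one]
      congr 1
      rw [Matrix.diagonal_sub, ← Matrix.diagonal_smul]
      rfl
    exact (smul_right_injective _ h0 h5).symm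
  have h8 : Fintype.card {τ : G // (Fintype.card G : M) * (y τ - δ * ((s τ : Mˣ) : M)) ≠ 0} ≤
      2520 * d := by
    rw [← Matrix.rank_diagonal, h4]
    refine le_trans (Matrix.rank_mul_le_left _ _) (le_trans (Matrix.rank_mul_le_right _ _) ?_)
    rw [← h1]
    exact hs
  have h9 : Fintype.card {τ : G // (Fintype.card G : M) * (y τ - δ * ((s τ : Mˣ) : M)) ≠ 0} =
      (univ.filter fun τ : G => ¬ y τ = δ * ((s τ : Mˣ) : M)).card := by
    rw [Fintype.card_subtype]
    apply congrArg Finset.card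
    apply Finset.filter_congr
    intro τ _
    rw [mul_ne_zero_iff, sub_ne_zero]
    exact ⟨fun h => h.2, fun h => ⟨h0, h⟩⟩
  have h10 := Finset.card_filter_add_card_filter_not (s := (univ : Finset G))
    (fun τ : G => y τ = δ * ((s τ : Mˣ) : M))
  rw [Finset.card_univ] at h10
  rw [h9] at h8
  omega

end MP4270U
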