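import Pool.Agent.Lib_MP_4270a5_u.CmA
import Pool.Agent.Lib_MP_4270a5_nt.HPropA

/-!
# MP_4270a5_nt, piece CM: counting nonvanishing minors

PAPER PROOF. Let `G` be the set of the `K` with `δ_K = minor p T S K ≠ 0`, `c = |G|` (if `c = 0` nothing to prove),
`D = [M : ℚ]`. Let `T₀` be a finite set of primes which works for `decomp M (y i)` (all `i`) and `product_formula M δ_K`
(all `K ∈ G`). For `σ ∈ Gal(M/ℚ)` apply `ii ∘ σ : M → ℂ` to the matrix identity `hT`: with `U = (ii σ F) / √n`, `Uᴴ U = 1` (the entries of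
`ii σ F` are roots of unity, `conj z = z⁻¹`), `ii σ T = Uᴴ diag(ii σ y) U`. `arch_bound`: `∑_K |ii σ δ_K|² ≤ M_σ²`,
`M_σ = ∏ max 1 |ii σ y_i|`. For `t > 0`, `log t ≤ t / a - 1 + log a` with `a = M_σ² / c` gives `∑_{K∈G} log |ii σ δ_K|² ≤ c log (M_σ²/c)`.
For a prime `ℓ` (`jj ℓ ∘ σ`): if `ℓ ∣ n` then `|σ δ_K|_ℓ ≤ 1` (`int_bound`, `hint`), otherwise `|n|_ℓ = 1` and `fin_bound` with
`A = n⁻¹ F*`, `C = F` gives `|σ δ_K|_ℓ ≤ ∏_i max 1 |σ y_i|_ℓ`; in both cases `log nm ℓ (σ δ_K) ≤ ∑_i log max 1 (nm ℓ (σ y_i))`.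
Sum of the product formulas over `K ∈ G`: `0 ≤ c ∑_i D h(y_i) - (c D / 2) log c`. So `log c ≤ 2 n h`.
-/

open Polynomial IntermediateField Finset

namespace MP4270U

open MP4270 Pool.Agent.Sub

private theorem cm_minor_map {R L : Type*} [CommRing R] [CommRing L] (f : R →+* L) {n p : ℕ}
    (A : Matrix (Fin n) (Fin n) R) (S K : Fin p ↪o Fin n) :
    minor p (A.map f) S K = f (minor p A S K) := by
  unfold minor
  rw [RingHom.map_det]
  rfl

private theorem cm_Fst_map {E L : Type*} [Field E] [Field L] (f : E →+* L) {n : ℕ}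
    (F : Matrix (Fin n) (Fin n) E) : Fst (F.map f) = (Fst F).map f := by
  ext i j
  simp [Fst]

private theorem cm_hFF_map {E L : Type*} [Field E] [Field L] (f : E →+* L) {n : ℕ}
    (F : Matrix (Fin n) (Fin n) E)
    (h : Fst F * F = (n : E) • (1 : Matrix (Fin n) (Fin n) E)) :
    Fst (F.map f) * F.map f = (n : L) • (1 : Matrix (Fin n) (Fin n) L) := by
  rw [cm_Fst_map, ← Matrix.map_mul, h]
  ext i j
  by_cases hij : i = j
  · subst hij; simp
  · simp [Matrix.one_apply_ne hij]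

private theorem cm_hT_map {E L : Type*} [Field E] [Field L] (f : E →+* L) {n : ℕ}
    (F T : Matrix (Fin n) (Fin n) E) (y : Fin n → E)
    (h : (n : E) • T = Fst F * Matrix.diagonal y * F) :
    (n : L) • T.map f = Fst (F.map f) * Matrix.diagonal (fun i => f (y i)) * F.map f := by
  have h1 : (Matrix.diagonal y).map f = Matrix.diagonal (fun i => f (y i)) := by
    rw [Matrix.diagonal_map (map_zero f)]
  rw [cm_Fst_map, ← h1, ← Matrix.map_mul, ← Matrix.map_mul, ← h]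
  ext i j
  simp

private theorem cm_log_prod {n : ℕ} (f : Fin n → ℝ) :
    Real.log (∏ i, max 1 (f i)) = ∑ i, Real.log (max 1 (f i)) :=
  Real.log_prod fun _ _ => (lt_of_lt_of_le one_pos (le_max_left _ _)).ne'

/-- the embedding `x ↦ ii (σ x)` -/
private noncomputable def emb {L : Type*} [Field L] (g : Qb →+* L) (M : IntermediateField ℚ Qb)
    (σ : M ≃ₐ[ℚ] M) : M →+* L := g.comp ((algebraMap M Qb).comp (σ : M →+* M))

private theorem emb_apply {L : Type*} [Field L] (g : Qb →+* L) (M : IntermediateField ℚ Qb)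
    (σ : M ≃ₐ[ℚ] M) (x : M) : emb g M σ x = g ((σ x : M) : Qb) := rfl

open Classical in
theorem count_minors (M : IntermediateField ℚ Qb) [FiniteDimensional ℚ M] [Normal ℚ M]
    (n N : ℕ) (hn : 0 < n) (hN : 0 < N) (F T : Matrix (Fin n) (Fin n) M) (y : Fin n → M)
    (hF : ∀ i j, F i j ^ N = 1) (hFF : Fst F * F = (n : M) • (1 : Matrix (Fin n) (Fin n) M))
    (hT : (n : M) • T = Fst F * Matrix.diagonal y * F)
    (hint : ∀ ℓ : ℕ, ℓ.Prime → ℓ ∣ n → ∀ σ : M ≃ₐ[ℚ] M, ∀ i j, nm ℓ ((σ (T i j) : M) : Qb) ≤ 1)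
    (h : ℝ) (hy : ∀ i, hW (y i : Qb) = h) (p : ℕ) (S : Fin p ↪o Fin n) :
    ((univ.filter fun K : Fin p ↪o Fin n => minor p T S K ≠ 0).card : ℝ) ≤
      Real.exp (2 * n * h) := by
  set G : Finset (Fin p ↪o Fin n) := univ.filter fun K => minor p T S K ≠ 0 with hG
  rcases G.eq_empty_or_nonempty with hG0 | hG0
  · rw [hG0, card_empty, Nat.cast_zero]
    exact (Real.exp_pos _).le
  have hcard : (0 : ℝ) < G.card := by exact_mod_cast hG0.card_pos
  have hGm : ∀ K ∈ G, minor p T S K ≠ 0 := fun K hK => (mem_filter.mp hK).2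
  -- the archimedean places
  have hC : ∀ σ : M ≃ₐ[ℚ] M, ∑ K ∈ G, Real.log (nmC ((σ (minor p T S K) : M) : Qb)) ≤
      (G.card : ℝ) * ((∑ i, Real.log (max 1 (nmC ((σ (y i) : M) : Qb)))) -
        Real.log G.card / 2) := by
    intro σ
    have h1 := cm_arch n N hn hN (F.map (emb ii M σ)) (T.map (emb ii M σ))
      (fun i => emb ii M σ (y i))
      (fun i j => by rw [Matrix.map_apply, ← map_pow, hF, map_one])
      (by simpa using cm_hFF_map (emb ii M σ) F hFF)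
      (by simpa using cm_hT_map (emb ii M σ) F T y hT) p S G
      (fun K hK => by
        rw [cm_minor_map]
        exact (_root_.map_ne_zero _).mpr (hGm K hK)) hG0
    simp only [cm_minor_map] at h1
    exact h1
  -- the other places
  have hL : ∀ (ℓ : ℕ) (σ : M ≃ₐ[ℚ] M), ∀ K ∈ G,
      Real.log (nm ℓ ((σ (minor p T S K) : M) : Qb)) ≤
        ∑ i, Real.log (max 1 (nm ℓ ((σ (y i) : M) : Qb))) := by
    intro ℓ σ K hK
    by_cases hℓ : ℓ.Prime
    · have hf : Fact ℓ.Prime := ⟨hℓ⟩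
      have h1 := cm_fin n N hN (F.map (emb (jj ℓ) M σ)) (T.map (emb (jj ℓ) M σ))
        (fun i => emb (jj ℓ) M σ (y i))
        (fun i j => by rw [Matrix.map_apply, ← map_pow, hF, map_one])
        (by simpa using cm_hT_map (emb (jj ℓ) M σ) F T y hT)
        (by
          by_cases hd : ℓ ∣ n
          · right
            intro i j
            have := hint ℓ hℓ hd σ i j
            rw [nm_eq] at this
            exact this
          · left
            have h2 := pf_nat ℓ hℓ hn.ne'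
            rw [Nat.factorization_eq_zero_of_not_dvd hd, Nat.cast_zero, zero_mul, neg_zero] at h2
            have h3 : nm ℓ (n : Qb) = 1 :=
              Real.eq_one_of_pos_of_log_eq_zero (nm_pos ℓ (by exact_mod_cast hn.ne')) h2
            rw [nm_eq, map_natCast] at h3
            exact h3) p S K
      rw [cm_minor_map, emb_apply, ← nm_eq] at h1
      rw [← cm_log_prod]
      refine Real.log_le_log (nm_pos ℓ ?_) (h1.trans_eq ?_)
      · intro h0
        have h3 : σ (minor p T S K) = 0 := Subtype.ext h0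
        exact hGm K hK ((map_eq_zero σ).mp h3)
      · refine prod_congr rfl fun i _ => ?_
        rw [emb_apply, nm_eq]
    · rw [pf_nonprime ℓ hℓ, Real.log_one]
      exact sum_nonneg fun i _ => Real.log_nonneg (le_max_left _ _)
  -- the finite set of primes
  choose T₁ hT₁ using fun i => decomp M (y i)
  have hpf : ∀ K : Fin p ↪o Fin n, ∃ T₀ : Finset ℕ, K ∈ G → ∀ T' : Finset ℕ, T₀ ⊆ T' →
      ∑ σ : M ≃ₐ[ℚ] M, Real.log (nmC ((σ (minor p T S K) : M) : Qb)) +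
        ∑ ℓ ∈ T', ∑ σ : M ≃ₐ[ℚ] M, Real.log (nm ℓ ((σ (minor p T S K) : M) : Qb)) = 0 := by
    intro K
    by_cases hK : K ∈ G
    · obtain ⟨T₀, h0⟩ := product_formula M _ (hGm K hK)
      exact ⟨T₀, fun _ => h0⟩
    · exact ⟨∅, fun h => absurd h hK⟩
  choose T₂ hT₂ using hpf
  set P : Finset ℕ := (univ.biUnion T₁) ∪ (G.biUnion T₂) with hP
  have e1 : ∀ i, (Module.finrank ℚ M : ℝ) * h =
        ∑ σ : M ≃ₐ[ℚ] M, Real.log (max 1 (nmC ((σ (y i) : M) : Qb))) +
        ∑ ℓ ∈ P, ∑ σ : M ≃ₐ[ℚ] M, Real.log (max 1 (nm ℓ ((σ (y i) : M) : Qb))) := by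
    intro i
    rw [← hy i]
    exact hT₁ i P ((subset_biUnion_of_mem T₁ (mem_univ i)).trans subset_union_left)
  have e2 : ∀ K ∈ G, ∑ σ : M ≃ₐ[ℚ] M, Real.log (nmC ((σ (minor p T S K) : M) : Qb)) +
        ∑ ℓ ∈ P, ∑ σ : M ≃ₐ[ℚ] M, Real.log (nm ℓ ((σ (minor p T S K) : M) : Qb)) = 0 := by
    intro K hK
    exact hT₂ K hK P ((subset_biUnion_of_mem T₂ hK).trans subset_union_right)
  have hgal : IsGalois ℚ M := ⟨⟩
  have hD : (Fintype.card (M ≃ₐ[ℚ] M) : ℝ) = (Module.finrank ℚ M : ℝ) := by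
    rw [← Nat.card_eq_fintype_card, IsGalois.card_aut_eq_finrank]
  have hDpos : (0 : ℝ) < (Module.finrank ℚ M : ℝ) := by exact_mod_cast Module.finrank_pos
  have e3 := sum_eq_zero e2
  rw [sum_add_distrib, sum_comm, sum_comm (s := G) (t := P)] at e3
  have e4 : ∑ σ : M ≃ₐ[ℚ] M, ∑ K ∈ G, Real.log (nmC ((σ (minor p T S K) : M) : Qb)) ≤
      ∑ σ : M ≃ₐ[ℚ] M, (G.card : ℝ) *
        ((∑ i, Real.log (max 1 (nmC ((σ (y i) : M) : Qb)))) - Real.log G.card / 2) :=
    sum_le_sum fun σ _ => hC σ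
  have e5 : ∑ ℓ ∈ P, ∑ K ∈ G, ∑ σ : M ≃ₐ[ℚ] M,
        Real.log (nm ℓ ((σ (minor p T S K) : M) : Qb)) ≤
      ∑ ℓ ∈ P, (G.card : ℝ) * ∑ i, ∑ σ : M ≃ₐ[ℚ] M,
        Real.log (max 1 (nm ℓ ((σ (y i) : M) : Qb))) := by
    refine sum_le_sum fun ℓ _ => ?_
    rw [← nsmul_eq_mul, ← sum_const]
    refine sum_le_sum fun K hK => ?_
    rw [sum_comm (s := (univ : Finset (Fin n)))]
    exact sum_le_sum fun σ _ => hL ℓ σ K hK
  have e6 : ∑ σ : M ≃ₐ[ℚ] M, (G.card : ℝ) *
        ((∑ i, Real.log (max 1 (nmC ((σ (y i) : M) : Qb)))) - Real.log G.card / 2) =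
      (G.card : ℝ) * (∑ i, ∑ σ : M ≃ₐ[ℚ] M, Real.log (max 1 (nmC ((σ (y i) : M) : Qb)))) -
        (G.card : ℝ) * ((Module.finrank ℚ M : ℝ) * (Real.log G.card / 2)) := by
    rw [← mul_sum, sum_sub_distrib, sum_const, card_univ, nsmul_eq_mul, hD, mul_sub, sum_comm]
  have e7 : (G.card : ℝ) * (∑ i, ∑ σ : M ≃ₐ[ℚ] M, Real.log (max 1 (nmC ((σ (y i) : M) : Qb)))) +
      ∑ ℓ ∈ P, (G.card : ℝ) * ∑ i, ∑ σ : M ≃ₐ[ℚ] M,
        Real.log (max 1 (nm ℓ ((σ (y i) : M) : Qb))) =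
      (G.card : ℝ) * ((n : ℝ) * ((Module.finrank ℚ M : ℝ) * h)) := by
    rw [← mul_sum, ← mul_add, sum_comm (s := P), ← sum_add_distrib,
      sum_congr rfl fun i _ => (e1 i).symm, sum_const, card_univ, Fintype.card_fin, nsmul_eq_mul]
  have e8 : 0 ≤ (G.card : ℝ) * ((Module.finrank ℚ M : ℝ) * (n * h - Real.log G.card / 2)) := by
    have : (G.card : ℝ) * ((Module.finrank ℚ M : ℝ) * (n * h - Real.log G.card / 2)) =
        (G.card : ℝ) * ((n : ℝ) * ((Module.finrank ℚ M : ℝ) * h)) -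
        (G.card : ℝ) * ((Module.finrank ℚ M : ℝ) * (Real.log G.card / 2)) := by ring
    rw [this, ← e7]
    linarith
  have e9 : 0 ≤ n * h - Real.log G.card / 2 := by
    have h1 := nonneg_of_mul_nonneg_right e8 hcard
    exact nonneg_of_mul_nonneg_right h1 hDpos
  rw [← Real.log_le_iff_le_exp hcard]
  linarith

end MP4270U
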