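import Pool.Agent.Lib_MP_4270a5_u.Arch

/-!
# MP_4270a5_nt, piece CMA: estimates at one place

PAPER PROOF. `cm_arch`: `U = F / √n`: `Uᴴ U = 1` (the entries of `F` are roots of unity, `conj z = z⁻¹`, so `Fst F = Fᴴ`),
`T = Uᴴ diag(y) U`. `arch_bound`: `∑_K |δ_K|² ≤ A²`, `δ_K = minor p T S K`, `A = ∏ max 1 |y_i|`. For `t > 0`, `a > 0`:
`log t ≤ t / a - 1 + log a`; with `t = |δ_K|²`, `a = A² / c`, `c = |G|`, the sum over `K ∈ G` is
`∑ log |δ_K|² ≤ c - c + c log (A²/c)`.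
`cm_fin`: if all `‖T i j‖ ≤ 1`, `int_bound` (the right side is `≥ 1`); otherwise `‖n‖ = 1`, `T = (n⁻¹ • Fst F) * diag(y) * F`, all entries of
norm `1`, `fin_bound`.
-/

open Finset

namespace MP4270U

open Pool.Agent.Sub

/-- `F*`, the matrix of the inverses -/
noncomputable def Fst {E : Type*} [Field E] {n : ℕ} (F : Matrix (Fin n) (Fin n) E) :
    Matrix (Fin n) (Fin n) E := Matrix.of fun i j => (F j i)⁻¹

/-- roots of unity have norm one -/
private theorem cmA_norm {E : Type*} [NormedField E] {N : ℕ} (hN : 0 < N) {x : E}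
    (hx : x ^ N = 1) : ‖x‖ = 1 := by
  have h1 : ‖x‖ ^ N = 1 := by rw [← norm_pow, hx, norm_one]
  exact (pow_eq_one_iff_of_nonneg (norm_nonneg x) hN.ne').1 h1

/-- archimedean estimate at one place -/
theorem cm_arch (n N : ℕ) (hn : 0 < n) (hN : 0 < N) (F T : Matrix (Fin n) (Fin n) ℂ) (y : Fin n → ℂ)
    (hF : ∀ i j, F i j ^ N = 1) (hFF : Fst F * F = (n : ℂ) • (1 : Matrix (Fin n) (Fin n) ℂ))
    (hT : (n : ℂ) • T = Fst F * Matrix.diagonal y * F) (p : ℕ) (S : Fin p ↪o Fin n)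
    (G : Finset (Fin p ↪o Fin n)) (hG : ∀ K ∈ G, minor p T S K ≠ 0) (hG0 : G.Nonempty) :
    ∑ K ∈ G, Real.log ‖minor p T S K‖ ≤
      (G.card : ℝ) * ((∑ i, Real.log (max 1 ‖y i‖)) - Real.log G.card / 2) := by
  have hnC : (n : ℂ) ≠ 0 := by exact_mod_cast hn.ne'
  have hs0 : (0 : ℝ) < Real.sqrt n := Real.sqrt_pos.2 (by exact_mod_cast hn)
  obtain ⟨s, hs⟩ : ∃ s : ℂ, s = (((Real.sqrt n)⁻¹ : ℝ) : ℂ) := ⟨_, rfl⟩
  have hss : s * s = (n : ℂ)⁻¹ := by
    have h1 : (Real.sqrt n)⁻¹ * (Real.sqrt n)⁻¹ = ((n : ℝ))⁻¹ := by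
      rw [← mul_inv, Real.mul_self_sqrt (Nat.cast_nonneg n)]
    rw [hs, ← Complex.ofReal_mul, h1]
    push_cast
    rfl
  have hstar : star s = s := by
    rw [hs]
    exact Complex.conj_ofReal _
  have hFst : F.conjTranspose = Fst F := by
    ext i j
    show star (F j i) = (F j i)⁻¹
    have h1 : ‖F j i‖ = 1 := cmA_norm hN (hF j i)
    exact (Complex.inv_eq_conj h1).symm
  set U : Matrix (Fin n) (Fin n) ℂ := s • F with hU
  have hUc : U.conjTranspose = s • Fst F := by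
    rw [hU, Matrix.conjTranspose_smul, hstar, hFst]
  have hUU : U.conjTranspose * U = 1 := by
    rw [hUc, hU, Matrix.smul_mul, Matrix.mul_smul, smul_smul, hFF, smul_smul, hss,
      inv_mul_cancel₀ hnC, one_smul]
  have hTU : T = U.conjTranspose * Matrix.diagonal y * U := by
    rw [hUc, hU, Matrix.smul_mul, Matrix.smul_mul, Matrix.mul_smul, smul_smul, hss, ← hT,
      smul_smul, inv_mul_cancel₀ hnC, one_smul]
  have hb := arch_bound n U hUU y p S
  rw [← hTU] at hb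
  set A : ℝ := ∏ i, max 1 ‖y i‖ with hA
  have hA0 : 0 < A := Finset.prod_pos fun i _ => lt_of_lt_of_le one_pos (le_max_left _ _)
  have hA2 : ∏ i, (max 1 ‖y i‖) ^ 2 = A ^ 2 := by rw [hA, Finset.prod_pow]
  have hlogA : Real.log A = ∑ i, Real.log (max 1 ‖y i‖) := by
    rw [hA, Real.log_prod]
    intro i _
    exact (lt_of_lt_of_le one_pos (le_max_left _ _)).ne'
  have hc0 : (0 : ℝ) < (G.card : ℝ) := by exact_mod_cast hG0.card_pos
  set c : ℝ := (G.card : ℝ) with hc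
  have hGb : ∑ K ∈ G, ‖minor p T S K‖ ^ 2 ≤ A ^ 2 := by
    refine le_trans ?_ (hb.trans_eq hA2)
    exact Finset.sum_le_univ_sum_of_nonneg fun K => by positivity
  have ha0 : 0 < A ^ 2 / c := by positivity
  have hone : ∀ K ∈ G, 2 * Real.log ‖minor p T S K‖ ≤
      ‖minor p T S K‖ ^ 2 / (A ^ 2 / c) - 1 + Real.log (A ^ 2 / c) := by
    intro K hK
    have ht : 0 < ‖minor p T S K‖ := norm_pos_iff.2 (hG K hK)
    have h1 := Real.log_le_sub_one_of_pos
      (show 0 < ‖minor p T S K‖ ^ 2 / (A ^ 2 / c) by positivity)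
    rw [Real.log_div (by positivity) ha0.ne', Real.log_pow] at h1
    push_cast at h1
    linarith
  have hsum : 2 * ∑ K ∈ G, Real.log ‖minor p T S K‖ ≤ c * Real.log (A ^ 2 / c) := by
    rw [Finset.mul_sum]
    refine (Finset.sum_le_sum hone).trans ?_
    rw [Finset.sum_add_distrib, Finset.sum_sub_distrib, ← Finset.sum_div, Finset.sum_const,
      Finset.sum_const, nsmul_eq_mul, nsmul_eq_mul, ← hc, mul_one]
    have h2 : (∑ K ∈ G, ‖minor p T S K‖ ^ 2) / (A ^ 2 / c) ≤ c := by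
      rw [div_le_iff₀ ha0]
      have h3 : c * (A ^ 2 / c) = A ^ 2 := by field_simp
      rw [h3]
      exact hGb
    linarith
  rw [Real.log_div (by positivity) hc0.ne', Real.log_pow, hlogA] at hsum
  push_cast at hsum
  have h4 : c * (2 * ∑ i, Real.log (max 1 ‖y i‖) - Real.log c) =
      2 * (c * ((∑ i, Real.log (max 1 ‖y i‖)) - Real.log c / 2)) := by ring
  linarith

/-- nonarchimedean estimate at one place -/
theorem cm_fin {E : Type*} [NormedField E] [IsUltrametricDist E] (n N : ℕ) (hN : 0 < N)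
    (F T : Matrix (Fin n) (Fin n) E) (y : Fin n → E)
    (hF : ∀ i j, F i j ^ N = 1) (hT : (n : E) • T = Fst F * Matrix.diagonal y * F)
    (h1 : ‖(n : E)‖ = 1 ∨ ∀ i j, ‖T i j‖ ≤ 1) (p : ℕ) (S K : Fin p ↪o Fin n) :
    ‖minor p T S K‖ ≤ ∏ i, max 1 ‖y i‖ := by
  rcases h1 with h1 | h1
  · have hn0 : (n : E) ≠ 0 := by
      intro h
      rw [h, norm_zero] at h1
      exact zero_ne_one h1
    have hT' : T = ((n : E)⁻¹ • Fst F) * Matrix.diagonal y * F := by
      rw [Matrix.smul_mul, Matrix.smul_mul, ← hT, smul_smul, inv_mul_cancel₀ hn0, one_smul]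
    rw [hT']
    refine fin_bound n _ F ?_ (fun i j => (cmA_norm hN (hF i j)).le) y p S K
    intro i j
    show ‖(n : E)⁻¹ * (F j i)⁻¹‖ ≤ 1
    rw [norm_mul, norm_inv, norm_inv, h1, cmA_norm hN (hF j i)]
    norm_num
  · refine (int_bound n T h1 p S K).trans ?_
    exact Finset.prod_induction (fun i => max 1 ‖y i‖) (fun x => 1 ≤ x)
      (fun a b ha hb => one_le_mul_of_one_le_of_one_le ha hb) le_rfl
      fun i _ => le_max_left _ _

end MP4270U
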