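import Pool.Agent.Lib_MP_4270a5_u.GrpP
import Pool.Agent.Lib_MP_4270a5_u.Arch

/-!
# MP_4270a5_nt, piece PLACEP: minors at the places above `p`, few nonintegral characters

PAPER PROOF. `μ = max ‖t_i‖ = ‖t_{i₀}‖`, `k = |ι|`, `n = |G|`, `ϖ = ‖1 - ζ‖ < 1`. If `ι` is empty or `μ ≤ 1` all entries of `T` have norm `≤ 1`, so
the minor has norm `≤ 1` (`int_bound`), and the right side is `≥ 1`. Otherwise the entries have norm `≤ μ`, so a minor of size `q ≤ n` has norm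
`≤ μ^q ≤ μ^n` (ultrametric; e.g. scale `T` by `(t i₀)⁻¹` and use `int_bound`). If `ϖ^(k-1) μ ≤ 1`, then `μ^n ≤ ϖ^(-(k-1)n)`.
Otherwise let `B` be the set of `grpp`, `|B| ≤ (k-1) n / p ≤ n / 2`; for `τ ∉ B`, `‖∑ t_i χ_i(τ)‖ ≥ ϖ^(k-1) μ > 1 ≥ ‖z τ‖`, so `‖y τ‖ ≥ ϖ^(k-1) μ` and
`∏ (max 1 ‖y τ‖)^2 ≥ (ϖ^(k-1) μ)^(2 (n - |B|)) ≥ (ϖ^(k-1) μ)^n`.
-/

namespace MP4270U

open Finset Pool.Agent.Sub

private theorem placep_minor {E : Type*} [NormedField E] [IsUltrametricDist E] (n : ℕ)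
    (T : Matrix (Fin n) (Fin n) E) (s : E) (hs : s ≠ 0) (hT : ∀ i j, ‖T i j‖ ≤ ‖s‖) (q : ℕ)
    (S K : Fin q ↪o Fin n) : ‖minor q T S K‖ ≤ ‖s‖ ^ q := by
  have hs0 : 0 < ‖s‖ := norm_pos_iff.2 hs
  have h1 : ‖minor q (s⁻¹ • T) S K‖ ≤ 1 := by
    refine int_bound n _ (fun i j => ?_) q S K
    rw [Matrix.smul_apply, smul_eq_mul, norm_mul, norm_inv]
    rw [inv_mul_le_iff₀ hs0, mul_one]
    exact hT i j
  have h2 : minor q T S K = s ^ q * minor q (s⁻¹ • T) S K := by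
    unfold minor
    have h3 : T.submatrix S K = s • (s⁻¹ • T).submatrix S K := by
      ext i j
      rw [Matrix.smul_apply, Matrix.submatrix_apply, Matrix.submatrix_apply, Matrix.smul_apply,
        smul_eq_mul, smul_eq_mul, mul_inv_cancel_left₀ hs]
    rw [h3, Matrix.det_smul, Fintype.card_fin]
  rw [h2, norm_mul, norm_pow]
  exact mul_le_of_le_one_right (pow_nonneg hs0.le _) h1

theorem place_p {E : Type*} [NormedField E] [IsUltrametricDist E] {p : ℕ} [Fact p.Prime]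
    (hp : ‖(p : E)‖ < 1) {ζ : E} (hζ : IsPrimitiveRoot ζ p) {G : Type*} [CommGroup G] [Fintype G]
    (a : ℕ) (hG : ∀ τ : G, τ ^ p ^ a = 1) {ι : Type*} [Fintype ι] (χ : ι → (G →* Eˣ))
    (hχ : Function.Injective χ) (hk : 2 * (Fintype.card ι - 1) ≤ p) (t : ι → E) (z y : G → E)
    (hz : ∀ τ, ‖z τ‖ ≤ 1)
    (hy : ∀ τ, y τ = ∑ i, t i * ((χ i τ : Eˣ) : E) + z τ) (n : ℕ) (hn : Fintype.card G = n)
    (T : Matrix (Fin n) (Fin n) E) (hT : ∀ i j, ‖T i j‖ ≤ 1 ∨ ∃ l, T i j = t l) (q : ℕ)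
    (S K : Fin q ↪o Fin n) :
    ‖minor q T S K‖ ≤ (‖1 - ζ‖⁻¹) ^ ((Fintype.card ι - 1) * n) * ∏ τ, (max 1 ‖y τ‖) ^ 2 := by
  classical
  have hpp : p.Prime := Fact.out
  have hζ1 : ζ ≠ 1 := by
    intro h
    rw [h, IsPrimitiveRoot.one_left_iff] at hζ
    exact hpp.one_lt.ne' hζ
  have hϖ0 : 0 < ‖1 - ζ‖ := norm_pos_iff.2 (sub_ne_zero.2 (Ne.symm hζ1))
  have hζn : ‖ζ‖ = 1 := by
    have h1 : ‖ζ‖ ^ p = 1 := by rw [← norm_pow, hζ.pow_eq_one, norm_one]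
    exact (pow_eq_one_iff_of_nonneg (norm_nonneg _) hpp.ne_zero).1 h1
  have hϖ1 : ‖1 - ζ‖ ≤ 1 := by
    rw [sub_eq_add_neg]
    refine le_trans (IsUltrametricDist.norm_add_le_max 1 (-ζ)) ?_
    rw [norm_one, norm_neg, hζn, max_self]
  have hinv : 1 ≤ ‖1 - ζ‖⁻¹ := (one_le_inv₀ hϖ0).2 hϖ1
  have hprod1 : (1 : ℝ) ≤ ∏ τ, (max 1 ‖y τ‖) ^ 2 :=
    Finset.prod_induction _ (fun x => (1 : ℝ) ≤ x)
      (fun a b ha hb => one_le_mul_of_one_le_of_one_le ha hb) le_rfl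
      (fun i _ => one_le_pow₀ (le_max_left _ _))
  have hpow1 : (1 : ℝ) ≤ (‖1 - ζ‖⁻¹) ^ ((Fintype.card ι - 1) * n) := one_le_pow₀ hinv
  have hR1 : (1 : ℝ) ≤ (‖1 - ζ‖⁻¹) ^ ((Fintype.card ι - 1) * n) * ∏ τ, (max 1 ‖y τ‖) ^ 2 :=
    one_le_mul_of_one_le_of_one_le hpow1 hprod1
  by_cases hall : ∀ i, ‖t i‖ ≤ 1
  · refine le_trans (int_bound n T (fun i j => ?_) q S K) hR1
    rcases hT i j with h | ⟨l, h⟩
    · exact h
    · rw [h]
      exact hall l
  · push Not at hall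
    obtain ⟨i1, hi1⟩ := hall
    obtain ⟨i0, -, hi0⟩ := Finset.exists_max_image (univ : Finset ι) (fun i => ‖t i‖)
      ⟨i1, Finset.mem_univ _⟩
    have hmax : ∀ i, ‖t i‖ ≤ ‖t i0‖ := fun i => hi0 i (Finset.mem_univ _)
    have hμ1 : 1 < ‖t i0‖ := lt_of_lt_of_le hi1 (hmax i1)
    have hμ0 : t i0 ≠ 0 := by
      intro h
      rw [h, norm_zero] at hμ1
      exact absurd hμ1 (by norm_num)
    have hqn : q ≤ n := by
      have := Fintype.card_le_of_injective S S.injective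
      simpa using this
    have hmin : ‖minor q T S K‖ ≤ ‖t i0‖ ^ n := by
      refine le_trans (placep_minor n T (t i0) hμ0 (fun i j => ?_) q S K)
        (pow_le_pow_right₀ hμ1.le hqn)
      rcases hT i j with h | ⟨l, h⟩
      · exact le_trans h hμ1.le
      · rw [h]
        exact hmax l
    refine le_trans hmin ?_
    set k1 := Fintype.card ι - 1 with hk1
    have hsplit : ‖t i0‖ ^ n = (‖1 - ζ‖⁻¹) ^ (k1 * n) * (‖1 - ζ‖ ^ k1 * ‖t i0‖) ^ n := by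
      rw [pow_mul, ← mul_pow, ← mul_assoc, ← mul_pow, inv_mul_cancel₀ hϖ0.ne', one_pow, one_mul]
    rw [hsplit]
    refine mul_le_mul_of_nonneg_left ?_ (le_trans zero_le_one hpow1)
    by_cases hle : ‖1 - ζ‖ ^ k1 * ‖t i0‖ ≤ 1
    · exact le_trans (pow_le_one₀ (by positivity) hle) hprod1
    · push Not at hle
      have hg := grpp hp hζ a hG χ hχ t i0
      rw [← hk1] at hg
      set B := univ.filter (fun τ : G => ‖∑ i, t i * ((χ i τ : Eˣ) : E)‖ <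
        ‖1 - ζ‖ ^ k1 * ‖t i0‖) with hB
      have hB2 : 2 * B.card ≤ n := by
        have h1 : p * B.card ≤ k1 * n := by
          rw [← hn]
          convert hg using 4
        have h2 : p * (2 * B.card) ≤ p * n := by
          calc p * (2 * B.card) = 2 * (p * B.card) := by ring
            _ ≤ 2 * (k1 * n) := Nat.mul_le_mul_left _ h1
            _ = 2 * k1 * n := by ring
            _ ≤ p * n := Nat.mul_le_mul_right _ hk
        exact Nat.le_of_mul_le_mul_left h2 hpp.pos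
      have hcomp : n ≤ 2 * Bᶜ.card := by
        rw [Finset.card_compl, hn]
        omega
      calc (‖1 - ζ‖ ^ k1 * ‖t i0‖) ^ n ≤ (‖1 - ζ‖ ^ k1 * ‖t i0‖) ^ (2 * Bᶜ.card) :=
            pow_le_pow_right₀ hle.le hcomp
        _ = ∏ _τ ∈ Bᶜ, (‖1 - ζ‖ ^ k1 * ‖t i0‖) ^ 2 := by
            rw [Finset.prod_const, ← pow_mul]
        _ ≤ ∏ τ ∈ Bᶜ, (max 1 ‖y τ‖) ^ 2 := by
            refine Finset.prod_le_prod (fun τ _ => by positivity) fun τ hτ => ?_
            refine pow_le_pow_left₀ (by positivity) ?_ 2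
            refine le_trans ?_ (le_max_right _ _)
            have h1 : ‖1 - ζ‖ ^ k1 * ‖t i0‖ ≤ ‖∑ i, t i * ((χ i τ : Eˣ) : E)‖ := by
              by_contra hcon
              push Not at hcon
              exact (Finset.mem_compl.1 hτ) (Finset.mem_filter.2 ⟨Finset.mem_univ _, hcon⟩)
            have h2 : ‖∑ i, t i * ((χ i τ : Eˣ) : E)‖ ≤ max ‖y τ‖ ‖z τ‖ := by
              have h3 : ∑ i, t i * ((χ i τ : Eˣ) : E) = y τ + -z τ := by
                rw [hy τ, add_neg_cancel_right]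
              rw [h3, ← norm_neg (z τ)]
              exact IsUltrametricDist.norm_add_le_max _ _
            rcases le_max_iff.1 h2 with h3 | h3
            · exact le_trans h1 h3
            · exact absurd (lt_of_lt_of_le hle (le_trans h1 (le_trans h3 (hz τ)))) (lt_irrefl _)
        _ ≤ (∏ τ ∈ B, (max 1 ‖y τ‖) ^ 2) * ∏ τ ∈ Bᶜ, (max 1 ‖y τ‖) ^ 2 := by
            refine le_mul_of_one_le_left (Finset.prod_nonneg fun _ _ => by positivity) ?_
            exact Finset.prod_induction _ (fun x => (1 : ℝ) ≤ x)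
              (fun a b ha hb => one_le_mul_of_one_le_of_one_le ha hb) le_rfl
              (fun i _ => one_le_pow₀ (le_max_left _ _))
        _ = ∏ τ, (max 1 ‖y τ‖) ^ 2 := Finset.prod_mul_prod_compl B _

end MP4270U
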