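import Pool.Agent.Lib_MP_4270a5_u.Rk

/-!
# MP_4270a5_nt, piece CNT: many nonvanishing minors if the complementary rank is large

PAPER PROOF. `v b = (T a b)_{a ∈ A}` (columns restricted to the rows `A`), a vector of `A → K`. `v` is linearly independent
on `B` and `|B| = |A|`, so `v '' B` spans `A → K`. Let `r = finrank (span (v '' Bᶜ))`, `R ⊆ Bᶜ`, `|R| = r`, `v` linearly independent
on `R` (`LinearIndepOn.extend`, `exists_linearIndependent…`). For every `W ⊆ R` the set `W` extends inside `W ∪ B` to a set `E_W` on
which `v` is linearly independent and whose span is everything (`LinearIndepOn.extend`, `span_image_extend_eq_span_image`), so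
`|E_W| = |A|`; and `E_W ∩ R = W`. So `W ↦ E_W` is injective and `2^r ≤ cnt T A < 2^(d+1)`, `r ≤ d`. The masked matrix has its columns
in the image of `span (v '' Bᶜ)` under extension by zero (`Matrix.rank_eq_finrank_span_cols`), so its rank is `≤ r`.
-/

namespace MP4270U

open Finset

variable {K : Type*} [Field K] {X : Type*} [Fintype X] [DecidableEq X]

omit [Fintype X] [DecidableEq X] in
private lemma cnt_finrank {V : Type*} [AddCommGroup V] [Module K V] (v : X → V) (S : Finset X)
    (h : LinearIndepOn K v (S : Set X)) :
    Module.finrank K (Submodule.span K (v '' (S : Set X))) = S.card := by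
  have h1 := finrank_span_eq_card (b := fun x : (S : Set X) => v x) h
  rw [Set.image_eq_range]
  rw [h1]
  simp

omit [DecidableEq X] in
/-- Inside a set `t` there is a finite set on which `v` is linearly independent, containing a given independent
set, with the same span. -/
private lemma cnt_extend {V : Type*} [AddCommGroup V] [Module K V] (v : X → V) (S t : Finset X)
    (h : LinearIndepOn K v (S : Set X)) (hst : S ⊆ t) :
    ∃ E : Finset X, S ⊆ E ∧ E ⊆ t ∧ LinearIndepOn K v (E : Set X) ∧
      Submodule.span K (v '' (E : Set X)) = Submodule.span K (v '' (t : Set X)) := by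
  classical
  have hst' : (S : Set X) ⊆ (t : Set X) := by exact_mod_cast hst
  refine ⟨(h.extend hst').toFinset, ?_, ?_, ?_, ?_⟩
  · intro x hx
    rw [Set.mem_toFinset]
    exact h.subset_extend hst' hx
  · intro x hx
    rw [Set.mem_toFinset] at hx
    exact_mod_cast h.extend_subset hst' hx
  · rw [Set.coe_toFinset]
    exact h.linearIndepOn_extend hst'
  · rw [Set.coe_toFinset]
    exact h.span_image_extend_eq_span_image hst'

theorem rank_le_of_cnt (T : Matrix X X K) (A B : Finset X) (hB : B.card = A.card)
    (hind : LinearIndepOn K (fun (b : X) (a : A) => T a b) (B : Set X)) (d : ℕ)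
    (hd : cnt T A < 2 ^ (d + 1)) :
    (Matrix.of fun a b => if a ∈ A ∧ b ∉ B then T a b else 0 : Matrix X X K).rank ≤ d := by
  classical
  set v : X → (A → K) := fun (b : X) (a : A) => T a b with hv
  have htop : Submodule.span K (v '' (B : Set X)) = ⊤ := by
    apply Submodule.eq_top_of_finrank_eq
    rw [cnt_finrank v B hind, hB, Module.finrank_fintype_fun_eq_card, Fintype.card_coe]
  obtain ⟨R, -, hRc, hRind, hRspan⟩ := cnt_extend (K := K) v ∅ Bᶜ (by simp) (by simp)
  have hRcard := cnt_finrank v R hRind
  -- the sets `E_W`
  have hE : ∀ W ∈ R.powerset, ∃ E : Finset X, W ⊆ E ∧ E ⊆ W ∪ B ∧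
      LinearIndepOn K v (E : Set X) ∧ E.card = A.card := by
    intro W hW
    rw [mem_powerset] at hW
    have hWind : LinearIndepOn K v (W : Set X) := hRind.mono (by exact_mod_cast hW)
    obtain ⟨E, h1, h2, h3, h4⟩ := cnt_extend v W (W ∪ B) hWind subset_union_left
    refine ⟨E, h1, h2, h3, ?_⟩
    have h5 : Submodule.span K (v '' (E : Set X)) = ⊤ := by
      rw [h4, eq_top_iff, ← htop]
      apply Submodule.span_mono
      apply Set.image_mono
      simp
    rw [← cnt_finrank v E h3, h5, finrank_top, Module.finrank_fintype_fun_eq_card,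
      Fintype.card_coe]
  choose! E hE1 hE2 hE3 hE4 using hE
  have hcount : 2 ^ R.card ≤ cnt T A := by
    unfold cnt
    rw [← card_powerset]
    apply Finset.card_le_card_of_injOn E
    · intro W hW
      simp only [coe_filter, Set.mem_ofPred_eq, mem_univ, true_and]
      exact ⟨hE4 W hW, hE3 W hW⟩
    · intro W hW W' hW' hEE
      have key : ∀ U ∈ R.powerset, E U ∩ R = U := by
        intro U hU
        ext x
        constructor
        · intro hx
          rw [mem_inter] at hx
          have h1 := hE2 U hU hx.1
          rw [mem_union] at h1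
          rcases h1 with h1 | h1
          · exact h1
          · have h2 := hRc hx.2
            rw [mem_compl] at h2
            exact absurd h1 h2
        · intro hx
          rw [mem_inter]
          exact ⟨hE1 U hU hx, (mem_powerset.1 hU) hx⟩
      rw [← key W hW, ← key W' hW', hEE]
  have hrd : R.card ≤ d := by
    have h1 : 2 ^ R.card < 2 ^ (d + 1) := lt_of_le_of_lt hcount hd
    have h2 := (Nat.pow_lt_pow_iff_right (by norm_num : 1 < 2)).1 h1
    omega
  refine le_trans ?_ hrd
  -- the rank of the masked matrix
  rw [Matrix.rank_eq_finrank_span_cols]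
  let ext0 : (A → K) →ₗ[K] (X → K) :=
    { toFun := fun c x => if h : x ∈ A then c ⟨x, h⟩ else 0
      map_add' := by
        intro c c'
        ext x
        by_cases h : x ∈ A <;> simp [h]
      map_smul' := by
        intro c c'
        ext x
        by_cases h : x ∈ A <;> simp [h] }
  have hsub : Submodule.span K (Set.range
      (Matrix.of fun a b => if a ∈ A ∧ b ∉ B then T a b else 0 : Matrix X X K).col) ≤
      (Submodule.span K (v '' ((Bᶜ : Finset X) : Set X))).map ext0 := by
    rw [Submodule.span_le]
    rintro _ ⟨b, rfl⟩
    by_cases hb : b ∈ B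
    · have : (Matrix.of fun a b => if a ∈ A ∧ b ∉ B then T a b else 0 : Matrix X X K).col b = 0 := by
        ext a
        simp [Matrix.col, hb]
      rw [this]
      exact Submodule.zero_mem _
    · refine ⟨v b, Submodule.subset_span ⟨b, by simpa using hb, rfl⟩, ?_⟩
      ext a
      by_cases ha : a ∈ A
      · simp [ext0, Matrix.col, ha, hb, hv]
      · simp [ext0, Matrix.col, ha]
  calc _ ≤ Module.finrank K ((Submodule.span K (v '' ((Bᶜ : Finset X) : Set X))).map ext0) :=
        Submodule.finrank_mono hsub
    _ ≤ Module.finrank K (Submodule.span K (v '' ((Bᶜ : Finset X) : Set X))) :=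
        Submodule.finrank_map_le _ _
    _ = R.card := by rw [← hRspan, hRcard]

/-- If `T` is invertible, every set of rows has a nonvanishing minor. -/
theorem exists_basis (T : Matrix X X K) (hdet : T.det ≠ 0) (A : Finset X) :
    ∃ B : Finset X, B.card = A.card ∧
      LinearIndepOn K (fun (b : X) (a : A) => T a b) (B : Set X) := by
  classical
  set v : X → (A → K) := fun (b : X) (a : A) => T a b with hv
  obtain ⟨E, -, -, h3, h4⟩ := cnt_extend (K := K) v ∅ univ (by simp) (by simp)
  refine ⟨E, ?_, h3⟩
  have h5 : Submodule.span K (v '' (E : Set X)) = ⊤ := by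
    rw [h4, coe_univ, Set.image_univ, eq_top_iff]
    intro y _
    rw [Submodule.mem_span_range_iff_exists_fun]
    let y' : X → K := fun x => if h : x ∈ A then y ⟨x, h⟩ else 0
    have hu : IsUnit T.det := isUnit_iff_ne_zero.2 hdet
    refine ⟨T⁻¹.mulVec y', ?_⟩
    have h6 : T.mulVec (T⁻¹.mulVec y') = y' := by
      rw [Matrix.mulVec_mulVec, Matrix.mul_nonsing_inv T hu, Matrix.one_mulVec]
    ext a
    have h7 := congrFun h6 a
    have h8 : y' a = y a := by simp [y']
    rw [h8] at h7
    rw [← h7]
    simp only [Finset.sum_apply, Pi.smul_apply, smul_eq_mul, hv]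
    rw [Matrix.mulVec, dotProduct]
    apply Finset.sum_congr rfl
    intro b _
    ring
  rw [← cnt_finrank v E h3, h5, finrank_top, Module.finrank_fintype_fun_eq_card,
    Fintype.card_coe]

end MP4270U
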