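import Pool.Agent.Lib_MP_4270a5_u.CombD

/-!
# MP_4270a5_nt, piece COMB: almost homomorphisms `(ZMod 2)^X → (ZMod 2)^X` are translations

PAPER PROOF. `V = X → ZMod 2`, `N = |V|`, `n = |X|`, `P` = counting probability. For `x ∈ X` put
* `e1(x) = P_{u,v}(B(u+v) x ≠ B u x + B v x)`, `∑_x e1(x) ≤ R` (sum of `hammingDist` over all pairs);
* `e2(x) = P_{u,v}(B(u*v) x ≠ B u x * B v x)`, `∑_x e2(x) ≤ R`;
* `e3(x) = P_{u,v,r}(B(u*v+r) x ≠ B(u*v) x + B r x)`, `∑_x e3(x) ≤ R`;
* `e4(x) = (1/n) ∑_t P_u(B(τ_t u)(x t⁻¹) ≠ B u x)`, `τ_t u = fun y => u (y * t)`, `∑_x e4(x) ≤ R`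
  (because `(τ_t (B u))(x t⁻¹) = B u x` and `x ↦ x t⁻¹` is a bijection).
So there is `x` with `8 e1 + e2 + e3 + e4 ≤ 11 R / n < 1/4`. Fix it, `f u = B u x`; `comb_dec` gives `c` with `P(f ≠ c) ≤ 3 e1`,
`c = 0` or `c u = u x₀`.
(e) Case `c u = u x₀`: `s = x⁻¹ x₀`. For `y = x t⁻¹`, replacing `u` by `τ_t u`,
`P_u(B u y ≠ (τ_s u) y) = P_u(B(τ_t u)(x t⁻¹) ≠ u x₀) ≤ P_u(B(τ_t u)(x t⁻¹) ≠ B u x) + P_u(f u ≠ c u)`; sum over `t`:
`E_u hammingDist (B u) (τ_s u) ≤ n (e4 + 3 e1) ≤ 11 R`. Case `c = 0`: the same gives `E_u hammingDist (B u) 0 ≤ 11 R`, but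
`B(1+u) + B 1 + B u` has weight `≤ R` and `B 1 = 1`, so `|B(1+u)| + |B u| ≥ n - R`, hence `n - R ≤ 22 R`, contradiction.
(f) For every `u` there is `v` with `dist(B v, τ_s v) + dist(B(u+v), τ_s(u+v)) ≤ 22 R`, so `dist(B u, τ_s u) ≤ 23 R`
(`B u ~ B(u+v) + B v`, `hadd` for the pair `(u+v, v)`; characteristic 2).
-/

namespace MP4270U

open Finset

private theorem comb_fub {α β : Type*} [Fintype α] [Fintype β] (P : α → β → Prop) [∀ a b, Decidable (P a b)] :
    ∑ a, (univ.filter fun b => P a b).card = ∑ b, (univ.filter fun a => P a b).card := by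
  simp only [Finset.card_filter]
  exact Finset.sum_comm

private theorem comb_hd_add {X : Type*} [Fintype X] (a b a' b' : X → ZMod 2) :
    hammingDist (a + b) (a' + b') ≤ hammingDist a a' + hammingDist b b' := by
  refine (hammingDist_triangle (a + b) (a' + b) (a' + b')).trans (Nat.add_le_add ?_ ?_)
  · unfold hammingDist
    refine Finset.card_le_card fun i hi => ?_
    rw [Finset.mem_filter] at hi ⊢
    refine ⟨hi.1, fun h => hi.2 ?_⟩
    rw [Pi.add_apply, Pi.add_apply, h]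
  · unfold hammingDist
    refine Finset.card_le_card fun i hi => ?_
    rw [Finset.mem_filter] at hi ⊢
    refine ⟨hi.1, fun h => hi.2 ?_⟩
    rw [Pi.add_apply, Pi.add_apply, h]

private theorem comb_two {X : Type*} (u v : X → ZMod 2) : u + v + v = u := by
  funext i
  show u i + v i + v i = u i
  rw [add_assoc, CharTwo.add_self_eq_zero, add_zero]

/-- the translation of functions, as a bijection -/
private def combTr {X : Type*} [CommGroup X] (t : X) : (X → ZMod 2) ≃ (X → ZMod 2) where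
  toFun u := fun y => u (y * t)
  invFun u := fun y => u (y * t⁻¹)
  left_inv u := by
    funext y
    show u (y * t⁻¹ * t) = u y
    rw [inv_mul_cancel_right]
  right_inv u := by
    funext y
    show u (y * t * t⁻¹) = u y
    rw [mul_inv_cancel_right]

/-- the change of variables -/
private theorem comb_change {X : Type*} [Fintype X] [DecidableEq X] [CommGroup X]
    (B : (X → ZMod 2) → (X → ZMod 2)) (x : X) (g : (X → ZMod 2) → (X → ZMod 2)) (c : (X → ZMod 2) → ZMod 2)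
    (hg : ∀ t u, g (fun y => u (y * t)) (x * t⁻¹) = c u) :
    ∑ u, hammingDist (B u) (g u) =
      ∑ t : X, (univ.filter fun u : X → ZMod 2 => B (fun y => u (y * t)) (x * t⁻¹) ≠ c u).card := by
  have h1 : ∀ u, hammingDist (B u) (g u) = (univ.filter fun y => B u y ≠ g u y).card := fun u => rfl
  rw [Finset.sum_congr rfl fun u _ => h1 u, comb_fub (fun (u : X → ZMod 2) (y : X) => B u y ≠ g u y)]
  -- `y = x * t⁻¹`
  have h2 : ∑ y : X, (univ.filter fun u : X → ZMod 2 => B u y ≠ g u y).card =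
      ∑ t : X, (univ.filter fun u : X → ZMod 2 => B u (x * t⁻¹) ≠ g u (x * t⁻¹)).card :=
    (Equiv.sum_comp ((Equiv.inv X).trans (Equiv.mulLeft x)) (fun y : X => (univ.filter fun u : X → ZMod 2 => B u y ≠ g u y).card)).symm
  rw [h2]
  refine Finset.sum_congr rfl fun t _ => ?_
  refine (Finset.card_bij (fun u _ => combTr t u) ?_ ?_ ?_).symm
  · intro u hu
    rw [Finset.mem_filter] at hu ⊢
    refine ⟨Finset.mem_univ _, ?_⟩
    have h3 : g (combTr t u) (x * t⁻¹) = c u := hg t u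
    rw [h3]
    exact hu.2
  · intro u _ u' _ h
    exact (combTr t).injective h
  · intro u hu
    rw [Finset.mem_filter] at hu
    refine ⟨(combTr t).symm u, ?_, (combTr t).apply_symm_apply u⟩
    rw [Finset.mem_filter]
    refine ⟨Finset.mem_univ _, ?_⟩
    have h3 : g (combTr t ((combTr t).symm u)) (x * t⁻¹) = c ((combTr t).symm u) :=
      hg t ((combTr t).symm u)
    rw [(combTr t).apply_symm_apply] at h3
    have h4 : B (fun y => ((combTr t).symm u) (y * t)) (x * t⁻¹) = B (combTr t ((combTr t).symm u)) (x * t⁻¹) := rfl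
    rw [h4, (combTr t).apply_symm_apply, ← h3]
    exact hu.2

theorem comb {X : Type*} [Fintype X] [DecidableEq X] [CommGroup X]
    (B : (X → ZMod 2) → (X → ZMod 2)) (R : ℕ) (hR : 44 * R < Fintype.card X)
    (hadd : ∀ u v, hammingDist (B (u + v)) (B u + B v) ≤ R)
    (hmul : ∀ u v, hammingDist (B (u * v)) (B u * B v) ≤ R)
    (htr : ∀ (t : X) (u : X → ZMod 2),
      hammingDist (B (fun y => u (y * t))) (fun y => B u (y * t)) ≤ R)
    (hone : B 1 = 1) :
    ∃ s : X, ∀ u, hammingDist (B u) (fun y => u (y * s)) ≤ 23 * R := by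
  classical
  have hn : 0 < Fintype.card X := by omega
  have hne : (univ : Finset X).Nonempty := Finset.card_pos.1 hn
  obtain ⟨n, hndef⟩ : ∃ n : ℝ, n = (Fintype.card X : ℝ) := ⟨_, rfl⟩
  obtain ⟨N, hNdef⟩ : ∃ N : ℝ, N = (Fintype.card (X → ZMod 2) : ℝ) := ⟨_, rfl⟩
  have hn0 : 0 < n := by rw [hndef]; exact_mod_cast hn
  have hN0 : 0 < N := by rw [hNdef]; exact_mod_cast Fintype.card_pos
  -- the four counts
  obtain ⟨C1, hC1⟩ : ∃ C1 : X → ℕ, ∀ x, C1 x = (univ.filter fun q : (X → ZMod 2) × (X → ZMod 2) =>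
    B (q.1 + q.2) x ≠ B q.1 x + B q.2 x).card := ⟨_, fun _ => rfl⟩
  obtain ⟨C2, hC2⟩ : ∃ C2 : X → ℕ, ∀ x, C2 x = (univ.filter fun q : (X → ZMod 2) × (X → ZMod 2) =>
    B (q.1 * q.2) x ≠ B q.1 x * B q.2 x).card := ⟨_, fun _ => rfl⟩
  obtain ⟨C3, hC3⟩ : ∃ C3 : X → ℕ, ∀ x, C3 x = (univ.filter fun q : (X → ZMod 2) × (X → ZMod 2) × (X → ZMod 2) =>
    B (q.1 * q.2.1 + q.2.2) x ≠ B (q.1 * q.2.1) x + B q.2.2 x).card := ⟨_, fun _ => rfl⟩
  obtain ⟨C4, hC4⟩ : ∃ C4 : X → ℕ, ∀ x, C4 x = ∑ t : X, (univ.filter fun u : X → ZMod 2 =>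
    B (fun y => u (y * t)) (x * t⁻¹) ≠ B u x).card := ⟨_, fun _ => rfl⟩
  have s1 : ∑ x, C1 x ≤ Fintype.card (X → ZMod 2) * Fintype.card (X → ZMod 2) * R := by
    rw [Finset.sum_congr rfl fun x _ => hC1 x, comb_fub (fun (x : X) (q : (X → ZMod 2) × (X → ZMod 2)) =>
      B (q.1 + q.2) x ≠ B q.1 x + B q.2 x)]
    refine (Finset.sum_le_card_nsmul _ _ R fun q _ => hadd q.1 q.2).trans_eq ?_
    rw [Finset.card_univ, Fintype.card_prod, smul_eq_mul]
  have s2 : ∑ x, C2 x ≤ Fintype.card (X → ZMod 2) * Fintype.card (X → ZMod 2) * R := by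
    rw [Finset.sum_congr rfl fun x _ => hC2 x, comb_fub (fun (x : X) (q : (X → ZMod 2) × (X → ZMod 2)) =>
      B (q.1 * q.2) x ≠ B q.1 x * B q.2 x)]
    refine (Finset.sum_le_card_nsmul _ _ R fun q _ => hmul q.1 q.2).trans_eq ?_
    rw [Finset.card_univ, Fintype.card_prod, smul_eq_mul]
  have s3 : ∑ x, C3 x ≤ Fintype.card (X → ZMod 2) * (Fintype.card (X → ZMod 2) * Fintype.card (X → ZMod 2)) * R := by
    rw [Finset.sum_congr rfl fun x _ => hC3 x, comb_fub (fun (x : X) (q : (X → ZMod 2) × (X → ZMod 2) × (X → ZMod 2)) =>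
      B (q.1 * q.2.1 + q.2.2) x ≠ B (q.1 * q.2.1) x + B q.2.2 x)]
    refine (Finset.sum_le_card_nsmul _ _ R fun q _ => hadd (q.1 * q.2.1) q.2.2).trans_eq ?_
    rw [Finset.card_univ, Fintype.card_prod, Fintype.card_prod, smul_eq_mul]
  have s4 : ∑ x, C4 x ≤ Fintype.card X * (Fintype.card (X → ZMod 2) * R) := by
    rw [Finset.sum_congr rfl fun x _ => hC4 x, Finset.sum_comm]
    refine (Finset.sum_le_card_nsmul _ _ (Fintype.card (X → ZMod 2) * R) fun t _ => ?_).trans_eq ?_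
    · rw [comb_fub (fun (x : X) (u : X → ZMod 2) => B (fun y => u (y * t)) (x * t⁻¹) ≠ B u x)]
      refine (Finset.sum_le_card_nsmul _ _ R fun u _ => ?_).trans_eq ?_
      · refine le_trans (Finset.card_le_card_of_injOn (fun x => x * t⁻¹) ?_ ?_) (htr t u)
        · intro x hx
          rw [Finset.mem_coe, Finset.mem_filter] at hx ⊢
          refine ⟨Finset.mem_univ _, ?_⟩
          show B (fun y => u (y * t)) (x * t⁻¹) ≠ B u (x * t⁻¹ * t)
          rw [inv_mul_cancel_right]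
          exact hx.2
        · intro x _ x' _ h
          exact mul_right_cancel h
      · rw [Finset.card_univ, smul_eq_mul]
    · rw [Finset.card_univ, smul_eq_mul]
  -- a good coordinate
  obtain ⟨x, -, hx⟩ : ∃ x ∈ (univ : Finset X), 8 * ((C1 x : ℝ) / N ^ 2) + (C2 x : ℝ) / N ^ 2 + (C3 x : ℝ) / N ^ 3 +
      (C4 x : ℝ) / (n * N) ≤ 11 * R / n := by
    refine Finset.exists_le_of_sum_le hne ?_
    have r1 : ∑ x, ((C1 x : ℝ) / N ^ 2) ≤ R := by
      rw [← Finset.sum_div, div_le_iff₀ (by positivity), hNdef]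
      have := s1
      calc ∑ x, (C1 x : ℝ) = ((∑ x, C1 x : ℕ) : ℝ) := by push_cast; rfl
        _ ≤ ((Fintype.card (X → ZMod 2) * Fintype.card (X → ZMod 2) * R : ℕ) : ℝ) := by exact_mod_cast s1
        _ = R * (Fintype.card (X → ZMod 2) : ℝ) ^ 2 := by push_cast; ring
    have r2 : ∑ x, ((C2 x : ℝ) / N ^ 2) ≤ R := by
      rw [← Finset.sum_div, div_le_iff₀ (by positivity), hNdef]
      calc ∑ x, (C2 x : ℝ) = ((∑ x, C2 x : ℕ) : ℝ) := by push_cast; rfl
        _ ≤ ((Fintype.card (X → ZMod 2) * Fintype.card (X → ZMod 2) * R : ℕ) : ℝ) := by exact_mod_cast s2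
        _ = R * (Fintype.card (X → ZMod 2) : ℝ) ^ 2 := by push_cast; ring
    have r3 : ∑ x, ((C3 x : ℝ) / N ^ 3) ≤ R := by
      rw [← Finset.sum_div, div_le_iff₀ (by positivity), hNdef]
      calc ∑ x, (C3 x : ℝ) = ((∑ x, C3 x : ℕ) : ℝ) := by push_cast; rfl
        _ ≤ ((Fintype.card (X → ZMod 2) * (Fintype.card (X → ZMod 2) * Fintype.card (X → ZMod 2)) * R : ℕ) : ℝ) := by
            exact_mod_cast s3
        _ = R * (Fintype.card (X → ZMod 2) : ℝ) ^ 3 := by push_cast; ring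
    have r4 : ∑ x, ((C4 x : ℝ) / (n * N)) ≤ R := by
      rw [← Finset.sum_div, div_le_iff₀ (by positivity), hNdef, hndef]
      calc ∑ x, (C4 x : ℝ) = ((∑ x, C4 x : ℕ) : ℝ) := by push_cast; rfl
        _ ≤ ((Fintype.card X * (Fintype.card (X → ZMod 2) * R) : ℕ) : ℝ) := by exact_mod_cast s4
        _ = R * ((Fintype.card X : ℝ) * (Fintype.card (X → ZMod 2) : ℝ)) := by push_cast; ring
    rw [Finset.sum_add_distrib, Finset.sum_add_distrib, Finset.sum_add_distrib, ← Finset.mul_sum, Finset.sum_const,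
      Finset.card_univ, nsmul_eq_mul, ← hndef, mul_div_cancel₀ _ hn0.ne']
    linarith
  have hR' : 11 * (R : ℝ) / n < 1 / 4 := by
    rw [div_lt_iff₀ hn0, hndef]
    have : ((44 * R : ℕ) : ℝ) < (Fintype.card X : ℝ) := by exact_mod_cast hR
    push_cast at this
    linarith
  have e4pos : 0 ≤ (C4 x : ℝ) / (n * N) := by positivity
  have e1pos : 0 ≤ (C1 x : ℝ) / N ^ 2 := by positivity
  have e2pos : 0 ≤ (C2 x : ℝ) / N ^ 2 := by positivity
  have e3pos : 0 ≤ (C3 x : ℝ) / N ^ 3 := by positivity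
  obtain ⟨c, hc, hcf⟩ := comb_dec (fun u => B u x) ((C1 x : ℝ) / N ^ 2) ((C2 x : ℝ) / N ^ 2) ((C3 x : ℝ) / N ^ 3)
    (by rw [← hNdef, div_mul_cancel₀ _ (by positivity), hC1]) (by rw [← hNdef, div_mul_cancel₀ _ (by positivity), hC2])
    (by rw [← hNdef, div_mul_cancel₀ _ (by positivity), hC3]) (by linarith)
  -- the mean distance
  have mean : ∀ g : (X → ZMod 2) → (X → ZMod 2), (∀ t u, g (fun y => u (y * t)) (x * t⁻¹) = c u) →
      ((∑ u, hammingDist (B u) (g u) : ℕ) : ℝ) ≤ 11 * R * N := by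
    intro g hg
    rw [comb_change B x g c hg]
    have h1 : ∑ t : X, (univ.filter fun u : X → ZMod 2 => B (fun y => u (y * t)) (x * t⁻¹) ≠ c u).card ≤
        C4 x + Fintype.card X * (univ.filter fun u : X → ZMod 2 => B u x ≠ c u).card := by
      have h2 : Fintype.card X * (univ.filter fun u : X → ZMod 2 => B u x ≠ c u).card =
          ∑ t : X, (univ.filter fun u : X → ZMod 2 => B u x ≠ c u).card := by
        rw [Finset.sum_const, Finset.card_univ, smul_eq_mul]
      rw [h2, hC4, ← Finset.sum_add_distrib]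
      refine Finset.sum_le_sum fun t _ => ?_
      refine (Finset.card_le_card ?_).trans (Finset.card_union_le _ _)
      intro u hu
      rw [Finset.mem_union, Finset.mem_filter, Finset.mem_filter]
      rw [Finset.mem_filter] at hu
      by_cases h : B (fun y => u (y * t)) (x * t⁻¹) = B u x
      · right
        refine ⟨Finset.mem_univ _, ?_⟩
        rw [← h]
        exact hu.2
      · left
        exact ⟨Finset.mem_univ _, h⟩
    have h3 : ((∑ t : X, (univ.filter fun u : X → ZMod 2 => B (fun y => u (y * t)) (x * t⁻¹) ≠ c u).card : ℕ) : ℝ) ≤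
        (C4 x : ℝ) + n * ((univ.filter fun u : X → ZMod 2 => B u x ≠ c u).card : ℝ) := by
      rw [hndef]
      exact_mod_cast h1
    have h4 : n * ((univ.filter fun u : X → ZMod 2 => B u x ≠ c u).card : ℝ) ≤ n * (3 * ((C1 x : ℝ) / N ^ 2) * N) := by
      refine mul_le_mul_of_nonneg_left ?_ hn0.le
      rw [hNdef] at hcf ⊢
      exact hcf
    have h5 : (C4 x : ℝ) = (C4 x : ℝ) / (n * N) * (n * N) := by
      rw [div_mul_cancel₀ _ (by positivity)]
    have h6 : (C4 x : ℝ) / (n * N) + 3 * ((C1 x : ℝ) / N ^ 2) ≤ 11 * R / n := by linarith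
    have h7 : ((C4 x : ℝ) / (n * N) + 3 * ((C1 x : ℝ) / N ^ 2)) * (n * N) ≤ 11 * R / n * (n * N) :=
      mul_le_mul_of_nonneg_right h6 (by positivity)
    have h8 : 11 * (R : ℝ) / n * (n * N) = 11 * R * N := by
      field_simp
    calc ((∑ t : X, (univ.filter fun u : X → ZMod 2 => B (fun y => u (y * t)) (x * t⁻¹) ≠ c u).card : ℕ) : ℝ)
        ≤ (C4 x : ℝ) + n * (3 * ((C1 x : ℝ) / N ^ 2) * N) := h3.trans (by linarith)
      _ = ((C4 x : ℝ) / (n * N) + 3 * ((C1 x : ℝ) / N ^ 2)) * (n * N) := by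
          rw [add_mul, ← h5]
          ring
      _ ≤ 11 * R * N := by rw [← h8]; exact h7
  rcases hc with rfl | ⟨x₀, rfl⟩
  · -- the case `c = 0`
    exfalso
    have h1 := mean (fun _ => 0) (fun _ _ => rfl)
    have h2 : ∀ u, Fintype.card X ≤ hammingDist (B (1 + u)) 0 + hammingDist (B u) 0 + R := by
      intro u
      have h3 : hammingDist (B 1) 0 = Fintype.card X := by
        rw [hone]
        unfold hammingDist
        rw [Finset.filter_true_of_mem]
        · rfl
        · intro i _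
          exact one_ne_zero
      rw [← h3]
      have h4 : hammingDist (B 1) 0 ≤ hammingDist (B 1 + B u + B u) (B (1 + u) + B u) + hammingDist (B (1 + u) + B u) (0 + 0) := by
        rw [comb_two, add_zero]
        exact hammingDist_triangle _ _ _
      have h5 := comb_hd_add (B 1 + B u) (B u) (B (1 + u)) (B u)
      have h6 := comb_hd_add (B (1 + u)) (B u) 0 0
      have h7 := hadd 1 u
      rw [hammingDist_comm] at h7
      rw [hammingDist_self, add_zero] at h5
      omega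
    have h3 : Fintype.card (X → ZMod 2) * Fintype.card X ≤
        ∑ u, hammingDist (B u) 0 + ∑ u, hammingDist (B u) 0 + Fintype.card (X → ZMod 2) * R := by
      have h4 : ∑ u, hammingDist (B (1 + u)) 0 = ∑ u, hammingDist (B u) 0 :=
        Equiv.sum_comp (Equiv.addLeft (1 : X → ZMod 2)) fun u => hammingDist (B u) 0
      calc Fintype.card (X → ZMod 2) * Fintype.card X = ∑ _u : X → ZMod 2, Fintype.card X := by
            rw [Finset.sum_const, Finset.card_univ, smul_eq_mul]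
        _ ≤ ∑ u, (hammingDist (B (1 + u)) 0 + hammingDist (B u) 0 + R) := Finset.sum_le_sum fun u _ => h2 u
        _ = _ := by rw [Finset.sum_add_distrib, Finset.sum_add_distrib, h4, Finset.sum_const, Finset.card_univ, smul_eq_mul]
    have h4 : N * n ≤ 2 * ((∑ u, hammingDist (B u) 0 : ℕ) : ℝ) + N * R := by
      rw [hNdef, hndef, two_mul]
      exact_mod_cast h3
    have h5 : ((∑ u, hammingDist (B u) ((fun _ => 0 : (X → ZMod 2) → (X → ZMod 2)) u) : ℕ) : ℝ) =
      ((∑ u, hammingDist (B u) 0 : ℕ) : ℝ) := rfl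
    rw [h5] at h1
    have h6 : N * n ≤ N * (23 * R) := by linarith
    have h7 : n ≤ 23 * R := le_of_mul_le_mul_left h6 hN0
    rw [hndef] at h7
    have h8 : Fintype.card X ≤ 23 * R := by exact_mod_cast h7
    omega
  · -- the case of a point
    refine ⟨x⁻¹ * x₀, fun u => ?_⟩
    have h1 := mean (fun u y => u (y * (x⁻¹ * x₀))) (fun t u => by
      show u (x * t⁻¹ * (x⁻¹ * x₀) * t) = u x₀
      rw [mul_mul_mul_comm x t⁻¹ x⁻¹ x₀, mul_inv_cancel, one_mul, mul_comm t⁻¹ x₀, inv_mul_cancel_right])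
    obtain ⟨v, -, hv⟩ : ∃ v ∈ (univ : Finset (X → ZMod 2)),
        hammingDist (B v) (fun y => v (y * (x⁻¹ * x₀))) + hammingDist (B (u + v)) (fun y => (u + v) (y * (x⁻¹ * x₀))) ≤ 22 * R := by
      refine Finset.exists_le_of_sum_le Finset.univ_nonempty ?_
      rw [Finset.sum_add_distrib]
      have h4 : ∑ v, hammingDist (B (u + v)) (fun y => (u + v) (y * (x⁻¹ * x₀))) =
          ∑ v, hammingDist (B v) (fun y => v (y * (x⁻¹ * x₀))) :=
        Equiv.sum_comp (Equiv.addLeft u) fun v => hammingDist (B v) (fun y => v (y * (x⁻¹ * x₀)))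
      rw [h4, Finset.sum_const, Finset.card_univ, smul_eq_mul]
      have h5 : ((∑ v, hammingDist (B v) (fun y => v (y * (x⁻¹ * x₀))) : ℕ) : ℝ) ≤ 11 * R * N := h1
      rw [hNdef] at h5
      have h6 : ∑ v, hammingDist (B v) (fun y => v (y * (x⁻¹ * x₀))) ≤ 11 * R * Fintype.card (X → ZMod 2) := by
        exact_mod_cast h5
      calc _ ≤ 11 * R * Fintype.card (X → ZMod 2) + 11 * R * Fintype.card (X → ZMod 2) := Nat.add_le_add h6 h6
        _ = _ := by ring
    have h2 : hammingDist (B u) (B (u + v) + B v) ≤ R := by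
      have h3 := hadd (u + v) v
      rwa [comb_two] at h3
    have h3 : (fun y => u (y * (x⁻¹ * x₀))) =
        (fun y => (u + v) (y * (x⁻¹ * x₀))) + fun y => v (y * (x⁻¹ * x₀)) := by
      funext y
      show u _ = u _ + v _ + v _
      rw [add_assoc, CharTwo.add_self_eq_zero, add_zero]
    rw [h3]
    have h4 := comb_hd_add (B (u + v)) (B v) (fun y => (u + v) (y * (x⁻¹ * x₀))) (fun y => v (y * (x⁻¹ * x₀)))
    have h5 := hammingDist_triangle (B u) (B (u + v) + B v)
      ((fun y => (u + v) (y * (x⁻¹ * x₀))) + fun y => v (y * (x⁻¹ * x₀)))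
    omega

end MP4270U
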