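import Mathlib

/-!
# MP_4270a5_nt, piece COMBD: majority decoding of an almost homomorphism `f : (ZMod 2)^X → ZMod 2`

PAPER PROOF. `V = X → ZMod 2`, `N = |V|`, `P` = counting probability.
(a) For every `w` there is `c w` with `P_u(f(u+w) - f(u) ≠ c w) ≤ 2 e1`: for pairs `(u, u')` put `v = u + u'`;
the events `f(u+v) ≠ f(u)+f(v)` and `f((u+w)+v) ≠ f(u+w)+f(v)` have probability `≤ e1` each; if none happens
`f(u'+w) - f(u') = f(u+w) - f(u)`. So `P_{u,u'}(f(u'+w) - f(u') ≠ f(u+w) - f(u)) ≤ 2 e1`; choose `u` best possible and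
put `c w = f(u+w) - f(u)`.
(b) `c (w + w') = c w + c w'` since `6 e1 < 1`: there is `u` with `f(u+w'+w) - f(u+w') = c w`, `f(u+w') - f(u) = c w'`,
`f(u+w+w') - f(u) = c (w+w')`.
(c) `P_w(f w ≠ c w) ≤ 3 e1` (for pairs `(u,w)` compare `f(u+w) - f(u) = c w` with `f(u+w) = f u + f w`).
(d) `P_{u,v}(f(u*v) ≠ c(u*v)) ≤ e3 + 2 e1` (take `r` random: `f(u*v) = f(u*v+r) - f r = c(u*v)`). So
`P_{u,v}(c(u*v) ≠ c u * c v) ≤ e3 + 2 e1 + e2 + 6 e1 < 1/4`. If `c e_y = c e_z = 1` for unit vectors `e_y ≠ e_z`: for every
`(u,v)` one of the four pairs `(u,v), (u+e_y,v), (u,v+e_z), (u+e_y,v+e_z)` violates `c(u*v) = c u * c v` (the sum of the four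
defects is `c(e_y*e_z) - c e_y * c e_z = -1`), so the probability would be `≥ 1/4`. Hence at most one unit vector has `c e_y = 1`, and
`c u = ∑_y u_y c e_y`: `c = 0` or `c u = u x₀`.
-/

namespace MP4270U

open Finset

private theorem combD_card {α : Type*} [Fintype α] (p : α → Prop) [DecidablePred p] :
    ((univ.filter p).card : ℝ) = ∑ a, (if p a then (1 : ℝ) else 0) := by
  rw [Finset.card_filter]
  push_cast
  rfl

/-- the derivatives of an almost homomorphism are almost constant -/
private theorem combD_deriv {V : Type*} [AddCommGroup V] [Fintype V] [DecidableEq V]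
    (f : V → ZMod 2) (e1 : ℝ)
    (h1 : ∑ u, ∑ v, (if f (u + v) ≠ f u + f v then (1 : ℝ) else 0) ≤
      e1 * (Fintype.card V : ℝ) ^ 2) (w : V) :
    ∃ c : ZMod 2, ∑ u, (if f (u + w) - f u ≠ c then (1 : ℝ) else 0) ≤
      2 * e1 * (Fintype.card V : ℝ) := by
  have hpt : ∀ u v : V, (if f (u + v + w) - f (u + v) ≠ f (u + w) - f u then (1 : ℝ) else 0) ≤
      (if f (u + v) ≠ f u + f v then (1 : ℝ) else 0) +
        (if f (u + w + v) ≠ f (u + w) + f v then (1 : ℝ) else 0) := by
    intro u v
    by_cases hA : f (u + v) = f u + f v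
    · by_cases hB : f (u + w + v) = f (u + w) + f v
      · have : f (u + v + w) - f (u + v) = f (u + w) - f u := by
          rw [add_right_comm, hA, hB]
          ring
        rw [if_neg (not_not.2 this), if_neg (not_not.2 hA), if_neg (not_not.2 hB)]
        norm_num
      · rw [if_neg (not_not.2 hA), if_pos hB]
        split_ifs <;> norm_num
    · rw [if_pos hA]
      split_ifs <;> norm_num
  have hsum : ∑ u, ∑ u', (if f (u' + w) - f u' ≠ f (u + w) - f u then (1 : ℝ) else 0) ≤
      2 * e1 * (Fintype.card V : ℝ) ^ 2 := by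
    have h2 : ∀ u : V, ∑ u', (if f (u' + w) - f u' ≠ f (u + w) - f u then (1 : ℝ) else 0) ≤
        ∑ v, (if f (u + v) ≠ f u + f v then (1 : ℝ) else 0) +
          ∑ v, (if f (u + w + v) ≠ f (u + w) + f v then (1 : ℝ) else 0) := by
      intro u
      rw [← Equiv.sum_comp (Equiv.addLeft u), ← Finset.sum_add_distrib]
      exact Finset.sum_le_sum fun v _ => hpt u v
    refine le_trans (Finset.sum_le_sum fun u _ => h2 u) ?_
    rw [Finset.sum_add_distrib]
    have h3 : ∑ u, ∑ v, (if f (u + w + v) ≠ f (u + w) + f v then (1 : ℝ) else 0) =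
        ∑ u, ∑ v, (if f (u + v) ≠ f u + f v then (1 : ℝ) else 0) :=
      Equiv.sum_comp (Equiv.addRight w)
        (fun u => ∑ v, (if f (u + v) ≠ f u + f v then (1 : ℝ) else 0))
    linarith
  have hne : (univ : Finset V).Nonempty := ⟨0, Finset.mem_univ _⟩
  obtain ⟨u, _, hu⟩ := Finset.exists_le_of_sum_le hne
    (f := fun u => ∑ u', (if f (u' + w) - f u' ≠ f (u + w) - f u then (1 : ℝ) else 0))
    (g := fun _ => 2 * e1 * (Fintype.card V : ℝ)) (by
      rw [Finset.sum_const, nsmul_eq_mul, Finset.card_univ]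
      refine le_trans hsum (le_of_eq ?_)
      ring)
  exact ⟨f (u + w) - f u, hu⟩

/-- a biadditive map to `ZMod 2` which vanishes on more than three quarters of the pairs is zero -/
private theorem combD_bi {V : Type*} [AddCommGroup V] [Fintype V] [DecidableEq V]
    (d : V → V → ZMod 2) (hl : ∀ a b c, d (a + b) c = d a c + d b c)
    (hr : ∀ a b c, d a (b + c) = d a b + d a c)
    (h : ∑ u, ∑ v, (if d u v ≠ 0 then (1 : ℝ) else 0) < 1 / 4 * (Fintype.card V : ℝ) ^ 2)
    (a b : V) : d a b = 0 := by
  by_contra hab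
  have hpt : ∀ u v : V, (1 : ℝ) ≤ (if d u v ≠ 0 then (1 : ℝ) else 0) +
      (if d (u + a) v ≠ 0 then (1 : ℝ) else 0) + (if d u (v + b) ≠ 0 then (1 : ℝ) else 0) +
      (if d (u + a) (v + b) ≠ 0 then (1 : ℝ) else 0) := by
    intro u v
    have h1 : d u v ≠ 0 ∨ d (u + a) v ≠ 0 ∨ d u (v + b) ≠ 0 ∨ d (u + a) (v + b) ≠ 0 := by
      by_contra hcon
      push Not at hcon
      obtain ⟨k1, k2, k3, k4⟩ := hcon
      rw [hl, k1, zero_add] at k2
      rw [hr, k1, zero_add] at k3
      rw [hl, hr, hr, k1, k2, k3, zero_add, zero_add, zero_add] at k4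
      exact hab k4
    have hn : ∀ p : Prop, ∀ _ : Decidable p, (0 : ℝ) ≤ (if p then (1 : ℝ) else 0) := by
      intro p _
      split_ifs <;> norm_num
    have n1 := hn (d u v ≠ 0) inferInstance
    have n2 := hn (d (u + a) v ≠ 0) inferInstance
    have n3 := hn (d u (v + b) ≠ 0) inferInstance
    have n4 := hn (d (u + a) (v + b) ≠ 0) inferInstance
    rcases h1 with h1 | h1 | h1 | h1
    · rw [if_pos h1] at *
      linarith
    · rw [if_pos h1] at *
      linarith
    · rw [if_pos h1] at *
      linarith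
    · rw [if_pos h1] at *
      linarith
  have hsum : ∑ _u : V, ∑ _v : V, (1 : ℝ) ≤
      ∑ u : V, ∑ v : V, ((if d u v ≠ 0 then (1 : ℝ) else 0) +
      (if d (u + a) v ≠ 0 then (1 : ℝ) else 0) + (if d u (v + b) ≠ 0 then (1 : ℝ) else 0) +
      (if d (u + a) (v + b) ≠ 0 then (1 : ℝ) else 0)) :=
    Finset.sum_le_sum fun u _ => Finset.sum_le_sum fun v _ => hpt u v
  simp only [Finset.sum_add_distrib] at hsum
  have k2 : ∑ u : V, ∑ v : V, (if d (u + a) v ≠ 0 then (1 : ℝ) else 0) =
      ∑ u : V, ∑ v : V, (if d u v ≠ 0 then (1 : ℝ) else 0) :=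
    Equiv.sum_comp (Equiv.addRight a) (fun u => ∑ v : V, (if d u v ≠ 0 then (1 : ℝ) else 0))
  have k3 : ∀ u : V, ∑ v : V, (if d u (v + b) ≠ 0 then (1 : ℝ) else 0) =
      ∑ v : V, (if d u v ≠ 0 then (1 : ℝ) else 0) := fun u =>
    Equiv.sum_comp (Equiv.addRight b) (fun v => (if d u v ≠ 0 then (1 : ℝ) else 0))
  simp only [k3, k2] at hsum
  simp only [Finset.sum_const, Finset.card_univ, nsmul_eq_mul, mul_one] at hsum
  nlinarith

theorem comb_dec {X : Type*} [Fintype X] [DecidableEq X] (f : (X → ZMod 2) → ZMod 2)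
    (e1 e2 e3 : ℝ)
    (h1 : ((univ.filter fun q : (X → ZMod 2) × (X → ZMod 2) =>
      f (q.1 + q.2) ≠ f q.1 + f q.2).card : ℝ) ≤ e1 * (Fintype.card (X → ZMod 2) : ℝ) ^ 2)
    (h2 : ((univ.filter fun q : (X → ZMod 2) × (X → ZMod 2) =>
      f (q.1 * q.2) ≠ f q.1 * f q.2).card : ℝ) ≤ e2 * (Fintype.card (X → ZMod 2) : ℝ) ^ 2)
    (h3 : ((univ.filter fun q : (X → ZMod 2) × (X → ZMod 2) × (X → ZMod 2) =>
      f (q.1 * q.2.1 + q.2.2) ≠ f (q.1 * q.2.1) + f q.2.2).card : ℝ) ≤
        e3 * (Fintype.card (X → ZMod 2) : ℝ) ^ 3)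
    (hs : 8 * e1 + e2 + e3 < 1 / 4) :
    ∃ c : (X → ZMod 2) → ZMod 2, (c = 0 ∨ ∃ x₀ : X, c = fun u => u x₀) ∧
      ((univ.filter fun u : X → ZMod 2 => f u ≠ c u).card : ℝ) ≤
        3 * e1 * (Fintype.card (X → ZMod 2) : ℝ) := by
  rw [combD_card, Fintype.sum_prod_type] at h1 h2
  rw [combD_card, Fintype.sum_prod_type] at h3
  simp only [Fintype.sum_prod_type] at h3
  set N : ℝ := (Fintype.card (X → ZMod 2) : ℝ) with hN
  have hN0 : 0 < N := by
    rw [hN]
    exact_mod_cast Fintype.card_pos
  have hI : ∀ p : Prop, ∀ _ : Decidable p, (0 : ℝ) ≤ (if p then (1 : ℝ) else 0) := by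
    intro p _
    split_ifs <;> norm_num
  have e1n : 0 ≤ e1 := by
    have : 0 ≤ e1 * N ^ 2 := le_trans
      (Finset.sum_nonneg fun u _ => Finset.sum_nonneg fun v _ => hI _ _) h1
    exact nonneg_of_mul_nonneg_left this (by positivity)
  have e2n : 0 ≤ e2 := by
    have : 0 ≤ e2 * N ^ 2 := le_trans
      (Finset.sum_nonneg fun u _ => Finset.sum_nonneg fun v _ => hI _ _) h2
    exact nonneg_of_mul_nonneg_left this (by positivity)
  have e3n : 0 ≤ e3 := by
    have : 0 ≤ e3 * N ^ 3 := le_trans
      (Finset.sum_nonneg fun u _ => Finset.sum_nonneg fun v _ =>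
        Finset.sum_nonneg fun r _ => hI _ _) h3
    exact nonneg_of_mul_nonneg_left this (by positivity)
  choose c hc using combD_deriv f e1 h1
  -- additivity
  have hadd : ∀ w w', c (w + w') = c w + c w' := by
    intro w w'
    by_contra hcon
    have hpt : ∀ u : X → ZMod 2, (1 : ℝ) ≤
        (if f (u + w' + w) - f (u + w') ≠ c w then (1 : ℝ) else 0) +
        (if f (u + w') - f u ≠ c w' then (1 : ℝ) else 0) +
        (if f (u + (w + w')) - f u ≠ c (w + w') then (1 : ℝ) else 0) := by
      intro u
      have n1 := hI (f (u + w' + w) - f (u + w') ≠ c w) inferInstance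
      have n2 := hI (f (u + w') - f u ≠ c w') inferInstance
      have n3 := hI (f (u + (w + w')) - f u ≠ c (w + w')) inferInstance
      by_cases k1 : f (u + w' + w) - f (u + w') ≠ c w
      · rw [if_pos k1]
        linarith
      · by_cases k2 : f (u + w') - f u ≠ c w'
        · rw [if_pos k2]
          linarith
        · have k3 : f (u + (w + w')) - f u ≠ c (w + w') := by
            intro k3
            refine hcon ?_
            push Not at k1 k2
            rw [← k1, ← k2, ← k3]
            have : u + (w + w') = u + w' + w := by abel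
            rw [this]
            ring
          rw [if_pos k3]
          linarith
    have hsum := Finset.sum_le_sum (s := univ) fun u _ => hpt u
    simp only [Finset.sum_add_distrib] at hsum
    have k1 : ∑ u : X → ZMod 2, (if f (u + w' + w) - f (u + w') ≠ c w then (1 : ℝ) else 0) =
        ∑ u : X → ZMod 2, (if f (u + w) - f u ≠ c w then (1 : ℝ) else 0) :=
      Equiv.sum_comp (Equiv.addRight w')
        (fun u : X → ZMod 2 => (if f (u + w) - f u ≠ c w then (1 : ℝ) else 0))
    rw [k1, Finset.sum_const, Finset.card_univ, nsmul_eq_mul, mul_one] at hsum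
    have := hc w
    have := hc w'
    have := hc (w + w')
    nlinarith
  -- f is close to c
  have hclose : ∑ w, (if f w ≠ c w then (1 : ℝ) else 0) ≤ 3 * e1 * N := by
    have hpt : ∀ u w : X → ZMod 2, (if f w ≠ c w then (1 : ℝ) else 0) ≤
        (if f (u + w) - f u ≠ c w then (1 : ℝ) else 0) +
        (if f (u + w) ≠ f u + f w then (1 : ℝ) else 0) := by
      intro u w
      have n1 := hI (f (u + w) - f u ≠ c w) inferInstance
      have n2 := hI (f (u + w) ≠ f u + f w) inferInstance
      by_cases k : f w ≠ c w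
      · rw [if_pos k]
        by_cases k1 : f (u + w) - f u ≠ c w
        · rw [if_pos k1]
          linarith
        · have k2 : f (u + w) ≠ f u + f w := by
            intro k2
            push Not at k1
            refine k ?_
            rw [← k1, k2]
            ring
          rw [if_pos k2]
          linarith
      · rw [if_neg k]
        linarith
    have hsum := Finset.sum_le_sum (s := univ) fun u _ =>
      Finset.sum_le_sum (s := univ) fun w _ => hpt u w
    simp only [Finset.sum_add_distrib] at hsum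
    rw [Finset.sum_const, Finset.card_univ, nsmul_eq_mul] at hsum
    have k1 : ∑ u : X → ZMod 2, ∑ w : X → ZMod 2,
        (if f (u + w) - f u ≠ c w then (1 : ℝ) else 0) ≤ N * (2 * e1 * N) := by
      rw [Finset.sum_comm]
      refine le_trans (Finset.sum_le_sum fun w _ => hc w) (le_of_eq ?_)
      rw [Finset.sum_const, Finset.card_univ, nsmul_eq_mul]
    have k2 : N * ∑ w, (if f w ≠ c w then (1 : ℝ) else 0) ≤ N * (3 * e1 * N) := by
      refine le_trans hsum ?_
      nlinarith
    exact le_of_mul_le_mul_left k2 hN0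
  -- f is close to c on products
  have hprod : ∑ u, ∑ v, (if f (u * v) ≠ c (u * v) then (1 : ℝ) else 0) ≤
      (e3 + 2 * e1) * N ^ 2 := by
    have hpt : ∀ u v r : X → ZMod 2, (if f (u * v) ≠ c (u * v) then (1 : ℝ) else 0) ≤
        (if f (u * v + r) ≠ f (u * v) + f r then (1 : ℝ) else 0) +
        (if f (r + u * v) - f r ≠ c (u * v) then (1 : ℝ) else 0) := by
      intro u v r
      have n1 := hI (f (u * v + r) ≠ f (u * v) + f r) inferInstance
      have n2 := hI (f (r + u * v) - f r ≠ c (u * v)) inferInstance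
      by_cases k : f (u * v) ≠ c (u * v)
      · rw [if_pos k]
        by_cases k1 : f (u * v + r) ≠ f (u * v) + f r
        · rw [if_pos k1]
          linarith
        · have k2 : f (r + u * v) - f r ≠ c (u * v) := by
            intro k2
            push Not at k1
            refine k ?_
            rw [← k2, add_comm r, k1]
            ring
          rw [if_pos k2]
          linarith
      · rw [if_neg k]
        linarith
    have hsum := Finset.sum_le_sum (s := univ) fun u _ =>
      Finset.sum_le_sum (s := univ) fun v _ =>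
        Finset.sum_le_sum (s := univ) fun r _ => hpt u v r
    simp only [Finset.sum_add_distrib, Finset.sum_const, Finset.card_univ, nsmul_eq_mul] at hsum
    have k1 : ∑ u : X → ZMod 2, ∑ v : X → ZMod 2, ∑ r : X → ZMod 2,
        (if f (r + u * v) - f r ≠ c (u * v) then (1 : ℝ) else 0) ≤ N * (N * (2 * e1 * N)) := by
      refine le_trans (Finset.sum_le_sum fun u _ => Finset.sum_le_sum fun v _ =>
        hc (u * v)) (le_of_eq ?_)
      simp only [Finset.sum_const, Finset.card_univ, nsmul_eq_mul]
      rfl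
    have k0 : ∑ u : X → ZMod 2, ∑ v : X → ZMod 2, N *
        (if f (u * v) ≠ c (u * v) then (1 : ℝ) else 0) =
        N * ∑ u, ∑ v, (if f (u * v) ≠ c (u * v) then (1 : ℝ) else 0) := by
      rw [Finset.mul_sum]
      refine Finset.sum_congr rfl fun u _ => ?_
      rw [Finset.mul_sum]
    have hsum' : N * ∑ u, ∑ v, (if f (u * v) ≠ c (u * v) then (1 : ℝ) else 0) ≤
        N * ((e3 + 2 * e1) * N ^ 2) := by
      rw [← k0]
      refine le_trans hsum ?_
      nlinarith
    exact le_of_mul_le_mul_left hsum' hN0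
  -- the defect of multiplicativity
  have hdef : ∑ u, ∑ v, (if c (u * v) - c u * c v ≠ 0 then (1 : ℝ) else 0) <
      1 / 4 * N ^ 2 := by
    have hpt : ∀ u v : X → ZMod 2, (if c (u * v) - c u * c v ≠ 0 then (1 : ℝ) else 0) ≤
        (if f (u * v) ≠ c (u * v) then (1 : ℝ) else 0) +
        (if f (u * v) ≠ f u * f v then (1 : ℝ) else 0) +
        (if f u ≠ c u then (1 : ℝ) else 0) + (if f v ≠ c v then (1 : ℝ) else 0) := by
      intro u v
      have n1 := hI (f (u * v) ≠ c (u * v)) inferInstance
      have n2 := hI (f (u * v) ≠ f u * f v) inferInstance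
      have n3 := hI (f u ≠ c u) inferInstance
      have n4 := hI (f v ≠ c v) inferInstance
      by_cases k : c (u * v) - c u * c v ≠ 0
      · rw [if_pos k]
        by_cases k1 : f (u * v) ≠ c (u * v)
        · rw [if_pos k1]
          linarith
        · by_cases k2 : f (u * v) ≠ f u * f v
          · rw [if_pos k2]
            linarith
          · by_cases k3 : f u ≠ c u
            · rw [if_pos k3]
              linarith
            · have k4 : f v ≠ c v := by
                intro k4
                push Not at k1 k2 k3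
                refine k ?_
                rw [← k1, k2, k3, k4, sub_self]
              rw [if_pos k4]
              linarith
      · rw [if_neg k]
        linarith
    have hsum := Finset.sum_le_sum (s := univ) fun u _ =>
      Finset.sum_le_sum (s := univ) fun v _ => hpt u v
    simp only [Finset.sum_add_distrib, Finset.sum_const, Finset.card_univ, nsmul_eq_mul] at hsum
    rw [← Finset.mul_sum] at hsum
    refine lt_of_le_of_lt hsum ?_
    have k1 : N * ∑ u, (if f u ≠ c u then (1 : ℝ) else 0) ≤ N * (3 * e1 * N) :=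
      mul_le_mul_of_nonneg_left hclose hN0.le
    have k2 : (8 * e1 + e2 + e3) * N ^ 2 < 1 / 4 * N ^ 2 :=
      mul_lt_mul_of_pos_right hs (by positivity)
    nlinarith
  have hmul : ∀ a b : X → ZMod 2, c (a * b) = c a * c b := by
    intro a b
    have := combD_bi (fun u v => c (u * v) - c u * c v)
      (fun a b c' => by simp only [add_mul, hadd]; ring)
      (fun a b c' => by simp only [mul_add, hadd]; ring) hdef a b
    exact sub_eq_zero.1 this
  refine ⟨c, ?_, by rw [combD_card]; exact hclose⟩
  -- structure of c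
  have hc0 : c 0 = 0 := by
    have := hadd 0 0
    rw [add_zero] at this
    exact left_eq_add.1 this
  let cH : (X → ZMod 2) →+ ZMod 2 := { toFun := c, map_zero' := hc0, map_add' := hadd }
  have hform : ∀ u : X → ZMod 2, c u = ∑ y, u y * c (Pi.single y 1) := by
    intro u
    have k1 : u = ∑ y, Pi.single y (u y) := (Finset.univ_sum_single u).symm
    have k2 : c u = ∑ y, c (Pi.single y (u y)) := by
      conv_lhs => rw [k1]
      exact map_sum cH _ _
    rw [k2]
    refine Finset.sum_congr rfl fun y _ => ?_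
    have k3 : ∀ t : ZMod 2, c (Pi.single y t) = t * c (Pi.single y 1) := by
      intro t
      fin_cases t
      · change c (Pi.single y 0) = 0 * c (Pi.single y 1)
        rw [Pi.single_zero, hc0, zero_mul]
      · change c (Pi.single y 1) = 1 * c (Pi.single y 1)
        rw [one_mul]
    exact k3 (u y)
  by_cases hx : ∃ x₀ : X, c (Pi.single x₀ 1) ≠ 0
  · obtain ⟨x₀, hx₀⟩ := hx
    have hx1 : c (Pi.single x₀ 1) = 1 := by
      have : ∀ t : ZMod 2, t ≠ 0 → t = 1 := by decide
      exact this _ hx₀
    right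
    refine ⟨x₀, ?_⟩
    funext u
    rw [hform u, Finset.sum_eq_single x₀]
    · rw [hx1, mul_one]
    · intro y _ hy
      have k1 := hmul (Pi.single y 1) (Pi.single x₀ 1)
      have k2 : (Pi.single y 1 : X → ZMod 2) * Pi.single x₀ 1 = 0 := by
        funext z
        by_cases hz : z = y
        · subst hz
          simp [hy]
        · simp [hz]
      rw [k2, hc0, hx1, mul_one] at k1
      rw [← k1, mul_zero]
    · intro h
      exact absurd (Finset.mem_univ _) h
  · push Not at hx
    left
    funext u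
    rw [hform u]
    simp [hx]

end MP4270U
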