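import Pool.Agent.Lib_MP_4270a5_u.Defs
import Pool.Agent.Lib_MP_10b5ac_nt.Compound

/-!
# MP_4270a5_nt, piece CONV: `cnt` and minors

PAPER PROOF. To a set `B` of columns (`|B| = |A|`) associate the increasing enumeration of `B.map e`; this is injective in `B`, and the
minor is the determinant of a square matrix whose columns are linearly independent (reindexing of `LinearIndepOn`).
-/

namespace MP4270U

open Finset Pool.Agent.Sub

/-- the increasing enumeration of the image of a finset -/
private noncomputable def conv_enum {X : Type*} (n : ℕ) (e : X ≃ Fin n) (p : ℕ)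
    (B : Finset X) (h : B.card = p) : Fin p ↪o Fin n :=
  (B.map e.toEmbedding).orderEmbOfFin (by rw [card_map, h])

private theorem conv_mem {X : Type*} (n : ℕ) (e : X ≃ Fin n) (p : ℕ) (B : Finset X)
    (h : B.card = p) (j : Fin p) : e.symm (conv_enum n e p B h j) ∈ B := by
  have h1 : conv_enum n e p B h j ∈ B.map e.toEmbedding := orderEmbOfFin_mem _ _ j
  rw [mem_map] at h1
  obtain ⟨b, hb, hb'⟩ := h1
  rw [← hb']
  simpa using hb

private theorem conv_inj {X : Type*} (n : ℕ) (e : X ≃ Fin n) (p : ℕ) (B B' : Finset X)
    (h : B.card = p) (h' : B'.card = p) (hE : conv_enum n e p B h = conv_enum n e p B' h') :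
    B = B' := by
  have h1 : Set.range (conv_enum n e p B h) = ((B.map e.toEmbedding : Finset (Fin n)) : Set (Fin n)) :=
    range_orderEmbOfFin _ _
  have h2 : Set.range (conv_enum n e p B' h') =
      ((B'.map e.toEmbedding : Finset (Fin n)) : Set (Fin n)) := range_orderEmbOfFin _ _
  rw [hE, h2] at h1
  exact (map_injective _ (coe_injective h1)).symm

private theorem conv_minor {K : Type*} [Field K] {X : Type*} (n : ℕ)
    (e : X ≃ Fin n) (T : Matrix X X K) (p : ℕ) (A B : Finset X) (hA : A.card = p)
    (hB : B.card = p) (hLI : LinearIndepOn K (fun (b : X) (a : A) => T a b) (B : Set X)) :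
    minor p (T.submatrix e.symm e.symm) (conv_enum n e p A hA) (conv_enum n e p B hB) ≠ 0 := by
  set S := conv_enum n e p A hA with hS
  set J := conv_enum n e p B hB with hJ
  have h1 : LinearIndependent K (fun (b : (B : Set X)) (a : A) => T a b) := hLI
  have h2 := h1.comp (fun j : Fin p => (⟨e.symm (J j), conv_mem n e p B hB j⟩ : (B : Set X)))
    (by
      intro i j hij
      have h3 := congrArg Subtype.val hij
      exact J.injective (e.symm.injective h3))
  let σ : Fin p → A := fun i => ⟨e.symm (S i), conv_mem n e p A hA i⟩
  have hσi : Function.Injective σ := by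
    intro i j hij
    have h3 := congrArg Subtype.val hij
    exact S.injective (e.symm.injective h3)
  have hσ : Function.Surjective σ := by
    have hb := (Fintype.bijective_iff_injective_and_card σ).2 ⟨hσi, by
      rw [Fintype.card_fin, Fintype.card_coe, hA]⟩
    exact hb.2
  have h4 := h2.map' (LinearMap.funLeft K K σ)
    (LinearMap.ker_eq_bot.2 (LinearMap.funLeft_injective_of_surjective K K σ hσ))
  have h5 : LinearIndependent K ((T.submatrix e.symm e.symm).submatrix S J).col := by
    exact h4
  have h6 := Matrix.linearIndependent_cols_iff_isUnit.1 h5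
  unfold minor
  exact ((Matrix.isUnit_iff_isUnit_det _).1 h6).ne_zero

open Classical in
theorem cnt_le {K : Type*} [Field K] {X : Type*} [Fintype X] [DecidableEq X] (n : ℕ) (e : X ≃ Fin n)
    (T : Matrix X X K) (A : Finset X) :
    ∃ S : Fin A.card ↪o Fin n, cnt T A ≤ (univ.filter fun J : Fin A.card ↪o Fin n =>
      minor A.card (T.submatrix e.symm e.symm) S J ≠ 0).card := by
  refine ⟨conv_enum n e A.card A rfl, ?_⟩
  unfold cnt
  refine card_le_card_of_injOn
    (fun B => if h : B.card = A.card then conv_enum n e A.card B h else conv_enum n e A.card A rfl)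
    ?_ ?_
  · intro B hB
    simp only [coe_filter, Set.mem_ofPred_eq, mem_univ, true_and] at hB ⊢
    rw [dif_pos hB.1]
    exact conv_minor n e T A.card A B rfl hB.1 hB.2
  · intro B hB B' hB' hE
    simp only [coe_filter, Set.mem_ofPred_eq, mem_univ, true_and] at hB hB'
    simp only at hE
    rw [dif_pos hB.1, dif_pos hB'.1] at hE
    exact conv_inj n e A.card B B' hB.1 hB'.1 hE

end MP4270U
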