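import Pool.Agent.Lib_MP_4270a5_u.Rk

/-!
# MP_4270a5_nt, piece DIA: almost commuting with all coordinate projections means almost diagonal

PAPER PROOF. Let `q` be maximal such that there are `i j : Fin q → X` with `Set.range i`, `Set.range j` disjoint and
`(C.submatrix i j).det ≠ 0` (`q = 0` is possible; `i`, `j` are then injective). `q ≤ r`: for `u` = indicator of `range i` the submatrix
`(i, j)` of `Qz u * C - C * Qz u` is `C.submatrix i j` (`rk_minor`). Put `G = C_{·,j} (C_{i,j})⁻¹ C_{i,·}` (`rank ≤ q`). For `a ≠ b`,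
`a ∉ range j`, `b ∉ range i`: if also `a ∉ range i`, `b ∉ range j` then `C a b = G a b`, since
`det (fromBlocks C_{i,j} C_{i,b} C_{a,j} C_{a,b}) = det C_{i,j} * (C a b - G a b)` (`Matrix.det_fromBlocks₁₁`) and it vanishes by
maximality of `q`; if `a = i k`, row `a` of `C - G` vanishes, if `b = j k` column `b` of `C - G` vanishes. So with
`D a = C a a - G a a` the matrix `C - G - diagonal D` is zero outside the rows in `range j` and the columns in `range i` (in
positions with `a = b` it is zero anyway): rank `≤ 2q`. So `C - diagonal D = G + …` has rank `≤ 3q ≤ 3r`.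
-/

namespace MP4270U

open Finset

variable {K : Type*} [Field K] {X : Type*} [Fintype X] [DecidableEq X]

/-- there is a nonsingular submatrix of size `q` with disjoint sets of rows and columns -/
private def DiaP (C : Matrix X X K) (q : ℕ) : Prop :=
  ∃ i j : Fin q → X, Disjoint (Set.range i) (Set.range j) ∧ (C.submatrix i j).det ≠ 0

omit [DecidableEq X] [Fintype X] in
private theorem dia_zero (C : Matrix X X K) : DiaP C 0 :=
  ⟨Fin.elim0, Fin.elim0, by simp, by simp⟩

private theorem dia_le (C : Matrix X X K) (r : ℕ)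
    (h : ∀ u : X → ZMod 2, (Qz K u * C - C * Qz K u).rank ≤ r) {q : ℕ} (hq : DiaP C q) :
    q ≤ r := by
  classical
  obtain ⟨i, j, hd, hdet⟩ := hq
  have h1 := h fun x => if x ∈ Set.range i then 1 else 0
  refine (rk_minor (Qz K (fun x => if x ∈ Set.range i then 1 else 0) * C -
    C * Qz K fun x => if x ∈ Set.range i then 1 else 0) i j ?_).trans h1
  have e : (Qz K (fun x => if x ∈ Set.range i then 1 else 0) * C -
      C * Qz K fun x => if x ∈ Set.range i then 1 else 0).submatrix i j = C.submatrix i j := by
    ext k l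
    have hj : j l ∉ Set.range i := fun hh => Set.disjoint_left.1 hd hh ⟨l, rfl⟩
    rw [Matrix.submatrix_apply, Matrix.sub_apply, Matrix.submatrix_apply]
    unfold Qz
    rw [Matrix.diagonal_mul, Matrix.mul_diagonal]
    show (if (if i k ∈ Set.range i then (1 : ZMod 2) else 0) = 1 then (1 : K) else 0) *
      C (i k) (j l) - C (i k) (j l) *
        (if (if j l ∈ Set.range i then (1 : ZMod 2) else 0) = 1 then (1 : K) else 0) = _
    rw [if_pos (Set.mem_range_self k), if_neg hj, if_pos rfl, if_neg (by decide), one_mul,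
      mul_zero, sub_zero]
  rw [e]
  exact hdet

omit [DecidableEq X] [Fintype X] in
/-- the determinant with one more row and column -/
private theorem dia_step (C : Matrix X X K) {q : ℕ} (i j : Fin q → X)
    (hd : Disjoint (Set.range i) (Set.range j)) (hdet : (C.submatrix i j).det ≠ 0)
    (hmax : ¬ DiaP C (q + 1)) (a b : X) (hab : a ≠ b) (haj : a ∉ Set.range j)
    (hbi : b ∉ Set.range i) :
    (C.submatrix id j * (C.submatrix i j)⁻¹ * C.submatrix i id) a b = C a b := by
  classical
  by_contra hne
  apply hmax
  let e : Fin (q + 1) ≃ Fin q ⊕ Unit := Fintype.equivOfCardEq (by simp)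
  let i2 : Fin q ⊕ Unit → X := Sum.elim i fun _ => a
  let j2 : Fin q ⊕ Unit → X := Sum.elim j fun _ => b
  refine ⟨i2 ∘ e, j2 ∘ e, ?_, ?_⟩
  · rw [e.surjective.range_comp, e.surjective.range_comp, Set.disjoint_left]
    rintro _ ⟨s | s, rfl⟩ ⟨t | t, ht⟩
    · exact Set.disjoint_left.1 hd ⟨s, rfl⟩ ⟨t, ht⟩
    · exact hbi ⟨s, ht.symm⟩
    · exact haj ⟨t, ht⟩
    · exact hab ht.symm
  · have e1 : C.submatrix (i2 ∘ e) (j2 ∘ e) = (C.submatrix i2 j2).submatrix e e := rfl
    rw [e1, Matrix.det_submatrix_equiv_self]
    have e2 : C.submatrix i2 j2 = Matrix.fromBlocks (C.submatrix i j)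
        (C.submatrix i fun _ : Unit => b) (C.submatrix (fun _ : Unit => a) j)
        (C.submatrix (fun _ : Unit => a) fun _ : Unit => b) := by
      ext (s | s) (t | t) <;> rfl
    letI : Invertible (C.submatrix i j) :=
      Matrix.invertibleOfIsUnitDet _ (isUnit_iff_ne_zero.2 hdet)
    rw [e2, Matrix.det_fromBlocks₁₁]
    refine mul_ne_zero hdet ?_
    rw [Matrix.det_unique, Matrix.sub_apply, Matrix.invOf_eq_nonsing_inv]
    intro h0
    apply hne
    have h1 : (C.submatrix (fun _ : Unit => a) j * (C.submatrix i j)⁻¹ *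
        C.submatrix i fun _ : Unit => b) default default = C a b := (sub_eq_zero.1 h0).symm
    rw [← h1]
    simp only [Matrix.mul_apply, Matrix.submatrix_apply, id]

omit [DecidableEq X] [Fintype X] in
private theorem dia_row (C : Matrix X X K) {q : ℕ} (i j : Fin q → X)
    (hdet : (C.submatrix i j).det ≠ 0) (k : Fin q) (b : X) :
    (C.submatrix id j * (C.submatrix i j)⁻¹ * C.submatrix i id) (i k) b = C (i k) b := by
  have h1 : C.submatrix i j * (C.submatrix i j)⁻¹ = 1 :=
    Matrix.mul_nonsing_inv _ (isUnit_iff_ne_zero.2 hdet)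
  have h2 : (C.submatrix id j * (C.submatrix i j)⁻¹ * C.submatrix i id) (i k) b =
      (C.submatrix i j * (C.submatrix i j)⁻¹ * C.submatrix i id) k b := by
    simp only [Matrix.mul_apply, Matrix.submatrix_apply, id]
  rw [h2, h1, Matrix.one_mul, Matrix.submatrix_apply, id]

omit [DecidableEq X] [Fintype X] in
private theorem dia_col (C : Matrix X X K) {q : ℕ} (i j : Fin q → X)
    (hdet : (C.submatrix i j).det ≠ 0) (k : Fin q) (a : X) :
    (C.submatrix id j * (C.submatrix i j)⁻¹ * C.submatrix i id) a (j k) = C a (j k) := by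
  have h1 : (C.submatrix i j)⁻¹ * C.submatrix i j = 1 :=
    Matrix.nonsing_inv_mul _ (isUnit_iff_ne_zero.2 hdet)
  have h2 : (C.submatrix id j * (C.submatrix i j)⁻¹ * C.submatrix i id) a (j k) =
      (C.submatrix id j * ((C.submatrix i j)⁻¹ * C.submatrix i j)) a k := by
    rw [Matrix.mul_assoc]
    simp only [Matrix.mul_apply, Matrix.submatrix_apply, id]
  rw [h2, h1, Matrix.mul_one, Matrix.submatrix_apply, id]

theorem dia (C : Matrix X X K) (r : ℕ)
    (h : ∀ u : X → ZMod 2, (Qz K u * C - C * Qz K u).rank ≤ r) :
    ∃ D : X → K, (C - Matrix.diagonal D).rank ≤ 3 * r := by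
  classical
  -- the maximal size
  obtain ⟨q, hq, hmax⟩ : ∃ q, DiaP C q ∧ ¬ DiaP C (q + 1) := by
    by_contra hcon
    push Not at hcon
    have h1 : ∀ q, DiaP C q := by
      intro q
      induction q with
      | zero => exact dia_zero C
      | succ q ih => exact hcon q ih
    have h2 := dia_le C r h (h1 (r + 1))
    omega
  have hqr := dia_le C r h hq
  obtain ⟨i, j, hd, hdet⟩ := hq
  let G : Matrix X X K := C.submatrix id j * (C.submatrix i j)⁻¹ * C.submatrix i id
  have hG : G.rank ≤ q := by
    refine (Matrix.rank_mul_le_left _ _).trans ?_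
    have h1 := Matrix.rank_le_card_width (C.submatrix id j * (C.submatrix i j)⁻¹)
    rwa [Fintype.card_fin] at h1
  have hE : ∀ a b, a ≠ b → a ∉ Set.range j → b ∉ Set.range i → C a b = G a b := by
    intro a b hab haj hbi
    by_cases hai : a ∈ Set.range i
    · obtain ⟨k, rfl⟩ := hai
      exact (dia_row C i j hdet k b).symm
    · by_cases hbj : b ∈ Set.range j
      · obtain ⟨k, rfl⟩ := hbj
        exact (dia_col C i j hdet k a).symm
      · exact (dia_step C i j hd hdet hmax a b hab haj hbi).symm
  refine ⟨fun a => C a a - G a a, ?_⟩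
  let H : Matrix X X K := C - G - Matrix.diagonal fun a => C a a - G a a
  have hH : ∀ a b, a ∉ Set.range j → b ∉ Set.range i → H a b = 0 := by
    intro a b haj hbi
    show (C a b - G a b) - Matrix.diagonal (fun a => C a a - G a a) a b = 0
    by_cases hab : a = b
    · subst hab
      rw [Matrix.diagonal_apply_eq, sub_self]
    · rw [Matrix.diagonal_apply_ne _ hab, sub_zero, hE a b hab haj hbi, sub_self]
  let H1 : Matrix X X K := fun a b => if a ∈ Set.range j then H a b else 0
  let H2 : Matrix X X K := fun a b => if a ∈ Set.range j then 0 else H a b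
  have hsum : H = H1 + H2 := by
    ext a b
    show H a b = (if a ∈ Set.range j then H a b else 0) + if a ∈ Set.range j then 0 else H a b
    by_cases haj : a ∈ Set.range j
    · rw [if_pos haj, if_pos haj, add_zero]
    · rw [if_neg haj, if_neg haj, zero_add]
  have hH1 : H1.rank ≤ q := by
    refine (rk_rows H1 (univ.image j) ?_).trans ?_
    · intro a b ha
      have haj : a ∉ Set.range j := by
        rintro ⟨k, rfl⟩
        exact ha (mem_image_of_mem j (mem_univ k))
      exact if_neg haj
    · refine card_image_le.trans ?_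
      rw [card_univ, Fintype.card_fin]
  have hH2 : H2.rank ≤ q := by
    refine (rk_cols H2 (univ.image i) ?_).trans ?_
    · intro a b hb
      have hbi : b ∉ Set.range i := by
        rintro ⟨k, rfl⟩
        exact hb (mem_image_of_mem i (mem_univ k))
      show (if a ∈ Set.range j then 0 else H a b) = 0
      by_cases haj : a ∈ Set.range j
      · rw [if_pos haj]
      · rw [if_neg haj, hH a b haj hbi]
    · refine card_image_le.trans ?_
      rw [card_univ, Fintype.card_fin]
  have hfin : C - Matrix.diagonal (fun a => C a a - G a a) = G + (H1 + H2) := by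
    rw [← hsum]
    show C - Matrix.diagonal (fun a => C a a - G a a) =
      G + (C - G - Matrix.diagonal fun a => C a a - G a a)
    abel
  rw [hfin]
  have h1 := rk_add G (H1 + H2)
  have h2 := rk_add H1 H2
  omega

end MP4270U
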