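import Pool.Agent.Lib_MP_4270a5_u.Rk

/-!
# MP_4270a5_nt, piece HOM

PAPER PROOF. `hom_mul`: `Qz (u*v) = Qz u * Qz v`. `Qz u * Qz v * T = Qz u * (T * Qz v' + E) = T * Qz u' * Qz v' + E' * Qz v' + Qz u * E`,
so `T * (Qz w - Qz (u'*v'))` has rank `≤ 3r`; `T` is invertible and the rank of a diagonal matrix is the number of nonzero entries.
`hom_add`: the same with the reflections `1 - 2 * Qz u` (`(1 - 2 Qz u)(1 - 2 Qz v) = 1 - 2 Qz (u+v)`, characteristic zero).
`hom_tr`: let `P` be the permutation matrix with `T = P * T * P⁻¹`; `Qz (fun y => u (y*t)) = P * Qz u * P⁻¹`.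
(It may be easier to use `submatrix` with the equivalence `Equiv.mulRight t` instead of `P`:
`(A * B).submatrix e e = A.submatrix e e * B.submatrix e e`, `T.submatrix e e = T`, `rank` is invariant.)
-/

namespace MP4270U

open Finset

variable {K : Type*} [Field K] {X : Type*} [Fintype X] [DecidableEq X]

private theorem hom_entry (a b : ZMod 2) (c : K) (hc : c ≠ 0) :
    (if a = 1 then c else 0) - (if b = 1 then c else 0) ≠ 0 ↔ a ≠ b := by
  have h01 : (0 : ZMod 2) ≠ 1 := by decide
  have hab : ∀ z : ZMod 2, z = 0 ∨ z = 1 := by decide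
  rcases hab a with rfl | rfl <;> rcases hab b with rfl | rfl
  · simp
  · rw [if_neg h01, if_pos rfl, zero_sub]
    simp [hc]
  · rw [if_neg h01, if_pos rfl, sub_zero]
    simp [hc]
  · simp

private theorem hom_mul_le {l m n : Type*} [Fintype l] [Fintype m] [Fintype n] (A : Matrix l m K)
    (B : Matrix m n K) {r : ℕ} (h : B.rank ≤ r) : (A * B).rank ≤ r :=
  (Matrix.rank_mul_le_right A B).trans h

private theorem hom_mul_le' {l m n : Type*} [Fintype l] [Fintype m] [Fintype n] (A : Matrix l m K)
    (B : Matrix m n K) {r : ℕ} (h : A.rank ≤ r) : (A * B).rank ≤ r :=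
  (Matrix.rank_mul_le_left A B).trans h

/-- a multiple `c` of the difference of two projections -/
private theorem hom_dist (T : Matrix X X K) (hdet : T.det ≠ 0) (c : K) (hc : c ≠ 0)
    (w z : X → ZMod 2) : (T * (c • (Qz K w - Qz K z))).rank = hammingDist w z := by
  classical
  rw [Matrix.rank_mul_eq_right_of_det_ne_zero T _ hdet]
  have h1 : c • (Qz K w - Qz K z)
      = Matrix.diagonal fun x => (if w x = 1 then c else 0) - (if z x = 1 then c else 0) := by
    unfold Qz
    ext i j
    by_cases hij : i = j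
    · subst hij
      simp only [Matrix.smul_apply, Matrix.sub_apply, Matrix.diagonal_apply_eq, smul_eq_mul, mul_sub,
        mul_ite, mul_one, mul_zero]
    · simp only [Matrix.smul_apply, Matrix.sub_apply, Matrix.diagonal_apply_ne _ hij, smul_eq_mul,
        sub_zero, mul_zero]
  rw [h1, rk_diag]
  unfold hammingNorm hammingDist
  congr 1
  ext x
  simp only [Finset.mem_filter, Finset.mem_univ, true_and]
  exact hom_entry (w x) (z x) c hc

private theorem Qz_mul (u v : X → ZMod 2) : Qz K (u * v) = Qz K u * Qz K v := by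
  unfold Qz
  rw [Matrix.diagonal_mul_diagonal]
  congr 1
  ext x
  have hab : ∀ z : ZMod 2, z = 0 ∨ z = 1 := by decide
  have h01 : (0 : ZMod 2) ≠ 1 := by decide
  rw [Pi.mul_apply]
  rcases hab (u x) with h | h <;> rcases hab (v x) with h' | h' <;> simp [h, h']

/-- the reflections -/
private theorem Qz_add (u v : X → ZMod 2) :
    (1 - (2 : K) • Qz K (u + v)) = (1 - (2 : K) • Qz K u) * (1 - (2 : K) • Qz K v) := by
  have hab : ∀ z : ZMod 2, z = 0 ∨ z = 1 := by decide
  have h11 : (1 : ZMod 2) + 1 = 0 := by decide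
  have h1 : ∀ u : X → ZMod 2, (1 - (2 : K) • Qz K u)
      = Matrix.diagonal fun x => if u x = 1 then (-1 : K) else 1 := by
    intro u
    unfold Qz
    ext i j
    by_cases hij : i = j
    · subst hij
      simp only [Matrix.smul_apply, Matrix.sub_apply, Matrix.diagonal_apply_eq, smul_eq_mul,
        Matrix.one_apply_eq]
      split_ifs
      · norm_num
      · norm_num
    · simp only [Matrix.smul_apply, Matrix.sub_apply, Matrix.diagonal_apply_ne _ hij, smul_eq_mul,
        sub_zero, mul_zero, Matrix.one_apply_ne hij]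
  rw [h1, h1, h1, Matrix.diagonal_mul_diagonal]
  congr 1
  ext x
  rw [Pi.add_apply]
  rcases hab (u x) with h | h <;> rcases hab (v x) with h' | h' <;> simp [h, h', h11]

theorem hom_mul (T : Matrix X X K) (hdet : T.det ≠ 0) (r : ℕ) (u v u' v' w : X → ZMod 2)
    (hu : (Qz K u * T - T * Qz K u').rank ≤ r) (hv : (Qz K v * T - T * Qz K v').rank ≤ r)
    (hw : (Qz K (u * v) * T - T * Qz K w).rank ≤ r) : hammingDist w (u' * v') ≤ 3 * r := by
  rw [← hom_dist T hdet 1 one_ne_zero w (u' * v')]
  have h1 : T * ((1 : K) • (Qz K w - Qz K (u' * v')))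
      = (Qz K u * T - T * Qz K u') * Qz K v' + Qz K u * (Qz K v * T - T * Qz K v')
        - (Qz K (u * v) * T - T * Qz K w) := by
    rw [one_smul, Qz_mul, Qz_mul]
    noncomm_ring
  rw [h1]
  have h2 := rk_sub ((Qz K u * T - T * Qz K u') * Qz K v' + Qz K u * (Qz K v * T - T * Qz K v'))
    (Qz K (u * v) * T - T * Qz K w)
  have h3 := rk_add ((Qz K u * T - T * Qz K u') * Qz K v') (Qz K u * (Qz K v * T - T * Qz K v'))
  have h4 := hom_mul_le' (Qz K u * T - T * Qz K u') (Qz K v') hu
  have h5 := hom_mul_le (Qz K u) (Qz K v * T - T * Qz K v') hv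
  omega

theorem hom_add [CharZero K] (T : Matrix X X K) (hdet : T.det ≠ 0) (r : ℕ)
    (u v u' v' w : X → ZMod 2)
    (hu : (Qz K u * T - T * Qz K u').rank ≤ r) (hv : (Qz K v * T - T * Qz K v').rank ≤ r)
    (hw : (Qz K (u + v) * T - T * Qz K w).rank ≤ r) : hammingDist w (u' + v') ≤ 3 * r := by
  rw [← hom_dist T hdet 2 two_ne_zero w (u' + v')]
  set R : (X → ZMod 2) → Matrix X X K := fun u => 1 - (2 : K) • Qz K u with hR
  have hadd : ∀ u v, R (u + v) = R u * R v := fun u v => Qz_add u v
  have hE : ∀ (a b : X → ZMod 2), (Qz K a * T - T * Qz K b).rank ≤ r → (R a * T - T * R b).rank ≤ r := by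
    intro a b hab
    have h1 : R a * T - T * R b = ((-2 : K) • (1 : Matrix X X K)) * (Qz K a * T - T * Qz K b) := by
      rw [hR]
      simp only [sub_mul, mul_sub, one_mul, mul_one, Matrix.smul_mul, Matrix.mul_smul]
      rw [neg_smul, neg_smul]
      abel
    rw [h1]
    exact hom_mul_le _ _ hab
  have hu1 := hE _ _ hu
  have hv1 := hE _ _ hv
  have hw1 := hE _ _ hw
  have h1 : T * ((2 : K) • (Qz K w - Qz K (u' + v')))
      = (R (u + v) * T - T * R w) - ((R u * T - T * R u') * R v' + R u * (R v * T - T * R v')) := by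
    have h2 : (2 : K) • (Qz K w - Qz K (u' + v')) = R (u' + v') - R w := by
      rw [hR]
      simp only [smul_sub]
      abel
    rw [h2, hadd, hadd]
    noncomm_ring
  rw [h1]
  have h2 := rk_sub (R (u + v) * T - T * R w) ((R u * T - T * R u') * R v' + R u * (R v * T - T * R v'))
  have h3 := rk_add ((R u * T - T * R u') * R v') (R u * (R v * T - T * R v'))
  have h4 := hom_mul_le' (R u * T - T * R u') (R v') hu1
  have h5 := hom_mul_le (R u) (R v * T - T * R v') hv1
  omega

theorem hom_tr [CommGroup X] (T : Matrix X X K) (hT : ∀ a b c, T (a * c) (b * c) = T a b)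
    (hdet : T.det ≠ 0) (r : ℕ) (t : X) (u u' w : X → ZMod 2)
    (hu : (Qz K u * T - T * Qz K u').rank ≤ r)
    (hw : (Qz K (fun y => u (y * t)) * T - T * Qz K w).rank ≤ r) :
    hammingDist w (fun y => u' (y * t)) ≤ 2 * r := by
  rw [← hom_dist T hdet 1 one_ne_zero w (fun y => u' (y * t))]
  set e : X ≃ X := Equiv.mulRight t with he
  have hTe : T.submatrix e e = T := by
    ext a b
    exact hT a b t
  have hQ : ∀ z : X → ZMod 2, (Qz K z).submatrix e e = Qz K (fun y => z (y * t)) := by
    intro z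
    unfold Qz
    ext a b
    rw [Matrix.submatrix_apply]
    by_cases hab : a = b
    · subst hab
      rw [Matrix.diagonal_apply_eq, Matrix.diagonal_apply_eq]
      rfl
    · rw [Matrix.diagonal_apply_ne _ hab, Matrix.diagonal_apply_ne _ (fun h => hab (e.injective h))]
  have h1 : (Qz K u * T - T * Qz K u').submatrix e e
      = Qz K (fun y => u (y * t)) * T - T * Qz K (fun y => u' (y * t)) := by
    rw [Matrix.submatrix_sub, Pi.sub_apply, Pi.sub_apply]
    rw [← Matrix.submatrix_mul_equiv (Qz K u) T e e e, ← Matrix.submatrix_mul_equiv T (Qz K u') e e e, hTe,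
      hQ, hQ]
  have h2 : ((Qz K u * T - T * Qz K u').submatrix e e).rank ≤ r := by
    rw [Matrix.rank_submatrix]
    exact hu
  rw [h1] at h2
  have h3 : T * ((1 : K) • (Qz K w - Qz K (fun y => u' (y * t))))
      = (Qz K (fun y => u (y * t)) * T - T * Qz K (fun y => u' (y * t)))
        - (Qz K (fun y => u (y * t)) * T - T * Qz K w) := by
    rw [one_smul]
    noncomm_ring
  rw [h3]
  have h4 := rk_sub (Qz K (fun y => u (y * t)) * T - T * Qz K (fun y => u' (y * t)))
    (Qz K (fun y => u (y * t)) * T - T * Qz K w)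
  omega

end MP4270U
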