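import Pool.Agent.Lib_MP_4270a5_u.Comb
import Pool.Agent.Lib_MP_4270a5_u.Blk
import Pool.Agent.Lib_MP_4270a5_u.Hom
import Pool.Agent.Lib_MP_4270a5_u.Dia

/-!
# MP_4270a5_nt, piece CORE: circulants with few nonvanishing minors are almost monomial

PAPER PROOF. `r = 4d`, `R = 12 d`. `blk` gives `w` for every `u`: a map `B` (choice), `B 1 = 1`. `hom_add`, `hom_mul`, `hom_tr` give
the hypotheses of `comb` with `R = 12 d` (`44 * 12 = 528`). So there is `s` with `dist (B u) (u (· * s)) ≤ 276 d` for all `u`.
With `C a b = T a (b * s⁻¹)`: `(Qz u * T - T * Qz (u (· * s)))` has rank `≤ 4d + 276 d = 280 d`; its `(a, b * s⁻¹)` entry is the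
`(a, b)` entry of `Qz u * C - C * Qz u`. `dia`: `D` with `rank (C - diagonal D) ≤ 840 d`. `C (a*t) (b*t) = C a b`, so
`rank (diagonal D - diagonal (D (· * t))) ≤ 1680 d`, i.e. `#{x | D x ≠ D (x * t)} ≤ 1680 d` for all `t`; averaging over `t` there is
`x₀` with `#{y | D y ≠ D x₀} ≤ 1680 d`. `δ = D x₀`: `rank (C - δ) ≤ 2520 d`. Translate back.
-/

namespace MP4270U

open Finset

variable {K : Type*} [Field K] [CharZero K] {X : Type*} [Fintype X] [DecidableEq X] [CommGroup X]

private theorem core_diag [DecidableEq K] {D E : X → K} {r : ℕ}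
    (h : (univ.filter fun x => D x ≠ E x).card ≤ r) :
    (Matrix.diagonal D - Matrix.diagonal E : Matrix X X K).rank ≤ r := by
  refine (rk_rows _ (univ.filter fun x => D x ≠ E x) fun a b ha => ?_).trans h
  have h1 : D a = E a := by
    by_contra hne
    exact ha (by rw [mem_filter]; exact ⟨mem_univ _, hne⟩)
  rw [Matrix.sub_apply, Matrix.diagonal_apply, Matrix.diagonal_apply, h1, sub_self]

private theorem core_filter [DecidableEq K] {D E : X → K} {r : ℕ}
    (h : (Matrix.diagonal D - Matrix.diagonal E : Matrix X X K).rank ≤ r) :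
    (univ.filter fun x => D x ≠ E x).card ≤ r := by
  rw [Matrix.diagonal_sub, rk_diag] at h
  refine le_trans (card_le_card fun x hx => ?_) h
  rw [mem_filter] at hx ⊢
  exact ⟨mem_univ _, fun h0 => hx.2 (sub_eq_zero.1 h0)⟩

theorem core (T : Matrix X X K) (hT : ∀ a b c, T (a * c) (b * c) = T a b) (hdet : T.det ≠ 0)
    (d : ℕ) (hd : ∀ A, cnt T A < 2 ^ (d + 1)) (hn : 528 * d < Fintype.card X) :
    ∃ (s : X) (δ : K),
      (T - (Matrix.of fun a b => if a = b * s then δ else 0 : Matrix X X K)).rank ≤ 2520 * d := by
  classical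
  choose B hB1 hB using fun u : X → ZMod 2 => blk T hdet d hd u
  obtain ⟨s, hs⟩ := comb B (12 * d) (by omega)
    (fun u v => (hom_add T hdet (4 * d) u v (B u) (B v) (B (u + v)) (hB u) (hB v) (hB _)).trans
      (by omega))
    (fun u v => (hom_mul T hdet (4 * d) u v (B u) (B v) (B (u * v)) (hB u) (hB v) (hB _)).trans
      (by omega))
    (fun t u => (hom_tr T hT hdet (4 * d) t u (B u) (B fun y => u (y * t)) (hB u) (hB _)).trans
      (by omega))
    (hB1 1 rfl)
  have h3 : ∀ u : X → ZMod 2, (Qz K u * T - T * Qz K (fun y => u (y * s))).rank ≤ 280 * d := by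
    intro u
    have h4 : Qz K u * T - T * Qz K (fun y => u (y * s)) =
        (Qz K u * T - T * Qz K (B u)) + T * (Qz K (B u) - Qz K (fun y => u (y * s))) := by
      rw [mul_sub]; abel
    have h5 : (Qz K (B u) - Qz K (fun y => u (y * s))).rank ≤ 276 * d := by
      refine (rk_rows _ (univ.filter fun x => B u x ≠ u (x * s)) fun a b ha => ?_).trans ?_
      · have h1 : B u a = u (a * s) := by
          by_contra hne
          exact ha (by rw [mem_filter]; exact ⟨mem_univ _, hne⟩)
        unfold Qz
        rw [Matrix.sub_apply, Matrix.diagonal_apply, Matrix.diagonal_apply, h1, sub_self]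
      · have h6 := hs u
        unfold hammingDist at h6
        refine le_trans (le_of_eq ?_) (h6.trans (by omega))
        congr 1
    rw [h4]
    refine (rk_add _ _).trans ?_
    have h7 := (Matrix.rank_mul_le_right T (Qz K (B u) - Qz K (fun y => u (y * s)))).trans h5
    have h8 := hB u
    omega
  set e := Equiv.mulRight s⁻¹ with he
  set C : Matrix X X K := T.submatrix (Equiv.refl X) e with hC
  have hCa : ∀ a b, C a b = T a (b * s⁻¹) := fun a b => rfl
  have h9 : ∀ u : X → ZMod 2, (Qz K u * C - C * Qz K u).rank ≤ 280 * d := by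
    intro u
    have h10 : Qz K u * C - C * Qz K u =
        (Qz K u * T - T * Qz K (fun y => u (y * s))).submatrix (Equiv.refl X) e := by
      ext a b
      unfold Qz
      rw [Matrix.submatrix_apply, Matrix.sub_apply, Matrix.sub_apply, Matrix.diagonal_mul,
        Matrix.mul_diagonal, Matrix.diagonal_mul, Matrix.mul_diagonal]
      simp only [hCa, he, Equiv.refl_apply, Equiv.coe_mulRight, inv_mul_cancel_right]
      rfl
    rw [h10, Matrix.rank_submatrix]
    exact h3 u
  obtain ⟨D, hD⟩ := dia C (280 * d) h9
  have h11 : ∀ t : X, (univ.filter fun x => D x ≠ D (x * t)).card ≤ 1680 * d := by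
    intro t
    refine core_filter (E := fun x => D (x * t)) ?_
    have h12 : (C - Matrix.diagonal D).submatrix (Equiv.mulRight t) (Equiv.mulRight t) =
        C - Matrix.diagonal (fun x => D (x * t)) := by
      ext a b
      rw [Matrix.submatrix_apply, Matrix.sub_apply, Matrix.sub_apply, hCa, hCa]
      simp only [Equiv.coe_mulRight]
      congr 1
      · rw [mul_right_comm b t s⁻¹, hT]
      · by_cases hab : a = b
        · subst hab
          rw [Matrix.diagonal_apply_eq, Matrix.diagonal_apply_eq]
        · rw [Matrix.diagonal_apply_ne _ hab,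
            Matrix.diagonal_apply_ne _ (fun h => hab (mul_right_cancel h))]
    have h13 : (Matrix.diagonal D - Matrix.diagonal (fun x => D (x * t)) : Matrix X X K) =
        (C - Matrix.diagonal (fun x => D (x * t))) - (C - Matrix.diagonal D) := by abel
    rw [h13]
    refine (rk_sub _ _).trans ?_
    have h14 : (C - Matrix.diagonal (fun x => D (x * t))).rank ≤ 3 * (280 * d) := by
      rw [← h12, Matrix.rank_submatrix]
      exact hD
    omega
  obtain ⟨x₀, -, hx₀⟩ : ∃ x₀ ∈ (univ : Finset X),
      (univ.filter fun y => D y ≠ D x₀).card ≤ 1680 * d := by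
    refine exists_le_of_sum_le ⟨1, mem_univ _⟩ ?_
    calc ∑ x : X, (univ.filter fun y => D y ≠ D x).card
        = ∑ x : X, (univ.filter fun t => D x ≠ D (x * t)).card := by
          refine sum_congr rfl fun x _ => ?_
          refine (card_bij (fun t _ => x * t) ?_ ?_ ?_).symm
          · intro t ht
            rw [mem_filter] at ht ⊢
            exact ⟨mem_univ _, fun h => ht.2 h.symm⟩
          · intro t _ t' _ h
            exact mul_left_cancel h
          · intro y hy
            rw [mem_filter] at hy
            refine ⟨x⁻¹ * y, ?_, mul_inv_cancel_left x y⟩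
            rw [mem_filter, mul_inv_cancel_left]
            exact ⟨mem_univ _, fun h => hy.2 h.symm⟩
      _ = ∑ t : X, (univ.filter fun x => D x ≠ D (x * t)).card := by
          simp only [card_filter]
          exact sum_comm
      _ ≤ ∑ t : X, 1680 * d := sum_le_sum fun t _ => h11 t
  refine ⟨s, D x₀, ?_⟩
  have h15 : (C - Matrix.diagonal (fun _ => D x₀)).rank ≤ 2520 * d := by
    have h16 : (C - Matrix.diagonal (fun _ => D x₀) : Matrix X X K) =
        (C - Matrix.diagonal D) + (Matrix.diagonal D - Matrix.diagonal (fun _ => D x₀)) := by abel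
    rw [h16]
    refine (rk_add _ _).trans ?_
    have h17 := core_diag (E := fun _ => D x₀) hx₀
    omega
  have h18 : (T - (Matrix.of fun a b => if a = b * s then D x₀ else 0 : Matrix X X K)) =
      (C - Matrix.diagonal (fun _ => D x₀)).submatrix (Equiv.refl X) (Equiv.mulRight s) := by
    ext a b
    rw [Matrix.submatrix_apply, Matrix.sub_apply, Matrix.sub_apply, hCa, Matrix.of_apply]
    simp only [Equiv.refl_apply, Equiv.coe_mulRight, mul_inv_cancel_right]
    congr 1
  rw [h18, Matrix.rank_submatrix]
  exact h15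

end MP4270U
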