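import Mathlib

/-!
# MP_4270a5_nt, third part: Kummer sums with integral components (definitions)
-/

namespace MP4270U

open Finset

/-- The coordinate projection of the support of `u`. -/
def Qz (K : Type*) [Field K] {X : Type*} [DecidableEq X] (u : X → ZMod 2) : Matrix X X K :=
  Matrix.diagonal fun x => if u x = 1 then 1 else 0

/-- The number of sets `B` of columns, `|B| = |A|`, such that the minor of `T` with rows `A` and
columns `B` does not vanish. -/
noncomputable def cnt {K : Type*} [Field K] {X : Type*} [Fintype X] [DecidableEq X]
    (T : Matrix X X K) (A : Finset X) : ℕ := by
  classical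
  exact (univ.filter fun B : Finset X => B.card = A.card ∧
    LinearIndepOn K (fun (b : X) (a : A) => T a b) (B : Set X)).card

end MP4270U
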