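import Pool.Agent.Lib_MP_4270a5_u.KumC

/-!
# MP_4270a5_nt, piece EIG: from a bound for the number of minors to an eigenvector

PAPER PROOF. `n = |G|`, `d = ⌊n B / log 2⌋`: `cnt ≤ exp (n B) < 2^(d+1)`, and `5040 d ≤ 5040 n B / log 2 < n`. `chr_core`: `χ`, `δ` with `y τ = δ χ τ` on a
set `T` with `2|T| > n`. For `g ∈ G` there are `τ₁, τ₁ g ∈ T` (pigeonhole, `kum_two` in `Kum.lean`): `y τ₁ = δ χ τ₁`, `y (τ₁ g) = δ χ τ₁ χ g`. `s` for `τ₁`:
`s (y g) = y (τ₁ g)`, `s (y 1) = y τ₁`, `s (χ g) = χ g`, so `s (y g) = s (χ g * y 1)` and `y g = χ g * y 1`. (`χ g` is an `N`-th root of unity.)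
-/

open Polynomial IntermediateField Finset

namespace MP4270U

open MP4270

/-- pigeonhole -/
private theorem eig_two {G : Type} [Group G] [Fintype G] [DecidableEq G] (T : Finset G)
    (hT : Fintype.card G < 2 * T.card) (g : G) : ∃ τ ∈ T, τ * g ∈ T := by
  by_contra hcon
  push Not at hcon
  have h1 : (T.image fun τ => τ * g).card = T.card :=
    Finset.card_image_of_injective _ (mul_left_injective g)
  have h2 : Disjoint T (T.image fun τ => τ * g) := by
    rw [Finset.disjoint_right]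
    intro x hx
    obtain ⟨τ, hτ, rfl⟩ := Finset.mem_image.mp hx
    exact hcon τ hτ
  have h3 := Finset.card_union_of_disjoint h2
  have h4 := Finset.card_le_univ (T ∪ T.image fun τ => τ * g)
  rw [h3, h1] at h4
  omega

private theorem eig_num {n d : ℕ} {B : ℝ} (hn : 0 < n) (h0 : 0 ≤ B) (hh : B < Real.log 2 / 5040)
    (hd : d = ⌊n * B / Real.log 2⌋₊) :
    Real.exp (n * B) < 2 ^ (d + 1) ∧ 5040 * d < n := by
  have hl : 0 < Real.log 2 := Real.log_pos one_lt_two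
  have hnR : (0 : ℝ) < n := by exact_mod_cast hn
  have hx : 0 ≤ n * B / Real.log 2 := by positivity
  have h1 : n * B / Real.log 2 < d + 1 := by
    rw [hd]
    exact Nat.lt_floor_add_one _
  have h2 : (d : ℝ) ≤ n * B / Real.log 2 := by
    rw [hd]
    exact Nat.floor_le hx
  constructor
  · rw [div_lt_iff₀ hl] at h1
    have h3 : (2 : ℝ) ^ (d + 1) = Real.exp ((d + 1) * Real.log 2) := by
      rw [← Real.rpow_natCast, Real.rpow_def_of_pos (by norm_num : (0 : ℝ) < 2)]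
      push_cast
      congr 1
      ring
    rw [h3]
    exact Real.exp_lt_exp.mpr h1
  · rw [le_div_iff₀ hl] at h2
    rw [lt_div_iff₀ (by norm_num : (0 : ℝ) < 5040)] at hh
    have h4 : (5040 * (d : ℝ)) < n := by
      have h5 : (n : ℝ) * (B * 5040) < n * Real.log 2 := mul_lt_mul_of_pos_left hh hnR
      have h6 : 5040 * ((d : ℝ) * Real.log 2) ≤ 5040 * (n * B) :=
        mul_le_mul_of_nonneg_left h2 (by norm_num)
      have h7 : (5040 * (d : ℝ)) * Real.log 2 < n * Real.log 2 := by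
        calc (5040 * (d : ℝ)) * Real.log 2 = 5040 * ((d : ℝ) * Real.log 2) := by ring
          _ ≤ 5040 * (n * B) := h6
          _ = n * (B * 5040) := by ring
          _ < n * Real.log 2 := h5
      exact lt_of_mul_lt_mul_right h7 hl.le
    exact_mod_cast h4

theorem eig_step {M : Type} [Field M] [CharZero M] [Algebra ℚ M] {G : Type} [CommGroup G]
    [Fintype G] (N : ℕ) (hG : ∀ τ : G, τ ^ N = 1) [HasEnoughRootsOfUnity M (Monoid.exponent G)]
    {ι : Type} [Fintype ι] (π : ι → (G →* Mˣ)) (a : ι → M) (y : G → M)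
    (hy : ∀ τ, y τ = ∑ i, a i * ((π i τ : Mˣ) : M)) (hy0 : y 1 ≠ 0)
    (hs : ∀ τ : G, ∃ s : M ≃ₐ[ℚ] M, (∀ ω : M, ω ^ N = 1 → s ω = ω) ∧ ∀ τ', s (y τ') = y (τ * τ'))
    (B : ℝ) (hB0 : 0 ≤ B) (hB : B < Real.log 2 / 5040)
    (hcnt : ∀ A, (cnt (TK π a) A : ℝ) ≤ Real.exp (Fintype.card G * B)) :
    ∃ χ : G →* Mˣ, ∀ τ, y τ = ((χ τ : Mˣ) : M) * y 1 := by
  classical
  obtain ⟨d, hd⟩ : ∃ d : ℕ, d = ⌊Fintype.card G * B / Real.log 2⌋₊ := ⟨_, rfl⟩
  obtain ⟨hd1, hd2⟩ := eig_num Fintype.card_pos hB0 hB hd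
  have hcnt' : ∀ A, cnt (TK π a) A < 2 ^ (d + 1) := by
    intro A
    have h1 := (hcnt A).trans_lt hd1
    exact_mod_cast h1
  have hyne : ∀ τ, y τ ≠ 0 := by
    intro τ
    obtain ⟨s, -, h1⟩ := hs τ
    have h2 := h1 1
    rw [mul_one] at h2
    rw [← h2]
    exact (map_ne_zero_iff _ s.injective).mpr hy0
  obtain ⟨χ, δ, hT⟩ := chr_core π a y hy hyne d hcnt' hd2
  refine ⟨χ, fun g => ?_⟩
  obtain ⟨τ₁, h1, h2⟩ := eig_two _ hT g
  have e1 := (Finset.mem_filter.mp h1).2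
  have e2 := (Finset.mem_filter.mp h2).2
  obtain ⟨s, hsω, hsy⟩ := hs τ₁
  have h3 : s ((χ g : Mˣ) : M) = ((χ g : Mˣ) : M) := by
    apply hsω
    rw [← Units.val_pow_eq_pow_val, ← map_pow, hG, map_one, Units.val_one]
  have h4 := hsy 1
  rw [mul_one] at h4
  apply s.injective
  rw [hsy g, e2, map_mul s, h3, h4, e1, map_mul χ, Units.val_mul]
  ring

end MP4270U
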