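import Pool.Agent.Lib_MP_4270a5_u.Kum
import Pool.Agent.Lib_MP_4270a5_nt.Bridge

/-!
# MP_4270a5_nt, piece FIN: the theorems in `ℂ`

PAPER PROOF. `fin_A`: all numbers are algebraic; transfer to `Qb` by `exists_ii`, `L.comap iiA` (see `Bridge.lean`), dropping the
indices `i` with `g i = 0`; apply `kum_abs`. `fin_B`: `L` = the field generated by `F`, the `N`-th roots of unity, the `b_j` and
the `γ_j` is a number field contained in the coefficient field; if `fin_A` does not give the bound `log 2 / 10080` then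
`α = c * g_j`, `c ∈ L`, and `final_C` with `k = 1` applies.
-/

open Polynomial IntermediateField Finset

namespace MP4270U

open MP4270

/-- The absolute logarithmic Weil height (verbatim the formula of the hand-ins). -/
noncomputable def wh (α : ℂ) : ℝ :=
  (Real.log (((Finset.range ((minpoly ℚ α).natDegree + 1)).lcm
      (fun i => ((minpoly ℚ α).coeff i).den) : ℕ) : ℝ)
    + (((minpoly ℚ α).map (algebraMap ℚ ℂ)).roots.map (fun z => Real.log (max 1 ‖z‖))).sum)
  / ((minpoly ℚ α).natDegree : ℝ)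

/-- `F(μ_∞, Γ^{1/n} : n an S-number)` -/
noncomputable def cf (F : IntermediateField ℚ ℂ) (Γ : Subgroup ℂˣ) (S : Finset ℕ) :
    IntermediateField ℚ ℂ :=
  F ⊔ IntermediateField.adjoin ℚ ({z : ℂ | ∃ n : ℕ, 0 < n ∧ z ^ n = 1} ∪
    {z : ℂ | ∃ n : ℕ, 0 < n ∧ n.primeFactors ⊆ S ∧ ∃ g ∈ Γ, z ^ n = (g : ℂ)})

/-- the inverse image of a number field is a number field -/
private theorem comap_fd (L : IntermediateField ℚ ℂ) [FiniteDimensional ℚ L] :
    FiniteDimensional ℚ (L.comap iiA) := by
  let f : (L.comap iiA) →ₗ[ℚ] L :=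
    { toFun := fun x => ⟨iiA x, x.2⟩
      map_add' := fun x y => by
        apply Subtype.ext
        change iiA ((x : Qb) + y) = iiA x + iiA y
        exact map_add _ _ _
      map_smul' := fun q x => by
        apply Subtype.ext
        change iiA (q • (x : Qb)) = q • iiA x
        rw [Algebra.smul_def, Algebra.smul_def, map_mul, AlgHom.commutes] }
  refine FiniteDimensional.of_injective f ?_
  intro x y hxy
  apply Subtype.ext
  have := congrArg Subtype.val hxy
  exact ii_inj this

private theorem alg_of_mem (L : IntermediateField ℚ ℂ) [FiniteDimensional ℚ L] {x : ℂ}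
    (hx : x ∈ L) : IsAlgebraic ℚ x := by
  have h1 := Algebra.IsAlgebraic.isAlgebraic (R := ℚ) (⟨x, hx⟩ : L)
  have h2 : algebraMap L ℂ ⟨x, hx⟩ = x := rfl
  rw [← h2]
  exact h1.algebraMap

private theorem wh_ii (x : Qb) : wh (ii x) = hW x := by
  unfold wh hW dn
  rw [minpoly_ii]

theorem fin_A (L : IntermediateField ℚ ℂ) [FiniteDimensional ℚ L] (N m k : ℕ) (hN : 0 < N)
    (hm : m.Coprime N) (hμ : ∀ z : ℂ, z ^ N = 1 → z ∈ L) (b g : Fin k → ℂ)
    (hb : ∀ i, b i ∈ L) (hg : ∀ i, g i ^ N ∈ L)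
    (hint : ∀ i, IsIntegral ℤ ((m : ℂ) * (b i * g i)))
    (α : ℂ) (hα : α = ∑ i, b i * g i) (hα0 : α ≠ 0) (hne : ∀ i, ∀ c ∈ L, α ≠ c * g i) :
    Real.log 2 / 10080 ≤ wh α := by
  classical
  have hfd : FiniteDimensional ℚ (L.comap iiA) := comap_fd L
  have hmem : ∀ x : Qb, x ∈ L.comap iiA ↔ ii x ∈ L := fun x => Iff.rfl
  -- lifts of the coefficients and of the radicals
  have hb' : ∀ i, ∃ x : Qb, ii x = b i := fun i => exists_ii _ (alg_of_mem L (hb i))
  choose b' hb'e using hb'
  have hg' : ∀ i, ∃ x : Qb, ii x = g i := by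
    intro i
    have h1 : IsAlgebraic ℚ ((g i) ^ N) := alg_of_mem L (hg i)
    exact exists_ii _ (isAlgebraic_iff_isIntegral.mpr
      (IsIntegral.of_pow hN (isAlgebraic_iff_isIntegral.mp h1)))
  choose g' hg'e using hg'
  have hsum : ii (∑ i : {i : Fin k // g i ≠ 0}, b' i * g' i) = α := by
    have h1 : ∀ i : {i : Fin k // g i ≠ 0}, ii (b' i * g' i) = b i * g i := fun i => by
      rw [map_mul, hb'e, hg'e]
    have h2 : ∑ i ∈ Finset.univ.filter (fun i => g i ≠ 0), b i * g i =
        ∑ i : {i : Fin k // g i ≠ 0}, b i * g i :=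
      Finset.sum_subtype (Finset.univ.filter (fun i => g i ≠ 0)) (by simp) (fun i => b i * g i)
    rw [map_sum, hα, Finset.sum_congr rfl (fun i _ => h1 i), ← h2]
    exact Finset.sum_filter_of_ne (fun i _ h => right_ne_zero_of_mul h)
  have hx := kum_abs (L.comap iiA) N m hN hm (fun z hz => (hmem z).2 (hμ _ (by
    rw [← map_pow, hz, map_one]))) (ι := {i : Fin k // g i ≠ 0}) (fun i => b' i) (fun i => g' i)
    (fun i => (hmem _).2 (by rw [hb'e]; exact hb i))
    (fun i => (hmem _).2 (by rw [map_pow, hg'e]; exact hg i))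
    (fun i h0 => i.2 (by rw [← hg'e, h0, map_zero]))
    (fun i => by
      have h1 := hint i
      rw [← hb'e, ← hg'e, ← map_mul] at h1
      have h2 : ((m : ℂ) * ii (b' i * g' i)) = (RingHom.toIntAlgHom ii) ((m : Qb) * (b' i * g' i)) := by
        change _ = ii ((m : Qb) * (b' i * g' i))
        rw [map_mul ii (m : Qb) (b' i * g' i), map_natCast]
      rw [h2] at h1
      exact (isIntegral_algHom_iff (RingHom.toIntAlgHom ii) (RingHom.injective ii)).1 h1)
    (fun h0 => hα0 (by rw [← hsum, h0, map_zero]))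
    (fun i c hc h0 => hne i (ii c) ((hmem c).1 hc) (by rw [← hsum, h0, map_mul, hg'e]))
  rw [← wh_ii, hsum] at hx
  exact hx

end MP4270U
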