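import Pool.Agent.Lib_MP_4270a5_u.FinA

/-!
# MP_4270a5_nt, piece FINB

PAPER PROOF. `L` = `F ⊔ adjoin ℚ` of the `N`-th roots of unity, the `b_j` and the `γ_j` is a number field contained in
`cf F Γ S`. If `fin_A` does not give the bound `log 2 / 10080`, then `α = c * g_j`, `c ∈ L`, and `final_C` with `k = 1` applies.
The constant is the minimum of the two.
-/

open Polynomial IntermediateField Finset

namespace MP4270U

open MP4270

/-- the elements of the coefficient field are algebraic -/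
private theorem cf_alg (Γ : Subgroup ℂˣ) (halg : ∀ g ∈ Γ, IsAlgebraic ℚ (g : ℂ))
    (F : IntermediateField ℚ ℂ) [FiniteDimensional ℚ F] (S : Finset ℕ) {x : ℂ}
    (hx : x ∈ cf F Γ S) : IsIntegral ℚ x := by
  have h : cf F Γ S ≤ algebraicClosure ℚ ℂ := by
    unfold cf
    refine sup_le ?_ ?_
    · intro y hy
      rw [mem_algebraicClosure_iff]
      have h1 := Algebra.IsAlgebraic.isAlgebraic (R := ℚ) (⟨y, hy⟩ : F)
      have h2 : algebraMap F ℂ ⟨y, hy⟩ = y := rfl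
      rw [← h2]
      exact h1.algebraMap
    · rw [adjoin_le_iff]
      rintro z (⟨n, hn, hz⟩ | ⟨n, hn, _, γ, hγ, hz⟩)
      · change z ∈ algebraicClosure ℚ ℂ
        rw [mem_algebraicClosure_iff]
        refine isAlgebraic_iff_isIntegral.mpr (IsIntegral.of_pow hn ?_)
        rw [hz]
        exact isIntegral_one
      · change z ∈ algebraicClosure ℚ ℂ
        rw [mem_algebraicClosure_iff]
        refine isAlgebraic_iff_isIntegral.mpr (IsIntegral.of_pow hn ?_)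
        rw [hz]
        exact isAlgebraic_iff_isIntegral.mp (halg γ hγ)
  exact isAlgebraic_iff_isIntegral.mp ((mem_algebraicClosure_iff).1 (h hx))

theorem fin_B (Γ : Subgroup ℂˣ) (hΓ : Γ.FG) (halg : ∀ g ∈ Γ, IsAlgebraic ℚ (g : ℂ))
    (F : IntermediateField ℚ ℂ) [FiniteDimensional ℚ F] (S : Finset ℕ) :
    ∃ c : ℝ, 0 < c ∧ ∀ (k N m : ℕ), 0 < N → m.Coprime N → ∀ b g : Fin k → ℂ,
      (∀ j, b j ∈ cf F Γ S) → (∀ j, ∃ γ ∈ Γ, g j ^ N = (γ : ℂ)) →
      (∀ j, IsIntegral ℤ ((m : ℂ) * (b j * g j))) →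
      ∀ α : ℂ, α = ∑ j, b j * g j → α ≠ 0 →
        (¬ ∃ n : ℕ, 0 < n ∧ ∃ γ ∈ Γ, α ^ n = (γ : ℂ)) → c ≤ wh α := by
  classical
  obtain ⟨c₁, hc₁, H⟩ := final_C F Γ hΓ halg S 1
  have hlog : 0 < Real.log 2 := Real.log_pos (by norm_num)
  refine ⟨min c₁ (Real.log 2 / 10080), lt_min hc₁ (by positivity), ?_⟩
  intro k N m hN hm b g hb hg hint α hα hα0 hαΓ
  choose γ hγΓ hγ using hg
  obtain ⟨ζ, hζ⟩ : ∃ ζ : ℂ, IsPrimitiveRoot ζ N := ⟨_, Complex.isPrimitiveRoot_exp N hN.ne'⟩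
  set T : Set ℂ := {ζ} ∪ (Set.range b ∪ Set.range (fun j => ((γ j : ℂˣ) : ℂ))) with hT
  have hTint : ∀ x ∈ T, IsIntegral ℚ x := by
    rintro x (hx | ⟨j, hx⟩ | ⟨j, hx⟩)
    · rw [Set.mem_singleton_iff] at hx
      rw [hx]
      exact IsIntegral.of_pow hN (by rw [hζ.pow_eq_one]; exact isIntegral_one)
    · rw [← hx]
      exact cf_alg Γ halg F S (hb j)
    · rw [← hx]
      exact isAlgebraic_iff_isIntegral.mp (halg _ (hγΓ j))
  have hTfin : Finite T := by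
    have h : T.Finite := (Set.finite_singleton ζ).union
      ((Set.finite_range b).union (Set.finite_range _))
    exact h.to_subtype
  have hfd1 : FiniteDimensional ℚ (adjoin ℚ T) :=
    IntermediateField.finiteDimensional_adjoin hTint
  have hfd : FiniteDimensional ℚ (F ⊔ adjoin ℚ T : IntermediateField ℚ ℂ) :=
    IntermediateField.finiteDimensional_sup _ _
  have hTL : ∀ x ∈ T, x ∈ F ⊔ adjoin ℚ T := fun x hx =>
    (le_sup_right : adjoin ℚ T ≤ F ⊔ adjoin ℚ T) (subset_adjoin ℚ T hx)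
  have hin : ∀ x ∈ ({z : ℂ | ∃ n : ℕ, 0 < n ∧ z ^ n = 1} ∪
      {z : ℂ | ∃ n : ℕ, 0 < n ∧ n.primeFactors ⊆ S ∧ ∃ g ∈ Γ, z ^ n = (g : ℂ)}),
      x ∈ cf F Γ S := by
    intro x hx
    have h1 : adjoin ℚ ({z : ℂ | ∃ n : ℕ, 0 < n ∧ z ^ n = 1} ∪
      {z : ℂ | ∃ n : ℕ, 0 < n ∧ n.primeFactors ⊆ S ∧ ∃ g ∈ Γ, z ^ n = (g : ℂ)}) ≤
      cf F Γ S := by
      unfold cf
      exact le_sup_right
    exact h1 (subset_adjoin ℚ _ hx)
  have hLcf : F ⊔ adjoin ℚ T ≤ cf F Γ S := by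
    refine sup_le ?_ ?_
    · unfold cf
      exact le_sup_left
    · rw [adjoin_le_iff]
      rintro x (hx | ⟨j, hx⟩ | ⟨j, hx⟩)
      · rw [Set.mem_singleton_iff] at hx
        rw [hx]
        exact hin _ (Or.inl ⟨N, hN, hζ.pow_eq_one⟩)
      · rw [← hx]
        exact hb j
      · rw [← hx]
        exact hin _ (Or.inr ⟨1, one_pos, by simp, γ j, hγΓ j, pow_one _⟩)
  by_cases hne : ∃ i, ∃ c ∈ (F ⊔ adjoin ℚ T : IntermediateField ℚ ℂ), α = c * g i
  · obtain ⟨i, c, hc, hcα⟩ := hne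
    refine (min_le_left _ _).trans ?_
    exact H (fun _ => c) (fun _ => g i) (fun _ => hLcf hc) (fun _ => ⟨N, hN, γ i, hγΓ i, hγ i⟩) α
      (by rw [Fin.sum_univ_one]; exact hcα) hα0 hαΓ
  · push Not at hne
    refine (min_le_right _ _).trans ?_
    refine fin_A (F ⊔ adjoin ℚ T) N m k hN hm ?_ b g ?_ ?_ hint α hα hα0 hne
    · intro z hz
      have : NeZero N := ⟨hN.ne'⟩
      obtain ⟨i, _, hi⟩ := hζ.eq_pow_of_pow_eq_one hz
      rw [← hi]
      exact pow_mem (hTL ζ (Or.inl rfl)) i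
    · intro i
      exact hTL _ (Or.inr (Or.inl ⟨i, rfl⟩))
    · intro i
      rw [hγ i]
      exact hTL _ (Or.inr (Or.inr ⟨i, rfl⟩))

end MP4270U
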