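import Pool.Agent.Lib_MP_4270a5_u.FinB

/-!
# MP_4270a5_nt, piece FINC: the ring generated by the division group over the `S`-integers

PAPER PROOF. Let `S'` be `S` together with the prime divisors of integers `D_j > 0` such that `D_j γ` is integral for all elements `γ` and
`γ⁻¹` of a finite generating set of `Γ`. Every element `g` of the division group has an `S'`-number `s` with `s g` integral (`g^n = γ`,
`D^e γ` integral, so `(D^e g)^n` is integral). By induction every `α` in the ring is `∑ b_j g_j` with `b_j ∈ cf F Γ S'`, `s b_j` integral for an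
`S'`-number `s`, `g_j` in the division group; so `s b_j g_j` is integral with one `S'`-number `s`, and `g_j^N ∈ Γ` with one `N = N₁ N₂`, `N₁` an
`S'`-number, `N₂` prime to `S'`. `u N₁ + v N₂ = 1`, `g_j = g_j^{u N₁} g_j^{v N₂}`: `(g_j^{v N₂})^{N₁} ∈ Γ`, so `b_j' = b_j g_j^{v N₂} ∈ cf F Γ S'`, and
`g_j' = g_j^{u N₁}` has `g_j'^{N₂} ∈ Γ`. `fin_B` for `S'`, exponent `N₂`, `m = s`.
-/

open Polynomial IntermediateField Finset

namespace MP4270U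

open MP4270

theorem finC_alg (z : ℂ) (hz : IsAlgebraic ℚ z) : ∃ D : ℕ, 0 < D ∧ IsIntegral ℤ ((D : ℂ) * z) := by
  have h1 : IsAlgebraic ℤ z := (IsFractionRing.isAlgebraic_iff ℤ ℚ ℂ).2 hz
  obtain ⟨y, hy, h2⟩ := h1.exists_integral_multiple
  refine ⟨y.natAbs, Int.natAbs_pos.2 hy, ?_⟩
  have h3 : IsIntegral ℤ ((y : ℂ) * z) := by
    have h4 : y • z = (y : ℂ) * z := by rw [zsmul_eq_mul]
    rwa [h4] at h2
  rcases Int.natAbs_eq y with h | h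
  · rw [h] at h3
    simpa using h3
  · rw [h] at h3
    have h5 := h3.neg
    simpa using h5

theorem finC_nat (n : ℕ) : IsIntegral ℤ (n : ℂ) := by
  simpa using (isIntegral_algebraMap (R := ℤ) (A := ℂ) (x := (n : ℤ)))

/-- an `S`-number -/
def finC_num (S : Finset ℕ) (s : ℕ) : Prop := 0 < s ∧ s.primeFactors ⊆ S

theorem finC_num_one (S : Finset ℕ) : finC_num S 1 := ⟨one_pos, by simp⟩

theorem finC_num_mul {S : Finset ℕ} {s t : ℕ} (hs : finC_num S s) (ht : finC_num S t) :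
    finC_num S (s * t) :=
  ⟨Nat.mul_pos hs.1 ht.1, by
    rw [Nat.primeFactors_mul hs.1.ne' ht.1.ne']
    exact union_subset hs.2 ht.2⟩

theorem finC_num_prod {S : Finset ℕ} {ι : Type} (T : Finset ι) (f : ι → ℕ)
    (hf : ∀ i ∈ T, finC_num S (f i)) : finC_num S (∏ i ∈ T, f i) := by
  classical
  induction T using Finset.induction_on with
  | empty => exact finC_num_one S
  | insert i T hi ih =>
    rw [prod_insert hi]
    exact finC_num_mul (hf i (mem_insert_self i T)) (ih fun j hj => hf j (mem_insert_of_mem hj))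

theorem finC_S (Γ : Subgroup ℂˣ) (hΓ : Γ.FG) (halg : ∀ g ∈ Γ, IsAlgebraic ℚ (g : ℂ))
    (S : Finset ℕ) : ∃ S' : Finset ℕ, S ⊆ S' ∧ ∀ γ ∈ Γ, ∃ s : ℕ, finC_num S' s ∧
      IsIntegral ℤ ((s : ℂ) * (γ : ℂ)) ∧ IsIntegral ℤ ((s : ℂ) * ((γ⁻¹ : ℂˣ) : ℂ)) := by
  classical
  obtain ⟨T, hT⟩ := hΓ
  have h1 : ∀ t : ℂˣ, ∃ D : ℕ, 0 < D ∧ (t ∈ Γ → IsIntegral ℤ ((D : ℂ) * (t : ℂ)) ∧
      IsIntegral ℤ ((D : ℂ) * ((t⁻¹ : ℂˣ) : ℂ))) := by
    intro t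
    by_cases ht : t ∈ Γ
    · obtain ⟨D, hD, h2⟩ := finC_alg _ (halg t ht)
      obtain ⟨D', hD', h3⟩ := finC_alg _ (halg t⁻¹ (Γ.inv_mem ht))
      refine ⟨D * D', Nat.mul_pos hD hD', fun _ => ⟨?_, ?_⟩⟩
      · have h4 : (((D * D' : ℕ) : ℂ)) * (t : ℂ) = (D' : ℂ) * ((D : ℂ) * t) := by
          push_cast
          ring
        rw [h4]
        exact (finC_nat D').mul h2
      · have h4 : (((D * D' : ℕ) : ℂ)) * ((t⁻¹ : ℂˣ) : ℂ) = (D : ℂ) * ((D' : ℂ) * ((t⁻¹ : ℂˣ) : ℂ)) := by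
          push_cast
          ring
        rw [h4]
        exact (finC_nat D).mul h3
    · exact ⟨1, one_pos, fun h => absurd h ht⟩
  choose D hD hD' using h1
  refine ⟨S ∪ T.biUnion fun t => (D t).primeFactors, subset_union_left, ?_⟩
  intro γ hγ
  have hTΓ : ∀ t ∈ T, t ∈ Γ := fun t ht => by
    rw [← hT]
    exact Subgroup.subset_closure ht
  rw [← hT] at hγ
  induction hγ using Subgroup.closure_induction with
  | mem t ht =>
    have ht' : t ∈ T := ht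
    refine ⟨D t, ⟨hD t, ?_⟩, hD' t (hTΓ t ht')⟩
    exact (subset_biUnion_of_mem (fun t => (D t).primeFactors) ht').trans subset_union_right
  | one => exact ⟨1, finC_num_one _, by simpa using isIntegral_one, by simpa using isIntegral_one⟩
  | mul x y _ _ hx hy =>
    obtain ⟨s, hs, h1, h2⟩ := hx
    obtain ⟨t, ht, h3, h4⟩ := hy
    refine ⟨s * t, finC_num_mul hs ht, ?_, ?_⟩
    · have h5 := h1.mul h3
      have e : ((s * t : ℕ) : ℂ) * ((x * y : ℂˣ) : ℂ) = (s : ℂ) * (x : ℂ) * ((t : ℂ) * (y : ℂ)) := by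
        push_cast
        ring
      rw [e]
      exact h5
    · have h5 := h2.mul h4
      have e : ((s * t : ℕ) : ℂ) * (((x * y)⁻¹ : ℂˣ) : ℂ) =
          (s : ℂ) * ((x⁻¹ : ℂˣ) : ℂ) * ((t : ℂ) * ((y⁻¹ : ℂˣ) : ℂ)) := by
        rw [mul_inv]
        push_cast
        ring
      rw [e]
      exact h5
  | inv x _ hx =>
    obtain ⟨s, hs, h1, h2⟩ := hx
    exact ⟨s, hs, h2, by rwa [inv_inv]⟩

theorem finC_split (S : Finset ℕ) (N : ℕ) (hN : 0 < N) : ∃ N₁ N₂ : ℕ, N = N₁ * N₂ ∧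
    finC_num S N₁ ∧ 0 < N₂ ∧ ∀ s, finC_num S s → s.Coprime N₂ := by
  classical
  set f : ℕ → ℕ := fun p => p ^ N.factorization p with hf
  have hpos : ∀ T ⊆ N.primeFactors, 0 < ∏ p ∈ T, f p := fun T hT =>
    prod_pos fun p hp => pow_pos (Nat.pos_of_mem_primeFactors (hT hp)) _
  have hpr : ∀ T ⊆ N.primeFactors, ∀ q : ℕ, q.Prime → q ∣ ∏ p ∈ T, f p → q ∈ T := by
    intro T hT q hq hd
    obtain ⟨p, hp, h1⟩ := (hq.prime.dvd_finsetProd_iff f).1 hd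
    have h2 := hq.dvd_of_dvd_pow h1
    rw [(Nat.prime_dvd_prime_iff_eq hq (Nat.prime_of_mem_primeFactors (hT hp))).1 h2]
    exact hp
  refine ⟨∏ p ∈ N.primeFactors.filter (· ∈ S), f p, ∏ p ∈ N.primeFactors.filter (¬ · ∈ S), f p,
    ?_, ⟨hpos _ (filter_subset _ _), ?_⟩, hpos _ (filter_subset _ _), ?_⟩
  · rw [prod_filter_mul_prod_filter_not]
    exact (Nat.prod_factorization_pow_eq_self hN.ne').symm
  · intro q hq
    have h1 := hpr _ (filter_subset _ _) q (Nat.prime_of_mem_primeFactors hq)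
      (Nat.dvd_of_mem_primeFactors hq)
    exact (mem_filter.1 h1).2
  · intro s hs
    refine Nat.coprime_of_dvd fun q hq h1 h2 => ?_
    have h3 := hpr _ (filter_subset _ _) q hq h2
    exact (mem_filter.1 h3).2 (hs.2 (Nat.mem_primeFactors.2 ⟨hq, h1, hs.1.ne'⟩))

/-- the division group -/
def finC_D (Γ : Subgroup ℂˣ) (z : ℂ) : Prop := ∃ n : ℕ, 0 < n ∧ ∃ γ ∈ Γ, z ^ n = (γ : ℂ)

theorem finC_D_one (Γ : Subgroup ℂˣ) : finC_D Γ 1 := ⟨1, one_pos, 1, Γ.one_mem, by simp⟩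

theorem finC_D_mul {Γ : Subgroup ℂˣ} {z w : ℂ} (hz : finC_D Γ z) (hw : finC_D Γ w) :
    finC_D Γ (z * w) := by
  obtain ⟨n, hn, γ, hγ, h1⟩ := hz
  obtain ⟨m, hm, δ, hδ, h2⟩ := hw
  refine ⟨n * m, Nat.mul_pos hn hm, γ ^ m * δ ^ n, Γ.mul_mem (Γ.pow_mem hγ m) (Γ.pow_mem hδ n), ?_⟩
  rw [mul_pow, pow_mul, h1, mul_comm n m, pow_mul, h2]
  push_cast
  ring

theorem finC_int {Γ : Subgroup ℂˣ} {S : Finset ℕ} (hS : ∀ γ ∈ Γ, ∃ s : ℕ, finC_num S s ∧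
      IsIntegral ℤ ((s : ℂ) * (γ : ℂ)) ∧ IsIntegral ℤ ((s : ℂ) * ((γ⁻¹ : ℂˣ) : ℂ)))
    {z : ℂ} (hz : finC_D Γ z) : ∃ s : ℕ, finC_num S s ∧ IsIntegral ℤ ((s : ℂ) * z) := by
  obtain ⟨n, hn, γ, hγ, h1⟩ := hz
  obtain ⟨s, hs, h2, -⟩ := hS γ hγ
  refine ⟨s, hs, IsIntegral.of_pow hn ?_⟩
  obtain ⟨m, rfl⟩ : ∃ m, n = m + 1 := ⟨n - 1, by omega⟩
  have e : ((s : ℂ) * z) ^ (m + 1) = (s : ℂ) ^ m * ((s : ℂ) * (γ : ℂ)) := by
    rw [mul_pow, h1, pow_succ]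
    ring
  rw [e]
  exact ((finC_nat s).pow m).mul h2

/-- sums of products -/
def finC_Rep (C : IntermediateField ℚ ℂ) (Γ : Subgroup ℂˣ) (S : Finset ℕ) (α : ℂ) : Prop :=
  ∃ (ι : Type) (_ : Fintype ι) (b g : ι → ℂ), (∀ j, b j ∈ C ∧
    (∃ s : ℕ, finC_num S s ∧ IsIntegral ℤ ((s : ℂ) * b j)) ∧ finC_D Γ (g j)) ∧ α = ∑ j, b j * g j

theorem finC_Rep_one (C : IntermediateField ℚ ℂ) (Γ : Subgroup ℂˣ) (S : Finset ℕ) {b g : ℂ}
    (hb : b ∈ C) (hs : ∃ s : ℕ, finC_num S s ∧ IsIntegral ℤ ((s : ℂ) * b)) (hg : finC_D Γ g) :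
    finC_Rep C Γ S (b * g) :=
  ⟨Unit, inferInstance, fun _ => b, fun _ => g, fun _ => ⟨hb, hs, hg⟩, by simp⟩

theorem finC_Rep_add {C : IntermediateField ℚ ℂ} {Γ : Subgroup ℂˣ} {S : Finset ℕ} {x y : ℂ}
    (hx : finC_Rep C Γ S x) (hy : finC_Rep C Γ S y) : finC_Rep C Γ S (x + y) := by
  obtain ⟨ι, _, b, g, h, rfl⟩ := hx
  obtain ⟨κ, _, b', g', h', rfl⟩ := hy
  refine ⟨ι ⊕ κ, inferInstance, Sum.elim b b', Sum.elim g g', ?_, ?_⟩
  · rintro (j | j)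
    · exact h j
    · exact h' j
  · rw [Fintype.sum_sum_type]
    simp

theorem finC_Rep_neg {C : IntermediateField ℚ ℂ} {Γ : Subgroup ℂˣ} {S : Finset ℕ} {x : ℂ}
    (hx : finC_Rep C Γ S x) : finC_Rep C Γ S (-x) := by
  obtain ⟨ι, _, b, g, h, rfl⟩ := hx
  refine ⟨ι, inferInstance, fun j => -b j, g, fun j => ⟨C.neg_mem (h j).1, ?_, (h j).2.2⟩, ?_⟩
  · obtain ⟨s, hs, h1⟩ := (h j).2.1
    exact ⟨s, hs, by simpa using h1.neg⟩
  · simp

theorem finC_Rep_mul {C : IntermediateField ℚ ℂ} {Γ : Subgroup ℂˣ} {S : Finset ℕ} {x y : ℂ}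
    (hx : finC_Rep C Γ S x) (hy : finC_Rep C Γ S y) : finC_Rep C Γ S (x * y) := by
  obtain ⟨ι, _, b, g, h, rfl⟩ := hx
  obtain ⟨κ, _, b', g', h', rfl⟩ := hy
  refine ⟨ι × κ, inferInstance, fun q => b q.1 * b' q.2, fun q => g q.1 * g' q.2, ?_, ?_⟩
  · rintro ⟨i, j⟩
    obtain ⟨s, hs, h1⟩ := (h i).2.1
    obtain ⟨t, ht, h2⟩ := (h' j).2.1
    refine ⟨C.mul_mem (h i).1 (h' j).1, ⟨s * t, finC_num_mul hs ht, ?_⟩,
      finC_D_mul (h i).2.2 (h' j).2.2⟩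
    have e : ((s * t : ℕ) : ℂ) * (b i * b' j) = (s : ℂ) * b i * ((t : ℂ) * b' j) := by
      push_cast
      ring
    show IsIntegral ℤ (((s * t : ℕ) : ℂ) * (b i * b' j))
    rw [e]
    exact h1.mul h2
  · rw [Fintype.sum_prod_type, Finset.sum_mul_sum]
    refine Finset.sum_congr rfl fun i _ => Finset.sum_congr rfl fun j _ => ?_
    ring

theorem fin_C (Γ : Subgroup ℂˣ) (hΓ : Γ.FG) (halg : ∀ g ∈ Γ, IsAlgebraic ℚ (g : ℂ))
    (F : IntermediateField ℚ ℂ) [FiniteDimensional ℚ F] (S : Finset ℕ) :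
    ∃ c : ℝ, 0 < c ∧ ∀ α ∈ Subring.closure
        ({z : ℂ | z ∈ cf F Γ S ∧ ∃ s : ℕ, 0 < s ∧ s.primeFactors ⊆ S ∧ IsIntegral ℤ ((s : ℂ) * z)} ∪
          {z : ℂ | ∃ n : ℕ, 0 < n ∧ ∃ γ ∈ Γ, z ^ n = (γ : ℂ)}),
      α ≠ 0 → (¬ ∃ n : ℕ, 0 < n ∧ ∃ γ ∈ Γ, α ^ n = (γ : ℂ)) → c ≤ wh α := by
  classical
  obtain ⟨S', hSS, hS'⟩ := finC_S Γ hΓ halg S
  obtain ⟨c, hc, hB⟩ := fin_B Γ hΓ halg F S'
  refine ⟨c, hc, fun α hα hα0 hne => ?_⟩
  have hcf : cf F Γ S ≤ cf F Γ S' := by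
    unfold cf
    refine sup_le_sup_left (IntermediateField.adjoin.mono _ _ _ (Set.union_subset_union_right _ ?_)) _
    rintro z ⟨n, hn, h1, h2⟩
    exact ⟨n, hn, h1.trans hSS, h2⟩
  have hrep : finC_Rep (cf F Γ S') Γ S' α := by
    clear hα0 hne
    have h1 : IsIntegral ℤ (((1 : ℕ) : ℂ) * 1) := by simpa using isIntegral_one
    have hone : ∃ s : ℕ, finC_num S' s ∧ IsIntegral ℤ ((s : ℂ) * 1) := ⟨1, finC_num_one _, h1⟩
    induction hα using Subring.closure_induction with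
    | mem z hz =>
      rcases hz with ⟨hz1, s, hs, hs1, hs2⟩ | hz
      · rw [← mul_one z]
        exact finC_Rep_one _ _ _ (hcf hz1) ⟨s, ⟨hs, hs1.trans hSS⟩, hs2⟩ (finC_D_one Γ)
      · rw [← one_mul z]
        exact finC_Rep_one _ _ _ (IntermediateField.one_mem _) hone hz
    | zero => exact ⟨Empty, inferInstance, fun _ => 0, fun _ => 0, fun j => j.elim, by simp⟩
    | one =>
      rw [← one_mul (1 : ℂ)]
      exact finC_Rep_one _ _ _ (IntermediateField.one_mem _) hone (finC_D_one Γ)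
    | add x y _ _ hx hy => exact finC_Rep_add hx hy
    | neg x _ hx => exact finC_Rep_neg hx
    | mul x y _ _ hx hy => exact finC_Rep_mul hx hy
  obtain ⟨ι, _, b, g, h, hsum⟩ := hrep
  -- exponents
  choose hb hbs hg using h
  have hg0 : ∀ j, g j ≠ 0 := by
    intro j h0
    obtain ⟨n, hn, γ, -, h1⟩ := hg j
    rw [h0, zero_pow hn.ne'] at h1
    exact γ.ne_zero h1.symm
  choose s hs hsi using hbs
  have hts : ∀ j, ∃ s : ℕ, finC_num S' s ∧ IsIntegral ℤ ((s : ℂ) * g j) := fun j => finC_int hS' (hg j)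
  choose t ht hti using hts
  choose n hn γ hγ hgn using hg
  set m : ℕ := ∏ j, (s j * t j) with hm
  have hmS : finC_num S' m := finC_num_prod _ _ fun j _ => finC_num_mul (hs j) (ht j)
  have hint : ∀ j, IsIntegral ℤ ((m : ℂ) * (b j * g j)) := by
    intro j
    obtain ⟨q, hq⟩ : s j * t j ∣ m := dvd_prod_of_mem _ (mem_univ j)
    have e : (m : ℂ) * (b j * g j) = (q : ℂ) * ((s j : ℂ) * b j * ((t j : ℂ) * g j)) := by
      rw [hq]
      push_cast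
      ring
    rw [e]
    exact (finC_nat q).mul ((hsi j).mul (hti j))
  set N : ℕ := ∏ j, n j with hN
  have hN0 : 0 < N := prod_pos fun j _ => hn j
  have hgN : ∀ j, ∃ δ ∈ Γ, g j ^ N = (δ : ℂ) := by
    intro j
    obtain ⟨q, hq⟩ : n j ∣ N := dvd_prod_of_mem _ (mem_univ j)
    refine ⟨γ j ^ q, Γ.pow_mem (hγ j) q, ?_⟩
    rw [hq, pow_mul, hgn, Units.val_pow_eq_pow_val]
  obtain ⟨N₁, N₂, hNN, hN₁, hN₂, hcop⟩ := finC_split S' N hN0
  have hco : (N₁.gcd N₂ : ℤ) = 1 := by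
    have h1 := hcop N₁ hN₁
    rw [Nat.Coprime] at h1
    rw [h1]
    rfl
  have hbez : (N₁ : ℤ) * N₁.gcdA N₂ + N₂ * N₁.gcdB N₂ = 1 := by
    rw [← Nat.gcd_eq_gcd_ab, hco]
  set u : ℤ := N₁.gcdA N₂ with hu
  set v : ℤ := N₁.gcdB N₂ with hv
  have hz : ∀ (j : ι) (w : ℤ), ∃ δ ∈ Γ, (g j ^ N) ^ w = ((δ : ℂˣ) : ℂ) := by
    intro j w
    obtain ⟨δ, hδ, h1⟩ := hgN j
    refine ⟨δ ^ w, Γ.zpow_mem hδ w, ?_⟩
    rw [h1, Units.val_zpow_eq_zpow_val]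
  have hsplit : ∀ j, g j ^ ((N₂ : ℤ) * v) * g j ^ ((N₁ : ℤ) * u) = g j := by
    intro j
    rw [← zpow_add₀ (hg0 j)]
    have h1 : (N₂ : ℤ) * v + (N₁ : ℤ) * u = 1 := by linear_combination hbez
    rw [h1, zpow_one]
  have hkey := hB (Fintype.card ι) N₂ m hN₂ (hcop m hmS)
    (fun i => b ((Fintype.equivFin ι).symm i) * g ((Fintype.equivFin ι).symm i) ^ ((N₂ : ℤ) * v))
    (fun i => g ((Fintype.equivFin ι).symm i) ^ ((N₁ : ℤ) * u))
    (fun i => ?_) (fun i => ?_) (fun i => ?_) α ?_ hα0 hne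
  · exact hkey
  · refine (cf F Γ S').mul_mem (hb _) ?_
    refine (le_sup_right : _ ≤ cf F Γ S') (IntermediateField.subset_adjoin _ _ (Or.inr ?_))
    obtain ⟨δ, hδ, h1⟩ := hz ((Fintype.equivFin ι).symm i) v
    refine ⟨N₁, hN₁.1, hN₁.2, δ, hδ, ?_⟩
    rw [← h1, ← zpow_natCast, ← zpow_natCast, ← zpow_mul, ← zpow_mul, hNN]
    congr 1
    push_cast
    ring
  · obtain ⟨δ, hδ, h1⟩ := hz ((Fintype.equivFin ι).symm i) u
    refine ⟨δ, hδ, ?_⟩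
    rw [← h1, ← zpow_natCast, ← zpow_natCast, ← zpow_mul, ← zpow_mul, hNN]
    congr 1
    push_cast
    ring
  · rw [mul_assoc, hsplit]
    exact hint _
  · rw [hsum, ← (Fintype.equivFin ι).symm.sum_comp]
    refine Finset.sum_congr rfl fun i _ => ?_
    rw [mul_assoc, hsplit]

end MP4270U
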