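import Pool.Agent.Lib_MP_4270a5_u.KumS
import Pool.Agent.Lib_MP_4270a5_u.KumB
import Pool.Agent.Lib_MP_4270a5_u.Eig

/-!
# MP_4270a5_nt, piece KUMALL: the absolute bound, one prime at a time

PAPER PROOF. Suppose `h = hW α < log 2 / 40320` (`α = ∑ b_i g_i`). `kum_build`: `M`, `G`, `a`; `y τ = ∑ a_i τ_i`. `hW (y τ) = h` (`y τ = s α`, `hW_conj`). Let
`E` be the set of the `τ ∈ G` such that `y τ = ω * y 1` with `ω^N = 1`; it is a subgroup (`y (τ τ') = s (y τ')`, `s ω = ω`). Claim: `E = G`. For every prime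
`p ∣ N` let `G_p ≤ G` be the subgroup of the `τ` with `τ^(p^a) = 1`, `a = N.factorization p`. `eig_step` for `G_p` (as a type) with the restrictions of the coordinates
shows `G_p ≤ E`: `kum_cnt_sparse` with the `J` of `hp` (for `i ∉ J`: `nm p m = 1`, `nm_integral`; automorphisms of `M` lift to `Qb`, see `Kum.lean`) and
`B = 4 h + 2 (|J|-1) log p / (p-1)`; `4 h < log 2 / 10080`, `2 (|J|-1) log p / (p-1) ≤ log 2 / 10080` (`|J| - 1` in `ℕ`) because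
`30000 (|J| - 1) log p ≤ p` (if `|J| ≥ 2` then `p ≥ 20000`); also `2 (|J| - 1) ≤ p`. By induction on `n ∣ N` (`Nat.recOnPosPrimePosCoprime` or similar), `τ^n = 1` implies `τ ∈ E`:
for coprime `n₁ n₂` write `τ = (τ^n₁)^u (τ^n₂)^v`. So `E = G`; `τ ↦ ω` is a character of `G` (`y 1 ≠ 0`), against property 5.
-/

open Polynomial IntermediateField Finset

namespace MP4270U

open MP4270

private theorem ka_lift (M : IntermediateField ℚ Qb) [Normal ℚ M] (σ : M ≃ₐ[ℚ] M) :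
    ∃ σ' : Qb ≃ₐ[ℚ] Qb, ∀ x : M, ((σ x : M) : Qb) = σ' (x : Qb) :=
  ⟨σ.liftNormal Qb, fun x => (σ.liftNormal_commutes Qb x).symm⟩

private theorem ka_enough (M : IntermediateField ℚ Qb) (N : ℕ) [NeZero N]
    (hμ : ∀ z : Qb, z ^ N = 1 → z ∈ M) : HasEnoughRootsOfUnity M N := by
  have h0 : NeZero (N : Qb) := ⟨by exact_mod_cast NeZero.ne N⟩
  obtain ⟨ζ, hζ⟩ := HasEnoughRootsOfUnity.exists_primitiveRoot Qb N
  have h1 : ζ ∈ M := hμ ζ hζ.pow_eq_one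
  refine ⟨⟨⟨ζ, h1⟩, ?_⟩, rootsOfUnity.isCyclic M N⟩
  exact IsPrimitiveRoot.of_map_of_injective (f := M.val) hζ M.val.injective

private theorem ka_nm_nat {ℓ m : ℕ} (hℓ : ℓ.Prime) (h : ¬ ℓ ∣ m) : nm ℓ (m : Qb) = 1 := by
  have hm : m ≠ 0 := by
    rintro rfl
    exact h (dvd_zero ℓ)
  have h1 := pf_nat ℓ hℓ hm
  rw [Nat.factorization_eq_zero_of_not_dvd h, Nat.cast_zero, zero_mul, neg_zero] at h1
  exact Real.eq_one_of_pos_of_log_eq_zero (nm_pos ℓ (by exact_mod_cast hm)) h1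

/-- the numerical condition for few terms -/
private theorem ka_num {p k : ℕ} (hp : p.Prime) {h : ℝ}
    (hh : h < Real.log 2 / 40320) (hc : 30000 * ((k - 1 : ℕ) : ℝ) * Real.log p ≤ p) :
    2 * (k - 1) ≤ p ∧
      4 * h + 2 * (((k - 1 : ℕ) : ℝ) * Real.log p / (p - 1)) < Real.log 2 / 5040 := by
  have hl2 : 0.6931 < Real.log 2 := lt_trans (by norm_num) Real.log_two_gt_d9
  have h3 : 4 * h < Real.log 2 / 10080 := by
    have : Real.log 2 / 40320 * 4 = Real.log 2 / 10080 := by ring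
    linarith
  have h4 : Real.log 2 / 5040 = Real.log 2 / 10080 + Real.log 2 / 10080 := by ring
  rcases Nat.eq_zero_or_pos (k - 1) with hk0 | hk'
  · rw [hk0]
    refine ⟨by simp, ?_⟩
    have h5 : (0 : ℝ) < Real.log 2 / 10080 := by positivity
    simp only [Nat.cast_zero, zero_mul, zero_div, mul_zero, add_zero]
    rw [h4]
    linarith
  have hkR : (1 : ℝ) ≤ ((k - 1 : ℕ) : ℝ) := by exact_mod_cast hk'
  have hp2 : (2 : ℝ) ≤ p := by exact_mod_cast hp.two_le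
  have hlp : Real.log 2 ≤ Real.log p := Real.log_le_log (by norm_num) hp2
  have hlp0 : 0 < Real.log p := by linarith
  have h1 : 30000 * ((k - 1 : ℕ) : ℝ) * 0.6931 ≤ p := by
    have h2 : 30000 * ((k - 1 : ℕ) : ℝ) * 0.6931 ≤ 30000 * ((k - 1 : ℕ) : ℝ) * Real.log p :=
      mul_le_mul_of_nonneg_left (by linarith) (by positivity)
    linarith
  have hpbig : (20000 : ℝ) ≤ p := by linarith
  constructor
  · have h2 : (2 * (k - 1 : ℕ) : ℝ) ≤ p := by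
      linarith
    exact_mod_cast h2
  · have h2 : ((k - 1 : ℕ) : ℝ) * Real.log p / (p - 1) ≤ 1 / 29500 := by
      rw [div_le_div_iff₀ (by linarith) (by norm_num)]
      have h3 : ((k - 1 : ℕ) : ℝ) * Real.log p ≤ p / 30000 := by
        rw [le_div_iff₀ (by norm_num : (0 : ℝ) < 30000)]
        linarith
      linarith
    have h5 : (2 : ℝ) * (1 / 29500) < Real.log 2 / 10080 := by
      have h6 : (0.6931 : ℝ) / 10080 < Real.log 2 / 10080 :=
        div_lt_div_of_pos_right hl2 (by norm_num)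
      have h7 : (2 : ℝ) * (1 / 29500) < 0.6931 / 10080 := by norm_num
      linarith
    rw [h4]
    linarith

section core
variable (M : IntermediateField ℚ Qb) [FiniteDimensional ℚ M] [Normal ℚ M]
  {ι : Type} [Fintype ι] (G : Subgroup (ι → (M)ˣ)) [Finite G] (a : ι → M)

/-- the conjugates -/
private noncomputable def kaY (τ : G) : M := ∑ i, a i * ((τ.1 i : (M)ˣ) : M)

/-- `y τ` is a multiple of `y 1` by an `N`-th root of unity -/
private def kaP (N : ℕ) (τ : G) : Prop := ∃ ω : M, ω ^ N = 1 ∧ kaY M G a τ = ω * kaY M G a 1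

variable {G a}

private theorem kaP_mul {N : ℕ}
    (hs : ∀ τ : G, ∃ s : M ≃ₐ[ℚ] M, (∀ ω : M, ω ^ N = 1 → s ω = ω) ∧
      ∀ τ' : G, s (kaY M G a τ') = kaY M G a (τ * τ')) {τ τ' : G}
    (h : kaP M G a N τ) (h' : kaP M G a N τ') : kaP M G a N (τ * τ') := by
  obtain ⟨ω, hω, h1⟩ := h
  obtain ⟨ω', hω', h2⟩ := h'
  obtain ⟨s, hs1, hs2⟩ := hs τ
  refine ⟨ω' * ω, by rw [mul_pow, hω, hω', one_mul], ?_⟩
  have h3 := hs2 τ'
  have h4 := hs2 1
  rw [mul_one] at h4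
  rw [h2, map_mul, hs1 ω' hω', h4, h1] at h3
  rw [← h3, mul_assoc]

private theorem kaP_inv {N : ℕ} (hN : 0 < N)
    (hs : ∀ τ : G, ∃ s : M ≃ₐ[ℚ] M, (∀ ω : M, ω ^ N = 1 → s ω = ω) ∧
      ∀ τ' : G, s (kaY M G a τ') = kaY M G a (τ * τ')) {τ : G}
    (h : kaP M G a N τ) : kaP M G a N τ⁻¹ := by
  obtain ⟨ω, hω, h1⟩ := h
  obtain ⟨s, hs1, hs2⟩ := hs τ
  have hω0 : ω ≠ 0 := by
    rintro rfl
    rw [zero_pow hN.ne'] at hω
    exact zero_ne_one hω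
  have hωi : (ω⁻¹) ^ N = 1 := by rw [inv_pow, hω, inv_one]
  refine ⟨ω⁻¹, hωi, ?_⟩
  have h3 := hs2 τ⁻¹
  have h4 := hs2 1
  rw [mul_one] at h4
  rw [mul_inv_cancel] at h3
  apply s.injective
  rw [h3, map_mul, hs1 _ hωi, h4, h1, ← mul_assoc, inv_mul_cancel₀ hω0, one_mul]

private theorem kaP_one {N : ℕ} : kaP M G a N 1 := ⟨1, one_pow _, by rw [one_mul]⟩

/-- the subgroup of the `τ` with `kaP` -/
private def kaE {N : ℕ} (hN : 0 < N)
    (hs : ∀ τ : G, ∃ s : M ≃ₐ[ℚ] M, (∀ ω : M, ω ^ N = 1 → s ω = ω) ∧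
      ∀ τ' : G, s (kaY M G a τ') = kaY M G a (τ * τ')) : Subgroup G where
  carrier := {τ | kaP M G a N τ}
  mul_mem' h h' := kaP_mul M hs h h'
  one_mem' := kaP_one M
  inv_mem' h := kaP_inv M hN hs h

/-- one prime -/
private theorem ka_prime {N : ℕ} (hN : 0 < N) (hpow : ∀ τ : G, τ ^ N = 1)
    (hM : ∀ z : Qb, z ^ N = 1 → z ∈ M)
    (hs : ∀ τ : G, ∃ s : M ≃ₐ[ℚ] M, (∀ ω : M, ω ^ N = 1 → s ω = ω) ∧
      ∀ τ' : G, s (kaY M G a τ') = kaY M G a (τ * τ'))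
    (hy0 : kaY M G a 1 ≠ 0) (h : ℝ) (hh0 : 0 ≤ h) (hh : h < Real.log 2 / 40320)
    (hyh : ∀ τ : G, hW (kaY M G a τ : Qb) = h) {p : ℕ} (hp : p.Prime) (hpN : p ∣ N)
    (J : Finset ι) (m : ℕ) (hc : 30000 * ((J.card - 1 : ℕ) : ℝ) * Real.log p ≤ p)
    (hm : m.Coprime p)
    (hint : ∀ i, i ∉ J → IsIntegral ℤ ((m : Qb) * (a i : Qb)))
    (e : ℕ) (τ : G) (hτ : τ ^ p ^ e = 1) : kaP M G a N τ := by
  classical
  have hf : Fact p.Prime := ⟨hp⟩
  have hN0 : NeZero N := ⟨hN.ne'⟩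
  obtain ⟨Gp, hGp⟩ : ∃ Gp : Subgroup G, Gp = (powMonoidHom (p ^ e) : G →* G).ker := ⟨_, rfl⟩
  have hmem : ∀ x : G, x ∈ Gp ↔ x ^ p ^ e = 1 := by
    intro x
    rw [hGp, MonoidHom.mem_ker]
    rfl
  have hfin : Fintype Gp := Fintype.ofFinite _
  have hpe : ∀ x : Gp, x ^ p ^ e = 1 := fun x => by
    apply Subtype.ext
    exact (hmem x.1).1 x.2
  have hpN' : ∀ x : Gp, x ^ N = 1 := fun x => by
    apply Subtype.ext
    exact hpow x.1
  have hen : HasEnoughRootsOfUnity M N := ka_enough M N hM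
  have hen2 : HasEnoughRootsOfUnity M (Monoid.exponent Gp) :=
    HasEnoughRootsOfUnity.of_dvd M (Monoid.exponent_dvd_of_forall_pow_eq_one hpN')
  obtain ⟨π, hπ⟩ : ∃ π : ι → (Gp →* (M)ˣ), ∀ i x, π i x = x.1.1 i :=
    ⟨fun i => ((Pi.evalMonoidHom (fun _ : ι => (M)ˣ) i).comp G.subtype).comp Gp.subtype,
      fun _ _ => rfl⟩
  have hy : ∀ x : Gp, kaY M G a x.1 = ∑ i, a i * ((π i x : (M)ˣ) : M) := by
    intro x
    simp only [hπ]
    rfl
  have hsp : ∀ x : Gp, ∃ s : M ≃ₐ[ℚ] M, (∀ ω : M, ω ^ N = 1 → s ω = ω) ∧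
      ∀ x' : Gp, s (kaY M G a x'.1) = kaY M G a (x * x').1 := by
    intro x
    obtain ⟨s, h1, h2⟩ := hs x.1
    exact ⟨s, h1, fun x' => h2 x'.1⟩
  have key : ∃ χ : Gp →* (M)ˣ, ∀ x : Gp, kaY M G a x.1 = ((χ x : (M)ˣ) : M) *
      kaY M G a (1 : Gp).1 := by
    obtain ⟨hk2, hB⟩ := ka_num hp hh hc
    have henp : HasEnoughRootsOfUnity M p := HasEnoughRootsOfUnity.of_dvd M hpN
    have hp0 : NeZero p := ⟨hp.ne_zero⟩
    obtain ⟨ζ, hζ⟩ := HasEnoughRootsOfUnity.exists_primitiveRoot M p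
    have h3 : ¬ p ∣ m := fun h => by
      have h4 := Nat.dvd_gcd h (dvd_refl p)
      rw [hm.gcd_eq_one] at h4
      exact hp.one_lt.ne' (Nat.dvd_one.mp h4)
    have hJ : ∀ i, i ∉ J → ∀ σ : M ≃ₐ[ℚ] M, nm p ((σ (a i) : M) : Qb) ≤ 1 := by
      intro i hi σ
      obtain ⟨σ', hσ'⟩ := ka_lift M σ
      have h4 : IsIntegral ℤ (σ' ((m : Qb) * (a i : Qb))) :=
        map_isIntegral_int (σ' : Qb →+* Qb) (hint i hi)
      have h5 := nm_integral p _ h4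
      rw [map_mul, map_natCast, nm_mul, ka_nm_nat hp h3, one_mul] at h5
      rw [hσ']
      exact h5
    have hB0 : 0 ≤ ((J.card - 1 : ℕ) : ℝ) * Real.log p / (p - 1) := by
      have h1 : (1 : ℝ) ≤ p := by exact_mod_cast hp.one_lt.le
      exact div_nonneg (mul_nonneg (Nat.cast_nonneg _) (Real.log_nonneg h1)) (by linarith)
    refine eig_step N hpN' π a (fun x : Gp => kaY M G a x.1) hy hy0 hsp
      (4 * h + 2 * (((J.card - 1 : ℕ) : ℝ) * Real.log p / (p - 1)))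
      (by linarith) hB fun A => ?_
    have h1 := kum_cnt_sparse M p e hpe ζ hζ J hk2 π a hJ (fun x : Gp => kaY M G a x.1) hy h
      (fun x => hyh x.1) A
    refine h1.trans (le_of_eq ?_)
    congr 1
    ring
  obtain ⟨χ, hχ⟩ := key
  refine ⟨((χ ⟨τ, (hmem τ).2 hτ⟩ : (M)ˣ) : M), ?_, hχ ⟨τ, (hmem τ).2 hτ⟩⟩
  rw [← Units.val_pow_eq_pow_val, ← map_pow, hpN', map_one, Units.val_one]

/-- all `τ` -/
private theorem ka_all {N : ℕ} (hN : 0 < N)
    (hs : ∀ τ : G, ∃ s : M ≃ₐ[ℚ] M, (∀ ω : M, ω ^ N = 1 → s ω = ω) ∧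
      ∀ τ' : G, s (kaY M G a τ') = kaY M G a (τ * τ'))
    (hpr : ∀ p : ℕ, p.Prime → p ∣ N → ∀ (e : ℕ) (τ : G), τ ^ p ^ e = 1 → kaP M G a N τ) (n : ℕ) :
    n ∣ N → ∀ τ : G, τ ^ n = 1 → kaP M G a N τ := by
  induction n using Nat.recOnPosPrimePosCoprime with
  | prime_pow p n hp hn =>
    intro hd τ hτ
    exact hpr p hp ((dvd_pow_self p hn.ne').trans hd) n τ hτ
  | zero =>
    intro hd
    exact absurd (Nat.eq_zero_of_zero_dvd hd) hN.ne'
  | one =>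
    intro _ τ hτ
    rw [pow_one] at hτ
    rw [hτ]
    exact kaP_one M
  | coprime u v hu hv huv hPu hPv =>
    intro hd τ hτ
    have h1 : τ ^ u ∈ kaE M hN hs := hPv ((dvd_mul_left v u).trans hd) (τ ^ u) (by
      rw [← pow_mul]; exact hτ)
    have h2 : τ ^ v ∈ kaE M hN hs := hPu ((dvd_mul_right u v).trans hd) (τ ^ v) (by
      rw [← pow_mul, mul_comm]; exact hτ)
    have h3 : (1 : ℤ) = u * Nat.gcdA u v + v * Nat.gcdB u v := by
      rw [← Nat.gcd_eq_gcd_ab, huv.gcd_eq_one, Nat.cast_one]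
    have h4 : τ = (τ ^ u) ^ (Nat.gcdA u v) * (τ ^ v) ^ (Nat.gcdB u v) := by
      rw [← zpow_natCast, ← zpow_natCast, ← zpow_mul, ← zpow_mul, ← zpow_add, ← h3, zpow_one]
    have h5 : τ ∈ kaE M hN hs := by
      rw [h4]
      exact mul_mem (zpow_mem h1 _) (zpow_mem h2 _)
    exact h5

end core

theorem kum_all_primes (L : IntermediateField ℚ Qb) [FiniteDimensional ℚ L] (N : ℕ) (hN : 0 < N)
    (hμ : ∀ z : Qb, z ^ N = 1 → z ∈ L) {ι : Type} [Fintype ι] (b g : ι → Qb)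
    (hb : ∀ i, b i ∈ L) (hg : ∀ i, g i ^ N ∈ L) (hg0 : ∀ i, g i ≠ 0)
    (hp : ∀ p : ℕ, p.Prime → p ∣ N → ∃ (J : Finset ι) (m : ℕ),
      30000 * ((J.card - 1 : ℕ) : ℝ) * Real.log p ≤ p ∧ m.Coprime p ∧
      ∀ i, i ∉ J → IsIntegral ℤ ((m : Qb) * (b i * g i)))
    (hα0 : ∑ i, b i * g i ≠ 0) (hne : ∀ i, ∀ c ∈ L, ∑ i, b i * g i ≠ c * g i) :
    Real.log 2 / 40320 ≤ hW (∑ i, b i * g i) := by
  classical
  by_contra hcon
  push Not at hcon
  obtain ⟨M, hM1, hM2, G, hG, a, hpow, hzM, ha, hs, hχ⟩ :=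
    kum_build L N hN hμ b g hb hg hg0 hα0 hne
  have hs' : ∀ τ : G, ∃ s : M ≃ₐ[ℚ] M, (∀ ω : M, ω ^ N = 1 → s ω = ω) ∧
      ∀ τ' : G, s (kaY M G a τ') = kaY M G a (τ * τ') := hs
  have hy1 : kaY M G a 1 = ∑ i, a i := by
    unfold kaY
    refine Finset.sum_congr rfl fun i _ => ?_
    have h1 : (((1 : G).1 i : (M)ˣ) : M) = 1 := rfl
    rw [h1, mul_one]
  have hy1v : ((kaY M G a 1 : M) : Qb) = ∑ i, b i * g i := by
    rw [hy1, IntermediateField.coe_sum]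
    exact Finset.sum_congr rfl fun i _ => ha i
  have hy0 : kaY M G a 1 ≠ 0 := fun h => hα0 (by rw [← hy1v, h]; rfl)
  have hyh : ∀ τ : G, hW (kaY M G a τ : Qb) = hW (∑ i, b i * g i) := by
    intro τ
    obtain ⟨s, -, h2⟩ := hs' τ
    obtain ⟨s', hs'⟩ := ka_lift M s
    have h3 := h2 1
    rw [mul_one] at h3
    rw [← h3, hs', hW_conj, hy1v]
  have hpr : ∀ p : ℕ, p.Prime → p ∣ N → ∀ (e : ℕ) (τ : G), τ ^ p ^ e = 1 → kaP M G a N τ := by
    intro p hpp hpN e τ hτ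
    obtain ⟨J, m, hc, hm, hint⟩ := hp p hpp hpN
    refine ka_prime M hN hpow hzM hs' hy0 _ (hW_nonneg _) hcon hyh hpp hpN J m hc hm ?_ e τ hτ
    intro i hi
    rw [ha i]
    exact hint i hi
  have hall : ∀ τ : G, kaP M G a N τ := fun τ => ka_all M hN hs' hpr N dvd_rfl τ (hpow τ)
  have hne0 : ∀ τ : G, kaY M G a τ / kaY M G a 1 ≠ 0 := by
    intro τ
    obtain ⟨ω, hω, h1⟩ := hall τ
    rw [h1, mul_div_cancel_right₀ _ hy0]
    rintro rfl
    rw [zero_pow hN.ne'] at hω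
    exact zero_ne_one hω
  let χ : G →* (M)ˣ :=
    { toFun := fun τ => Units.mk0 (kaY M G a τ / kaY M G a 1) (hne0 τ)
      map_one' := by
        apply Units.ext
        rw [Units.val_mk0, div_self hy0, Units.val_one]
      map_mul' := by
        intro τ τ'
        apply Units.ext
        rw [Units.val_mul, Units.val_mk0, Units.val_mk0, Units.val_mk0]
        obtain ⟨ω', hω', h1⟩ := hall τ'
        obtain ⟨s, hs1, hs2⟩ := hs' τ
        have h3 := hs2 τ'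
        have h4 := hs2 1
        rw [mul_one] at h4
        rw [h1, map_mul, hs1 ω' hω', h4] at h3
        rw [← h3, h1, mul_div_cancel_right₀ _ hy0]
        ring }
  obtain ⟨τ, hτ⟩ := hχ χ
  apply hτ
  have h1 : ((χ τ : (M)ˣ) : M) = kaY M G a τ / kaY M G a 1 := rfl
  rw [h1, ← hy1, div_mul_cancel₀ _ hy0]
  rfl

end MP4270U
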