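import Pool.Agent.Lib_MP_4270a5_u.FinC
import Pool.Agent.Lib_MP_4270a5_u.KumAll

/-!
# MP_4270a5_nt, piece FIND: `fin_A`, `fin_B` with the weaker hypotheses of `kum_all_primes`

PAPER PROOF. As `fin_A`, `fin_B` (see `FinA.lean`, `FinB.lean`), with `kum_all_primes` for `kum_abs` (dropping the terms with `g i = 0` makes the
sets `J` smaller, so the bound for `|J|` stays true; `log p ≥ 0`).
-/

open Polynomial IntermediateField Finset

namespace MP4270U

open MP4270

/-- the elements of a number field are algebraic -/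
private theorem finD_alg (F : IntermediateField ℚ ℂ) [FiniteDimensional ℚ F] {x : ℂ} (hx : x ∈ F) :
    IsAlgebraic ℚ x := by
  have h1 := Algebra.IsAlgebraic.isAlgebraic (R := ℚ) (⟨x, hx⟩ : F)
  have h2 : algebraMap F ℂ ⟨x, hx⟩ = x := rfl
  rw [← h2]
  exact h1.algebraMap

/-- roots of algebraic numbers are algebraic -/
private theorem finD_root {x : ℂ} {n : ℕ} (hn : 0 < n) (hx : IsAlgebraic ℚ (x ^ n)) :
    IsAlgebraic ℚ x :=
  isAlgebraic_iff_isIntegral.mpr (IsIntegral.of_pow hn (isAlgebraic_iff_isIntegral.mp hx))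

private theorem finD_comap (F : IntermediateField ℚ ℂ) [FiniteDimensional ℚ F] :
    FiniteDimensional ℚ (F.comap iiA) := by
  let f : F.comap iiA →ₗ[ℚ] F :=
    { toFun := fun x => ⟨iiA x, x.2⟩
      map_add' := fun x y => by
        apply Subtype.ext
        change iiA ((x : Qb) + y) = iiA x + iiA y
        exact map_add _ _ _
      map_smul' := fun q x => by
        apply Subtype.ext
        change iiA (q • (x : Qb)) = q • iiA x
        rw [Algebra.smul_def, Algebra.smul_def, map_mul, AlgHom.commutes] }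
  refine FiniteDimensional.of_injective f ?_
  intro x y hxy
  apply Subtype.ext
  have := congrArg Subtype.val hxy
  exact ii_inj this

/-- the coefficient field consists of algebraic numbers -/
private theorem finD_cf (Γ : Subgroup ℂˣ) (halg : ∀ g ∈ Γ, IsAlgebraic ℚ (g : ℂ))
    (F : IntermediateField ℚ ℂ) [FiniteDimensional ℚ F] (S : Finset ℕ) {x : ℂ}
    (hx : x ∈ cf F Γ S) : IsAlgebraic ℚ x := by
  have h1 : cf F Γ S ≤ algebraicClosure ℚ ℂ := by
    refine sup_le (fun y hy => mem_algebraicClosure_iff.2 (finD_alg F hy)) ?_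
    rw [adjoin_le_iff]
    rintro z (⟨n, hn, hz⟩ | ⟨n, hn, -, γ, hγ, hz⟩)
    · refine mem_algebraicClosure_iff.2 (finD_root hn ?_)
      rw [hz]
      exact isAlgebraic_one
    · refine mem_algebraicClosure_iff.2 (finD_root hn ?_)
      rw [hz]
      exact halg γ hγ
  exact mem_algebraicClosure_iff.1 (h1 hx)

theorem fin_D (L : IntermediateField ℚ ℂ) [FiniteDimensional ℚ L] (N k : ℕ) (hN : 0 < N)
    (hμ : ∀ z : ℂ, z ^ N = 1 → z ∈ L) (b g : Fin k → ℂ)
    (hb : ∀ i, b i ∈ L) (hg : ∀ i, g i ^ N ∈ L)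
    (hp : ∀ p : ℕ, p.Prime → p ∣ N → ∃ (J : Finset (Fin k)) (m : ℕ),
      30000 * ((J.card - 1 : ℕ) : ℝ) * Real.log p ≤ p ∧ m.Coprime p ∧
      ∀ i, i ∉ J → IsIntegral ℤ ((m : ℂ) * (b i * g i)))
    (α : ℂ) (hα : α = ∑ i, b i * g i) (hα0 : α ≠ 0) (hne : ∀ i, ∀ c ∈ L, α ≠ c * g i) :
    Real.log 2 / 40320 ≤ wh α := by
  classical
  have hfd := finD_comap L
  have hb' : ∀ i, ∃ x : Qb, ii x = b i := fun i => exists_ii _ (finD_alg L (hb i))
  have hg' : ∀ i, ∃ x : Qb, ii x = g i := fun i =>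
    exists_ii _ (finD_root hN (finD_alg L (hg i)))
  choose b' hb'e using hb'
  choose g' hg'e using hg'
  have hmem : ∀ x : Qb, ii x ∈ L → x ∈ L.comap iiA := fun x hx => hx
  have hmem' : ∀ x : Qb, x ∈ L.comap iiA → ii x ∈ L := fun x hx => hx
  have hsum : ii (∑ i : {i : Fin k // g i ≠ 0}, b' i * g' i) = α := by
    rw [map_sum, hα]
    have h1 : ∑ i : {i : Fin k // g i ≠ 0}, ii (b' i * g' i) =
        ∑ i : {i : Fin k // g i ≠ 0}, b (i : Fin k) * g i :=
      Finset.sum_congr rfl fun i _ => by rw [map_mul, hb'e, hg'e]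
    rw [h1]
    rw [← Finset.sum_subtype (univ.filter fun i : Fin k => g i ≠ 0)
      (fun i => by simp) (fun i => b i * g i)]
    refine Finset.sum_subset (Finset.filter_subset _ _) fun i _ hi => ?_
    have h2 : g i = 0 := by
      by_contra h3
      exact hi (Finset.mem_filter.2 ⟨Finset.mem_univ i, h3⟩)
    rw [h2, mul_zero]
  have key := kum_all_primes (L.comap iiA) N hN
    (fun z hz => hmem z (hμ _ (by rw [← map_pow, hz, map_one])))
    (ι := {i : Fin k // g i ≠ 0}) (fun i => b' i) (fun i => g' i)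
    (fun i => hmem _ (by rw [hb'e]; exact hb i))
    (fun i => hmem _ (by rw [map_pow, hg'e]; exact hg i))
    (fun i h0 => i.2 (by rw [← hg'e, h0, map_zero]))
    (fun p hpp hpN => by
      obtain ⟨J, m, hJ, hm, hint⟩ := hp p hpp hpN
      refine ⟨J.subtype (fun i : Fin k => g i ≠ 0), m, le_trans ?_ hJ, hm, fun i hi => ?_⟩
      · have h1 : (((J.subtype (fun i : Fin k => g i ≠ 0)).card - 1 : ℕ) : ℝ) ≤
            ((J.card - 1 : ℕ) : ℝ) := by
          have h2 : (J.subtype (fun i : Fin k => g i ≠ 0)).card ≤ J.card := by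
            rw [Finset.card_subtype]
            exact Finset.card_filter_le _ _
          exact_mod_cast Nat.sub_le_sub_right h2 1
        have h3 : 0 ≤ Real.log p := Real.log_natCast_nonneg p
        exact mul_le_mul_of_nonneg_right (by linarith) h3
      · have h1 := hint i (fun h => hi (Finset.mem_subtype.2 h))
        rw [← hb'e, ← hg'e, ← map_mul, ← map_natCast ii m, ← map_mul] at h1
        exact (isIntegral_algHom_iff (RingHom.toIntAlgHom ii) (RingHom.injective ii)).1 h1)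
    (fun h0 => hα0 (by rw [← hsum, h0, map_zero]))
    (fun i c hc h0 => hne i (ii c) (hmem' c hc) (by rw [← hsum, h0, map_mul, hg'e]))
  unfold hW dn at key
  rw [← minpoly_ii, hsum] at key
  exact key

theorem fin_E (Γ : Subgroup ℂˣ) (hΓ : Γ.FG) (halg : ∀ g ∈ Γ, IsAlgebraic ℚ (g : ℂ))
    (F : IntermediateField ℚ ℂ) [FiniteDimensional ℚ F] (S : Finset ℕ) :
    ∃ c : ℝ, 0 < c ∧ ∀ (k N : ℕ), 0 < N → ∀ b g : Fin k → ℂ,
      (∀ j, b j ∈ cf F Γ S) → (∀ j, ∃ γ ∈ Γ, g j ^ N = (γ : ℂ)) →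
      (∀ p : ℕ, p.Prime → p ∣ N → ∃ (J : Finset (Fin k)) (m : ℕ),
        30000 * ((J.card - 1 : ℕ) : ℝ) * Real.log p ≤ p ∧ m.Coprime p ∧
        ∀ i, i ∉ J → IsIntegral ℤ ((m : ℂ) * (b i * g i))) →
      ∀ α : ℂ, α = ∑ j, b j * g j → α ≠ 0 →
        (¬ ∃ n : ℕ, 0 < n ∧ ∃ γ ∈ Γ, α ^ n = (γ : ℂ)) → c ≤ wh α := by
  classical
  obtain ⟨c, hc, H⟩ := final_C F Γ hΓ halg S 1
  refine ⟨min c (Real.log 2 / 40320), lt_min hc (div_pos (Real.log_pos (by norm_num))
    (by norm_num)), ?_⟩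
  intro k N hN b g hb hg hp α hα hα0 hαΓ
  choose γ hγ hgγ using hg
  set T : Set ℂ := {z : ℂ | z ^ N = 1} ∪ (Set.range b ∪ Set.range fun j => (γ j : ℂ)) with hT
  have hTfin : T.Finite := by
    refine Set.Finite.union ?_ ((Set.finite_range b).union (Set.finite_range _))
    have h1 : {z : ℂ | z ^ N = 1} ⊆ ((X ^ N - 1 : ℂ[X]).rootSet ℂ) := by
      intro z hz
      rw [Polynomial.mem_rootSet]
      refine ⟨X_pow_sub_C_ne_zero hN 1, ?_⟩
      have hz' : z ^ N = 1 := hz
      simp [hz']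
    exact (Polynomial.rootSet_finite _ _).subset h1
  have hTcf : T ⊆ cf F Γ S := by
    rintro z (hz | ⟨j, rfl⟩ | ⟨j, rfl⟩)
    · exact (le_sup_right : adjoin ℚ _ ≤ cf F Γ S) (subset_adjoin _ _ (Or.inl ⟨N, hN, hz⟩))
    · exact hb j
    · exact (le_sup_right : adjoin ℚ _ ≤ cf F Γ S)
        (subset_adjoin _ _ (Or.inr ⟨1, one_pos, by simp, γ j, hγ j, pow_one _⟩))
  have hTfin' : Finite T := hTfin
  have hfdT : FiniteDimensional ℚ (adjoin ℚ T) :=
    IntermediateField.finiteDimensional_adjoin fun x hx =>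
      isAlgebraic_iff_isIntegral.mp (finD_cf Γ halg F S (hTcf hx))
  set L : IntermediateField ℚ ℂ := F ⊔ adjoin ℚ T with hL
  have hfdL : FiniteDimensional ℚ L := IntermediateField.finiteDimensional_sup _ _
  have hLcf : L ≤ cf F Γ S := sup_le le_sup_left (adjoin_le_iff.2 hTcf)
  have hTL : ∀ x ∈ T, x ∈ L := fun x hx =>
    (le_sup_right : adjoin ℚ T ≤ L) (subset_adjoin _ _ hx)
  by_cases hne : ∀ i, ∀ c ∈ L, α ≠ c * g i
  · exact (min_le_right _ _).trans (fin_D L N k hN (fun z hz => hTL z (Or.inl hz)) b g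
      (fun i => hTL _ (Or.inr (Or.inl ⟨i, rfl⟩)))
      (fun i => by rw [hgγ]; exact hTL _ (Or.inr (Or.inr ⟨i, rfl⟩))) hp α hα hα0 hne)
  · push Not at hne
    obtain ⟨i, d, hd, hαd⟩ := hne
    refine (min_le_left _ _).trans ?_
    exact H (fun _ => d) (fun _ => g i) (fun _ => hLcf hd) (fun _ => ⟨N, hN, γ i, hγ i, hgγ i⟩) α
      (by simpa using hαd) hα0 hαΓ

end MP4270U
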