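import Pool.Agent.Lib_MP_4270a5_u.FinD

/-!
# MP_4270a5_nt, piece FING: no condition at the primes in `S`, and `max k₀ (p / (30000 log p))` terms

PAPER PROOF. Let `S'` be `S` together with the primes `p` with `p < 30000 k₀ log p` (finitely many). Given a sum, write
`N = N₁ N₂`, `N₁` an `S'`-number, `N₂` prime to `S'`, `u N₁ + v N₂ = 1`, `g_j = g_j^{u N₁} g_j^{v N₂}`: `(g_j^{v N₂})^{N₁} ∈ Γ`, so
`b_j' = b_j g_j^{v N₂} ∈ cf F Γ S'`, and `g_j' = g_j^{u N₁}` has `g_j'^{N₂} ∈ Γ`; `b_j' g_j' = b_j g_j`. `fin_E` for `S'`, exponent `N₂`.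
-/

open Polynomial IntermediateField Finset

namespace MP4270U

open MP4270

private theorem finG_log (k : ℕ) : ∃ P : ℕ, ∀ p : ℕ, P < p → 30000 * (k : ℝ) * Real.log p ≤ p := by
  have h1 := Real.isLittleO_log_id_atTop.def (c := 1 / (30000 * (k : ℝ) + 1)) (by positivity)
  obtain ⟨x, hx⟩ := Filter.eventually_atTop.1 h1
  obtain ⟨P, hP⟩ := exists_nat_gt x
  refine ⟨P, fun p hp => ?_⟩
  have h2 := hx p (hP.le.trans (by exact_mod_cast hp.le))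
  have h3 : 0 ≤ Real.log (p : ℝ) := Real.log_natCast_nonneg p
  rw [Real.norm_of_nonneg h3, id, Real.norm_of_nonneg (Nat.cast_nonneg p)] at h2
  have h4 : 0 < 30000 * (k : ℝ) + 1 := by positivity
  rw [one_div, ← div_eq_inv_mul, le_div_iff₀ h4] at h2
  nlinarith

theorem fin_G (Γ : Subgroup ℂˣ) (hΓ : Γ.FG) (halg : ∀ g ∈ Γ, IsAlgebraic ℚ (g : ℂ))
    (F : IntermediateField ℚ ℂ) [FiniteDimensional ℚ F] (S : Finset ℕ) (k₀ : ℕ) :
    ∃ c : ℝ, 0 < c ∧ ∀ (k N : ℕ), 0 < N → ∀ b g : Fin k → ℂ,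
      (∀ j, b j ∈ cf F Γ S) → (∀ j, ∃ γ ∈ Γ, g j ^ N = (γ : ℂ)) →
      (∀ p : ℕ, p.Prime → p ∣ N → p ∉ S → ∃ (J : Finset (Fin k)) (m : ℕ),
        (J.card : ℝ) ≤ max (k₀ : ℝ) (p / (30000 * Real.log p)) ∧ m.Coprime p ∧
        ∀ i, i ∉ J → IsIntegral ℤ ((m : ℂ) * (b i * g i))) →
      ∀ α : ℂ, α = ∑ j, b j * g j → α ≠ 0 →
        (¬ ∃ n : ℕ, 0 < n ∧ ∃ γ ∈ Γ, α ^ n = (γ : ℂ)) → c ≤ wh α := by
  classical
  obtain ⟨P, hP⟩ := finG_log k₀
  set S' : Finset ℕ := S ∪ range (P + 1) with hS'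
  obtain ⟨c, hc, H⟩ := fin_E Γ hΓ halg F S'
  refine ⟨c, hc, ?_⟩
  intro k N hN b g hb hg hp α hα hα0 hne
  have hcf : cf F Γ S ≤ cf F Γ S' := by
    unfold cf
    refine sup_le_sup_left (IntermediateField.adjoin.mono _ _ _ (Set.union_subset_union_right _ ?_)) _
    rintro z ⟨n, hn, h1, h2⟩
    exact ⟨n, hn, h1.trans subset_union_left, h2⟩
  have hg0 : ∀ j, g j ≠ 0 := by
    intro j h0
    obtain ⟨γ, -, h1⟩ := hg j
    rw [h0, zero_pow hN.ne'] at h1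
    exact γ.ne_zero h1.symm
  obtain ⟨N₁, N₂, hNN, hN₁, hN₂, hcop⟩ := finC_split S' N hN
  have hco : (N₁.gcd N₂ : ℤ) = 1 := by
    have h1 := hcop N₁ hN₁
    rw [Nat.Coprime] at h1
    rw [h1]
    rfl
  have hbez : (N₁ : ℤ) * N₁.gcdA N₂ + N₂ * N₁.gcdB N₂ = 1 := by
    rw [← Nat.gcd_eq_gcd_ab, hco]
  set u : ℤ := N₁.gcdA N₂ with hu
  set v : ℤ := N₁.gcdB N₂ with hv
  have hz : ∀ (j : Fin k) (w : ℤ), ∃ δ ∈ Γ, (g j ^ N) ^ w = ((δ : ℂˣ) : ℂ) := by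
    intro j w
    obtain ⟨δ, hδ, h1⟩ := hg j
    refine ⟨δ ^ w, Γ.zpow_mem hδ w, ?_⟩
    rw [h1, Units.val_zpow_eq_zpow_val]
  have hsplit : ∀ j, g j ^ ((N₂ : ℤ) * v) * g j ^ ((N₁ : ℤ) * u) = g j := by
    intro j
    rw [← zpow_add₀ (hg0 j)]
    have h1 : (N₂ : ℤ) * v + (N₁ : ℤ) * u = 1 := by linear_combination hbez
    rw [h1, zpow_one]
  refine H k N₂ hN₂ (fun i => b i * g i ^ ((N₂ : ℤ) * v)) (fun i => g i ^ ((N₁ : ℤ) * u))
    (fun i => ?_) (fun i => ?_) (fun p hpp hpN => ?_) α ?_ hα0 hne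
  · refine (cf F Γ S').mul_mem (hcf (hb _)) ?_
    refine (le_sup_right : _ ≤ cf F Γ S') (IntermediateField.subset_adjoin _ _ (Or.inr ?_))
    obtain ⟨δ, hδ, h1⟩ := hz i v
    refine ⟨N₁, hN₁.1, hN₁.2, δ, hδ, ?_⟩
    rw [← h1, ← zpow_natCast, ← zpow_natCast, ← zpow_mul, ← zpow_mul, hNN]
    congr 1
    push_cast
    ring
  · obtain ⟨δ, hδ, h1⟩ := hz i u
    refine ⟨δ, hδ, ?_⟩
    rw [← h1, ← zpow_natCast, ← zpow_natCast, ← zpow_mul, ← zpow_mul, hNN]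
    congr 1
    push_cast
    ring
  · have hpS' : p ∉ S' := by
      intro h
      have h1 : finC_num S' p := ⟨hpp.pos, by
        rw [hpp.primeFactors]
        exact singleton_subset_iff.2 h⟩
      have h2 := hcop p h1
      exact hpp.one_lt.ne' (Nat.Coprime.eq_one_of_dvd h2 hpN)
    rw [hS', mem_union, not_or, mem_range] at hpS'
    obtain ⟨J, m, hJ, hm, hint⟩ := hp p hpp (hpN.trans (hNN ▸ dvd_mul_left _ _)) hpS'.1
    have hlog : 0 < Real.log p := Real.log_pos (by exact_mod_cast hpp.one_lt)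
    have h30 : 0 < 30000 * Real.log p := by positivity
    have hk : (k₀ : ℝ) ≤ p / (30000 * Real.log p) := by
      rw [le_div_iff₀ h30]
      have h1 := hP p (by omega)
      calc (k₀ : ℝ) * (30000 * Real.log p) = 30000 * (k₀ : ℝ) * Real.log p := by ring
        _ ≤ p := h1
    rw [max_eq_right hk, le_div_iff₀ h30] at hJ
    refine ⟨J, m, ?_, hm, fun i hi => ?_⟩
    · have hJ1 : ((J.card - 1 : ℕ) : ℝ) ≤ (J.card : ℝ) := by exact_mod_cast Nat.sub_le _ _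
      calc 30000 * ((J.card - 1 : ℕ) : ℝ) * Real.log p
          = ((J.card - 1 : ℕ) : ℝ) * (30000 * Real.log p) := by ring
        _ ≤ (J.card : ℝ) * (30000 * Real.log p) := mul_le_mul_of_nonneg_right hJ1 h30.le
        _ ≤ p := hJ
    · rw [mul_assoc, hsplit]
      exact hint i hi
  · rw [hα]
    refine Finset.sum_congr rfl fun i _ => ?_
    rw [mul_assoc, hsplit]

end MP4270U
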