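import Pool.Agent.Lib_MP_4270a5_u.FinG

/-!
# MP_4270a5_nt, piece FINH: an element of the ring of `S`-integral sums plus `k₀` arbitrary terms

PAPER PROOF. Let `S'` be as in `fin_C`. `β = ∑ b_j' g_j'` with terms which are integral outside `S'` (`finC_Rep`). Apply `fin_G` for `S'` to the
sum of these terms and the `k₀` other terms, `N` a common exponent, `J` the set of the `k₀` other indices.
-/

open Polynomial IntermediateField Finset

namespace MP4270U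

open MP4270

private theorem finH_rep (Γ : Subgroup ℂˣ) (F : IntermediateField ℚ ℂ) (S S' : Finset ℕ)
    (hSS : S ⊆ S') (hcf : cf F Γ S ≤ cf F Γ S') (α : ℂ) (hα : α ∈ Subring.closure
        ({z : ℂ | z ∈ cf F Γ S ∧ ∃ s : ℕ, 0 < s ∧ s.primeFactors ⊆ S ∧ IsIntegral ℤ ((s : ℂ) * z)} ∪
          {z : ℂ | ∃ n : ℕ, 0 < n ∧ ∃ γ ∈ Γ, z ^ n = (γ : ℂ)})) :
    finC_Rep (cf F Γ S') Γ S' α := by
  have h1 : IsIntegral ℤ (((1 : ℕ) : ℂ) * 1) := by simpa using isIntegral_one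
  have hone : ∃ s : ℕ, finC_num S' s ∧ IsIntegral ℤ ((s : ℂ) * 1) := ⟨1, finC_num_one _, h1⟩
  induction hα using Subring.closure_induction with
  | mem z hz =>
    rcases hz with ⟨hz1, s, hs, hs1, hs2⟩ | hz
    · rw [← mul_one z]
      exact finC_Rep_one _ _ _ (hcf hz1) ⟨s, ⟨hs, hs1.trans hSS⟩, hs2⟩ (finC_D_one Γ)
    · rw [← one_mul z]
      exact finC_Rep_one _ _ _ (IntermediateField.one_mem _) hone hz
  | zero => exact ⟨Empty, inferInstance, fun _ => 0, fun _ => 0, fun j => j.elim, by simp⟩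
  | one =>
    rw [← one_mul (1 : ℂ)]
    exact finC_Rep_one _ _ _ (IntermediateField.one_mem _) hone (finC_D_one Γ)
  | add x y _ _ hx hy => exact finC_Rep_add hx hy
  | neg x _ hx => exact finC_Rep_neg hx
  | mul x y _ _ hx hy => exact finC_Rep_mul hx hy

theorem fin_H (Γ : Subgroup ℂˣ) (hΓ : Γ.FG) (halg : ∀ g ∈ Γ, IsAlgebraic ℚ (g : ℂ))
    (F : IntermediateField ℚ ℂ) [FiniteDimensional ℚ F] (S : Finset ℕ) (k₀ : ℕ) :
    ∃ c : ℝ, 0 < c ∧ ∀ β ∈ Subring.closure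
        ({z : ℂ | z ∈ cf F Γ S ∧ ∃ s : ℕ, 0 < s ∧ s.primeFactors ⊆ S ∧ IsIntegral ℤ ((s : ℂ) * z)} ∪
          {z : ℂ | ∃ n : ℕ, 0 < n ∧ ∃ γ ∈ Γ, z ^ n = (γ : ℂ)}),
      ∀ b g : Fin k₀ → ℂ, (∀ j, b j ∈ cf F Γ S) →
      (∀ j, ∃ n : ℕ, 0 < n ∧ ∃ γ ∈ Γ, g j ^ n = (γ : ℂ)) →
      ∀ α : ℂ, α = β + ∑ j, b j * g j → α ≠ 0 →
        (¬ ∃ n : ℕ, 0 < n ∧ ∃ γ ∈ Γ, α ^ n = (γ : ℂ)) → c ≤ wh α := by
  classical
  obtain ⟨S', hSS, hS'⟩ := finC_S Γ hΓ halg S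
  obtain ⟨c, hc, hG⟩ := fin_G Γ hΓ halg F S' k₀
  refine ⟨c, hc, fun β hβ b₀ g₀ hb₀ hg₀ α hα hα0 hne => ?_⟩
  have hcf : cf F Γ S ≤ cf F Γ S' := by
    unfold cf
    refine sup_le_sup_left (IntermediateField.adjoin.mono _ _ _ (Set.union_subset_union_right _ ?_)) _
    rintro z ⟨n, hn, h1, h2⟩
    exact ⟨n, hn, h1.trans hSS, h2⟩
  obtain ⟨ι, _, b, g, h, hsum⟩ := finH_rep Γ F S S' hSS hcf β hβ
  choose hb hbs hg using h
  choose s hs hsi using hbs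
  have hts : ∀ j, ∃ s : ℕ, finC_num S' s ∧ IsIntegral ℤ ((s : ℂ) * g j) := fun j => finC_int hS' (hg j)
  choose t ht hti using hts
  choose n hn γ hγ hgn using hg
  choose n₀ hn₀ γ₀ hγ₀ hgn₀ using hg₀
  set m : ℕ := ∏ j, (s j * t j) with hm
  have hmS : finC_num S' m := finC_num_prod _ _ fun j _ => finC_num_mul (hs j) (ht j)
  have hint : ∀ j, IsIntegral ℤ ((m : ℂ) * (b j * g j)) := by
    intro j
    obtain ⟨q, hq⟩ : s j * t j ∣ m := dvd_prod_of_mem _ (mem_univ j)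
    have e : (m : ℂ) * (b j * g j) = (q : ℂ) * ((s j : ℂ) * b j * ((t j : ℂ) * g j)) := by
      rw [hq]
      push_cast
      ring
    rw [e]
    exact (finC_nat q).mul ((hsi j).mul (hti j))
  set N : ℕ := (∏ j, n j) * ∏ j, n₀ j with hN
  have hN0 : 0 < N := Nat.mul_pos (prod_pos fun j _ => hn j) (prod_pos fun j _ => hn₀ j)
  have hgN : ∀ j, ∃ δ ∈ Γ, g j ^ N = (δ : ℂ) := by
    intro j
    obtain ⟨q, hq⟩ : n j ∣ N := (dvd_prod_of_mem n (mem_univ j)).trans (dvd_mul_right _ _)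
    refine ⟨γ j ^ q, Γ.pow_mem (hγ j) q, ?_⟩
    rw [hq, pow_mul, hgn, Units.val_pow_eq_pow_val]
  have hgN₀ : ∀ j, ∃ δ ∈ Γ, g₀ j ^ N = (δ : ℂ) := by
    intro j
    obtain ⟨q, hq⟩ : n₀ j ∣ N := (dvd_prod_of_mem n₀ (mem_univ j)).trans (dvd_mul_left _ _)
    refine ⟨γ₀ j ^ q, Γ.pow_mem (hγ₀ j) q, ?_⟩
    rw [hq, pow_mul, hgn₀, Units.val_pow_eq_pow_val]
  let e : Fin (Fintype.card (ι ⊕ Fin k₀)) ≃ ι ⊕ Fin k₀ := (Fintype.equivFin _).symm
  refine hG (Fintype.card (ι ⊕ Fin k₀)) N hN0 (fun i => Sum.elim b b₀ (e i))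
    (fun i => Sum.elim g g₀ (e i)) (fun i => ?_) (fun i => ?_) (fun p hpp hpN hpS => ?_) α ?_ hα0 hne
  · rcases e i with j | j
    · exact hb j
    · exact hcf (hb₀ j)
  · rcases e i with j | j
    · exact hgN j
    · exact hgN₀ j
  · refine ⟨(univ : Finset (Fin k₀)).image fun j => e.symm (Sum.inr j), m, ?_, ?_, ?_⟩
    · refine le_max_of_le_left ?_
      have h1 : ((univ : Finset (Fin k₀)).image fun j => e.symm (Sum.inr j)).card ≤ k₀ := by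
        refine card_image_le.trans ?_
        simp
      exact_mod_cast h1
    · refine Nat.Coprime.symm ((Nat.Prime.coprime_iff_not_dvd hpp).2 fun hd => hpS ?_)
      exact hmS.2 (Nat.mem_primeFactors.2 ⟨hpp, hd, hmS.1.ne'⟩)
    · intro i hi
      rcases hei : e i with j | j
      · exact hint j
      · exfalso
        apply hi
        refine mem_image.2 ⟨j, mem_univ _, ?_⟩
        rw [← hei, Equiv.symm_apply_apply]
  · rw [hα, hsum, Equiv.sum_comp e (fun x => Sum.elim b b₀ x * Sum.elim g g₀ x),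
      Fintype.sum_sum_type]
    simp

end MP4270U
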