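import Pool.Agent.Lib_MP_4270a5_u.OrdP

/-!
# MP_4270a5_nt, piece GRPP: a sum of few characters of a finite abelian `p`-group is rarely small

PAPER PROOF. `f τ = ∑_j t_j χ_j(τ)`, `k = |ι|`, `ϖ = ‖1 - ζ‖ < 1`. Claim: `p * #{τ | ‖f τ‖ < ϖ^(k-1) ‖t_{i₀}‖} ≤ (k-1) |G|`. Induction on `k`
(for all `ι`). `k = 1`: `‖f τ‖ = ‖t_{i₀}‖` (values of characters have norm `1`). `k ≥ 2`: the homomorphism `τ ↦ (χ_j(τ)/χ_{i₀}(τ))_j` is not
trivial (`χ` is injective), so its range is a nontrivial `p`-group; an element of order `p` of the range (Cauchy) gives `τ₁ ∈ G` such that all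
`χ_j(τ₁)/χ_{i₀}(τ₁)` are `p`-th roots of unity `ζ^(c_j)`, `c_j < p`, `c_{i₀} = 0`, not all `c_j = 0`. `ι₁ = {j | c_j = 0}`, `k₁ = |ι₁| < k`,
`C = {c_j}`, `q = |C|`; `k₁ + (q - 1) ≤ k`. `s_c(σ) = ∑_{c_j = c} t_j χ_j(σ)`; `‖f(σ τ₁^i)‖ = ‖∑_{c ∈ C} s_c(σ) ζ^(c i)‖`. `B₁ = {σ | ‖s_0(σ)‖ < ϖ^(k₁-1) ‖t_{i₀}‖}`:
`p |B₁| ≤ (k₁-1)|G|` by induction. For `σ ∉ B₁` at most `q - 1` of the `i < p` have `‖f(σ τ₁^i)‖ < ϖ^(q-1) ‖s_0(σ)‖` (`ordp`), hence at most `q - 1`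
have `‖f(σ τ₁^i)‖ < ϖ^(k-1) ‖t_{i₀}‖` (`ϖ^(q-1) ϖ^(k₁-1) ≥ ϖ^(k-1)`). `B` the bad set for `f`: counting pairs `(σ, i)`,
`p |B| = #{(σ, i) | σ τ₁^i ∈ B, i < p} ≤ p |B₁| + (q-1) |G| ≤ (k₁ - 1 + q - 1) |G| ≤ (k-1) |G|`.
-/

namespace MP4270U

open Finset

private theorem norm_chi_grpp {E : Type*} [NormedField E] {p a : ℕ} [Fact p.Prime] {G : Type*}
    [CommGroup G] (hG : ∀ τ : G, τ ^ p ^ a = 1) (χ : G →* Eˣ) (τ : G) :
    ‖((χ τ : Eˣ) : E)‖ = 1 := by
  have h1 : ((χ τ : Eˣ) : E) ^ p ^ a = 1 := by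
    rw [← Units.val_pow_eq_pow_val, ← map_pow, hG, map_one, Units.val_one]
  have h2 : ‖((χ τ : Eˣ) : E)‖ ^ p ^ a = 1 := by rw [← norm_pow, h1, norm_one]
  exact (pow_eq_one_iff_of_nonneg (norm_nonneg _) (pow_ne_zero a (Fact.out : p.Prime).ne_zero)).1 h2

private theorem exists_tau_grpp {E : Type*} [NormedField E] {p a : ℕ} [Fact p.Prime] {G : Type*}
    [CommGroup G] (hG : ∀ τ : G, τ ^ p ^ a = 1) {ι : Type*} (χ : ι → (G →* Eˣ)) (i₀ j₁ : ι)
    (h : χ j₁ ≠ χ i₀) :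
    ∃ τ : G, (∀ j, (χ j τ) ^ p = (χ i₀ τ) ^ p) ∧ ∃ j, χ j τ ≠ χ i₀ τ := by
  classical
  obtain ⟨τ₀, h0⟩ : ∃ τ, χ j₁ τ ≠ χ i₀ τ := by
    by_contra hc
    push Not at hc
    exact h (MonoidHom.ext hc)
  have hex : ∃ m : ℕ, ∀ j, χ j (τ₀ ^ p ^ m) = χ i₀ (τ₀ ^ p ^ m) :=
    ⟨a, fun j => by rw [hG, map_one, map_one]⟩
  have hm := Nat.find_spec hex
  rcases Nat.eq_zero_or_pos (Nat.find hex) with h1 | h1
  · rw [h1] at hm
    have h2 := hm j₁
    rw [pow_zero, pow_one] at h2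
    exact absurd h2 h0
  · obtain ⟨m, hm'⟩ : ∃ m, Nat.find hex = m + 1 := ⟨Nat.find hex - 1, by omega⟩
    refine ⟨τ₀ ^ p ^ m, fun j => ?_, ?_⟩
    · rw [← map_pow, ← map_pow, ← pow_mul, ← pow_succ, ← hm']
      exact hm j
    · have h2 := Nat.find_min hex (m := m) (by omega)
      push Not at h2
      exact h2

open Classical in
private theorem cnt_grpp {p : ℕ} {G : Type*} [CommGroup G] [Fintype G] (B : Finset G) (τ₁ : G) :
    p * B.card = ∑ σ : G, ((range p).filter fun i => σ * τ₁ ^ i ∈ B).card := by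
  simp only [card_filter]
  rw [sum_comm]
  have h1 : ∀ i ∈ range p, (∑ σ : G, if σ * τ₁ ^ i ∈ B then 1 else 0) = B.card := by
    intro i _
    rw [← card_filter]
    refine card_bij (fun σ _ => σ * τ₁ ^ i) (fun σ h => (mem_filter.1 h).2)
      (fun σ _ σ' _ h => mul_right_cancel h) fun b hb => ?_
    exact ⟨b * (τ₁ ^ i)⁻¹, mem_filter.2 ⟨mem_univ _, by rwa [inv_mul_cancel_right]⟩,
      inv_mul_cancel_right _ _⟩
  rw [sum_congr rfl h1, sum_const, card_range, smul_eq_mul]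

universe uu

open Classical in
private theorem main_grpp {E : Type*} [NormedField E] [IsUltrametricDist E] {p : ℕ}
    [Fact p.Prime] (hp : ‖(p : E)‖ < 1) {ζ : E} (hζ : IsPrimitiveRoot ζ p) {G : Type*}
    [CommGroup G] [Fintype G] (a : ℕ) (hG : ∀ τ : G, τ ^ p ^ a = 1) (n : ℕ) :
    ∀ (ι : Type uu) [Fintype ι] (χ : ι → (G →* Eˣ)) (_ : Function.Injective χ) (t : ι → E)
      (i₀ : ι), Fintype.card ι = n →
    p * (univ.filter fun τ : G => ‖∑ i, t i * ((χ i τ : Eˣ) : E)‖ <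
      ‖1 - ζ‖ ^ (n - 1) * ‖t i₀‖).card ≤ (n - 1) * Fintype.card G := by
  have hpp : p.Prime := Fact.out
  haveI : NeZero p := ⟨hpp.ne_zero⟩
  have hϖ0 : 0 ≤ ‖1 - ζ‖ := norm_nonneg _
  have hϖ1 : ‖1 - ζ‖ ≤ 1 := (ordp_lt_one hp hζ).le
  induction n using Nat.strong_induction_on with
  | _ n ih =>
    intro ι _ χ hχ t i₀ hn
    by_cases hsub : ∀ j : ι, j = i₀
    · have hz : (univ.filter fun τ : G => ‖∑ i, t i * ((χ i τ : Eˣ) : E)‖ <
          ‖1 - ζ‖ ^ (n - 1) * ‖t i₀‖) = ∅ := by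
        rw [filter_eq_empty_iff]
        intro τ _
        have h1 : (univ : Finset ι) = {i₀} := by
          ext j
          simp [hsub j]
        have h2 : n = 1 := by
          rw [← hn, ← card_univ, h1, card_singleton]
        rw [h1, sum_singleton, norm_mul, norm_chi_grpp hG, mul_one, h2, Nat.sub_self, pow_zero,
          one_mul]
        exact lt_irrefl _
      rw [hz, card_empty, mul_zero]
      exact Nat.zero_le _
    push Not at hsub
    obtain ⟨j₁, hj₁⟩ := hsub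
    obtain ⟨τ₁, hτp, j₂, hj₂⟩ := exists_tau_grpp hG χ i₀ j₁ fun h => hj₁ (hχ h)
    have hc : ∀ j, ∃ c < p, ζ ^ c = ((χ j τ₁ / χ i₀ τ₁ : Eˣ) : E) := by
      intro j
      refine hζ.eq_pow_of_pow_eq_one ?_
      rw [← Units.val_pow_eq_pow_val, div_pow, hτp j, div_self', Units.val_one]
    choose c hcp hcζ using hc
    have hc0 : ∀ j, c j = 0 ↔ χ j τ₁ = χ i₀ τ₁ := by
      intro j
      constructor
      · intro h
        have h1 := hcζ j
        rw [h, pow_zero] at h1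
        exact div_eq_one.1 (Units.ext h1.symm)
      · intro h
        have h1 := hcζ j
        rw [h, div_self', Units.val_one] at h1
        by_contra hne
        exact absurd ((hζ.dvd_of_pow_eq_one _ h1)) (Nat.not_dvd_of_pos_of_lt (Nat.pos_of_ne_zero hne) (hcp j))
    have hi0 : c i₀ = 0 := (hc0 i₀).2 rfl
    have hj2 : c j₂ ≠ 0 := fun h => hj₂ ((hc0 j₂).1 h)
    set C : Finset ℕ := univ.image c with hC
    set s : G → ℕ → E := fun σ d => ∑ j ∈ univ.filter (fun j => c j = d), t j * ((χ j σ : Eˣ) : E)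
      with hs
    set k₁ := Fintype.card {j : ι // c j = 0} with hk₁
    have hk₁c : (univ.filter fun j => c j = 0).card = k₁ := by
      rw [hk₁, Fintype.card_subtype]
    have h0C : 0 ∈ C := mem_image.2 ⟨i₀, mem_univ _, hi0⟩
    have hk₁pos : 0 < k₁ := by
      rw [← hk₁c]
      exact card_pos.2 ⟨i₀, mem_filter.2 ⟨mem_univ _, hi0⟩⟩
    have hsum : (univ.filter fun j => c j = 0).card + (univ.filter fun j => ¬ c j = 0).card = n := by
      rw [card_filter_add_card_filter_not, card_univ, hn]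
    have hneg : 0 < (univ.filter fun j => ¬ c j = 0).card :=
      card_pos.2 ⟨j₂, mem_filter.2 ⟨mem_univ _, hj2⟩⟩
    have hqle : C.card - 1 ≤ (univ.filter fun j => ¬ c j = 0).card := by
      rw [← card_erase_of_mem h0C]
      refine (card_le_card ?_).trans (card_image_le (f := c))
      intro d hd
      obtain ⟨hd0, hd1⟩ := mem_erase.1 hd
      obtain ⟨j, _, hj⟩ := mem_image.1 hd1
      exact mem_image.2 ⟨j, mem_filter.2 ⟨mem_univ _, by rw [hj]; exact hd0⟩, hj⟩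
    rw [hk₁c] at hsum
    have hk₁n : k₁ < n := by omega
    -- the bad set for `s 0`
    have hih := ih k₁ hk₁n {j : ι // c j = 0} (fun j => χ j) (fun j j' h => Subtype.ext (hχ h))
      (fun j => t j) ⟨i₀, hi0⟩ rfl
    have hs0 : ∀ σ : G, ∑ i : {j : ι // c j = 0}, t i * ((χ i σ : Eˣ) : E) = s σ 0 := by
      intro σ
      rw [hs]
      exact (sum_subtype (univ.filter fun j => c j = 0) (p := fun j => c j = 0)
        (fun j => by simp) (fun j => t j * ((χ j σ : Eˣ) : E))).symm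
    simp only [hs0] at hih
    set B₁ : Finset G := univ.filter fun τ : G => ‖s τ 0‖ < ‖1 - ζ‖ ^ (k₁ - 1) * ‖t i₀‖ with hB₁
    set B : Finset G := univ.filter fun τ : G => ‖∑ i, t i * ((χ i τ : Eˣ) : E)‖ <
      ‖1 - ζ‖ ^ (n - 1) * ‖t i₀‖ with hB
    have hf : ∀ (σ : G) (i : ℕ), ‖∑ j, t j * ((χ j (σ * τ₁ ^ i) : Eˣ) : E)‖ =
        ‖∑ d ∈ C, s σ d * ζ ^ (d * i)‖ := by
      intro σ i
      have h1 : ∑ j, t j * ((χ j (σ * τ₁ ^ i) : Eˣ) : E) =
          ((χ i₀ τ₁ : Eˣ) : E) ^ i * ∑ d ∈ C, s σ d * ζ ^ (d * i) := by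
        have h2 : ∀ j, ((χ j τ₁ : Eˣ) : E) = ((χ i₀ τ₁ : Eˣ) : E) * ζ ^ c j := by
          intro j
          rw [hcζ j, ← Units.val_mul, mul_div_cancel]
        have h3 : ∀ d ∈ C, s σ d * ζ ^ (d * i) =
            ∑ j ∈ univ.filter (fun j => c j = d), t j * ((χ j σ : Eˣ) : E) * ζ ^ (c j * i) := by
          intro d _
          rw [hs]
          simp only
          rw [sum_mul]
          refine sum_congr rfl fun j hj => ?_
          rw [(mem_filter.1 hj).2]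
        rw [sum_congr rfl h3, sum_fiberwise_of_maps_to (fun j _ => mem_image_of_mem c (mem_univ j)),
          mul_sum]
        refine sum_congr rfl fun j _ => ?_
        rw [map_mul, map_pow, Units.val_mul, Units.val_pow_eq_pow_val, h2 j, mul_pow, ← pow_mul]
        ring
      rw [h1, norm_mul, norm_pow, norm_chi_grpp hG, one_pow, one_mul]
    have hkey : ∀ σ : G, σ ∉ B₁ → ((range p).filter fun i => σ * τ₁ ^ i ∈ B).card ≤ C.card - 1 := by
      intro σ hσ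
      by_contra hcon
      have hCpos : 0 < C.card := card_pos.2 ⟨0, h0C⟩
      obtain ⟨i, hi, hle⟩ := ordp hp hζ C ((range p).filter fun i => σ * τ₁ ^ i ∈ B)
        (fun d hd => by
          obtain ⟨j, _, hj⟩ := mem_image.1 hd
          rw [← hj]
          exact hcp j)
        (fun i hi => mem_range.1 (mem_filter.1 hi).1) (by omega) (s σ) 0 h0C
      have h1 := (mem_filter.1 (mem_filter.1 hi).2).2
      rw [hf σ i] at h1
      have h2 : ‖1 - ζ‖ ^ (k₁ - 1) * ‖t i₀‖ ≤ ‖s σ 0‖ := by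
        by_contra h3
        exact hσ (mem_filter.2 ⟨mem_univ _, not_le.1 h3⟩)
      have h3 : ‖1 - ζ‖ ^ (n - 1) ≤ ‖1 - ζ‖ ^ (C.card - 1) * ‖1 - ζ‖ ^ (k₁ - 1) := by
        rw [← pow_add]
        exact pow_le_pow_of_le_one hϖ0 hϖ1 (by omega)
      have h4 : ‖1 - ζ‖ ^ (n - 1) * ‖t i₀‖ ≤ ‖1 - ζ‖ ^ (C.card - 1) * ‖s σ 0‖ :=
        calc ‖1 - ζ‖ ^ (n - 1) * ‖t i₀‖
            ≤ (‖1 - ζ‖ ^ (C.card - 1) * ‖1 - ζ‖ ^ (k₁ - 1)) * ‖t i₀‖ :=
              mul_le_mul_of_nonneg_right h3 (norm_nonneg _)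
          _ = ‖1 - ζ‖ ^ (C.card - 1) * (‖1 - ζ‖ ^ (k₁ - 1) * ‖t i₀‖) := by ring
          _ ≤ ‖1 - ζ‖ ^ (C.card - 1) * ‖s σ 0‖ :=
              mul_le_mul_of_nonneg_left h2 (pow_nonneg hϖ0 _)
      exact absurd (h1.trans_le h4) (not_lt.2 hle)
    have hcount : p * B.card ≤ p * B₁.card + (C.card - 1) * Fintype.card G := by
      rw [cnt_grpp (p := p) B τ₁]
      have h1 : ∀ σ : G, ((range p).filter fun i => σ * τ₁ ^ i ∈ B).card ≤
          (if σ ∈ B₁ then p else 0) + (C.card - 1) := by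
        intro σ
        by_cases h : σ ∈ B₁
        · rw [if_pos h]
          refine le_trans ?_ (Nat.le_add_right _ _)
          exact (card_filter_le _ _).trans (card_range p).le
        · rw [if_neg h, zero_add]
          exact hkey σ h
      refine (sum_le_sum fun σ _ => h1 σ).trans ?_
      rw [sum_add_distrib, ← sum_filter, sum_const, sum_const, card_univ, smul_eq_mul,
        smul_eq_mul, filter_mem_eq_inter, univ_inter, mul_comm p, mul_comm (C.card - 1)]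
    calc p * B.card ≤ p * B₁.card + (C.card - 1) * Fintype.card G := hcount
      _ ≤ (k₁ - 1) * Fintype.card G + (C.card - 1) * Fintype.card G := Nat.add_le_add_right hih _
      _ = (k₁ - 1 + (C.card - 1)) * Fintype.card G := (add_mul _ _ _).symm
      _ ≤ (n - 1) * Fintype.card G := Nat.mul_le_mul_right _ (by omega)

open Classical in
theorem grpp {E : Type*} [NormedField E] [IsUltrametricDist E] {p : ℕ} [Fact p.Prime]
    (hp : ‖(p : E)‖ < 1) {ζ : E} (hζ : IsPrimitiveRoot ζ p) {G : Type*} [CommGroup G] [Fintype G]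
    (a : ℕ) (hG : ∀ τ : G, τ ^ p ^ a = 1) {ι : Type*} [Fintype ι] (χ : ι → (G →* Eˣ))
    (hχ : Function.Injective χ) (t : ι → E) (i₀ : ι) :
    p * (univ.filter fun τ : G => ‖∑ i, t i * ((χ i τ : Eˣ) : E)‖ <
      ‖1 - ζ‖ ^ (Fintype.card ι - 1) * ‖t i₀‖).card ≤ (Fintype.card ι - 1) * Fintype.card G := by
  exact main_grpp hp hζ a hG _ ι χ hχ t i₀ rfl

end MP4270U
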