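import Pool.Agent.Lib_MP_4270a5_u.KumC

/-!
# MP_4270a5_nt, piece KUM: the absolute lower bound in `Qb`

PAPER PROOF (`kum_abs`). `α = ∑ b_i g_i`. Let `M` be finite and normal over `ℚ` and contain `L`, the `g_i` (`exists_normal`). `H` = group
of the `σ ∈ Gal(M/ℚ)` which fix `L` pointwise; `κ : H → (ι → Mˣ)`, `κ σ i = σ g_i / g_i` (an `N`-th root of unity, in `L`), a homomorphism;
`G` = its range, a finite commutative group with `τ^N = 1`, so `M` has enough roots of unity of order `exponent G ∣ N`; the primes which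
divide `|G|` divide `N` (Cauchy). `π i : G →* Mˣ` the coordinates, `a i = b_i g_i`, `y (κ σ) = σ α`; `hW (σ α) = hW α`.
Suppose `h = hW α < log 2 / 10080`, `d = ⌊2 n h / log 2⌋`. Then `exp (2 n h) < 2^(d+1)` and `5040 d < n`. `kum_cnt` and `chr_core`: a character
`χ` and `δ` with `y τ = δ χ τ` on a set `T` with `2|T| > |G|`. Every `g ∈ G` is `τ₁⁻¹ τ₂` with `τ₁, τ₂ ∈ T`; from `y τ₁ = δ χ τ₁`, `y τ₂ = δ χ τ₂`:
`y τ₂ * χ τ₁ = y τ₁ * χ τ₂`; apply `σ₁⁻¹` (`κ σ₁ = τ₁`; the values of `χ` are `N`-th roots of unity, fixed by `H`): `y g * χ τ₁ = α * χ τ₂`, so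
`y g = χ g * α` for all `g ∈ G`. By orthogonality `α = ∑_{i : π i = χ} a i`, and `α ≠ 0`, so `π i = χ` for some `i`; then `α / g_i` is fixed by
`H`, so it lies in `L` (Galois correspondence), a contradiction.
-/

open Polynomial IntermediateField Finset

namespace MP4270U

open MP4270 Pool.Agent.Sub

private def kumH {M : Type} [Field M] [Algebra ℚ M] (S : Set M) : Subgroup (M ≃ₐ[ℚ] M) where
  carrier := {σ | ∀ x ∈ S, σ x = x}
  mul_mem' {σ τ} hσ hτ x hx := by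
    rw [AlgEquiv.mul_apply, hτ x hx, hσ x hx]
  one_mem' x _ := rfl
  inv_mem' {σ} hσ x hx := by
    have h1 : σ (σ⁻¹ x) = σ x := by
      rw [hσ x hx]
      exact σ.apply_symm_apply x
    exact σ.injective h1

private theorem kum_div_pow {M : Type} [Field M] [Algebra ℚ M] (S : Set M) {N : ℕ} {ι : Type}
    (g : ι → M) (hg0 : ∀ i, g i ≠ 0) (hgS : ∀ i, g i ^ N ∈ S) (σ : kumH S) (i : ι) :
    (σ.1 (g i) / g i) ^ N = 1 := by
  rw [div_pow, ← map_pow, σ.2 _ (hgS i), div_self (pow_ne_zero _ (hg0 i))]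

private noncomputable def kumK {M : Type} [Field M] [Algebra ℚ M] (S : Set M) {N : ℕ}
    (hμ : ∀ z : M, z ^ N = 1 → z ∈ S) {ι : Type} (g : ι → M) (hg0 : ∀ i, g i ≠ 0)
    (hgS : ∀ i, g i ^ N ∈ S) : kumH S →* (ι → Mˣ) where
  toFun σ i := Units.mk0 (σ.1 (g i) / g i)
    (div_ne_zero ((map_ne_zero_iff _ σ.1.injective).mpr (hg0 i)) (hg0 i))
  map_one' := by
    funext i
    ext
    rw [Units.val_mk0]
    exact div_self (hg0 i)
  map_mul' σ τ := by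
    funext i
    ext
    rw [Pi.mul_apply, Units.val_mul, Units.val_mk0, Units.val_mk0, Units.val_mk0]
    have h1 := kum_div_pow S g hg0 hgS τ i
    have h2 := σ.2 _ (hμ _ h1)
    rw [map_div₀] at h2
    have h3 : σ.1 (g i) ≠ 0 := (map_ne_zero_iff _ σ.1.injective).mpr (hg0 i)
    rw [div_eq_div_iff h3 (hg0 i)] at h2
    rw [Subgroup.coe_mul, AlgEquiv.mul_apply, div_mul_div_comm, div_eq_div_iff (hg0 i)
      (mul_ne_zero (hg0 i) (hg0 i)), ← mul_assoc, h2]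
    ring

private theorem kumK_val {M : Type} [Field M] [Algebra ℚ M] (S : Set M) {N : ℕ}
    (hμ : ∀ z : M, z ^ N = 1 → z ∈ S) {ι : Type} (g : ι → M) (hg0 : ∀ i, g i ≠ 0)
    (hgS : ∀ i, g i ^ N ∈ S) (σ : kumH S) (i : ι) :
    ((kumK S hμ g hg0 hgS σ i : Mˣ) : M) = σ.1 (g i) / g i := rfl

private theorem kumK_mul {M : Type} [Field M] [Algebra ℚ M] (S : Set M) {N : ℕ}
    (hμ : ∀ z : M, z ^ N = 1 → z ∈ S) {ι : Type} (g : ι → M) (hg0 : ∀ i, g i ≠ 0)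
    (hgS : ∀ i, g i ^ N ∈ S) (σ : kumH S) (i : ι) :
    g i * ((kumK S hμ g hg0 hgS σ i : Mˣ) : M) = σ.1 (g i) := by
  rw [kumK_val, mul_div_cancel₀ _ (hg0 i)]

private theorem kum_pow {M : Type} [Field M] [Algebra ℚ M] (S : Set M) {N : ℕ}
    (hμ : ∀ z : M, z ^ N = 1 → z ∈ S) {ι : Type} (g : ι → M) (hg0 : ∀ i, g i ≠ 0)
    (hgS : ∀ i, g i ^ N ∈ S) (τ : (kumK S hμ g hg0 hgS).range) : τ ^ N = 1 := by
  obtain ⟨_, σ, rfl⟩ := τ
  apply Subtype.ext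
  funext i
  ext
  have h1 := kum_div_pow S g hg0 hgS σ i
  rw [SubmonoidClass.coe_pow, Pi.pow_apply, Units.val_pow_eq_pow_val, kumK_val]
  exact h1

/-- the coordinates -/
private noncomputable def kumP {M : Type} [Field M] [Algebra ℚ M] (S : Set M) {N : ℕ}
    (hμ : ∀ z : M, z ^ N = 1 → z ∈ S) {ι : Type} (g : ι → M) (hg0 : ∀ i, g i ≠ 0)
    (hgS : ∀ i, g i ^ N ∈ S) (i : ι) : (kumK S hμ g hg0 hgS).range →* Mˣ :=
  (Pi.evalMonoidHom (fun _ : ι => Mˣ) i).comp (kumK S hμ g hg0 hgS).range.subtype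

/-- the value of the conjugate -/
private theorem kum_y {M : Type} [Field M] [Algebra ℚ M] (S : Set M) {N : ℕ}
    (hμ : ∀ z : M, z ^ N = 1 → z ∈ S) {ι : Type} [Fintype ι] (b g : ι → M) (hg0 : ∀ i, g i ≠ 0)
    (hgS : ∀ i, g i ^ N ∈ S) (hb : ∀ i, b i ∈ S) (σ : kumH S)
    (τ : (kumK S hμ g hg0 hgS).range) (hτ : kumK S hμ g hg0 hgS σ = τ) :
    ∑ i, b i * g i * ((kumP S hμ g hg0 hgS i τ : Mˣ) : M) = σ.1 (∑ i, b i * g i) := by
  rw [map_sum]
  refine Finset.sum_congr rfl fun i _ => ?_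
  rw [map_mul, σ.2 _ (hb i), mul_assoc, ← kumK_mul S hμ g hg0 hgS σ i, hτ]
  rfl

/-- pigeonhole -/
private theorem kum_two {G : Type} [Group G] [Fintype G] [DecidableEq G] (T : Finset G)
    (hT : Fintype.card G < 2 * T.card) (g : G) : ∃ τ ∈ T, τ * g ∈ T := by
  by_contra hcon
  push Not at hcon
  have h1 : (T.image fun τ => τ * g).card = T.card :=
    Finset.card_image_of_injective _ (mul_left_injective g)
  have h2 : Disjoint T (T.image fun τ => τ * g) := by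
    rw [Finset.disjoint_right]
    intro x hx
    obtain ⟨τ, hτ, rfl⟩ := Finset.mem_image.mp hx
    exact hcon τ hτ
  have h3 := Finset.card_union_of_disjoint h2
  have h4 := Finset.card_le_univ (T ∪ T.image fun τ => τ * g)
  rw [h3, h1] at h4
  omega

/-- all conjugates are multiples of `α` -/
private theorem kum_all {M : Type} [Field M] [Algebra ℚ M] (S : Set M) {N : ℕ}
    (hμ : ∀ z : M, z ^ N = 1 → z ∈ S) {ι : Type} [Fintype ι] (b g : ι → M) (hg0 : ∀ i, g i ≠ 0)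
    (hgS : ∀ i, g i ^ N ∈ S) (hb : ∀ i, b i ∈ S) [Fintype (kumK S hμ g hg0 hgS).range]
    [DecidableEq M] [DecidableEq (kumK S hμ g hg0 hgS).range]
    (χ : (kumK S hμ g hg0 hgS).range →* Mˣ) (δ : M)
    (hT : Fintype.card (kumK S hμ g hg0 hgS).range < 2 * (univ.filter fun τ =>
      ∑ i, b i * g i * ((kumP S hμ g hg0 hgS i τ : Mˣ) : M) = δ * ((χ τ : Mˣ) : M)).card)
    (σ : kumH S) (τ : (kumK S hμ g hg0 hgS).range) (hτ : kumK S hμ g hg0 hgS σ = τ) :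
    σ.1 (∑ i, b i * g i) = ((χ τ : Mˣ) : M) * ∑ i, b i * g i := by
  obtain ⟨τ₁, h1, h2⟩ := kum_two _ hT τ
  obtain ⟨σ₁, hσ₁⟩ := τ₁.2
  have e1 := (Finset.mem_filter.mp h1).2
  have e2 := (Finset.mem_filter.mp h2).2
  rw [kum_y S hμ b g hg0 hgS hb σ₁ τ₁ hσ₁] at e1
  have h3 : kumK S hμ g hg0 hgS (σ₁ * σ) = (τ₁ * τ : (kumK S hμ g hg0 hgS).range) := by
    rw [map_mul, hσ₁, hτ]
    rfl
  rw [kum_y S hμ b g hg0 hgS hb (σ₁ * σ) (τ₁ * τ) h3, Subgroup.coe_mul, AlgEquiv.mul_apply] at e2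
  have h4 : ∀ τ' : (kumK S hμ g hg0 hgS).range, σ₁.1 ((χ τ' : Mˣ) : M) = ((χ τ' : Mˣ) : M) := by
    intro τ'
    apply σ₁.2
    apply hμ
    rw [← Units.val_pow_eq_pow_val, ← map_pow, kum_pow, map_one, Units.val_one]
  apply σ₁.1.injective
  rw [map_mul, h4, e1, e2, map_mul, Units.val_mul]
  ring

/-- some coordinate is `χ` -/
private theorem kum_coord {M : Type} [Field M] [CharZero M] {G : Type} [CommGroup G] [Fintype G]
    {ι : Type} [Fintype ι] (π : ι → (G →* Mˣ)) (a : ι → M) (χ : G →* Mˣ) (α : M) (hα : α ≠ 0)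
    (h : ∀ τ, ∑ i, a i * ((π i τ : Mˣ) : M) = ((χ τ : Mˣ) : M) * α) : ∃ i, π i = χ := by
  classical
  by_contra hcon
  push Not at hcon
  have hG : ((Fintype.card G : ℕ) : M) ≠ 0 := by
    exact_mod_cast (Fintype.card_pos (α := G)).ne'
  have h1 : ∑ τ, (((χ τ)⁻¹ : Mˣ) : M) * ∑ i, a i * ((π i τ : Mˣ) : M) = 0 := by
    simp only [Finset.mul_sum]
    rw [Finset.sum_comm]
    refine Finset.sum_eq_zero fun i _ => ?_
    have h2 := chr_orth (M := M) χ (π i)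
    rw [if_neg (hcon i).symm] at h2
    rw [← mul_zero (a i), ← h2, Finset.mul_sum]
    exact Finset.sum_congr rfl fun τ _ => by ring
  have h2 : ∑ τ, (((χ τ)⁻¹ : Mˣ) : M) * ∑ i, a i * ((π i τ : Mˣ) : M) =
      ((Fintype.card G : ℕ) : M) * α := by
    have h3 : ∀ τ ∈ (univ : Finset G), (((χ τ)⁻¹ : Mˣ) : M) * ∑ i, a i * ((π i τ : Mˣ) : M) =
        α := by
      intro τ _
      rw [h τ, ← mul_assoc, ← Units.val_mul, inv_mul_cancel, Units.val_one, one_mul]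
    rw [Finset.sum_congr rfl h3, Finset.sum_const, nsmul_eq_mul, Finset.card_univ]
  rw [h1] at h2
  exact mul_ne_zero hG hα h2.symm

private theorem kum_enough (M : IntermediateField ℚ Qb) (N : ℕ) [NeZero N]
    (hμ : ∀ z : Qb, z ^ N = 1 → z ∈ M) : HasEnoughRootsOfUnity M N := by
  have h0 : NeZero (N : Qb) := ⟨by exact_mod_cast NeZero.ne N⟩
  obtain ⟨ζ, hζ⟩ := HasEnoughRootsOfUnity.exists_primitiveRoot Qb N
  have h1 : ζ ∈ M := hμ ζ hζ.pow_eq_one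
  refine ⟨⟨⟨ζ, h1⟩, ?_⟩, rootsOfUnity.isCyclic M N⟩
  exact IsPrimitiveRoot.of_map_of_injective (f := M.val) hζ M.val.injective

private theorem kum_nm_nat {ℓ m : ℕ} (hℓ : ℓ.Prime) (h : ¬ ℓ ∣ m) : nm ℓ (m : Qb) = 1 := by
  have hm : m ≠ 0 := by
    rintro rfl
    exact h (dvd_zero ℓ)
  have h1 := pf_nat ℓ hℓ hm
  rw [Nat.factorization_eq_zero_of_not_dvd h, Nat.cast_zero, zero_mul, neg_zero] at h1
  exact Real.eq_one_of_pos_of_log_eq_zero (nm_pos ℓ (by exact_mod_cast hm)) h1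

private theorem kum_lift (M : IntermediateField ℚ Qb) [Normal ℚ M] (σ : M ≃ₐ[ℚ] M) :
    ∃ σ' : Qb ≃ₐ[ℚ] Qb, ∀ x : M, ((σ x : M) : Qb) = σ' (x : Qb) :=
  ⟨σ.liftNormal Qb, fun x => (σ.liftNormal_commutes Qb x).symm⟩

private theorem kum_restr (M : IntermediateField ℚ Qb) [Normal ℚ M] (σ' : Qb ≃ₐ[ℚ] Qb) :
    ∃ σ : M ≃ₐ[ℚ] M, ∀ x : M, ((σ x : M) : Qb) = σ' (x : Qb) :=
  ⟨σ'.restrictNormal M, fun x => AlgEquiv.restrictNormal_commutes σ' M x⟩

private theorem kum_num {n d : ℕ} {h : ℝ} (hn : 0 < n) (h0 : 0 ≤ h) (hh : h < Real.log 2 / 10080)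
    (hd : d = ⌊2 * n * h / Real.log 2⌋₊) :
    Real.exp (2 * n * h) < 2 ^ (d + 1) ∧ 5040 * d < n := by
  have hl : 0 < Real.log 2 := Real.log_pos one_lt_two
  have hnR : (0 : ℝ) < n := by exact_mod_cast hn
  have hx : 0 ≤ 2 * n * h / Real.log 2 := by positivity
  have h1 : 2 * n * h / Real.log 2 < d + 1 := by
    rw [hd]
    exact Nat.lt_floor_add_one _
  have h2 : (d : ℝ) ≤ 2 * n * h / Real.log 2 := by
    rw [hd]
    exact Nat.floor_le hx
  constructor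
  · rw [div_lt_iff₀ hl] at h1
    have h3 : (2 : ℝ) ^ (d + 1) = Real.exp ((d + 1) * Real.log 2) := by
      rw [← Real.rpow_natCast, Real.rpow_def_of_pos (by norm_num : (0 : ℝ) < 2)]
      push_cast
      congr 1
      ring
    rw [h3]
    exact Real.exp_lt_exp.mpr h1
  · rw [le_div_iff₀ hl] at h2
    rw [lt_div_iff₀ (by norm_num : (0 : ℝ) < 10080)] at hh
    have h4 : (5040 * (d : ℝ)) < n := by
      have h5 : (n : ℝ) * (h * 10080) < n * Real.log 2 := mul_lt_mul_of_pos_left hh hnR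
      have h6 : 5040 * ((d : ℝ) * Real.log 2) ≤ 5040 * (2 * n * h) :=
        mul_le_mul_of_nonneg_left h2 (by norm_num)
      have h7 : (5040 * (d : ℝ)) * Real.log 2 < n * Real.log 2 := by
        calc (5040 * (d : ℝ)) * Real.log 2 = 5040 * ((d : ℝ) * Real.log 2) := by ring
          _ ≤ 5040 * (2 * n * h) := h6
          _ = n * (h * 10080) := by ring
          _ < n * Real.log 2 := h5
      exact lt_of_mul_lt_mul_right h7 hl.le
    exact_mod_cast h4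

theorem kum_abs (L : IntermediateField ℚ Qb) [FiniteDimensional ℚ L] (N m : ℕ) (hN : 0 < N)
    (hm : m.Coprime N) (hμ : ∀ z : Qb, z ^ N = 1 → z ∈ L) {ι : Type} [Fintype ι] (b g : ι → Qb)
    (hb : ∀ i, b i ∈ L) (hg : ∀ i, g i ^ N ∈ L) (hg0 : ∀ i, g i ≠ 0)
    (hint : ∀ i, IsIntegral ℤ ((m : Qb) * (b i * g i)))
    (hα0 : ∑ i, b i * g i ≠ 0) (hne : ∀ i, ∀ c ∈ L, ∑ i, b i * g i ≠ c * g i) :
    Real.log 2 / 10080 ≤ hW (∑ i, b i * g i) := by
  classical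
  obtain ⟨M, hM1, hM2, hLM, hgM⟩ := exists_normal L (univ.image g)
  have hgM' : ∀ i, g i ∈ M := fun i => hgM _ (Finset.mem_image_of_mem g (mem_univ i))
  have hbM : ∀ i, b i ∈ M := fun i => hLM (hb i)
  have hN0 : NeZero N := ⟨hN.ne'⟩
  -- elements of `M`
  obtain ⟨gM, hgMv⟩ : ∃ gM : ι → M, ∀ i, (gM i : Qb) = g i := ⟨fun i => ⟨g i, hgM' i⟩, fun _ => rfl⟩
  obtain ⟨bM, hbMv⟩ : ∃ bM : ι → M, ∀ i, (bM i : Qb) = b i := ⟨fun i => ⟨b i, hbM i⟩, fun _ => rfl⟩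
  obtain ⟨S, hS⟩ : ∃ S : Set M, ∀ x : M, x ∈ S ↔ (x : Qb) ∈ L :=
    ⟨{x | (x : Qb) ∈ L}, fun _ => Iff.rfl⟩
  have hμS : ∀ z : M, z ^ N = 1 → z ∈ S := fun z hz =>
    (hS z).mpr (hμ _ (by simpa using congrArg (fun w : M => (w : Qb)) hz))
  have hgM0 : ∀ i, gM i ≠ 0 := fun i h => hg0 i (by rw [← hgMv i, h]; rfl)
  have hgS : ∀ i, gM i ^ N ∈ S := fun i => (hS _).mpr (by
    have := hg i
    rw [← hgMv i] at this
    exact this)
  have hbS : ∀ i, bM i ∈ S := fun i => (hS _).mpr (by rw [hbMv i]; exact hb i)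
  obtain ⟨α, hα⟩ : ∃ α : M, α = ∑ i, bM i * gM i := ⟨_, rfl⟩
  have hαv : (α : Qb) = ∑ i, b i * g i := by
    rw [hα]
    have h1 := map_sum M.val (fun i => bM i * gM i) univ
    rw [show M.val (∑ i, bM i * gM i) = ((∑ i, bM i * gM i : M) : Qb) from rfl] at h1
    rw [h1]
    refine Finset.sum_congr rfl fun i _ => ?_
    rw [map_mul, ← hbMv i, ← hgMv i]
    rfl
  have hα0' : α ≠ 0 := fun h => hα0 (by rw [← hαv, h]; rfl)
  rw [← hαv]
  by_contra hcon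
  push Not at hcon
  have hfin : Finite (kumK S hμS gM hgM0 hgS).range := inferInstance
  have hfin2 : Fintype (kumK S hμS gM hgM0 hgS).range := Fintype.ofFinite _
  have hpow : ∀ τ : (kumK S hμS gM hgM0 hgS).range, τ ^ N = 1 := kum_pow S hμS gM hgM0 hgS
  have hen : HasEnoughRootsOfUnity M N := kum_enough M N fun z hz => hLM (hμ z hz)
  have hen2 : HasEnoughRootsOfUnity M (Monoid.exponent (kumK S hμS gM hgM0 hgS).range) :=
    HasEnoughRootsOfUnity.of_dvd M (Monoid.exponent_dvd_of_forall_pow_eq_one hpow)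
  have hy : ∀ (τ : (kumK S hμS gM hgM0 hgS).range), ∃ σ : kumH S,
      kumK S hμS gM hgM0 hgS σ = τ ∧
      ∑ i, bM i * gM i * ((kumP S hμS gM hgM0 hgS i τ : (M)ˣ) : M) = σ.1 α := by
    intro τ
    obtain ⟨σ, hσ⟩ := τ.2
    exact ⟨σ, hσ, by rw [hα]; exact kum_y S hμS bM gM hgM0 hgS hbS σ τ hσ⟩
  have hh : ∀ τ : (kumK S hμS gM hgM0 hgS).range,
      hW ((∑ i, bM i * gM i * ((kumP S hμS gM hgM0 hgS i τ : (M)ˣ) : M) : M) : Qb) =
        hW (α : Qb) := by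
    intro τ
    obtain ⟨σ, -, h1⟩ := hy τ
    obtain ⟨σ', hσ'⟩ := kum_lift M σ.1
    rw [h1, hσ', hW_conj]
  have hint' : ∀ ℓ : ℕ, ℓ.Prime → ℓ ∣ Fintype.card (kumK S hμS gM hgM0 hgS).range →
      ∀ σ : M ≃ₐ[ℚ] M, ∀ i, nm ℓ ((σ (bM i * gM i) : M) : Qb) ≤ 1 := by
    intro ℓ hℓ hdvd σ i
    have hf : Fact ℓ.Prime := ⟨hℓ⟩
    obtain ⟨x, hx⟩ := exists_prime_orderOf_dvd_card ℓ hdvd
    have h1 : ℓ ∣ N := by rw [← hx]; exact orderOf_dvd_of_pow_eq_one (hpow x)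
    have h2 : ¬ ℓ ∣ m := fun h => by
      have h3 := Nat.dvd_gcd h h1
      rw [hm.gcd_eq_one] at h3
      exact hℓ.one_lt.ne' (Nat.dvd_one.mp h3)
    obtain ⟨σ', hσ'⟩ := kum_lift M σ
    have h4 : IsIntegral ℤ (σ' ((m : Qb) * (b i * g i))) :=
      map_isIntegral_int (σ' : Qb →+* Qb) (hint i)
    have h5 := nm_integral ℓ _ h4
    have h6 : ((bM i * gM i : M) : Qb) = b i * g i := by
      rw [← hbMv i, ← hgMv i]
      rfl
    rw [map_mul, map_natCast, nm_mul, kum_nm_nat hℓ h2, one_mul] at h5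
    rw [hσ', h6]
    exact h5
  obtain ⟨d, hd⟩ : ∃ d : ℕ, d = ⌊2 * (Fintype.card (kumK S hμS gM hgM0 hgS).range) * hW (α : Qb) /
    Real.log 2⌋₊ := ⟨_, rfl⟩
  obtain ⟨hd1, hd2⟩ := kum_num Fintype.card_pos (hW_nonneg (α : Qb)) hcon hd
  have hcnt : ∀ A, cnt (TK (kumP S hμS gM hgM0 hgS) fun i => bM i * gM i) A < 2 ^ (d + 1) := by
    intro A
    have h1 := kum_cnt M N hN hpow (kumP S hμS gM hgM0 hgS) (fun i => bM i * gM i)
      (fun τ => ∑ i, bM i * gM i * ((kumP S hμS gM hgM0 hgS i τ : (M)ˣ) : M)) (fun _ => rfl)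
      hint' (hW (α : Qb)) hh A
    exact_mod_cast h1.trans_lt hd1
  obtain ⟨χ, δ, hT⟩ := chr_core (kumP S hμS gM hgM0 hgS) (fun i => bM i * gM i)
    (fun τ => ∑ i, bM i * gM i * ((kumP S hμS gM hgM0 hgS i τ : (M)ˣ) : M)) (fun _ => rfl)
    (fun τ => by
      obtain ⟨σ, -, h1⟩ := hy τ
      rw [h1]
      exact (map_ne_zero_iff _ σ.1.injective).mpr hα0') d hcnt hd2
  have hall := kum_all S hμS bM gM hgM0 hgS hbS χ δ hT
  obtain ⟨i, hi⟩ := kum_coord (kumP S hμS gM hgM0 hgS) (fun i => bM i * gM i) χ α hα0' (by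
    intro τ
    obtain ⟨σ, h1, h2⟩ := hy τ
    rw [h2, hα]
    exact hall σ τ h1)
  -- `α / g i` is fixed
  have hfix : ∀ σ : kumH S, σ.1 (α / gM i) = α / gM i := by
    intro σ
    have h1 := hall σ ⟨_, σ, rfl⟩ rfl
    rw [← hα] at h1
    have h2 := kumK_mul S hμS gM hgM0 hgS σ i
    have h3 : ((kumK S hμS gM hgM0 hgS σ i : (M)ˣ) : M) =
        ((χ ⟨_, σ, rfl⟩ : (M)ˣ) : M) := by
      rw [← hi]
      rfl
    rw [h3] at h2
    rw [map_div₀, h1, ← h2, mul_comm (gM i), mul_div_mul_left _ _ (Units.ne_zero _)]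
  have hmem : ((α / gM i : M) : Qb) ∈ L := by
    refine mem_of_fixed_Qb L _ fun σ' hσ' => ?_
    obtain ⟨σ, hσ⟩ := kum_restr M σ'
    have h1 : σ ∈ kumH S := by
      intro x hx
      apply Subtype.ext
      rw [hσ]
      exact hσ' _ ((hS x).mp hx)
    have h2 := hfix ⟨σ, h1⟩
    have h3 := congrArg (fun w : M => (w : Qb)) h2
    rw [← hσ]
    exact h3
  apply hne i _ hmem
  rw [← hαv, ← hgMv i]
  have h1 : α = α / gM i * gM i := by rw [div_mul_cancel₀ _ (hgM0 i)]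
  exact congrArg (fun w : M => (w : Qb)) h1


end MP4270U
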