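import Pool.Agent.Lib_MP_4270a5_u.Chr
import Pool.Agent.Lib_MP_4270a5_u.Cm
import Pool.Agent.Lib_MP_4270a5_u.Conv

/-!
# MP_4270a5_nt, piece KUMC: the number of nonvanishing minors for a sum of characters

PAPER PROOF (`nm_integral`): the norm on `PadicAlgCl ℓ` is ultrametric; a monic integral equation.
PAPER PROOF (`kum_cnt`). `n = |G| = |X|` (`CommGroup.card_monoidHom_of_hasEnoughRootsOfUnity`); equivalences `X ≃ Fin n`,
`G ≃ Fin n`; `cnt_le` and `count_minors` for the reindexed matrices (`TK_F`, `Fs_mul_Fm`).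
-/

open Polynomial IntermediateField Finset

namespace MP4270U

open MP4270 Pool.Agent.Sub

theorem nm_integral (ℓ : ℕ) (x : Qb) (hx : IsIntegral ℤ x) : nm ℓ x ≤ 1 := by
  by_cases hℓ : ℓ.Prime
  · have hf : Fact ℓ.Prime := ⟨hℓ⟩
    rw [nm_eq]
    have h1 : IsIntegral ℤ (jj ℓ x) := hx.map (jj ℓ).toIntAlgHom
    have h2 : IsIntegral (NormedField.valuation (K := PadicAlgCl ℓ)).integer (jj ℓ x) :=
      h1.tower_top
    have h3 := (Valuation.integer.integers
      (NormedField.valuation (K := PadicAlgCl ℓ))).mem_of_integral h2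
    exact h3
  · exact (pf_nonprime ℓ hℓ x).le

/-- `‖∑‖ ≤ 1` when all terms are at most one -/
private theorem kc_sum_le (ℓ : ℕ) {ι : Type} (s : Finset ι) (f : ι → Qb)
    (hf : ∀ i ∈ s, nm ℓ (f i) ≤ 1) : nm ℓ (∑ i ∈ s, f i) ≤ 1 := by
  classical
  induction s using Finset.induction_on with
  | empty =>
    rw [Finset.sum_empty]
    exact nm_integral ℓ 0 isIntegral_zero
  | insert i s hi ih =>
    rw [Finset.sum_insert hi]
    have h1 := nm_sub_le ℓ (f i) (-(∑ j ∈ s, f j))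
    rw [sub_neg_eq_add] at h1
    refine h1.trans (max_le (hf i (Finset.mem_insert_self i s)) ?_)
    have h2 : nm ℓ (-(∑ j ∈ s, f j)) = nm ℓ (∑ j ∈ s, f j) := by
      have h3 : nm ℓ (-1 * (∑ j ∈ s, f j)) = nm ℓ (-1) * nm ℓ (∑ j ∈ s, f j) := nm_mul ℓ _ _
      have h4 : nm ℓ (-1) = 1 := by
        have h5 : nm ℓ ((-1) ^ 2) = nm ℓ (-1) ^ 2 := nm_pow ℓ (-1) 2
        rw [neg_one_sq, pf_one] at h5
        have h6 : 0 < nm ℓ (-1 : Qb) := nm_pos ℓ (neg_ne_zero.mpr one_ne_zero)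
        nlinarith
      rw [neg_one_mul, h4, one_mul] at h3
      exact h3
    rw [h2]
    exact ih fun j hj => hf j (Finset.mem_insert_of_mem hj)

theorem kum_cnt (M : IntermediateField ℚ Qb) [FiniteDimensional ℚ M] [Normal ℚ M]
    {G : Type} [CommGroup G] [Fintype G] (N : ℕ) (hN : 0 < N) (hG : ∀ τ : G, τ ^ N = 1)
    [HasEnoughRootsOfUnity M (Monoid.exponent G)]
    {ι : Type} [Fintype ι] (π : ι → (G →* (M)ˣ)) (a : ι → M) (y : G → M)
    (hy : ∀ τ, y τ = ∑ i, a i * ((π i τ : (M)ˣ) : M))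
    (hint : ∀ ℓ : ℕ, ℓ.Prime → ℓ ∣ Fintype.card G → ∀ σ : M ≃ₐ[ℚ] M, ∀ i,
      nm ℓ ((σ (a i) : M) : Qb) ≤ 1)
    (h : ℝ) (hyh : ∀ τ, hW (y τ : Qb) = h) (A : Finset (G →* (M)ˣ)) :
    (cnt (TK π a) A : ℝ) ≤ Real.exp (2 * Fintype.card G * h) := by
  classical
  obtain ⟨n, hn⟩ : ∃ n : ℕ, n = Fintype.card G := ⟨_, rfl⟩
  have hn0 : 0 < n := by rw [hn]; exact Fintype.card_pos
  have hX : Fintype.card (G →* (M)ˣ) = n := by
    rw [hn, ← Nat.card_eq_fintype_card, ← Nat.card_eq_fintype_card]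
    exact CommGroup.card_monoidHom_of_hasEnoughRootsOfUnity G M
  have hnM : (Fintype.card G : M) = (n : M) := by rw [hn]
  obtain ⟨e⟩ : Nonempty ((G →* (M)ˣ) ≃ Fin n) := ⟨Fintype.equivFinOfCardEq hX⟩
  obtain ⟨eG⟩ : Nonempty (G ≃ Fin n) := ⟨Fintype.equivFinOfCardEq hn.symm⟩
  obtain ⟨S, hS⟩ := cnt_le n e (TK π a) A
  have hFs : Fst ((Fm M G).submatrix eG.symm e.symm) = (Fs M G).submatrix e.symm eG.symm := by
    ext i j
    simp [Fst, Fm, Fs]
  have hcm := count_minors M n N hn0 hN ((Fm M G).submatrix eG.symm e.symm)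
    ((TK π a).submatrix e.symm e.symm) (y ∘ eG.symm)
    (by
      intro i j
      show ((((e.symm j) (eG.symm i) : (M)ˣ) : M)) ^ N = 1
      rw [← Units.val_pow_eq_pow_val, ← map_pow, hG, map_one, Units.val_one])
    (by
      rw [hFs, Matrix.submatrix_mul_equiv, Fs_mul_Fm, hnM, Matrix.submatrix_smul]
      show (n : M) • (Matrix.submatrix (1 : Matrix (G →* (M)ˣ) (G →* (M)ˣ) M) e.symm e.symm) = _
      rw [Matrix.submatrix_one_equiv])
    (by
      rw [hFs, ← Matrix.submatrix_diagonal_equiv, Matrix.submatrix_mul_equiv,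
        Matrix.submatrix_mul_equiv, ← TK_F π a y hy, hnM, Matrix.submatrix_smul]
      rfl)
    (by
      intro ℓ hℓ hd σ i j
      show nm ℓ ((σ (∑ k, if π k = e.symm i / e.symm j then a k else 0) : M) : Qb) ≤ 1
      rw [map_sum, IntermediateField.coe_sum]
      refine kc_sum_le ℓ _ _ fun k _ => ?_
      split_ifs
      · exact hint ℓ hℓ (hn ▸ hd) σ k
      · rw [map_zero]
        exact nm_integral ℓ 0 isIntegral_zero)
    h (fun i => hyh _) A.card S
  rw [← hn]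
  refine le_trans ?_ hcm
  exact_mod_cast hS

end MP4270U
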