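import Pool.Agent.Lib_MP_4270a5_u.KumC
import Pool.Agent.Lib_MP_4270a5_u.CmS

/-!
# MP_4270a5_nt, piece KUMS: `kum_cnt` when few terms are not integral above `p`

PAPER PROOF. `J` contains the indices of the terms which are not integral above `p`. Let `ι'` be the set of the distinct characters among the `π i`,
`i ∈ J` (a `Finset` of `G →* Mˣ`, `|ι'| ≤ |J|`), `t χ = ∑_{i : π i = χ} a i` (over ALL `i` with `π i = χ`), `z τ = ∑_{i : π i ∉ ι'} a i * π i τ` (all these `i ∉ J`, so
`nm p (σ (z τ)) ≤ 1`; the values of characters are roots of unity, `nm p = 1`). Then `y τ = ∑_{χ ∈ ι'} t χ * χ τ + z τ`, and `TK π a φ ψ = t (φ / ψ)` if `φ / ψ ∈ ι'`, and a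
sum of terms `a i`, `i ∉ J`, otherwise. Reindex as in the proof of `kum_cnt` and apply `cnt_le`, `count_sparse`. (If `|ι'|` is smaller than `|J|` the bound
only improves.)
-/

open Polynomial IntermediateField Finset

namespace MP4270U

open MP4270 Pool.Agent.Sub

/-- a sum of terms of norm at most one has norm at most one -/
private theorem kums_sum_le (ℓ : ℕ) {ι : Type} (s : Finset ι) (f : ι → Qb)
    (hf : ∀ i ∈ s, nm ℓ (f i) ≤ 1) : nm ℓ (∑ i ∈ s, f i) ≤ 1 := by
  classical
  induction s using Finset.induction_on with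
  | empty =>
    rw [Finset.sum_empty]
    exact nm_integral ℓ 0 isIntegral_zero
  | insert i s hi ih =>
    rw [Finset.sum_insert hi]
    have h1 := nm_sub_le ℓ (f i) (-(∑ j ∈ s, f j))
    rw [sub_neg_eq_add] at h1
    refine h1.trans (max_le (hf i (Finset.mem_insert_self i s)) ?_)
    have h2 : nm ℓ (-(∑ j ∈ s, f j)) = nm ℓ (∑ j ∈ s, f j) := by
      have h3 : nm ℓ (-1 * (∑ j ∈ s, f j)) = nm ℓ (-1) * nm ℓ (∑ j ∈ s, f j) := nm_mul ℓ _ _
      have h4 : nm ℓ (-1) = 1 := by
        have h5 : nm ℓ ((-1) ^ 2) = nm ℓ (-1) ^ 2 := nm_pow ℓ (-1) 2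
        rw [neg_one_sq, pf_one] at h5
        have h6 : 0 < nm ℓ (-1 : Qb) := nm_pos ℓ (neg_ne_zero.mpr one_ne_zero)
        nlinarith
      rw [neg_one_mul, h4, one_mul] at h3
      exact h3
    rw [h2]
    exact ih fun j hj => hf j (Finset.mem_insert_of_mem hj)

/-- values of characters have norm at most one -/
private theorem kums_char_le (M : IntermediateField ℚ Qb) {G : Type} [CommGroup G] (p a : ℕ)
    (hp : 0 < p) (hG : ∀ τ : G, τ ^ p ^ a = 1) (σ : M ≃ₐ[ℚ] M) (π : G →* (M)ˣ) (τ : G) (ℓ : ℕ) :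
    nm ℓ ((σ ((π τ : (M)ˣ) : M) : M) : Qb) ≤ 1 := by
  refine nm_integral ℓ _ ?_
  have h1 : ((σ ((π τ : (M)ˣ) : M) : M) : Qb) ^ p ^ a = 1 := by
    rw [← IntermediateField.coe_pow, ← map_pow, ← Units.val_pow_eq_pow_val, ← map_pow, hG,
      map_one, Units.val_one, map_one]
    rfl
  refine IsIntegral.of_pow (pow_pos hp a) ?_
  rw [h1]
  exact isIntegral_one

theorem kum_cnt_sparse (M : IntermediateField ℚ Qb) [FiniteDimensional ℚ M] [Normal ℚ M]
    {G : Type} [CommGroup G] [Fintype G] (p a : ℕ) [Fact p.Prime] (hG : ∀ τ : G, τ ^ p ^ a = 1)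
    [HasEnoughRootsOfUnity M (Monoid.exponent G)] (ζ : M) (hζ : IsPrimitiveRoot ζ p)
    {ι : Type} [Fintype ι] (J : Finset ι) (hk : 2 * (J.card - 1) ≤ p) (π : ι → (G →* (M)ˣ))
    (a' : ι → M) (hJ : ∀ i, i ∉ J → ∀ σ : M ≃ₐ[ℚ] M, nm p ((σ (a' i) : M) : Qb) ≤ 1)
    (y : G → M) (hy : ∀ τ, y τ = ∑ i, a' i * ((π i τ : (M)ˣ) : M))
    (h : ℝ) (hyh : ∀ τ, hW (y τ : Qb) = h) (A : Finset (G →* (M)ˣ)) :
    (cnt (TK π a') A : ℝ) ≤ Real.exp (4 * Fintype.card G * h +
      2 * Fintype.card G * (((J.card - 1 : ℕ) : ℝ) * Real.log p / (p - 1))) := by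
  classical
  have hpp : p.Prime := Fact.out
  have hJ' : ∀ i, π i ∉ J.image π → i ∉ J := fun i hi hiJ => hi (mem_image_of_mem π hiJ)
  obtain ⟨n, hn⟩ : ∃ n : ℕ, n = Fintype.card G := ⟨_, rfl⟩
  have hX : Fintype.card (G →* (M)ˣ) = n := by
    rw [hn, ← Nat.card_eq_fintype_card, ← Nat.card_eq_fintype_card]
    exact CommGroup.card_monoidHom_of_hasEnoughRootsOfUnity G M
  have hnM : (Fintype.card G : M) = (n : M) := by rw [hn]
  obtain ⟨e⟩ : Nonempty ((G →* (M)ˣ) ≃ Fin n) := ⟨Fintype.equivFinOfCardEq hX⟩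
  obtain ⟨eG⟩ : Nonempty (G ≃ Fin n) := ⟨Fintype.equivFinOfCardEq hn.symm⟩
  obtain ⟨S, hS⟩ := cnt_le n e (TK π a') A
  have hFs : Fst ((Fm M G).submatrix eG.symm e.symm) = (Fs M G).submatrix e.symm eG.symm := by
    ext i j
    simp [Fst, Fm, Fs]
  have hcard : Fintype.card {χ : G →* (M)ˣ // χ ∈ J.image π} - 1 ≤ J.card - 1 := by
    rw [Fintype.card_coe]
    exact Nat.sub_le_sub_right card_image_le 1
  have hcm := count_sparse M p a hG
    (ι := {χ : G →* (M)ˣ // χ ∈ J.image π}) (fun χ => χ.1) Subtype.val_injective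
    (le_trans (Nat.mul_le_mul_left 2 hcard) hk) ζ hζ
    (fun χ => ∑ i, if π i = χ.1 then a' i else 0)
    (fun τ => ∑ i, if π i ∈ J.image π then 0 else a' i * ((π i τ : (M)ˣ) : M)) y
    (by
      intro σ τ
      rw [map_sum, IntermediateField.coe_sum]
      refine kums_sum_le p _ _ fun i _ => ?_
      split_ifs with h1
      · rw [map_zero]
        exact nm_integral p 0 isIntegral_zero
      · rw [map_mul, IntermediateField.coe_mul, nm_mul]
        exact mul_le_one₀ (hJ i (hJ' i h1) σ) (by rw [nm_eq]; exact norm_nonneg _)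
          (kums_char_le M p a hpp.pos hG σ (π i) τ p))
    (by
      intro τ
      rw [hy τ]
      have h1 : ∑ χ : {χ : G →* (M)ˣ // χ ∈ J.image π},
          (∑ i, if π i = χ.1 then a' i else 0) * ((χ.1 τ : (M)ˣ) : M) =
          ∑ i, if π i ∈ J.image π then a' i * ((π i τ : (M)ˣ) : M) else 0 := by
        rw [Finset.sum_coe_sort (J.image π)
          (fun χ => (∑ i, if π i = χ then a' i else 0) * ((χ τ : (M)ˣ) : M))]
        simp only [Finset.sum_mul]
        rw [Finset.sum_comm]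
        refine Finset.sum_congr rfl fun i _ => ?_
        simp only [ite_mul, zero_mul]
        rw [Finset.sum_ite_eq]
      rw [h1, ← Finset.sum_add_distrib]
      refine Finset.sum_congr rfl fun i _ => ?_
      split_ifs
      · rw [add_zero]
      · rw [zero_add])
    n hn.symm eG ((Fm M G).submatrix eG.symm e.symm)
    ((TK π a').submatrix e.symm e.symm)
    (by
      intro i j
      show ((((e.symm j) (eG.symm i) : (M)ˣ) : M)) ^ p ^ a = 1
      rw [← Units.val_pow_eq_pow_val, ← map_pow, hG, map_one, Units.val_one])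
    (by
      rw [hFs, Matrix.submatrix_mul_equiv, Fs_mul_Fm, hnM, Matrix.submatrix_smul]
      show (n : M) • (Matrix.submatrix (1 : Matrix (G →* (M)ˣ) (G →* (M)ˣ) M) e.symm e.symm) = _
      rw [Matrix.submatrix_one_equiv])
    (by
      rw [hFs, ← Matrix.submatrix_diagonal_equiv, Matrix.submatrix_mul_equiv,
        Matrix.submatrix_mul_equiv, ← TK_F π a' y hy, hnM, Matrix.submatrix_smul]
      rfl)
    (by
      intro i j
      by_cases h1 : e.symm i / e.symm j ∈ J.image π
      · right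
        exact ⟨⟨_, h1⟩, rfl⟩
      · left
        intro σ
        show nm p ((σ (∑ k, if π k = e.symm i / e.symm j then a' k else 0) : M) : Qb) ≤ 1
        rw [map_sum, IntermediateField.coe_sum]
        refine kums_sum_le p _ _ fun k _ => ?_
        split_ifs with h2
        · exact hJ k (hJ' k (by rw [h2]; exact h1)) σ
        · rw [map_zero]
          exact nm_integral p 0 isIntegral_zero)
    h hyh A.card S
  rw [← hn]
  have hp1 : (0 : ℝ) < (p : ℝ) - 1 := by
    have : (1 : ℝ) < p := by exact_mod_cast hpp.one_lt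
    linarith
  have hlog : 0 ≤ Real.log p := Real.log_nonneg (by exact_mod_cast hpp.one_lt.le)
  have hmono : Real.exp (4 * n * h + 2 * n *
      (((Fintype.card {χ : G →* (M)ˣ // χ ∈ J.image π} - 1 : ℕ) : ℝ) * Real.log p / (p - 1))) ≤
      Real.exp (4 * n * h + 2 * n * (((J.card - 1 : ℕ) : ℝ) * Real.log p / (p - 1))) := by
    refine Real.exp_le_exp.2 (add_le_add le_rfl (mul_le_mul_of_nonneg_left ?_ (by positivity)))
    refine div_le_div_of_nonneg_right (mul_le_mul_of_nonneg_right ?_ hlog) hp1.le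
    exact_mod_cast hcard
  refine le_trans ?_ (hcm.trans hmono)
  exact_mod_cast hS

end MP4270U
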