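import Mathlib

/-!
# MP_4270a5_nt, piece LATT: the lattice lemma for the roots of `X ^ n - γ`, `n` a power of `p`

Let `U` be a subfield of `E` whose value group is generated by `p`, such that units of `U` are `p ^ a`-th
powers modulo `p`, and `1 + p ^ 2 O_U` consists of `p`-th powers. If the polynomials `F_k` over `U` of degree
less than `n = p ^ a` (the columns of `M`) have values of norm at most one at all roots of `X ^ n - γ`
(`γ` a unit of `U`), then `‖det M‖ ≤ p ^ ((n - 1) / (p - 1))`.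
-/

open Polynomial Finset

namespace MP4270U

variable {E : Type*} [NormedField E] [IsUltrametricDist E]

private theorem latt_sum {s : Finset ℕ} {f : ℕ → E}
    (h : ∀ i ∈ s, ∀ j ∈ s, f i ≠ 0 → f j ≠ 0 → ‖f i‖ = ‖f j‖ → i = j) {C : ℝ} (hC : 0 ≤ C)
    (hsum : ‖∑ i ∈ s, f i‖ ≤ C) : ∀ i ∈ s, ‖f i‖ ≤ C := by
  classical
  intro i hi
  by_cases h0 : f i = 0
  · rw [h0, norm_zero]
    exact hC
  have hi' : i ∈ s.filter (fun i => f i ≠ 0) := mem_filter.2 ⟨hi, h0⟩
  have h1 : ∑ i ∈ s, f i = ∑ i ∈ s.filter (fun i => f i ≠ 0), f i :=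
    (sum_filter_ne_zero s).symm
  have h2 := IsUltrametricDist.norm_sum_eq_sup'_of_pairwise_ne (s := s.filter (fun i => f i ≠ 0))
    (f := f) ⟨i, hi'⟩ (by
      intro a ha b hb hab heq
      rw [mem_coe, mem_filter] at ha hb
      exact hab (h a ha.1 b hb.1 ha.2 hb.2 heq))
  rw [h1, h2] at hsum
  exact (le_sup' (fun i => ‖f i‖) hi').trans hsum

private theorem latt_ev {p : ℕ} (hp : 1 < p) (U : Subfield E)
    (hU1 : ∀ u ∈ U, u ≠ 0 → ∃ k : ℤ, ‖u‖ = (p : ℝ) ^ k) {m : ℕ} (hm : 0 < m) {δ : E}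
    (hδ : ‖δ‖ ^ m = (p : ℝ)⁻¹) (c : ℕ → U)
    (h : ‖∑ i ∈ range m, (c i : E) * δ ^ i‖ ≤ 1) : ∀ i < m, ‖(c i : E)‖ ≤ 1 := by
  have hp0 : (0 : ℝ) < p := by exact_mod_cast (Nat.zero_lt_one.trans hp)
  have hp1 : (1 : ℝ) < p := by exact_mod_cast hp
  -- the norms of the terms
  have key : ∀ i, (c i : E) ≠ 0 → ∃ k : ℤ, ‖(c i : E)‖ = (p : ℝ) ^ k ∧
      ‖(c i : E) * δ ^ i‖ ^ m = (p : ℝ) ^ (k * m - i) := by
    intro i hi
    obtain ⟨k, hk⟩ := hU1 _ (c i).2 hi
    refine ⟨k, hk, ?_⟩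
    rw [norm_mul, norm_pow, mul_pow, ← pow_mul, mul_comm i m, pow_mul, hδ, hk, inv_pow,
      zpow_sub₀ hp0.ne', zpow_natCast, div_eq_mul_inv]
    congr 1
    rw [← zpow_natCast, ← zpow_mul]
  have hne : ∀ i, (c i : E) * δ ^ i ≠ 0 → (c i : E) ≠ 0 := fun i hi h0 => hi (by rw [h0, zero_mul])
  have h1 := latt_sum (s := range m) (f := fun i => (c i : E) * δ ^ i) (by
    intro i hi j hj hi0 hj0 hij
    obtain ⟨k, -, hk⟩ := key i (hne i hi0)
    obtain ⟨l, -, hl⟩ := key j (hne j hj0)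
    have h2 : (p : ℝ) ^ (k * m - i) = (p : ℝ) ^ (l * m - j) := by
      rw [← hk, ← hl]
      exact congrArg (· ^ m) hij
    have h3 : k * m - i = l * m - j := zpow_right_injective₀ hp0 hp1.ne' h2
    have hi' := mem_range.1 hi
    have hj' := mem_range.1 hj
    have h4 : (k - l) * m = (i : ℤ) - j := by linarith
    have h5 : (m : ℤ) ∣ (i : ℤ) - j := ⟨k - l, by rw [← h4, mul_comm]⟩
    have h6 : (i : ℤ) - j = 0 := by
      refine Int.eq_zero_of_abs_lt_dvd h5 ?_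
      rw [abs_lt]
      constructor <;> omega
    omega) zero_le_one h
  intro i hi
  by_cases h0 : (c i : E) = 0
  · rw [h0, norm_zero]
    exact zero_le_one
  obtain ⟨k, hk, hk2⟩ := key i h0
  have h2 : (p : ℝ) ^ (k * m - i) ≤ 1 := by
    rw [← hk2]
    exact pow_le_one₀ (norm_nonneg _) (h1 i (mem_range.2 hi))
  have h3 : k * m - i ≤ 0 := by
    by_contra hcon
    push Not at hcon
    exact absurd h2 (not_le.2 (one_lt_zpow₀ hp1 hcon))
  have h4 : k ≤ 0 := by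
    by_contra hcon
    push Not at hcon
    have : (m : ℤ) ≤ k * m := le_mul_of_one_le_left (by positivity) hcon
    omega
  rw [hk]
  exact zpow_le_one_of_nonpos₀ hp1.le h4

/-- expansion in powers of `X - y` -/
private theorem latt_taylor (U : Subfield E) (y : U) {m : ℕ} (G : U[X]) (hG : G.natDegree < m) :
    G = ∑ i ∈ range m, C ((taylor y G).coeff i) * (X - C y) ^ i := by
  have h1 := sum_taylor_eq G y
  rw [Polynomial.sum_over_range' _ (fun i => by rw [C_0, zero_mul]) m (by rwa [natDegree_taylor])] at h1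
  exact h1.symm

private theorem latt_aeval (U : Subfield E) (y : U) {m : ℕ} (c : ℕ → U) (ρ : E) :
    aeval ρ (∑ i ∈ range m, C (c i) * (X - C y) ^ i) =
      ∑ i ∈ range m, (c i : E) * (ρ - y) ^ i := by
  rw [map_sum]
  refine sum_congr rfl fun i _ => ?_
  rw [map_mul, aeval_C, map_pow, map_sub, aeval_X, aeval_C]
  rfl

/-- the polynomials over `U` of degree less than `m` which are small at one root `ρ`,
`‖ρ - y‖ ^ m = p⁻¹` -/
private theorem latt_eis {p : ℕ} (hp : 1 < p) (U : Subfield E)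
    (hU1 : ∀ u ∈ U, u ≠ 0 → ∃ k : ℤ, ‖u‖ = (p : ℝ) ^ k) {m : ℕ} (hm : 0 < m) (y : U) {ρ : E}
    (hρ : ‖ρ - y‖ ^ m = (p : ℝ)⁻¹) (G : U[X]) (hG : G.natDegree < m) (h : ‖aeval ρ G‖ ≤ 1) :
    ∃ c : ℕ → U, G = ∑ i ∈ range m, C (c i) * (X - C y) ^ i ∧ ∀ i < m, ‖(c i : E)‖ ≤ 1 := by
  refine ⟨fun i => (taylor y G).coeff i, latt_taylor U y G hG, ?_⟩
  refine latt_ev hp U hU1 hm hρ _ ?_
  rw [← latt_aeval, ← latt_taylor U y G hG]
  exact h

private theorem latt_sub_le (x y : E) : ‖x - y‖ ≤ max ‖x‖ ‖y‖ := by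
  have h := IsUltrametricDist.norm_add_le_max x (-y)
  rwa [norm_neg, ← sub_eq_add_neg] at h

/-- a root of `X ^ n - γ` is close to `y` if `y ^ n` is close to `γ` -/
private theorem latt_root {p : ℕ} [Fact p.Prime] (hpE : ‖(p : E)‖ = (p : ℝ)⁻¹) (a : ℕ) {y ρ κ : E}
    (hy : ‖y‖ ≤ 1) (hρ : ‖ρ‖ ≤ 1) (hκ0 : (p : ℝ)⁻¹ ≤ ‖κ‖) (hκ1 : ‖κ‖ < 1)
    (h : ρ ^ p ^ a - y ^ p ^ a = κ) : ‖ρ - y‖ ^ p ^ a = ‖κ‖ := by
  have hp : p.Prime := Fact.out
  have hn0 : 0 < p ^ a := pow_pos hp.pos a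
  have hp0 : (0 : ℝ) < p := by exact_mod_cast hp.pos
  have hδ1 : ‖ρ - y‖ ≤ 1 := by
    have := latt_sub_le ρ y
    exact this.trans (max_le hρ hy)
  have hnat : ∀ k : ℕ, ‖(k : E)‖ ≤ 1 := fun k => IsUltrametricDist.norm_natCast_le_one E k
  have h1 := add_pow_prime_pow_eq hp y (ρ - y) a
  obtain ⟨R, hR⟩ : ∃ R : E, R = ∑ k ∈ Ioo 0 (p ^ a), y ^ (k - 1) * (ρ - y) ^ (p ^ a - k - 1) *
    (((p ^ a).choose k / p : ℕ) : E) := ⟨_, rfl⟩
  rw [← hR, add_sub_cancel] at h1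
  have hR1 : ‖R‖ ≤ 1 := by
    rw [hR]
    refine IsUltrametricDist.norm_sum_le_of_forall_le_of_nonneg zero_le_one fun k _ => ?_
    rw [norm_mul, norm_mul, norm_pow, norm_pow]
    refine mul_le_one₀ (mul_le_one₀ (pow_le_one₀ (norm_nonneg _) hy) (by positivity)
      (pow_le_one₀ (norm_nonneg _) hδ1)) (norm_nonneg _) (hnat _)
  have h2 : (ρ - y) ^ p ^ a = κ - p * y * (ρ - y) * R := by
    rw [← h, h1]
    ring
  have h3 : ‖(p : E) * y * (ρ - y) * R‖ ≤ (p : ℝ)⁻¹ * ‖ρ - y‖ := by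
    rw [norm_mul, norm_mul, norm_mul, hpE]
    have : (p : ℝ)⁻¹ * ‖y‖ * ‖ρ - y‖ * ‖R‖ ≤ (p : ℝ)⁻¹ * 1 * ‖ρ - y‖ * 1 := by gcongr
    simpa using this
  have hlt : ‖ρ - y‖ < 1 := by
    by_contra hcon
    have h4 : ‖ρ - y‖ = 1 := le_antisymm hδ1 (not_lt.1 hcon)
    have h5 : ‖(ρ - y) ^ p ^ a‖ < 1 := by
      rw [h2]
      refine lt_of_le_of_lt (latt_sub_le _ _) (max_lt hκ1 ?_)
      refine lt_of_le_of_lt h3 ?_
      rw [h4, mul_one]
      exact inv_lt_one_of_one_lt₀ (by exact_mod_cast hp.one_lt)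
    rw [norm_pow, h4, one_pow] at h5
    exact lt_irrefl _ h5
  have h6 : ‖(p : E) * y * (ρ - y) * R‖ < ‖κ‖ := by
    refine lt_of_le_of_lt h3 (lt_of_lt_of_le ?_ hκ0)
    exact mul_lt_of_lt_one_right (by positivity) hlt
  rw [← norm_pow, h2, sub_eq_add_neg,
    IsUltrametricDist.norm_add_eq_max_of_norm_ne_norm (by rw [norm_neg]; exact h6.ne'), norm_neg]
  exact max_eq_left h6.le

/-- the lattice of the polynomials which are integral at the roots of `X ^ n - γ` -/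
theorem latt_basis [IsAlgClosed E] {p : ℕ} [Fact p.Prime] (hp2 : p ≠ 2)
    (hpE : ‖(p : E)‖ = (p : ℝ)⁻¹)
    (hζ : ∀ ζ : E, IsPrimitiveRoot ζ p → ‖ζ - 1‖ ^ (p - 1) = (p : ℝ)⁻¹) (U : Subfield E)
    (hU1 : ∀ u ∈ U, u ≠ 0 → ∃ k : ℤ, ‖u‖ = (p : ℝ) ^ k)
    (hU2 : ∀ u ∈ U, ‖u‖ = 1 → ∀ a : ℕ, ∃ y ∈ U, ‖y ^ p ^ a - u‖ ≤ (p : ℝ)⁻¹)
    (hU3 : ∀ u ∈ U, ‖u - 1‖ ≤ ((p : ℝ)⁻¹) ^ 2 → ∃ z ∈ U, z ^ p = u) (a : ℕ) :
    ∀ γ ∈ U, ‖γ‖ = 1 → ∃ (Eb : ℕ → U[X]) (w : ℕ → ℕ),
      (∀ i < p ^ a, (Eb i).Monic ∧ (Eb i).natDegree = i) ∧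
      (p - 1) * ∑ i ∈ range (p ^ a), w i + 1 ≤ p ^ a ∧
      ∀ F : U[X], F.natDegree < p ^ a → (∀ ρ : E, ρ ^ p ^ a = γ → ‖aeval ρ F‖ ≤ 1) →
        ∃ c : ℕ → U, F = ∑ i ∈ range (p ^ a), C (c i) * Eb i ∧
          ∀ i < p ^ a, ‖(c i : E)‖ ≤ (p : ℝ) ^ w i := by
  have hp : p.Prime := Fact.out
  have hp0 : (0 : ℝ) < p := by exact_mod_cast hp.pos
  have hp1 : (1 : ℝ) < p := by exact_mod_cast hp.one_lt
  have hp3 : 3 ≤ p := by
    have := hp.two_le
    omega
  induction a with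
  | zero =>
    intro γ _ _
    refine ⟨fun i => X ^ i, fun _ => 0, fun i _ => ⟨monic_X_pow i, natDegree_X_pow i⟩, by simp, ?_⟩
    intro F hF h
    rw [pow_zero, Nat.lt_one_iff, natDegree_eq_zero] at hF
    obtain ⟨c, hc⟩ := hF
    refine ⟨fun _ => c, by simp [hc], fun i _ => ?_⟩
    have h1 := h γ (by rw [pow_zero, pow_one])
    rw [← hc, aeval_C] at h1
    rw [pow_zero]
    exact h1
  | succ a ih =>
    intro γ hγ hγ1
    have hn0 : 0 < p ^ (a + 1) := pow_pos hp.pos _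
    obtain ⟨y, hyU, hy⟩ : ∃ y ∈ U, (∃ z ∈ U, z ^ p = γ ∧ ‖y ^ p ^ a - z‖ ≤ (p : ℝ)⁻¹) ∨
        ‖y ^ p ^ (a + 1) - γ‖ = (p : ℝ)⁻¹ := by
      by_cases hpow : ∃ z ∈ U, z ^ p = γ
      · obtain ⟨z, hzU, hz⟩ := hpow
        have hz1 : ‖z‖ = 1 := by
          have h1 : ‖z‖ ^ p = 1 := by rw [← norm_pow, hz, hγ1]
          exact (pow_eq_one_iff_of_nonneg (norm_nonneg z) hp.ne_zero).1 h1
        obtain ⟨y, hyU, hy⟩ := hU2 z hzU hz1 a
        exact ⟨y, hyU, Or.inl ⟨z, hzU, hz, hy⟩⟩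
      · obtain ⟨y, hyU, hy⟩ := hU2 γ hγ hγ1 (a + 1)
        refine ⟨y, hyU, Or.inr (le_antisymm hy ?_)⟩
        by_contra hcon
        push Not at hcon
        have hyn1 : ‖y ^ p ^ (a + 1)‖ = 1 := by
          have h1 : ‖y ^ p ^ (a + 1) - γ‖ < 1 := hcon.trans (inv_lt_one_of_one_lt₀ hp1)
          have h2 : y ^ p ^ (a + 1) = (y ^ p ^ (a + 1) - γ) + γ := by ring
          rw [h2, IsUltrametricDist.norm_add_eq_max_of_norm_ne_norm (by rw [hγ1]; exact h1.ne),
            hγ1]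
          exact max_eq_right h1.le
        have hyn0 : y ^ p ^ (a + 1) ≠ 0 := by
          intro h0
          rw [h0, norm_zero] at hyn1
          exact zero_ne_one hyn1
        have hU' : γ / y ^ p ^ (a + 1) ∈ U := U.div_mem hγ (U.pow_mem hyU _)
        have h3 : γ / y ^ p ^ (a + 1) - 1 = -(y ^ p ^ (a + 1) - γ) / y ^ p ^ (a + 1) := by
          field_simp
          ring
        have h4 : ‖γ / y ^ p ^ (a + 1) - 1‖ < (p : ℝ)⁻¹ := by
          rw [h3, norm_div, norm_neg, hyn1, div_one]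
          exact hcon
        have h5 : ‖γ / y ^ p ^ (a + 1) - 1‖ ≤ ((p : ℝ)⁻¹) ^ 2 := by
          by_cases h0 : γ / y ^ p ^ (a + 1) - 1 = 0
          · rw [h0, norm_zero]
            positivity
          · obtain ⟨k, hk⟩ := hU1 _ (U.sub_mem hU' U.one_mem) h0
            rw [hk] at h4 ⊢
            have h6 : (p : ℝ)⁻¹ = (p : ℝ) ^ (-1 : ℤ) := by rw [zpow_neg_one]
            rw [h6] at h4
            have h7 : k < -1 := (zpow_lt_zpow_iff_right₀ hp1).1 h4
            have h8 : ((p : ℝ)⁻¹) ^ 2 = (p : ℝ) ^ (-2 : ℤ) := by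
              rw [zpow_neg, inv_pow]
              norm_cast
            rw [h8]
            exact zpow_le_zpow_right₀ hp1.le (by omega)
        obtain ⟨z, hzU, hz⟩ := hU3 _ hU' h5
        refine hpow ⟨z * y ^ p ^ a, U.mul_mem hzU (U.pow_mem hyU _), ?_⟩
        rw [mul_pow, hz, ← pow_mul, ← pow_succ]
        exact div_mul_cancel₀ _ hyn0
    have hγ0 : γ ≠ 0 := by
      intro h0
      rw [h0, norm_zero] at hγ1
      exact zero_ne_one hγ1
    have hrt : ∀ ρ : E, ρ ^ p ^ (a + 1) = γ → ‖ρ‖ = 1 := by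
      intro ρ hρ
      have h1 : ‖ρ‖ ^ p ^ (a + 1) = 1 := by rw [← norm_pow, hρ, hγ1]
      exact (pow_eq_one_iff_of_nonneg (norm_nonneg ρ) hn0.ne').1 h1
    rcases hy with ⟨g, hgU, hg, hyg⟩ | hy
    · -- `γ = g ^ p`
      have hn'0 : 0 < p ^ a := pow_pos hp.pos a
      have hg1 : ‖g‖ = 1 := by
        have h1 : ‖g‖ ^ p = 1 := by rw [← norm_pow, hg, hγ1]
        exact (pow_eq_one_iff_of_nonneg (norm_nonneg g) hp.ne_zero).1 h1
      have hg0 : g ≠ 0 := by
        intro h0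
        rw [h0, norm_zero] at hg1
        exact zero_ne_one hg1
      have hpE0 : (p : E) ≠ 0 := by
        intro h0
        rw [h0, norm_zero] at hpE
        exact (inv_pos.2 hp0).ne hpE
      obtain ⟨Eb', w', hE', hw', hF'⟩ := ih g hgU hg1
      obtain ⟨m, hm⟩ : ∃ m, m = p ^ a * (p - 1) := ⟨_, rfl⟩
      have hm0 : 0 < m := by rw [hm]; exact Nat.mul_pos hn'0 (by omega)
      have hnm : p ^ (a + 1) = m + p ^ a := by
        rw [hm, pow_succ]
        calc p ^ a * p = p ^ a * ((p - 1) + 1) := by rw [Nat.sub_add_cancel hp.one_le]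
          _ = p ^ a * (p - 1) + p ^ a := by ring
      have hyn1 : ‖y‖ ≤ 1 := by
        have h1 : ‖y ^ p ^ a‖ ≤ 1 := by
          have h2 : y ^ p ^ a = (y ^ p ^ a - g) + g := by ring
          rw [h2]
          exact (IsUltrametricDist.norm_add_le_max _ _).trans
            (max_le (hyg.trans (inv_le_one_of_one_le₀ hp1.le)) hg1.le)
        rw [norm_pow] at h1
        exact (pow_le_one_iff_of_nonneg (norm_nonneg y) hn'0.ne').1 h1
      -- the polynomial `Ψ`
      obtain ⟨Ψ, hΨ⟩ : ∃ Ψ : U[X], Ψ = ∑ i ∈ range p, (X ^ p ^ a) ^ i * (C ⟨g, hgU⟩) ^ (p - 1 - i) :=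
        ⟨_, rfl⟩
      have hfac : Ψ * (X ^ p ^ a - C ⟨g, hgU⟩) = X ^ p ^ (a + 1) - C ⟨γ, hγ⟩ := by
        rw [hΨ, (Commute.all _ _).geom_sum₂_mul p, ← pow_mul, ← pow_succ, ← C_pow]
        congr 2
        exact Subtype.ext hg
      have hmon1 : (X ^ p ^ a - C (⟨g, hgU⟩ : U)).Monic := monic_X_pow_sub_C _ hn'0.ne'
      have hmon2 : (X ^ p ^ (a + 1) - C (⟨γ, hγ⟩ : U)).Monic := monic_X_pow_sub_C _ hn0.ne'
      have hΨm : Ψ.Monic := Monic.of_mul_monic_right hmon1 (by rw [hfac]; exact hmon2)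
      have hΨd : Ψ.natDegree = m := by
        have h1 := hΨm.natDegree_mul hmon1
        rw [hfac, natDegree_X_pow_sub_C, natDegree_X_pow_sub_C, hnm] at h1
        omega
      have hev : ∀ ρ : E, aeval ρ Ψ * (ρ ^ p ^ a - g) = ρ ^ p ^ (a + 1) - γ := by
        intro ρ
        have h1 := congrArg (aeval ρ) hfac
        rw [map_mul, map_sub, map_sub, map_pow, map_pow, aeval_X, aeval_C, aeval_C] at h1
        exact h1
      have hevg : ∀ ρ : E, ρ ^ p ^ a = g → aeval ρ Ψ = p * g ^ (p - 1) := by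
        intro ρ hρ
        rw [hΨ, map_sum]
        have h1 : ∀ i ∈ range p, aeval ρ ((X ^ p ^ a) ^ i * (C (⟨g, hgU⟩ : U)) ^ (p - 1 - i)) =
            g ^ (p - 1) := by
          intro i hi
          rw [map_mul, map_pow, map_pow, map_pow, aeval_X, aeval_C, hρ]
          show g ^ i * g ^ (p - 1 - i) = g ^ (p - 1)
          rw [← pow_add]
          congr 1
          have := mem_range.1 hi
          omega
        rw [sum_congr rfl h1, sum_const, card_range, nsmul_eq_mul]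
      -- a root of `Ψ`
      have hnz : NeZero (p : E) := ⟨hpE0⟩
      obtain ⟨ζ, hζr⟩ := IsAlgClosed.exists_root (cyclotomic p E)
        (degree_cyclotomic_pos p E hp.pos).ne'
      have hζp : IsPrimitiveRoot ζ p := isRoot_cyclotomic_iff.1 hζr
      have hϖ := hζ ζ hζp
      have hϖ1 : ‖ζ - 1‖ < 1 := by
        by_contra hcon
        push Not at hcon
        have h1 := one_le_pow₀ (n := p - 1) hcon
        rw [hϖ] at h1
        exact absurd h1 (not_le.2 (inv_lt_one_of_one_lt₀ hp1))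
      have hϖ2 : (p : ℝ)⁻¹ < ‖ζ - 1‖ := by
        by_contra hcon
        push Not at hcon
        have h1 : ‖ζ - 1‖ ^ (p - 1) ≤ ((p : ℝ)⁻¹) ^ (p - 1) :=
          pow_le_pow_left₀ (norm_nonneg _) hcon _
        have h2 : ((p : ℝ)⁻¹) ^ (p - 1) < ((p : ℝ)⁻¹) ^ 1 :=
          pow_lt_pow_right_of_lt_one₀ (inv_pos.2 hp0) (inv_lt_one_of_one_lt₀ hp1) (by omega)
        rw [hϖ, pow_one] at *
        exact absurd (h1.trans_lt h2) (lt_irrefl _)
      obtain ⟨ρ, hρ⟩ := IsAlgClosed.exists_pow_nat_eq (ζ * g) hn'0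
      have hρn : ρ ^ p ^ (a + 1) = γ := by
        rw [pow_succ, pow_mul, hρ, mul_pow, hζp.pow_eq_one, one_mul, hg]
      have hρΨ : aeval ρ Ψ = 0 := by
        have h1 := hev ρ
        rw [hρn, sub_self, hρ] at h1
        rcases mul_eq_zero.1 h1 with h2 | h2
        · exact h2
        · exfalso
          have h3 : (ζ - 1) * g = 0 := by rw [← h2]; ring
          rcases mul_eq_zero.1 h3 with h4 | h4
          · rw [h4, norm_zero] at hϖ2
            exact absurd hϖ2 (not_lt.2 (inv_pos.2 hp0).le)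
          · exact hg0 h4
      have hκ : ‖ρ ^ p ^ a - y ^ p ^ a‖ = ‖ζ - 1‖ := by
        have h1 : ρ ^ p ^ a - y ^ p ^ a = (ζ - 1) * g + -(y ^ p ^ a - g) := by rw [hρ]; ring
        have h2 : ‖(ζ - 1) * g‖ = ‖ζ - 1‖ := by rw [norm_mul, hg1, mul_one]
        have h3 : ‖-(y ^ p ^ a - g)‖ < ‖ζ - 1‖ := by
          rw [norm_neg]
          exact lt_of_le_of_lt hyg hϖ2
        rw [h1, IsUltrametricDist.norm_add_eq_max_of_norm_ne_norm (by rw [h2]; exact h3.ne'), h2]
        exact max_eq_left h3.le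
      have hρy : ‖ρ - y‖ ^ m = (p : ℝ)⁻¹ := by
        have h1 := latt_root hpE a (κ := ρ ^ p ^ a - y ^ p ^ a) hyn1 (hrt ρ hρn).le
          (by rw [hκ]; exact hϖ2.le) (by rw [hκ]; exact hϖ1) rfl
        rw [hm, pow_mul, h1, hκ, hϖ]
      refine ⟨fun i => if i < m then (X - C ⟨y, hyU⟩) ^ i else Ψ * Eb' (i - m),
        fun i => if i < m then 0 else w' (i - m) + 1, ?_, ?_, ?_⟩
      · intro i hi
        by_cases him : i < m
        · simp only [him, if_true]
          refine ⟨(monic_X_sub_C _).pow i, ?_⟩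
          rw [(monic_X_sub_C _).natDegree_pow, natDegree_X_sub_C, mul_one]
        · simp only [him, if_false]
          obtain ⟨h1, h2⟩ := hE' (i - m) (by omega)
          refine ⟨hΨm.mul h1, ?_⟩
          rw [hΨm.natDegree_mul h1, hΨd, h2]
          omega
      · rw [hnm, sum_range_add]
        have h1 : ∑ x ∈ range m, (if x < m then 0 else w' (x - m) + 1) = 0 :=
          sum_eq_zero fun x hx => if_pos (mem_range.1 hx)
        have h2 : ∑ x ∈ range (p ^ a), (if m + x < m then 0 else w' (m + x - m) + 1) =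
            ∑ x ∈ range (p ^ a), w' x + p ^ a := by
          rw [sum_congr rfl (g := fun x => w' x + 1) (fun x _ => by
            rw [if_neg (by omega), Nat.add_sub_cancel_left]), sum_add_distrib, sum_const, card_range,
            smul_eq_mul, mul_one]
        rw [h1, h2, zero_add, mul_add, hm]
        calc (p - 1) * ∑ x ∈ range (p ^ a), w' x + (p - 1) * p ^ a + 1
            = ((p - 1) * ∑ x ∈ range (p ^ a), w' x + 1) + (p - 1) * p ^ a := by ring
          _ ≤ p ^ a + (p - 1) * p ^ a := Nat.add_le_add_right hw' _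
          _ = p ^ a * (p - 1) + p ^ a := by ring
      · intro F hF h
        have hG1 : (F %ₘ Ψ).natDegree < m := by
          rw [← hΨd]
          refine natDegree_modByMonic_lt F hΨm ?_
          intro h1
          rw [h1, natDegree_one] at hΨd
          omega
        have hFd : F %ₘ Ψ + Ψ * (F /ₘ Ψ) = F := modByMonic_add_div F Ψ
        have hH1 : (F /ₘ Ψ).natDegree < p ^ a := by
          rw [natDegree_divByMonic F hΨm, hΨd]
          omega
        have hGρ : ‖aeval ρ (F %ₘ Ψ)‖ ≤ 1 := by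
          have h1 := congrArg (aeval ρ) hFd
          rw [map_add, map_mul, hρΨ, zero_mul, add_zero] at h1
          rw [h1]
          exact h ρ hρn
        obtain ⟨c₁, hc₁, hc₁'⟩ := latt_eis hp.one_lt U hU1 hm0 ⟨y, hyU⟩ (ρ := ρ) hρy _ hG1 hGρ
        have hpU : ((p : U) : E) = (p : E) := by simp
        have hpU0 : (p : U) ≠ 0 := by
          intro h0
          apply hpE0
          rw [← hpU, h0]
          rfl
        obtain ⟨c₂, hc₂, hc₂'⟩ := hF' (C (p : U) * (F /ₘ Ψ))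
          (lt_of_le_of_lt (natDegree_C_mul_le _ _) hH1) (by
            intro ρ' hρ'
            have hρ'n : ρ' ^ p ^ (a + 1) = γ := by rw [pow_succ, pow_mul, hρ', hg]
            have h1 := congrArg (aeval ρ') hFd
            rw [map_add, map_mul, hevg ρ' hρ'] at h1
            have h2 : ‖aeval ρ' (F %ₘ Ψ)‖ ≤ 1 := by
              rw [hc₁, latt_aeval]
              refine IsUltrametricDist.norm_sum_le_of_forall_le_of_nonneg zero_le_one fun i hi => ?_
              rw [norm_mul, norm_pow]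
              refine mul_le_one₀ (hc₁' i (mem_range.1 hi)) (by positivity)
                (pow_le_one₀ (norm_nonneg _) ?_)
              exact (latt_sub_le _ _).trans (max_le (hrt ρ' hρ'n).le hyn1)
            have h3 : (p : E) * g ^ (p - 1) * aeval ρ' (F /ₘ Ψ) = aeval ρ' F - aeval ρ' (F %ₘ Ψ) := by
              rw [← h1]; ring
            have h4 : ‖(p : E) * g ^ (p - 1) * aeval ρ' (F /ₘ Ψ)‖ ≤ 1 := by
              rw [h3]
              exact (latt_sub_le _ _).trans (max_le (h ρ' hρ'n) h2)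
            rw [map_mul, aeval_C]
            show ‖((p : U) : E) * aeval ρ' (F /ₘ Ψ)‖ ≤ 1
            rw [hpU]
            rw [norm_mul, norm_mul, norm_pow, hg1, one_pow, mul_one] at h4
            rw [norm_mul]
            exact h4)
        refine ⟨fun i => if i < m then c₁ i else c₂ (i - m) / (p : U), ?_, ?_⟩
        · rw [hnm, sum_range_add]
          have h1 : ∑ x ∈ range m, C (if x < m then c₁ x else c₂ (x - m) / (p : U)) *
              (if x < m then (X - C (⟨y, hyU⟩ : U)) ^ x else Ψ * Eb' (x - m)) = F %ₘ Ψ := by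
            rw [hc₁]
            refine sum_congr rfl fun x hx => ?_
            rw [if_pos (mem_range.1 hx), if_pos (mem_range.1 hx)]
          have h2 : ∑ x ∈ range (p ^ a), C (if m + x < m then c₁ (m + x) else
              c₂ (m + x - m) / (p : U)) * (if m + x < m then (X - C (⟨y, hyU⟩ : U)) ^ (m + x) else
                Ψ * Eb' (m + x - m)) = Ψ * (F /ₘ Ψ) := by
            have h3 : F /ₘ Ψ = C ((p : U)⁻¹) * (C (p : U) * (F /ₘ Ψ)) := by
              rw [← mul_assoc, ← C_mul, inv_mul_cancel₀ hpU0, C_1, one_mul]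
            rw [h3, hc₂, mul_sum, mul_sum]
            refine sum_congr rfl fun x _ => ?_
            rw [if_neg (by omega), if_neg (by omega), Nat.add_sub_cancel_left, div_eq_mul_inv, C_mul]
            ring
          rw [h1, h2, hFd]
        · intro i hi
          by_cases him : i < m
          · simp only [him, if_true, pow_zero]
            exact hc₁' i him
          · simp only [him, if_false]
            have h1 := hc₂' (i - m) (by omega)
            show ‖((c₂ (i - m) / (p : U) : U) : E)‖ ≤ _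
            have h2 : ((c₂ (i - m) / (p : U) : U) : E) = (c₂ (i - m) : E) / (p : E) := by
              rw [Subfield.coe_div, hpU]
            rw [h2, norm_div, hpE, div_inv_eq_mul, pow_succ]
            exact mul_le_mul_of_nonneg_right h1 hp0.le
    · -- the Eisenstein case
      have hyn1 : ‖y‖ ≤ 1 := by
        have h1 : ‖y ^ p ^ (a + 1)‖ ≤ 1 := by
          have h2 : y ^ p ^ (a + 1) = (y ^ p ^ (a + 1) - γ) + γ := by ring
          rw [h2]
          refine (IsUltrametricDist.norm_add_le_max _ _).trans (max_le ?_ hγ1.le)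
          rw [hy]
          exact inv_le_one_of_one_le₀ hp1.le
        rw [norm_pow] at h1
        exact (pow_le_one_iff_of_nonneg (norm_nonneg y) hn0.ne').1 h1
      obtain ⟨ρ, hρ⟩ := IsAlgClosed.exists_pow_nat_eq γ hn0
      have h1 : ‖ρ - y‖ ^ p ^ (a + 1) = (p : ℝ)⁻¹ := by
        have h2 := latt_root hpE (a + 1) (κ := γ - y ^ p ^ (a + 1)) hyn1 (hrt ρ hρ).le
          (by rw [norm_sub_rev, hy]) (by rw [norm_sub_rev, hy]; exact inv_lt_one_of_one_lt₀ hp1)
          (by rw [hρ])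
        rw [h2, norm_sub_rev, hy]
      refine ⟨fun i => (X - C ⟨y, hyU⟩) ^ i, fun _ => 0, fun i _ => ⟨(monic_X_sub_C _).pow i, ?_⟩, ?_, ?_⟩
      · rw [(monic_X_sub_C _).natDegree_pow, natDegree_X_sub_C, mul_one]
      · simp only [sum_const_zero, mul_zero, zero_add]
        exact hn0
      · intro F hF h
        obtain ⟨c, hc1, hc2⟩ := latt_eis hp.one_lt U hU1 hn0 ⟨y, hyU⟩ (ρ := ρ) h1 F hF (h ρ hρ)
        exact ⟨c, hc1, fun i hi => by rw [pow_zero]; exact hc2 i hi⟩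

/-- The lattice lemma. -/
theorem latt_det [IsAlgClosed E] {p : ℕ} [Fact p.Prime] (hp2 : p ≠ 2)
    (hpE : ‖(p : E)‖ = (p : ℝ)⁻¹)
    (hζ : ∀ ζ : E, IsPrimitiveRoot ζ p → ‖ζ - 1‖ ^ (p - 1) = (p : ℝ)⁻¹) (U : Subfield E)
    (hU1 : ∀ u ∈ U, u ≠ 0 → ∃ k : ℤ, ‖u‖ = (p : ℝ) ^ k)
    (hU2 : ∀ u ∈ U, ‖u‖ = 1 → ∀ a : ℕ, ∃ y ∈ U, ‖y ^ p ^ a - u‖ ≤ (p : ℝ)⁻¹)
    (hU3 : ∀ u ∈ U, ‖u - 1‖ ≤ ((p : ℝ)⁻¹) ^ 2 → ∃ z ∈ U, z ^ p = u) (a n : ℕ) (hn : n = p ^ a)
    (γ : E) (hγ : γ ∈ U) (hγ1 : ‖γ‖ = 1) (ρ : Fin n → E) (hρ : Function.Injective ρ)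
    (hργ : ∀ i, ρ i ^ n = γ) (M : Matrix (Fin n) (Fin n) E) (hM : ∀ i j, M i j ∈ U)
    (hVM : ∀ i k, ‖∑ r : Fin n, ρ i ^ (r : ℕ) * M r k‖ ≤ 1) : ‖M.det‖ ^ (p - 1) ≤ (p : ℝ) ^ n := by
  classical
  have hp : p.Prime := Fact.out
  have hp0 : (0 : ℝ) < p := by exact_mod_cast hp.pos
  have hp1 : (1 : ℝ) < p := by exact_mod_cast hp.one_lt
  subst hn
  have hn0 : 0 < p ^ a := pow_pos hp.pos a
  obtain ⟨Eb, w, hE, hw, hF⟩ := latt_basis hp2 hpE hζ U hU1 hU2 hU3 a γ hγ hγ1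
  -- all roots are among the `ρ i`
  have hall : ∀ x : E, x ^ p ^ a = γ → ∃ i, ρ i = x := by
    intro x hx
    have h1 : (univ.image ρ) ⊆ (nthRoots (p ^ a) γ).toFinset := by
      intro z hz
      obtain ⟨i, -, rfl⟩ := mem_image.1 hz
      rw [Multiset.mem_toFinset, mem_nthRoots hn0]
      exact hργ i
    have h2 : (nthRoots (p ^ a) γ).toFinset.card ≤ (univ.image ρ).card := by
      rw [card_image_of_injective _ hρ, card_univ, Fintype.card_fin]
      exact (Multiset.toFinset_card_le _).trans (card_nthRoots _ _)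
    have h3 := eq_of_subset_of_card_le h1 h2
    have h4 : x ∈ univ.image ρ := by
      rw [h3, Multiset.mem_toFinset, mem_nthRoots hn0]
      exact hx
    obtain ⟨i, -, hi⟩ := mem_image.1 h4
    exact ⟨i, hi⟩
  -- the columns
  obtain ⟨M', hM'⟩ : ∃ M' : Matrix (Fin (p ^ a)) (Fin (p ^ a)) U, ∀ i j, (M' i j : E) = M i j :=
    ⟨fun i j => ⟨M i j, hM i j⟩, fun _ _ => rfl⟩
  have hcol : ∀ k : Fin (p ^ a), ∃ c : ℕ → U,
      ∑ r : Fin (p ^ a), C (M' r k) * X ^ (r : ℕ) = ∑ i ∈ range (p ^ a), C (c i) * Eb i ∧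
        ∀ i < p ^ a, ‖(c i : E)‖ ≤ (p : ℝ) ^ w i := by
    intro k
    refine hF _ ?_ ?_
    · refine lt_of_le_of_lt (natDegree_sum_le_of_forall_le (n := p ^ a - 1) univ _ fun r _ => ?_)
        (by omega)
      refine (natDegree_C_mul_X_pow_le _ _).trans ?_
      have := r.2
      omega
    · intro x hx
      obtain ⟨i, rfl⟩ := hall x hx
      have h1 : aeval (ρ i) (∑ r : Fin (p ^ a), C (M' r k) * X ^ (r : ℕ)) =
          ∑ r : Fin (p ^ a), ρ i ^ (r : ℕ) * M r k := by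
        rw [map_sum]
        refine sum_congr rfl fun r _ => ?_
        rw [map_mul, aeval_C, map_pow, aeval_X, mul_comm, ← hM']
        rfl
      rw [h1]
      exact hVM i k
  choose c hc hc' using hcol
  obtain ⟨B, hB⟩ : ∃ B : Matrix (Fin (p ^ a)) (Fin (p ^ a)) U, ∀ r i, B r i = (Eb i).coeff r :=
    ⟨fun r i => (Eb i).coeff r, fun _ _ => rfl⟩
  obtain ⟨D, hD⟩ : ∃ D : Matrix (Fin (p ^ a)) (Fin (p ^ a)) U, ∀ i k, D i k = c k i :=
    ⟨fun i k => c k i, fun _ _ => rfl⟩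
  have hMBD : M' = B * D := by
    ext r k
    have h1 := congrArg (fun P : U[X] => P.coeff (r : ℕ)) (hc k)
    simp only [finsetSum_coeff, coeff_C_mul] at h1
    rw [sum_eq_single r (fun b _ hb => by
        rw [coeff_X_pow, if_neg (fun h => hb (Fin.ext h.symm)), mul_zero])
      (fun h => absurd (mem_univ r) h), coeff_X_pow, if_pos rfl, mul_one] at h1
    rw [h1, Matrix.mul_apply, ← Fin.sum_univ_eq_sum_range (fun i => c k i * (Eb i).coeff r)]
    congr 1
    refine sum_congr rfl fun i _ => ?_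
    rw [hB, hD, mul_comm]
  have hBdet : B.det = 1 := by
    rw [Matrix.det_of_upperTriangular]
    · refine prod_eq_one fun i _ => ?_
      obtain ⟨h1, h2⟩ := hE i i.2
      rw [hB]
      have h3 : (Eb i).coeff (Eb i).natDegree = 1 := h1
      rw [h2] at h3
      exact h3
    · intro i j hij
      rw [hB]
      refine coeff_eq_zero_of_natDegree_lt ?_
      rw [(hE j j.2).2]
      exact hij
  have hdet : M.det = ((D.det : U) : E) := by
    have h1 : M = M'.map U.subtype := by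
      ext i j
      exact (hM' i j).symm
    rw [h1, hMBD]
    have h2 := (RingHom.map_det U.subtype (B * D)).symm
    rw [Matrix.det_mul, hBdet, one_mul] at h2
    exact h2
  have hDn : ‖((D.det : U) : E)‖ ≤ (p : ℝ) ^ ∑ i ∈ range (p ^ a), w i := by
    rw [Matrix.det_apply]
    have h1 : ((∑ σ : Equiv.Perm (Fin (p ^ a)), Equiv.Perm.sign σ • ∏ i, D (σ i) i : U) : E) =
        ∑ σ : Equiv.Perm (Fin (p ^ a)), Equiv.Perm.sign σ • ∏ i, (D (σ i) i : E) := by
      have h2 := map_sum U.subtype (fun σ : Equiv.Perm (Fin (p ^ a)) =>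
        Equiv.Perm.sign σ • ∏ i, D (σ i) i) univ
      refine h2.trans (sum_congr rfl fun σ _ => ?_)
      rw [Units.smul_def, Units.smul_def, map_zsmul, map_prod]
      rfl
    rw [h1]
    refine IsUltrametricDist.norm_sum_le_of_forall_le_of_nonneg (by positivity) fun σ _ => ?_
    have h3 : ‖Equiv.Perm.sign σ • ∏ i, (D (σ i) i : E)‖ = ‖∏ i, (D (σ i) i : E)‖ := by
      rcases Int.units_eq_one_or (Equiv.Perm.sign σ) with h | h
      · rw [h, one_smul]
      · rw [h, Units.smul_def, Units.val_neg, Units.val_one, neg_smul, one_smul, norm_neg]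
    rw [h3, norm_prod, ← Fin.sum_univ_eq_sum_range, ← Equiv.sum_comp σ, ← prod_pow_eq_pow_sum]
    refine prod_le_prod (fun i _ => norm_nonneg _) fun i _ => ?_
    rw [hD]
    exact hc' i _ (σ i).2
  rw [hdet]
  calc ‖((D.det : U) : E)‖ ^ (p - 1) ≤ ((p : ℝ) ^ ∑ i ∈ range (p ^ a), w i) ^ (p - 1) :=
        pow_le_pow_left₀ (norm_nonneg _) hDn _
    _ = (p : ℝ) ^ ((p - 1) * ∑ i ∈ range (p ^ a), w i) := by rw [← pow_mul, mul_comm]
    _ ≤ (p : ℝ) ^ p ^ a := pow_le_pow_right₀ hp1.le (by omega)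

end MP4270U
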