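import Pool.Agent.Lib_MP_4270a5_u.Latt

/-!
# MP_4270a5_nt, piece LATTB: the lattice lemma for several blocks

PAPER PROOF. `latt_basis` (`Latt.lean`, private there; make it public or copy it): monic `E_i` of degree `i` over `O_U`, weights `w_i`, `(p-1) ∑ w_i + 1 ≤ p^a`, every polynomial `F` over `U` of degree `< n` with
`‖F(ρ)‖ ≤ 1` at the roots of `X^n - γ` is `∑ c_i E_i`, `‖c_i‖ ≤ p^(w_i)`. For every column `k` and block `c` the polynomial `∑_r M (c,r) k X^r` has this property, so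
`M = P * Q`, `P (c,r) (c',i)` = `if c = c'` the `r`-th coefficient of `E_i`, `else 0`; `det P = 1` (block diagonal, each block triangular with ones on the diagonal;
`Matrix.det_blockDiagonal'`/`det_of_upperTriangular`, or: the proof of `latt_det` for one block), `‖Q (c,i) k‖ ≤ p^(w_i)`, so `‖det M‖ = ‖det Q‖ ≤ ∏_(c,i) p^(w_i)` (Leibniz formula) and
`‖det M‖^(p-1) ≤ p^(|C| n)`.
-/

namespace MP4270U

open Finset Polynomial

theorem latt_det_block {E : Type*} [NormedField E] [IsUltrametricDist E] [IsAlgClosed E] {p : ℕ}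
    [Fact p.Prime] (hp2 : p ≠ 2) (hpE : ‖(p : E)‖ = (p : ℝ)⁻¹)
    (hζ : ∀ ζ : E, IsPrimitiveRoot ζ p → ‖ζ - 1‖ ^ (p - 1) = (p : ℝ)⁻¹) (U : Subfield E)
    (hU1 : ∀ u ∈ U, u ≠ 0 → ∃ k : ℤ, ‖u‖ = (p : ℝ) ^ k)
    (hU2 : ∀ u ∈ U, ‖u‖ = 1 → ∀ a : ℕ, ∃ y ∈ U, ‖y ^ p ^ a - u‖ ≤ (p : ℝ)⁻¹)
    (hU3 : ∀ u ∈ U, ‖u - 1‖ ≤ ((p : ℝ)⁻¹) ^ 2 → ∃ z ∈ U, z ^ p = u) (a n : ℕ) (hn : n = p ^ a)
    (γ : E) (hγ : γ ∈ U) (hγ1 : ‖γ‖ = 1) (ρ : Fin n → E) (hρ : Function.Injective ρ)
    (hργ : ∀ i, ρ i ^ n = γ) {C : Type*} [Fintype C] [DecidableEq C]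
    (M : Matrix (C × Fin n) (C × Fin n) E) (hM : ∀ i j, M i j ∈ U)
    (hVM : ∀ (i : Fin n) (c : C) (k : C × Fin n), ‖∑ r : Fin n, ρ i ^ (r : ℕ) * M (c, r) k‖ ≤ 1) :
    ‖M.det‖ ^ (p - 1) ≤ (p : ℝ) ^ (Fintype.card C * n) := by
  classical
  have hp : p.Prime := Fact.out
  have hp0 : (0 : ℝ) < p := by exact_mod_cast hp.pos
  have hp1 : (1 : ℝ) < p := by exact_mod_cast hp.one_lt
  subst hn
  have hn0 : 0 < p ^ a := pow_pos hp.pos a
  obtain ⟨Eb, w, hE, hw, hF⟩ := latt_basis hp2 hpE hζ U hU1 hU2 hU3 a γ hγ hγ1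
  -- all roots are among the `ρ i`
  have hall : ∀ x : E, x ^ p ^ a = γ → ∃ i, ρ i = x := by
    intro x hx
    have h1 : (univ.image ρ) ⊆ (nthRoots (p ^ a) γ).toFinset := by
      intro z hz
      obtain ⟨i, -, rfl⟩ := mem_image.1 hz
      rw [Multiset.mem_toFinset, mem_nthRoots hn0]
      exact hργ i
    have h2 : (nthRoots (p ^ a) γ).toFinset.card ≤ (univ.image ρ).card := by
      rw [card_image_of_injective _ hρ, card_univ, Fintype.card_fin]
      exact (Multiset.toFinset_card_le _).trans (card_nthRoots _ _)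
    have h3 := eq_of_subset_of_card_le h1 h2
    have h4 : x ∈ univ.image ρ := by
      rw [h3, Multiset.mem_toFinset, mem_nthRoots hn0]
      exact hx
    obtain ⟨i, -, hi⟩ := mem_image.1 h4
    exact ⟨i, hi⟩
  -- the columns
  obtain ⟨M', hM'⟩ : ∃ M' : Matrix (C × Fin (p ^ a)) (C × Fin (p ^ a)) U,
      ∀ i j, (M' i j : E) = M i j := ⟨fun i j => ⟨M i j, hM i j⟩, fun _ _ => rfl⟩
  have hcol : ∀ (b : C) (k : C × Fin (p ^ a)), ∃ c : ℕ → U,
      ∑ r : Fin (p ^ a), Polynomial.C (M' (b, r) k) * X ^ (r : ℕ) =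
        ∑ i ∈ range (p ^ a), Polynomial.C (c i) * Eb i ∧
        ∀ i < p ^ a, ‖(c i : E)‖ ≤ (p : ℝ) ^ w i := by
    intro b k
    refine hF _ ?_ ?_
    · refine lt_of_le_of_lt (natDegree_sum_le_of_forall_le (n := p ^ a - 1) univ _ fun r _ => ?_)
        (by omega)
      refine (natDegree_C_mul_X_pow_le _ _).trans ?_
      have := r.2
      omega
    · intro x hx
      obtain ⟨i, rfl⟩ := hall x hx
      have h1 : aeval (ρ i) (∑ r : Fin (p ^ a), Polynomial.C (M' (b, r) k) * X ^ (r : ℕ)) =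
          ∑ r : Fin (p ^ a), ρ i ^ (r : ℕ) * M (b, r) k := by
        rw [map_sum]
        refine sum_congr rfl fun r _ => ?_
        rw [map_mul, aeval_C, map_pow, aeval_X, mul_comm, ← hM']
        rfl
      rw [h1]
      exact hVM i b k
  choose c hc hc' using hcol
  obtain ⟨B, hB⟩ : ∃ B : Matrix (Fin (p ^ a)) (Fin (p ^ a)) U, ∀ r i, B r i = (Eb i).coeff r :=
    ⟨fun r i => (Eb i).coeff r, fun _ _ => rfl⟩
  obtain ⟨P, hP⟩ : ∃ P : Matrix (C × Fin (p ^ a)) (C × Fin (p ^ a)) U,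
      P = (Matrix.blockDiagonal (fun _ : C => B)).submatrix (Equiv.prodComm C (Fin (p ^ a)))
        (Equiv.prodComm C (Fin (p ^ a))) := ⟨_, rfl⟩
  have hPe : ∀ b r b' i, P (b, r) (b', i) = if b = b' then B r i else 0 := by
    intro b r b' i
    rw [hP]
    rfl
  obtain ⟨D, hD⟩ : ∃ D : Matrix (C × Fin (p ^ a)) (C × Fin (p ^ a)) U,
      ∀ i k, D i k = c i.1 k i.2 := ⟨fun i k => c i.1 k i.2, fun _ _ => rfl⟩
  have hMBD : M' = P * D := by
    ext ⟨b, r⟩ k
    have h1 := congrArg (fun Q : U[X] => Q.coeff (r : ℕ)) (hc b k)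
    simp only [finsetSum_coeff, coeff_C_mul] at h1
    rw [sum_eq_single r (fun b' _ hb => by
        rw [coeff_X_pow, if_neg (fun h => hb (Fin.ext h.symm)), mul_zero])
      (fun h => absurd (mem_univ r) h), coeff_X_pow, if_pos rfl, mul_one] at h1
    rw [h1, Matrix.mul_apply, Fintype.sum_prod_type, sum_eq_single b (fun b' _ hb' => by
        refine sum_eq_zero fun i _ => ?_
        rw [hPe, if_neg hb'.symm, zero_mul]) (fun h => absurd (mem_univ b) h),
      ← Fin.sum_univ_eq_sum_range (fun i => c b k i * (Eb i).coeff r)]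
    congr 1
    refine sum_congr rfl fun i _ => ?_
    rw [hPe, if_pos rfl, hB, hD, mul_comm]
  have hBdet : B.det = 1 := by
    rw [Matrix.det_of_upperTriangular]
    · refine prod_eq_one fun i _ => ?_
      obtain ⟨h1, h2⟩ := hE i i.2
      rw [hB]
      have h3 : (Eb i).coeff (Eb i).natDegree = 1 := h1
      rw [h2] at h3
      exact h3
    · intro i j hij
      rw [hB]
      refine coeff_eq_zero_of_natDegree_lt ?_
      rw [(hE j j.2).2]
      exact hij
  have hPdet : P.det = 1 := by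
    rw [hP, Matrix.det_submatrix_equiv_self, Matrix.det_blockDiagonal]
    exact prod_eq_one fun _ _ => hBdet
  have hdet : M.det = ((D.det : U) : E) := by
    have h1 : M = M'.map U.subtype := by
      ext i j
      exact (hM' i j).symm
    rw [h1, hMBD]
    have h2 := (RingHom.map_det U.subtype (P * D)).symm
    rw [Matrix.det_mul, hPdet, one_mul] at h2
    exact h2
  have hDn : ‖((D.det : U) : E)‖ ≤ (p : ℝ) ^ (Fintype.card C * ∑ i ∈ range (p ^ a), w i) := by
    rw [Matrix.det_apply]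
    have h1 : ((∑ σ : Equiv.Perm (C × Fin (p ^ a)), Equiv.Perm.sign σ • ∏ i, D (σ i) i : U) : E) =
        ∑ σ : Equiv.Perm (C × Fin (p ^ a)), Equiv.Perm.sign σ • ∏ i, (D (σ i) i : E) := by
      have h2 := map_sum U.subtype (fun σ : Equiv.Perm (C × Fin (p ^ a)) =>
        Equiv.Perm.sign σ • ∏ i, D (σ i) i) univ
      refine h2.trans (sum_congr rfl fun σ _ => ?_)
      rw [Units.smul_def, Units.smul_def, map_zsmul, map_prod]
      rfl
    rw [h1]
    refine IsUltrametricDist.norm_sum_le_of_forall_le_of_nonneg (by positivity) fun σ _ => ?_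
    have h3 : ‖Equiv.Perm.sign σ • ∏ i, (D (σ i) i : E)‖ = ‖∏ i, (D (σ i) i : E)‖ := by
      rcases Int.units_eq_one_or (Equiv.Perm.sign σ) with h | h
      · rw [h, one_smul]
      · rw [h, Units.smul_def, Units.val_neg, Units.val_one, neg_smul, one_smul, norm_neg]
    have h4 : Fintype.card C * ∑ i ∈ range (p ^ a), w i = ∑ i : C × Fin (p ^ a), w (σ i).2 := by
      rw [Equiv.sum_comp σ (fun i : C × Fin (p ^ a) => w (i.2 : ℕ)), Fintype.sum_prod_type]
      simp only [Fin.sum_univ_eq_sum_range w, sum_const, card_univ, smul_eq_mul]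
    rw [h3, norm_prod, h4, ← prod_pow_eq_pow_sum]
    refine prod_le_prod (fun i _ => norm_nonneg _) fun i _ => ?_
    rw [hD]
    exact hc' _ _ _ (σ i).2.2
  rw [hdet]
  calc ‖((D.det : U) : E)‖ ^ (p - 1)
      ≤ ((p : ℝ) ^ (Fintype.card C * ∑ i ∈ range (p ^ a), w i)) ^ (p - 1) :=
        pow_le_pow_left₀ (norm_nonneg _) hDn _
    _ = (p : ℝ) ^ (Fintype.card C * ((p - 1) * ∑ i ∈ range (p ^ a), w i)) := by
        rw [← pow_mul]
        congr 1
        ring
    _ ≤ (p : ℝ) ^ (Fintype.card C * p ^ a) :=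
        pow_le_pow_right₀ hp1.le (Nat.mul_le_mul_left _ (by omega))

end MP4270U
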