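import Mathlib

/-!
# MP_4270a5_nt, piece ORDP: few-term exponential sums at `p`-th roots of unity, `p`-adically

`E` a field with an ultrametric norm, `‖p‖ < 1`, `ζ` a primitive `p`-th root of unity, `ϖ = ‖1 - ζ‖`.

PAPER PROOF. Integers prime to `p` have norm `1` (Bezout), `ϖ^(p-1) = ‖p‖ < 1` (or only `ϖ < 1`: `(1-ζ)^p ≡ 1 - ζ^p = 0` modulo
`p`), and `‖ζ^i - ζ^j‖ = ϖ` for `i ≢ j mod p`. Let `q = |C|`, `I` with `|I| ≥ q` (shrink it to `|I| = q`). Suppose
`‖F(ζ^i)‖ < ϖ^(q-1) * ‖s c₀‖` for all `i ∈ I`, `F = ∑_{c∈C} s_c X^c`; replacing `c₀` by an index where `‖s c‖` is maximal and scaling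
we may assume `max ‖s_c‖ = 1` and `‖F(ζ^i)‖ < ϖ^(q-1)`. Lagrange interpolation at the `x_i = ζ^i`, `i ∈ I`: `R = ∑_i F(x_i) ∏_{j≠i} (X - x_j)/(x_i - x_j)` has
coefficients of norm `< 1`; `W = ∏_i (X - x_i)` is monic with coefficients of norm `≤ 1`, `F = R + W Q` with `Q` of norm `≤ 1`
(division by a monic polynomial), and `W ≡ (X-1)^q`. So `F = R' + (X-1)^q Q`, all coefficients of `R'` of norm `< 1`. Apply
`θ = X d/dX` `j < q` times and evaluate at `1`: `‖∑_c s_c c^j‖ < 1` for `j < q`. Hence `‖∑_c s_c P(c)‖ < 1` for every integer polynomial `P` of degree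
`< q`; with `P = ∏_{c ∈ C, c ≠ c₁} (X - c)` the sum is `s_{c₁} ∏ (c₁ - c)` of norm `‖s_{c₁}‖ = 1` for the maximal `c₁`, contradiction.
-/

namespace MP4270U

open Finset

section Theta

open Polynomial

variable {κ : Type*} [Field κ]

/-- `θ = X d/dX` -/
private noncomputable def ordpTh (f : κ[X]) : κ[X] := X * derivative f

private theorem ordpTh_dvd (q : ℕ) (f : κ[X]) (h : (X - 1 : κ[X]) ^ (q + 1) ∣ f) :
    (X - 1 : κ[X]) ^ q ∣ ordpTh f := by
  obtain ⟨Q, rfl⟩ := h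
  refine ⟨X * ((q + 1 : κ[X]) * Q + (X - 1) * derivative Q), ?_⟩
  unfold ordpTh
  rw [derivative_mul, derivative_pow]
  simp only [derivative_sub, derivative_X, derivative_one, sub_zero, mul_one, Nat.cast_add,
    Nat.cast_one, add_tsub_cancel_right, map_add, map_natCast, map_one]
  ring

private theorem ordpTh_iter_dvd (j : ℕ) : ∀ (q : ℕ) (f : κ[X]), (X - 1 : κ[X]) ^ (q + j) ∣ f →
    (X - 1 : κ[X]) ^ q ∣ ordpTh^[j] f := by
  induction j with
  | zero => intro q f h; simpa using h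
  | succ j ih =>
    intro q f h
    rw [Function.iterate_succ_apply']
    refine ordpTh_dvd q _ (ih (q + 1) f ?_)
    have h1 : q + 1 + j = q + (j + 1) := by ring
    rwa [h1]

private theorem ordpTh_iter_sum (j : ℕ) (C : Finset ℕ) (s : ℕ → κ) :
    ordpTh^[j] (∑ c ∈ C, monomial c (s c)) = ∑ c ∈ C, monomial c (s c * (c : κ) ^ j) := by
  induction j with
  | zero => simp
  | succ j ih =>
    rw [Function.iterate_succ_apply', ih]
    unfold ordpTh
    rw [derivative_sum, mul_sum]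
    refine sum_congr rfl fun c _ => ?_
    rw [derivative_monomial, pow_succ, ← mul_assoc]
    rcases Nat.eq_zero_or_pos c with rfl | hc
    · simp
    · rw [X_mul_monomial, Nat.sub_add_cancel hc]

/-- a polynomial with `q` terms of degree less than the characteristic has no zero of order `q` at `1` -/
private theorem ordp_few {p : ℕ} [CharP κ p] (C : Finset ℕ) (hC : ∀ c ∈ C, c < p) (s : ℕ → κ)
    (h : (X - 1 : κ[X]) ^ C.card ∣ ∑ c ∈ C, monomial c (s c)) : ∀ c ∈ C, s c = 0 := by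
  classical
  have h1 : ∀ j, j < C.card → ∑ c ∈ C, s c * (c : κ) ^ j = 0 := by
    intro j hj
    have h2 := ordpTh_iter_dvd j (C.card - j) (∑ c ∈ C, monomial c (s c))
      (by rwa [Nat.sub_add_cancel hj.le])
    rw [ordpTh_iter_sum] at h2
    obtain ⟨Q, hQ⟩ := h2
    have h3 := congrArg (eval 1) hQ
    have h4 : C.card - j ≠ 0 := by omega
    rw [eval_mul, eval_pow, eval_sub, eval_X, eval_one, sub_self, zero_pow h4, zero_mul,
      eval_finsetSum] at h3
    simpa using h3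
  have h4 : (fun j : Fin C.card => s (C.equivFin.symm j : ℕ)) = 0 := by
    refine Matrix.eq_zero_of_forall_pow_sum_mul_pow_eq_zero
      (f := fun j : Fin C.card => (((C.equivFin.symm j : C) : ℕ) : κ)) ?_ ?_
    · intro j j' hjj
      have h5 := CharP.natCast_injOn_Iio κ p (hC _ (C.equivFin.symm j).2)
        (hC _ (C.equivFin.symm j').2) hjj
      exact C.equivFin.symm.injective (Subtype.ext h5)
    · intro i
      rw [← h1 i i.2, ← sum_coe_sort C]
      exact Equiv.sum_comp C.equivFin.symm (fun c : C => s c * ((c : ℕ) : κ) ^ (i : ℕ))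
  intro c hc
  have h6 := congrFun h4 (C.equivFin ⟨c, hc⟩)
  simpa using h6

end Theta

section Norm

variable {E : Type*} [NormedField E] [IsUltrametricDist E]

theorem ordp_lt_one {p : ℕ} [Fact p.Prime]
    (hp : ‖(p : E)‖ < 1) {ζ : E} (hζ : IsPrimitiveRoot ζ p) : ‖1 - ζ‖ < 1 := by
  have hpp : p.Prime := Fact.out
  have hn : ‖ζ‖ = 1 := by
    have h1 : ‖ζ‖ ^ p = 1 := by rw [← norm_pow, hζ.pow_eq_one, norm_one]
    exact (pow_eq_one_iff_of_nonneg (norm_nonneg _) hpp.ne_zero).1 h1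
  have h1 := add_pow_prime_eq hpp (1 : E) (-ζ)
  have h2 : ‖(1 : E) ^ p + (-ζ) ^ p‖ < 1 := by
    rcases hpp.eq_two_or_odd' with h | h
    · subst h
      have h3 : (1 : E) ^ 2 + (-ζ) ^ 2 = (2 : ℕ) := by
        rw [neg_sq, hζ.pow_eq_one]
        norm_num
      rw [h3]
      exact hp
    · rw [h.neg_pow, hζ.pow_eq_one]
      simp
  have h3 : ‖(p : E) * 1 * (-ζ) * ∑ k ∈ Ioo 0 p, (1 : E) ^ (k - 1) * (-ζ) ^ (p - k - 1) *
      ((p.choose k / p : ℕ) : E)‖ < 1 := by
    rw [norm_mul, norm_mul, norm_mul, norm_neg, hn, norm_one, mul_one, mul_one]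
    have h4 : ‖∑ k ∈ Ioo 0 p, (1 : E) ^ (k - 1) * (-ζ) ^ (p - k - 1) *
        ((p.choose k / p : ℕ) : E)‖ ≤ 1 := by
      refine IsUltrametricDist.norm_sum_le_of_forall_le_of_nonneg zero_le_one fun k _ => ?_
      rw [norm_mul, norm_mul, norm_pow, norm_pow, norm_neg, hn, norm_one, one_pow, one_pow, one_mul,
        one_mul]
      exact IsUltrametricDist.norm_natCast_le_one E _
    calc ‖(p : E)‖ * _ ≤ ‖(p : E)‖ * 1 := mul_le_mul_of_nonneg_left h4 (norm_nonneg _)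
      _ < 1 := by rwa [mul_one]
  have h5 : ‖(1 - ζ) ^ p‖ < 1 := by
    rw [sub_eq_add_neg, h1]
    exact (IsUltrametricDist.norm_add_le_max _ _).trans_lt (max_lt h2 h3)
  rw [norm_pow] at h5
  by_contra hcon
  push Not at hcon
  exact absurd h5 (not_lt.2 (one_le_pow₀ hcon))

private theorem ordp_norm_one {p : ℕ} (hp : 0 < p) {ζ : E} (hζ : ζ ^ p = 1) : ‖ζ‖ = 1 := by
  have h1 : ‖ζ‖ ^ p = 1 := by rw [← norm_pow, hζ, norm_one]
  exact (pow_eq_one_iff_of_nonneg (norm_nonneg _) hp.ne').1 h1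

private theorem ordp_pow_le {x : E} (hx : ‖x‖ = 1) (k : ℕ) : ‖1 - x ^ k‖ ≤ ‖1 - x‖ := by
  rw [← geom_sum_mul_neg, norm_mul]
  have h4 : ‖∑ i ∈ range k, x ^ i‖ ≤ 1 := by
    refine IsUltrametricDist.norm_sum_le_of_forall_le_of_nonneg zero_le_one fun i _ => ?_
    rw [norm_pow, hx, one_pow]
  calc _ ≤ 1 * ‖1 - x‖ := mul_le_mul_of_nonneg_right h4 (norm_nonneg _)
    _ = _ := one_mul _

private theorem ordp_pow_eq {p : ℕ} (hpp : p.Prime) {ζ : E} (hζ : ζ ^ p = 1) {k : ℕ}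
    (hk : ¬ p ∣ k) : ‖1 - ζ ^ k‖ = ‖1 - ζ‖ := by
  have hn := ordp_norm_one hpp.pos hζ
  refine le_antisymm (ordp_pow_le hn k) ?_
  have hc : Nat.Coprime k p := (Nat.Prime.coprime_iff_not_dvd hpp).2 hk |>.symm
  obtain ⟨l, -, hl⟩ := Nat.exists_mul_mod_eq_one_of_coprime hc hpp.one_lt
  have h1 : (ζ ^ k) ^ l = ζ := by
    rw [← pow_mul, pow_eq_pow_mod (k * l) hζ, hl, pow_one]
  calc ‖1 - ζ‖ = ‖1 - (ζ ^ k) ^ l‖ := by rw [h1]
    _ ≤ ‖1 - ζ ^ k‖ := ordp_pow_le (by rw [norm_pow, hn, one_pow]) l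

private theorem ordp_sub {p : ℕ} (hpp : p.Prime) {ζ : E} (hζ : ζ ^ p = 1) {i j : ℕ} (hi : i < p)
    (hj : j < p) (hij : i ≠ j) : ‖ζ ^ i - ζ ^ j‖ = ‖1 - ζ‖ := by
  have hn := ordp_norm_one hpp.pos hζ
  wlog h : i < j generalizing i j
  · rw [norm_sub_rev]
    exact this hj hi hij.symm (by omega)
  have h1 : ζ ^ i - ζ ^ j = ζ ^ i * (1 - ζ ^ (j - i)) := by
    rw [mul_sub, mul_one, ← pow_add, Nat.add_sub_cancel' h.le]
  rw [h1, norm_mul, norm_pow, hn, one_pow, one_mul]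
  refine ordp_pow_eq hpp hζ fun hd => ?_
  have := Nat.le_of_dvd (by omega) hd
  omega

private theorem ordp_aux {p : ℕ} (hpp : p.Prime) (hp : ‖(p : E)‖ < 1) {ζ : E}
    (hζ : IsPrimitiveRoot ζ p) (hζ1 : ‖1 - ζ‖ < 1) (C I : Finset ℕ)
    (hC : ∀ c ∈ C, c < p) (hI : ∀ i ∈ I, i < p) (hCI : I.card = C.card) (s : ℕ → E)
    (hs : ∀ c ∈ C, ‖s c‖ ≤ 1)
    (hF : ∀ i ∈ I, ‖∑ c ∈ C, s c * ζ ^ (c * i)‖ < ‖1 - ζ‖ ^ (C.card - 1)) :
    ∀ c ∈ C, ‖s c‖ < 1 := by
  classical
  set O : ValuationSubring E := (NormedField.valuation (K := E)).valuationSubring with hO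
  have hOm : ∀ x : E, x ∈ O ↔ ‖x‖ ≤ 1 := by
    intro x
    rw [hO, Valuation.mem_valuationSubring_iff]
    rfl
  have hres : ∀ x : O, IsLocalRing.residue O x = 0 ↔ ‖(x : E)‖ < 1 := by
    intro x
    rw [IsLocalRing.residue_eq_zero_iff, IsLocalRing.mem_maximalIdeal, mem_nonunits_iff]
    constructor
    · intro h
      by_contra h1
      push Not at h1
      have h2 : ‖(x : E)‖ = 1 := le_antisymm ((hOm _).1 x.2) h1
      have h3 : (x : E) ≠ 0 := by
        intro h4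
        rw [h4, norm_zero] at h2
        exact zero_ne_one h2
      refine h (IsUnit.of_mul_eq_one (⟨(x : E)⁻¹, (hOm _).2 (by rw [norm_inv, h2, inv_one])⟩ : O)
        (Subtype.ext ?_))
      exact mul_inv_cancel₀ h3
    · intro h h1
      obtain ⟨y, hy⟩ := h1.exists_right_inv
      have h2 : (x : E) * (y : E) = 1 := congrArg Subtype.val hy
      have h3 := congrArg norm h2
      rw [norm_mul, norm_one] at h3
      have h4 := (hOm _).1 y.2
      have h5 : ‖(x : E)‖ * ‖(y : E)‖ ≤ ‖(x : E)‖ * 1 := mul_le_mul_of_nonneg_left h4 (norm_nonneg _)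
      rw [h3, mul_one] at h5
      exact absurd h5 (not_le.2 h)
  have hn := ordp_norm_one hpp.pos hζ.pow_eq_one
  have hchar : CharP (IsLocalRing.ResidueField O) p := by
    have h1 : ((p : ℕ) : IsLocalRing.ResidueField O) = 0 := by
      have h2 := (hres (p : O)).2 (by simpa using hp)
      simpa using h2
    exact (CharP.charP_iff_prime_eq_zero hpp).2 h1
  have hϖ : ‖1 - ζ‖ ≠ 0 := by
    rw [norm_ne_zero_iff, sub_ne_zero]
    exact (hζ.ne_one hpp.one_lt).symm
  obtain ⟨sO, hsO⟩ : ∃ sO : ℕ → O, ∀ c ∈ C, (sO c : E) = s c := by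
    refine ⟨fun c => if h : ‖s c‖ ≤ 1 then ⟨s c, (hOm _).2 h⟩ else 0, fun c hc => ?_⟩
    simp only [dif_pos (hs c hc)]
  obtain ⟨z, hz⟩ : ∃ z : ℕ → O, ∀ i, (z i : E) = ζ ^ i :=
    ⟨fun i => ⟨ζ ^ i, (hOm _).2 (by rw [norm_pow, hn, one_pow])⟩, fun i => rfl⟩
  set r : ℕ → E := fun i => (∑ c ∈ C, s c * ζ ^ (c * i)) / ∏ j ∈ I.erase i, (ζ ^ i - ζ ^ j) with hr
  have hprod : ∀ i ∈ I, ‖∏ j ∈ I.erase i, (ζ ^ i - ζ ^ j)‖ = ‖1 - ζ‖ ^ (C.card - 1) := by
    intro i hi
    rw [norm_prod, prod_congr rfl (fun j hj => ordp_sub hpp hζ.pow_eq_one (hI i hi)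
      (hI j (mem_of_mem_erase hj)) (ne_of_mem_erase hj).symm), prod_const, card_erase_of_mem hi, hCI]
  have hprod0 : ∀ i ∈ I, ∏ j ∈ I.erase i, (ζ ^ i - ζ ^ j) ≠ 0 := by
    intro i hi h0
    have h1 := hprod i hi
    rw [h0, norm_zero] at h1
    exact pow_ne_zero _ hϖ h1.symm
  have hr1 : ∀ i ∈ I, ‖r i‖ < 1 := by
    intro i hi
    rw [hr]
    simp only
    rw [norm_div, hprod i hi, div_lt_one (by positivity)]
    exact hF i hi
  obtain ⟨rO, hrO⟩ : ∃ rO : ℕ → O, ∀ i ∈ I, (rO i : E) = r i := by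
    refine ⟨fun i => if h : ‖r i‖ ≤ 1 then ⟨r i, (hOm _).2 h⟩ else 0, fun i hi => ?_⟩
    simp only [dif_pos (hr1 i hi).le]
  set FO : Polynomial O := ∑ c ∈ C, Polynomial.monomial c (sO c) with hFO
  set RO : Polynomial O := ∑ i ∈ I, Polynomial.C (rO i) *
    ∏ j ∈ I.erase i, (Polynomial.X - Polynomial.C (z j)) with hRO
  have hzero : ∀ i ∈ I, Polynomial.eval (z i) (FO - RO) = 0 := by
    intro i hi
    have h1 : Polynomial.eval (z i) FO = ∑ c ∈ C, sO c * z i ^ c := by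
      rw [hFO, Polynomial.eval_finsetSum]
      exact sum_congr rfl fun c _ => Polynomial.eval_monomial
    have h2 : Polynomial.eval (z i) RO = rO i * ∏ j ∈ I.erase i, (z i - z j) := by
      rw [hRO, Polynomial.eval_finsetSum, sum_eq_single_of_mem i hi]
      · rw [Polynomial.eval_mul, Polynomial.eval_C, Polynomial.eval_prod]
        simp
      · intro j hj hji
        rw [Polynomial.eval_mul, Polynomial.eval_prod]
        rw [prod_eq_zero (mem_erase.2 ⟨hji.symm, hi⟩) (by simp), mul_zero]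
    rw [Polynomial.eval_sub, h1, h2, sub_eq_zero]
    apply Subtype.ext
    have h3 : ((∑ c ∈ C, sO c * z i ^ c : O) : E) = ∑ c ∈ C, s c * ζ ^ (c * i) := by
      push_cast
      refine sum_congr rfl fun c hc => ?_
      rw [hsO c hc, hz, ← pow_mul, mul_comm i c]
    have h4 : ((rO i * ∏ j ∈ I.erase i, (z i - z j) : O) : E) =
        r i * ∏ j ∈ I.erase i, (ζ ^ i - ζ ^ j) := by
      push_cast
      rw [hrO i hi]
      congr 1
      exact prod_congr rfl fun j _ => by rw [hz, hz]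
    rw [h3, h4, hr]
    simp only
    rw [div_mul_cancel₀ _ (hprod0 i hi)]
  have hdvd : (∏ i ∈ I, (Polynomial.X - Polynomial.C (z i))) ∣ FO - RO := by
    by_cases h0 : FO - RO = 0
    · rw [h0]
      exact dvd_zero _
    · have h1 : (Multiset.map (fun a => Polynomial.X - Polynomial.C a) (I.val.map z)).prod ∣
          FO - RO := by
        rw [Multiset.prod_X_sub_C_dvd_iff_le_roots h0]
        have h2 : (I.val.map z).Nodup := by
          refine Multiset.Nodup.map_on (fun i hi j hj hij => ?_) I.nodup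
          by_contra hne
          have h3 := ordp_sub hpp hζ.pow_eq_one (hI i hi) (hI j hj) hne
          rw [← hz i, ← hz j, hij, sub_self, norm_zero] at h3
          exact hϖ h3.symm
        rw [Multiset.le_iff_subset h2]
        intro a ha
        obtain ⟨i, hi, rfl⟩ := Multiset.mem_map.1 ha
        exact (Polynomial.mem_roots h0).2 (hzero i hi)
      rw [Multiset.map_map] at h1
      exact h1
  obtain ⟨Q, hQ⟩ := hdvd
  have hmap := congrArg (Polynomial.map (IsLocalRing.residue O)) hQ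
  have hz1 : ∀ i, IsLocalRing.residue O (z i) = 1 := by
    intro i
    have h1 : IsLocalRing.residue O (1 - z i) = 0 := by
      rw [hres]
      push_cast
      rw [hz]
      exact (ordp_pow_le hn i).trans_lt hζ1
    rw [map_sub, map_one, sub_eq_zero] at h1
    exact h1.symm
  have hRO0 : Polynomial.map (IsLocalRing.residue O) RO = 0 := by
    rw [hRO, Polynomial.map_sum]
    refine sum_eq_zero fun i hi => ?_
    rw [Polynomial.map_mul, Polynomial.map_C, (hres (rO i)).2 (by rw [hrO i hi]; exact hr1 i hi),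
      Polynomial.C_0, zero_mul]
  have hFOm : Polynomial.map (IsLocalRing.residue O) FO =
      ∑ c ∈ C, Polynomial.monomial c (IsLocalRing.residue O (sO c)) := by
    rw [hFO, Polynomial.map_sum]
    exact sum_congr rfl fun c _ => Polynomial.map_monomial _
  have hWm : Polynomial.map (IsLocalRing.residue O)
      (∏ i ∈ I, (Polynomial.X - Polynomial.C (z i))) = (Polynomial.X - 1) ^ C.card := by
    rw [Polynomial.map_prod, ← hCI, ← prod_const]
    refine prod_congr rfl fun i _ => ?_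
    rw [Polynomial.map_sub, Polynomial.map_X, Polynomial.map_C, hz1, Polynomial.C_1]
  rw [Polynomial.map_sub, hRO0, sub_zero, hFOm, Polynomial.map_mul, hWm] at hmap
  have hfin := ordp_few (p := p) C hC (fun c => IsLocalRing.residue O (sO c)) ⟨_, hmap⟩
  intro c hc
  have h1 := (hres (sO c)).1 (hfin c hc)
  rwa [hsO c hc] at h1

theorem ordp {p : ℕ} [Fact p.Prime]
    (hp : ‖(p : E)‖ < 1) {ζ : E} (hζ : IsPrimitiveRoot ζ p) (C I : Finset ℕ)
    (hC : ∀ c ∈ C, c < p) (hI : ∀ i ∈ I, i < p) (hCI : C.card ≤ I.card) (s : ℕ → E) (c₀ : ℕ)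
    (hc₀ : c₀ ∈ C) :
    ∃ i ∈ I, ‖1 - ζ‖ ^ (C.card - 1) * ‖s c₀‖ ≤ ‖∑ c ∈ C, s c * ζ ^ (c * i)‖ := by
  classical
  obtain ⟨c₁, hc₁, hmax⟩ := C.exists_max_image (fun c => ‖s c‖) ⟨c₀, hc₀⟩
  by_contra hcon
  push Not at hcon
  obtain ⟨J, hJI, hJ⟩ := exists_subset_card_eq hCI
  have hJ0 : J.Nonempty := by
    rw [← card_pos, hJ]
    exact card_pos.2 ⟨c₀, hc₀⟩
  obtain ⟨i₀, hi₀⟩ := hJ0
  have hs1 : 0 < ‖s c₁‖ := by
    rcases (norm_nonneg (s c₁)).eq_or_lt with h | h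
    · exfalso
      have h1 : ∀ c ∈ C, s c = 0 := fun c hc => norm_le_zero_iff.1 (by rw [h]; exact hmax c hc)
      have h2 := hcon i₀ (hJI hi₀)
      rw [h1 c₀ hc₀, norm_zero, mul_zero] at h2
      exact absurd h2 (not_lt.2 (norm_nonneg _))
    · exact h
  have hs1' : s c₁ ≠ 0 := norm_pos_iff.1 hs1
  have key := ordp_aux (Fact.out : p.Prime) hp hζ (ordp_lt_one hp hζ) C J hC
    (fun i hi => hI i (hJI hi)) hJ (fun c => s c / s c₁)
    (fun c hc => by rw [norm_div]; exact (div_le_one hs1).2 (hmax c hc))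
    (fun i hi => by
      have h1 : ∑ c ∈ C, s c / s c₁ * ζ ^ (c * i) = (∑ c ∈ C, s c * ζ ^ (c * i)) / s c₁ := by
        rw [sum_div]
        exact sum_congr rfl fun c _ => by ring
      rw [h1, norm_div, div_lt_iff₀ hs1]
      exact (hcon i (hJI hi)).trans_le (mul_le_mul_of_nonneg_left (hmax c₀ hc₀) (by positivity)))
    c₁ hc₁
  rw [div_self hs1', norm_one] at key
  exact lt_irrefl _ key

end Norm

end MP4270U
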