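import Pool.Agent.Lib_MP_4270a5_u.KumC

/-!
# MP_4270a5_nt, piece RKB: `kum_build` with more information on the group

PAPER PROOF. As `kum_build` (see `KumB.lean`), with two more properties: a relation between two radicals modulo `L` gives a relation between the coordinates, and a power
of a radical whose coordinate is trivial on the group is in `L`.
-/

open Polynomial IntermediateField Finset

namespace MP4270U

open MP4270 Pool.Agent.Sub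

private def rkbH {M : Type} [Field M] [Algebra ℚ M] (S : Set M) : Subgroup (M ≃ₐ[ℚ] M) where
  carrier := {σ | ∀ x ∈ S, σ x = x}
  mul_mem' {σ τ} hσ hτ x hx := by
    rw [AlgEquiv.mul_apply, hτ x hx, hσ x hx]
  one_mem' x _ := rfl
  inv_mem' {σ} hσ x hx := by
    have h1 : σ (σ⁻¹ x) = σ x := by
      rw [hσ x hx]
      exact σ.apply_symm_apply x
    exact σ.injective h1

private theorem rkb_div_pow {M : Type} [Field M] [Algebra ℚ M] (S : Set M) {N : ℕ} {ι : Type}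
    (g : ι → M) (hg0 : ∀ i, g i ≠ 0) (hgS : ∀ i, g i ^ N ∈ S) (σ : rkbH S) (i : ι) :
    (σ.1 (g i) / g i) ^ N = 1 := by
  rw [div_pow, ← map_pow, σ.2 _ (hgS i), div_self (pow_ne_zero _ (hg0 i))]

private noncomputable def rkbK {M : Type} [Field M] [Algebra ℚ M] (S : Set M) {N : ℕ}
    (hμ : ∀ z : M, z ^ N = 1 → z ∈ S) {ι : Type} (g : ι → M) (hg0 : ∀ i, g i ≠ 0)
    (hgS : ∀ i, g i ^ N ∈ S) : rkbH S →* (ι → Mˣ) where
  toFun σ i := Units.mk0 (σ.1 (g i) / g i)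
    (div_ne_zero ((map_ne_zero_iff _ σ.1.injective).mpr (hg0 i)) (hg0 i))
  map_one' := by
    funext i
    ext
    rw [Units.val_mk0]
    exact div_self (hg0 i)
  map_mul' σ τ := by
    funext i
    ext
    rw [Pi.mul_apply, Units.val_mul, Units.val_mk0, Units.val_mk0, Units.val_mk0]
    have h1 := rkb_div_pow S g hg0 hgS τ i
    have h2 := σ.2 _ (hμ _ h1)
    rw [map_div₀] at h2
    have h3 : σ.1 (g i) ≠ 0 := (map_ne_zero_iff _ σ.1.injective).mpr (hg0 i)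
    rw [div_eq_div_iff h3 (hg0 i)] at h2
    rw [Subgroup.coe_mul, AlgEquiv.mul_apply, div_mul_div_comm, div_eq_div_iff (hg0 i)
      (mul_ne_zero (hg0 i) (hg0 i)), ← mul_assoc, h2]
    ring

private theorem rkbK_val {M : Type} [Field M] [Algebra ℚ M] (S : Set M) {N : ℕ}
    (hμ : ∀ z : M, z ^ N = 1 → z ∈ S) {ι : Type} (g : ι → M) (hg0 : ∀ i, g i ≠ 0)
    (hgS : ∀ i, g i ^ N ∈ S) (σ : rkbH S) (i : ι) :
    ((rkbK S hμ g hg0 hgS σ i : Mˣ) : M) = σ.1 (g i) / g i := rfl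

private theorem rkbK_mul {M : Type} [Field M] [Algebra ℚ M] (S : Set M) {N : ℕ}
    (hμ : ∀ z : M, z ^ N = 1 → z ∈ S) {ι : Type} (g : ι → M) (hg0 : ∀ i, g i ≠ 0)
    (hgS : ∀ i, g i ^ N ∈ S) (σ : rkbH S) (i : ι) :
    g i * ((rkbK S hμ g hg0 hgS σ i : Mˣ) : M) = σ.1 (g i) := by
  rw [rkbK_val, mul_div_cancel₀ _ (hg0 i)]

private theorem rkb_pow {M : Type} [Field M] [Algebra ℚ M] (S : Set M) {N : ℕ}
    (hμ : ∀ z : M, z ^ N = 1 → z ∈ S) {ι : Type} (g : ι → M) (hg0 : ∀ i, g i ≠ 0)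
    (hgS : ∀ i, g i ^ N ∈ S) (τ : (rkbK S hμ g hg0 hgS).range) : τ ^ N = 1 := by
  obtain ⟨_, σ, rfl⟩ := τ
  apply Subtype.ext
  funext i
  ext
  have h1 := rkb_div_pow S g hg0 hgS σ i
  rw [SubmonoidClass.coe_pow, Pi.pow_apply, Units.val_pow_eq_pow_val, rkbK_val]
  exact h1

/-- the coordinates -/
private noncomputable def rkbP {M : Type} [Field M] [Algebra ℚ M] (S : Set M) {N : ℕ}
    (hμ : ∀ z : M, z ^ N = 1 → z ∈ S) {ι : Type} (g : ι → M) (hg0 : ∀ i, g i ≠ 0)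
    (hgS : ∀ i, g i ^ N ∈ S) (i : ι) : (rkbK S hμ g hg0 hgS).range →* Mˣ :=
  (Pi.evalMonoidHom (fun _ : ι => Mˣ) i).comp (rkbK S hμ g hg0 hgS).range.subtype

/-- the value of the conjugate -/
private theorem rkb_y {M : Type} [Field M] [Algebra ℚ M] (S : Set M) {N : ℕ}
    (hμ : ∀ z : M, z ^ N = 1 → z ∈ S) {ι : Type} [Fintype ι] (b g : ι → M) (hg0 : ∀ i, g i ≠ 0)
    (hgS : ∀ i, g i ^ N ∈ S) (hb : ∀ i, b i ∈ S) (σ : rkbH S)
    (τ : (rkbK S hμ g hg0 hgS).range) (hτ : rkbK S hμ g hg0 hgS σ = τ) :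
    ∑ i, b i * g i * ((rkbP S hμ g hg0 hgS i τ : Mˣ) : M) = σ.1 (∑ i, b i * g i) := by
  rw [map_sum]
  refine Finset.sum_congr rfl fun i _ => ?_
  rw [map_mul, σ.2 _ (hb i), mul_assoc, ← rkbK_mul S hμ g hg0 hgS σ i, hτ]
  rfl

/-- some coordinate is `χ` -/
private theorem rkb_coord {M : Type} [Field M] [CharZero M] {G : Type} [CommGroup G] [Fintype G]
    {ι : Type} [Fintype ι] (π : ι → (G →* Mˣ)) (a : ι → M) (χ : G →* Mˣ) (α : M) (hα : α ≠ 0)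
    (h : ∀ τ, ∑ i, a i * ((π i τ : Mˣ) : M) = ((χ τ : Mˣ) : M) * α) : ∃ i, π i = χ := by
  classical
  by_contra hcon
  push Not at hcon
  have hG : ((Fintype.card G : ℕ) : M) ≠ 0 := by
    exact_mod_cast (Fintype.card_pos (α := G)).ne'
  have h1 : ∑ τ, (((χ τ)⁻¹ : Mˣ) : M) * ∑ i, a i * ((π i τ : Mˣ) : M) = 0 := by
    simp only [Finset.mul_sum]
    rw [Finset.sum_comm]
    refine Finset.sum_eq_zero fun i _ => ?_
    have h2 := chr_orth (M := M) χ (π i)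
    rw [if_neg (hcon i).symm] at h2
    rw [← mul_zero (a i), ← h2, Finset.mul_sum]
    exact Finset.sum_congr rfl fun τ _ => by ring
  have h2 : ∑ τ, (((χ τ)⁻¹ : Mˣ) : M) * ∑ i, a i * ((π i τ : Mˣ) : M) =
      ((Fintype.card G : ℕ) : M) * α := by
    have h3 : ∀ τ ∈ (univ : Finset G), (((χ τ)⁻¹ : Mˣ) : M) * ∑ i, a i * ((π i τ : Mˣ) : M) =
        α := by
      intro τ _
      rw [h τ, ← mul_assoc, ← Units.val_mul, inv_mul_cancel, Units.val_one, one_mul]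
    rw [Finset.sum_congr rfl h3, Finset.sum_const, nsmul_eq_mul, Finset.card_univ]
  rw [h1] at h2
  exact mul_ne_zero hG hα h2.symm

private theorem rkb_restr (M : IntermediateField ℚ Qb) [Normal ℚ M] (σ' : Qb ≃ₐ[ℚ] Qb) :
    ∃ σ : M ≃ₐ[ℚ] M, ∀ x : M, ((σ x : M) : Qb) = σ' (x : Qb) :=
  ⟨σ'.restrictNormal M, fun x => AlgEquiv.restrictNormal_commutes σ' M x⟩

theorem kum_build_R (L : IntermediateField ℚ Qb) [FiniteDimensional ℚ L] (N : ℕ) (hN : 0 < N)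
    (hμ : ∀ z : Qb, z ^ N = 1 → z ∈ L) {ι : Type} [Fintype ι] (b g : ι → Qb)
    (hb : ∀ i, b i ∈ L) (hg : ∀ i, g i ^ N ∈ L) (hg0 : ∀ i, g i ≠ 0)
    (hα0 : ∑ i, b i * g i ≠ 0) (hne : ∀ i, ∀ c ∈ L, ∑ i, b i * g i ≠ c * g i) :
    ∃ (M : IntermediateField ℚ Qb) (_ : FiniteDimensional ℚ M) (_ : Normal ℚ M)
      (G : Subgroup (ι → (M)ˣ)) (_ : Finite G) (a : ι → M) (gM : ι → M),
      (∀ τ : G, τ ^ N = 1) ∧ (∀ z : Qb, z ^ N = 1 → z ∈ M) ∧
      (∀ i, (a i : Qb) = b i * g i) ∧ (∀ i, (gM i : Qb) = g i) ∧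
      (∀ τ : G, ∃ s : M ≃ₐ[ℚ] M, (∀ ω : M, ω ^ N = 1 → s ω = ω) ∧
        ∀ τ' : G, s (∑ i, a i * ((τ'.1 i : (M)ˣ) : M)) =
          ∑ i, a i * (((τ * τ').1 i : (M)ˣ) : M)) ∧
      (∀ χ : G →* (M)ˣ, ∃ τ : G, ∑ i, a i * ((τ.1 i : (M)ˣ) : M) ≠
        ((χ τ : (M)ˣ) : M) * ∑ i, a i) ∧
      (∀ (i i₀ : ι) (k N₁ : ℕ), (g i / g i₀ ^ k) ^ N₁ ∈ L →
        ∀ τ : G, (τ.1 i / τ.1 i₀ ^ k) ^ N₁ = 1) ∧
      (∀ (i : ι) (n : ℕ), (∀ τ : G, (τ.1 i) ^ n = 1) → g i ^ n ∈ L) := by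
  classical
  obtain ⟨M, hM1, hM2, hLM, hgM⟩ := exists_normal L (univ.image g)
  have hgM' : ∀ i, g i ∈ M := fun i => hgM _ (Finset.mem_image_of_mem g (mem_univ i))
  have hbM : ∀ i, b i ∈ M := fun i => hLM (hb i)
  have hN0 : NeZero N := ⟨hN.ne'⟩
  obtain ⟨gM, hgMv⟩ : ∃ gM : ι → M, ∀ i, (gM i : Qb) = g i := ⟨fun i => ⟨g i, hgM' i⟩, fun _ => rfl⟩
  obtain ⟨bM, hbMv⟩ : ∃ bM : ι → M, ∀ i, (bM i : Qb) = b i := ⟨fun i => ⟨b i, hbM i⟩, fun _ => rfl⟩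
  obtain ⟨S, hS⟩ : ∃ S : Set M, ∀ x : M, x ∈ S ↔ (x : Qb) ∈ L :=
    ⟨{x | (x : Qb) ∈ L}, fun _ => Iff.rfl⟩
  have hμS : ∀ z : M, z ^ N = 1 → z ∈ S := fun z hz =>
    (hS z).mpr (hμ _ (by simpa using congrArg (fun w : M => (w : Qb)) hz))
  have hgM0 : ∀ i, gM i ≠ 0 := fun i h => hg0 i (by rw [← hgMv i, h]; rfl)
  have hgS : ∀ i, gM i ^ N ∈ S := fun i => (hS _).mpr (by
    have := hg i
    rw [← hgMv i] at this
    exact this)
  have hbS : ∀ i, bM i ∈ S := fun i => (hS _).mpr (by rw [hbMv i]; exact hb i)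
  obtain ⟨α, hα⟩ : ∃ α : M, α = ∑ i, bM i * gM i := ⟨_, rfl⟩
  have hαv : (α : Qb) = ∑ i, b i * g i := by
    rw [hα]
    have h1 := map_sum M.val (fun i => bM i * gM i) univ
    rw [show M.val (∑ i, bM i * gM i) = ((∑ i, bM i * gM i : M) : Qb) from rfl] at h1
    rw [h1]
    refine Finset.sum_congr rfl fun i _ => ?_
    rw [map_mul, ← hbMv i, ← hgMv i]
    rfl
  have hα0' : α ≠ 0 := fun h => hα0 (by rw [← hαv, h]; rfl)
  have hfin : Finite (rkbK S hμS gM hgM0 hgS).range := inferInstance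
  have hfin2 : Fintype (rkbK S hμS gM hgM0 hgS).range := Fintype.ofFinite _
  have hval : ∀ i, ((bM i * gM i : M) : Qb) = b i * g i := by
    intro i
    rw [← hbMv i, ← hgMv i]
    rfl
  refine ⟨M, hM1, hM2, (rkbK S hμS gM hgM0 hgS).range, hfin, fun i => bM i * gM i, gM,
    rkb_pow S hμS gM hgM0 hgS, fun z hz => hLM (hμ z hz), hval, hgMv, ?_, ?_, ?_, ?_⟩
  · intro τ
    obtain ⟨σ, hσ⟩ := τ.2
    refine ⟨σ.1, fun ω hω => σ.2 _ (hμS ω hω), fun τ' => ?_⟩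
    obtain ⟨σ', hσ'⟩ := τ'.2
    have h1 := rkb_y S hμS bM gM hgM0 hgS hbS σ' τ' hσ'
    have h3 : rkbK S hμS gM hgM0 hgS (σ * σ') = (τ * τ' : (rkbK S hμS gM hgM0 hgS).range) := by
      rw [map_mul, hσ, hσ']
      rfl
    have h2 := rkb_y S hμS bM gM hgM0 hgS hbS (σ * σ') (τ * τ') h3
    rw [Subgroup.coe_mul, AlgEquiv.mul_apply, ← h1] at h2
    exact h2.symm
  · intro χ
    by_contra hcon
    push Not at hcon
    obtain ⟨i, hi⟩ := rkb_coord (rkbP S hμS gM hgM0 hgS) (fun i => bM i * gM i) χ α hα0' (by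
      intro τ
      rw [hα]
      exact hcon τ)
    have hfix : ∀ σ : rkbH S, σ.1 (α / gM i) = α / gM i := by
      intro σ
      have h1 : σ.1 α = ((χ ⟨_, σ, rfl⟩ : (M)ˣ) : M) * α := by
        have h4 := rkb_y S hμS bM gM hgM0 hgS hbS σ ⟨_, σ, rfl⟩ rfl
        rw [← hα] at h4
        rw [← h4, hα]
        exact hcon ⟨_, σ, rfl⟩
      have h2 := rkbK_mul S hμS gM hgM0 hgS σ i
      have h3 : ((rkbK S hμS gM hgM0 hgS σ i : (M)ˣ) : M) =
          ((χ ⟨_, σ, rfl⟩ : (M)ˣ) : M) := by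
        rw [← hi]
        rfl
      rw [h3] at h2
      rw [map_div₀, h1, ← h2, mul_comm (gM i), mul_div_mul_left _ _ (Units.ne_zero _)]
    have hmem : ((α / gM i : M) : Qb) ∈ L := by
      refine mem_of_fixed_Qb L _ fun σ' hσ' => ?_
      obtain ⟨σ, hσ⟩ := rkb_restr M σ'
      have h1 : σ ∈ rkbH S := by
        intro x hx
        apply Subtype.ext
        rw [hσ]
        exact hσ' _ ((hS x).mp hx)
      have h2 := hfix ⟨σ, h1⟩
      have h3 := congrArg (fun w : M => (w : Qb)) h2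
      rw [← hσ]
      exact h3
    apply hne i _ hmem
    rw [← hαv, ← hgMv i]
    have h1 : α = α / gM i * gM i := by rw [div_mul_cancel₀ _ (hgM0 i)]
    exact congrArg (fun w : M => (w : Qb)) h1
  · intro i i₀ k N₁ hw τ
    obtain ⟨σ, hσ⟩ := τ.2
    obtain ⟨w, hw0⟩ : ∃ w : M, w = gM i / gM i₀ ^ k := ⟨_, rfl⟩
    have hwS : w ^ N₁ ∈ S := by
      rw [hS, hw0]
      have h1 : (((gM i / gM i₀ ^ k) ^ N₁ : M) : Qb) = (g i / g i₀ ^ k) ^ N₁ := by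
        rw [← hgMv i, ← hgMv i₀]
        rfl
      rw [h1]
      exact hw
    have hwne : w ≠ 0 := by
      rw [hw0]
      exact div_ne_zero (hgM0 i) (pow_ne_zero _ (hgM0 i₀))
    apply Units.ext
    have h2 : (((τ.1 i / τ.1 i₀ ^ k : (M)ˣ)) : M) = σ.1 w / w := by
      rw [← hσ, Units.val_div_eq_div_val, Units.val_pow_eq_pow_val, rkbK_val, rkbK_val, hw0,
        map_div₀, map_pow, div_pow, div_div_div_eq, div_div_div_eq, mul_comm (gM i)]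
    rw [Units.val_pow_eq_pow_val, h2, div_pow, ← map_pow, σ.2 _ hwS, div_self (pow_ne_zero _ hwne),
      Units.val_one]
  · intro i n hτ
    refine mem_of_fixed_Qb L _ fun σ' hσ' => ?_
    obtain ⟨σ, hσ⟩ := rkb_restr M σ'
    have h1 : σ ∈ rkbH S := by
      intro x hx
      apply Subtype.ext
      rw [hσ]
      exact hσ' _ ((hS x).mp hx)
    have h2 := hτ ⟨_, ⟨σ, h1⟩, rfl⟩
    have h3 := congrArg (fun u : (M)ˣ => (u : M)) h2
    have h4 : (((rkbK S hμS gM hgM0 hgS ⟨σ, h1⟩ i : (M)ˣ) : M)) ^ n = 1 := by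
      rw [← Units.val_pow_eq_pow_val]
      exact h3
    rw [rkbK_val, div_pow, div_eq_one_iff_eq (pow_ne_zero _ (hgM0 i)), ← map_pow] at h4
    have h5 := congrArg (fun w : M => (w : Qb)) h4
    have h6 : ((gM i ^ n : M) : Qb) = g i ^ n := by
      rw [← hgMv i]
      rfl
    rw [← h6, ← hσ]
    exact h5

end MP4270U
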