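import Pool.Agent.Lib_MP_4270a5_u.Cm
import Pool.Agent.Lib_MP_4270a5_nt.RootU

/-!
# MP_4270a5_nt, piece RCM: counting nonvanishing minors, with an arbitrary estimate at the prime `p`

PAPER PROOF. The proof of `count_sparse` (see `CmS.lean`) with the hypothesis `hbox` for `rcm_place`.
-/

open Polynomial IntermediateField Finset

namespace MP4270U

open MP4270 Pool.Agent.Sub

private theorem rcm_minor_map {R L : Type*} [CommRing R] [CommRing L] (f : R →+* L) {n p : ℕ}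
    (A : Matrix (Fin n) (Fin n) R) (S K : Fin p ↪o Fin n) :
    minor p (A.map f) S K = f (minor p A S K) := by
  unfold minor
  rw [RingHom.map_det]
  rfl

private theorem rcm_Fst_map {E L : Type*} [Field E] [Field L] (f : E →+* L) {n : ℕ}
    (F : Matrix (Fin n) (Fin n) E) : Fst (F.map f) = (Fst F).map f := by
  ext i j
  simp [Fst]

private theorem rcm_hFF_map {E L : Type*} [Field E] [Field L] (f : E →+* L) {n : ℕ}
    (F : Matrix (Fin n) (Fin n) E)
    (h : Fst F * F = (n : E) • (1 : Matrix (Fin n) (Fin n) E)) :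
    Fst (F.map f) * F.map f = (n : L) • (1 : Matrix (Fin n) (Fin n) L) := by
  rw [rcm_Fst_map, ← Matrix.map_mul, h]
  ext i j
  by_cases hij : i = j
  · subst hij; simp
  · simp [Matrix.one_apply_ne hij]

private theorem rcm_hT_map {E L : Type*} [Field E] [Field L] (f : E →+* L) {n : ℕ}
    (F T : Matrix (Fin n) (Fin n) E) (y : Fin n → E)
    (h : (n : E) • T = Fst F * Matrix.diagonal y * F) :
    (n : L) • T.map f = Fst (F.map f) * Matrix.diagonal (fun i => f (y i)) * F.map f := by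
  have h1 : (Matrix.diagonal y).map f = Matrix.diagonal (fun i => f (y i)) := by
    rw [Matrix.diagonal_map (map_zero f)]
  rw [rcm_Fst_map, ← h1, ← Matrix.map_mul, ← Matrix.map_mul, ← h]
  ext i j
  simp

private theorem rcm_log_prod {n : ℕ} (f : Fin n → ℝ) :
    Real.log (∏ i, max 1 (f i)) = ∑ i, Real.log (max 1 (f i)) :=
  Real.log_prod fun _ _ => (lt_of_lt_of_le one_pos (le_max_left _ _)).ne'

/-- the embedding `x ↦ ii (σ x)` -/
private noncomputable def rcm_emb {L : Type*} [Field L] (g : Qb →+* L) (M : IntermediateField ℚ Qb)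
    (σ : M ≃ₐ[ℚ] M) : M →+* L := g.comp ((algebraMap M Qb).comp (σ : M →+* M))

private theorem rcm_emb_apply {L : Type*} [Field L] (g : Qb →+* L) (M : IntermediateField ℚ Qb)
    (σ : M ≃ₐ[ℚ] M) (x : M) : rcm_emb g M σ x = g ((σ x : M) : Qb) := rfl

open Classical in
theorem count_box (M : IntermediateField ℚ Qb) [FiniteDimensional ℚ M] [Normal ℚ M]
    (p a : ℕ) [Fact p.Prime] {G : Type} [CommGroup G] [Fintype G] (hG : ∀ τ : G, τ ^ p ^ a = 1)
    (κ : ℝ) (hκ : 0 ≤ κ) (y : G → M) (n : ℕ) (hn : Fintype.card G = n)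
    (eG : G ≃ Fin n) (F T : Matrix (Fin n) (Fin n) M) (hF : ∀ i j, F i j ^ p ^ a = 1)
    (hFF : Fst F * F = (n : M) • (1 : Matrix (Fin n) (Fin n) M))
    (hT : (n : M) • T = Fst F * Matrix.diagonal (y ∘ eG.symm) * F) (q : ℕ) (S : Fin q ↪o Fin n)
    (hbox : ∀ (σ : M ≃ₐ[ℚ] M) (K : Fin q ↪o Fin n), minor q T S K ≠ 0 →
      Real.log (nm p ((σ (minor q T S K) : M) : Qb)) ≤ n * (κ * Real.log p / (p - 1)) +
        2 * ∑ τ, Real.log (max 1 (nm p ((σ (y τ) : M) : Qb))))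
    (h : ℝ) (hyh : ∀ τ, hW (y τ : Qb) = h) :
    ((univ.filter fun K : Fin q ↪o Fin n => minor q T S K ≠ 0).card : ℝ) ≤
      Real.exp (4 * n * h + 2 * n * (κ * Real.log p / (p - 1))) := by
  have hp : p.Prime := Fact.out
  have hp1 : (1 : ℝ) < p := by exact_mod_cast hp.one_lt
  have hn0 : 0 < n := by rw [← hn]; exact Fintype.card_pos
  have hN : 0 < p ^ a := pow_pos hp.pos a
  -- `n` is a power of `p`
  obtain ⟨m, hm⟩ : ∃ m, n = p ^ m := by
    have h1 : IsPGroup p G := fun g => ⟨a, hG g⟩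
    obtain ⟨m, hm⟩ := h1.exists_card_eq
    exact ⟨m, by rw [← hn, ← Nat.card_eq_fintype_card, hm]⟩
  obtain ⟨C, hC⟩ : ∃ C : ℝ, C = n * (κ * Real.log p / (p - 1)) :=
    ⟨_, rfl⟩
  have hC0 : 0 ≤ C := by
    rw [hC]
    have h1 : 0 ≤ Real.log p := Real.log_nonneg hp1.le
    have h2 : 0 < (p : ℝ) - 1 := by linarith
    positivity
  have hexp : 4 * (n : ℝ) * h + 2 * n * (κ * Real.log p / (p - 1)) =
      4 * n * h + 2 * C := by
    rw [hC]; ring
  rw [hexp]
  obtain ⟨w, hw⟩ : ∃ w : Fin n → M, ∀ i, w i = y (eG.symm i) := ⟨_, fun _ => rfl⟩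
  have hwy : y ∘ eG.symm = w := funext fun i => (hw i).symm
  rw [hwy] at hT
  have hwh : ∀ i, hW (w i : Qb) = h := fun i => by rw [hw]; exact hyh _
  obtain ⟨H, hH⟩ : ∃ H : Finset (Fin q ↪o Fin n), H = univ.filter fun K => minor q T S K ≠ 0 :=
    ⟨_, rfl⟩
  rw [← hH]
  rcases H.eq_empty_or_nonempty with hG0 | hG0
  · rw [hG0, card_empty, Nat.cast_zero]
    exact (Real.exp_pos _).le
  have hcard : (0 : ℝ) < H.card := by exact_mod_cast hG0.card_pos
  have hGm : ∀ K ∈ H, minor q T S K ≠ 0 := fun K hK => by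
    rw [hH] at hK
    exact (mem_filter.mp hK).2
  -- the archimedean places
  have hCc : ∀ σ : M ≃ₐ[ℚ] M, ∑ K ∈ H, Real.log (nmC ((σ (minor q T S K) : M) : Qb)) ≤
      (H.card : ℝ) * (2 * (∑ i, Real.log (max 1 (nmC ((σ (w i) : M) : Qb)))) -
        Real.log H.card / 2) := by
    intro σ
    have h1 := cm_arch n (p ^ a) hn0 hN (F.map (rcm_emb ii M σ)) (T.map (rcm_emb ii M σ))
      (fun i => rcm_emb ii M σ (w i))
      (fun i j => by rw [Matrix.map_apply, ← map_pow, hF, map_one])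
      (by simpa using rcm_hFF_map (rcm_emb ii M σ) F hFF)
      (by simpa using rcm_hT_map (rcm_emb ii M σ) F T w hT) q S H
      (fun K hK => by
        rw [rcm_minor_map]
        exact (_root_.map_ne_zero _).mpr (hGm K hK)) hG0
    simp only [rcm_minor_map] at h1
    refine h1.trans (mul_le_mul_of_nonneg_left ?_ hcard.le)
    have h2 : 0 ≤ ∑ i, Real.log (max 1 (nmC ((σ (w i) : M) : Qb))) :=
      sum_nonneg fun i _ => Real.log_nonneg (le_max_left _ _)
    have h3 : ∑ i, Real.log (max 1 ‖rcm_emb ii M σ (w i)‖) =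
      ∑ i, Real.log (max 1 (nmC ((σ (w i) : M) : Qb))) := rfl
    rw [h3]
    linarith
  -- the other places
  have hL : ∀ (ℓ : ℕ) (σ : M ≃ₐ[ℚ] M), ∀ K ∈ H,
      Real.log (nm ℓ ((σ (minor q T S K) : M) : Qb)) ≤
        (if ℓ = p then C else 0) +
          2 * ∑ i, Real.log (max 1 (nm ℓ ((σ (w i) : M) : Qb))) := by
    intro ℓ σ K hK
    have hs0 : 0 ≤ ∑ i, Real.log (max 1 (nm ℓ ((σ (w i) : M) : Qb))) :=
      sum_nonneg fun i _ => Real.log_nonneg (le_max_left _ _)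
    by_cases hℓp : ℓ = p
    · subst hℓp
      rw [if_pos rfl, hC]
      refine (hbox σ K (hGm K hK)).trans (le_of_eq ?_)
      congr 2
      rw [← Equiv.sum_comp eG.symm]
      exact sum_congr rfl fun i _ => by rw [hw]
    rw [if_neg hℓp, zero_add]
    by_cases hℓ : ℓ.Prime
    · have hf : Fact ℓ.Prime := ⟨hℓ⟩
      have h1 := cm_fin n (p ^ a) hN (F.map (rcm_emb (jj ℓ) M σ)) (T.map (rcm_emb (jj ℓ) M σ))
        (fun i => rcm_emb (jj ℓ) M σ (w i))
        (fun i j => by rw [Matrix.map_apply, ← map_pow, hF, map_one])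
        (by simpa using rcm_hT_map (rcm_emb (jj ℓ) M σ) F T w hT)
        (by
          left
          have hd : ¬ ℓ ∣ n := by
            rw [hm]
            intro hd
            exact hℓp ((Nat.prime_dvd_prime_iff_eq hℓ hp).1 (hℓ.dvd_of_dvd_pow hd))
          have h2 := pf_nat ℓ hℓ hn0.ne'
          rw [Nat.factorization_eq_zero_of_not_dvd hd, Nat.cast_zero, zero_mul, neg_zero] at h2
          have h3 : nm ℓ (n : Qb) = 1 :=
            Real.eq_one_of_pos_of_log_eq_zero (nm_pos ℓ (by exact_mod_cast hn0.ne')) h2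
          rw [nm_eq, map_natCast] at h3
          exact h3) q S K
      rw [rcm_minor_map, rcm_emb_apply, ← nm_eq] at h1
      have h4 : Real.log (nm ℓ ((σ (minor q T S K) : M) : Qb)) ≤
          ∑ i, Real.log (max 1 (nm ℓ ((σ (w i) : M) : Qb))) := by
        rw [← rcm_log_prod]
        refine Real.log_le_log (nm_pos ℓ ?_) (h1.trans_eq ?_)
        · intro h0
          have h3 : σ (minor q T S K) = 0 := Subtype.ext h0
          exact hGm K hK ((map_eq_zero σ).mp h3)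
        · refine prod_congr rfl fun i _ => ?_
          rw [rcm_emb_apply, nm_eq]
      linarith
    · rw [pf_nonprime ℓ hℓ, Real.log_one]
      linarith
  -- the finite set of primes
  choose T₁ hT₁ using fun i => decomp M (w i)
  have hpf : ∀ K : Fin q ↪o Fin n, ∃ T₀ : Finset ℕ, K ∈ H → ∀ T' : Finset ℕ, T₀ ⊆ T' →
      ∑ σ : M ≃ₐ[ℚ] M, Real.log (nmC ((σ (minor q T S K) : M) : Qb)) +
        ∑ ℓ ∈ T', ∑ σ : M ≃ₐ[ℚ] M, Real.log (nm ℓ ((σ (minor q T S K) : M) : Qb)) = 0 := by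
    intro K
    by_cases hK : K ∈ H
    · obtain ⟨T₀, h0⟩ := product_formula M _ (hGm K hK)
      exact ⟨T₀, fun _ => h0⟩
    · exact ⟨∅, fun h => absurd h hK⟩
  choose T₂ hT₂ using hpf
  obtain ⟨P, hP⟩ : ∃ P : Finset ℕ, P = (univ.biUnion T₁) ∪ (H.biUnion T₂) := ⟨_, rfl⟩
  have e1 : ∀ i, (Module.finrank ℚ M : ℝ) * h =
        ∑ σ : M ≃ₐ[ℚ] M, Real.log (max 1 (nmC ((σ (w i) : M) : Qb))) +
        ∑ ℓ ∈ P, ∑ σ : M ≃ₐ[ℚ] M, Real.log (max 1 (nm ℓ ((σ (w i) : M) : Qb))) := by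
    intro i
    rw [← hwh i, hP]
    exact hT₁ i _ ((subset_biUnion_of_mem T₁ (mem_univ i)).trans subset_union_left)
  have e2 : ∀ K ∈ H, ∑ σ : M ≃ₐ[ℚ] M, Real.log (nmC ((σ (minor q T S K) : M) : Qb)) +
        ∑ ℓ ∈ P, ∑ σ : M ≃ₐ[ℚ] M, Real.log (nm ℓ ((σ (minor q T S K) : M) : Qb)) = 0 := by
    intro K hK
    rw [hP]
    exact hT₂ K hK _ ((subset_biUnion_of_mem T₂ hK).trans subset_union_right)
  have hgal : IsGalois ℚ M := ⟨⟩
  have hD : (Fintype.card (M ≃ₐ[ℚ] M) : ℝ) = (Module.finrank ℚ M : ℝ) := by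
    rw [← Nat.card_eq_fintype_card, IsGalois.card_aut_eq_finrank]
  have hDpos : (0 : ℝ) < (Module.finrank ℚ M : ℝ) := by exact_mod_cast Module.finrank_pos
  have e3 := sum_eq_zero e2
  rw [sum_add_distrib, sum_comm, sum_comm (s := H) (t := P)] at e3
  have e4 : ∑ σ : M ≃ₐ[ℚ] M, ∑ K ∈ H, Real.log (nmC ((σ (minor q T S K) : M) : Qb)) ≤
      ∑ σ : M ≃ₐ[ℚ] M, (H.card : ℝ) *
        (2 * (∑ i, Real.log (max 1 (nmC ((σ (w i) : M) : Qb)))) - Real.log H.card / 2) :=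
    sum_le_sum fun σ _ => hCc σ
  have e5 : ∑ ℓ ∈ P, ∑ K ∈ H, ∑ σ : M ≃ₐ[ℚ] M,
        Real.log (nm ℓ ((σ (minor q T S K) : M) : Qb)) ≤
      ∑ ℓ ∈ P, (H.card : ℝ) * ((if ℓ = p then (Module.finrank ℚ M : ℝ) * C else 0) +
        2 * ∑ i, ∑ σ : M ≃ₐ[ℚ] M, Real.log (max 1 (nm ℓ ((σ (w i) : M) : Qb)))) := by
    refine sum_le_sum fun ℓ _ => ?_
    rw [← nsmul_eq_mul, ← sum_const]
    refine sum_le_sum fun K hK => ?_
    rw [sum_comm (s := (univ : Finset (Fin n)))]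
    refine (sum_le_sum fun σ _ => hL ℓ σ K hK).trans (le_of_eq ?_)
    rw [sum_add_distrib, sum_const, card_univ, nsmul_eq_mul, hD, ← mul_sum]
    split_ifs <;> simp
  have e6 : ∑ σ : M ≃ₐ[ℚ] M, (H.card : ℝ) *
        (2 * (∑ i, Real.log (max 1 (nmC ((σ (w i) : M) : Qb)))) - Real.log H.card / 2) =
      (H.card : ℝ) * (2 * ∑ i, ∑ σ : M ≃ₐ[ℚ] M, Real.log (max 1 (nmC ((σ (w i) : M) : Qb)))) -
        (H.card : ℝ) * ((Module.finrank ℚ M : ℝ) * (Real.log H.card / 2)) := by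
    rw [← mul_sum, sum_sub_distrib, sum_const, card_univ, nsmul_eq_mul, hD, mul_sub, ← mul_sum,
      sum_comm]
  have e7 : (H.card : ℝ) * (2 * ∑ i, ∑ σ : M ≃ₐ[ℚ] M,
        Real.log (max 1 (nmC ((σ (w i) : M) : Qb)))) +
      ∑ ℓ ∈ P, (H.card : ℝ) * ((if ℓ = p then (Module.finrank ℚ M : ℝ) * C else 0) +
        2 * ∑ i, ∑ σ : M ≃ₐ[ℚ] M, Real.log (max 1 (nm ℓ ((σ (w i) : M) : Qb)))) ≤
      (H.card : ℝ) * ((n : ℝ) * ((Module.finrank ℚ M : ℝ) * (2 * h)) +
        (Module.finrank ℚ M : ℝ) * C) := by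
    have h1 : ∑ ℓ ∈ P, (if ℓ = p then (Module.finrank ℚ M : ℝ) * C else 0) ≤
        (Module.finrank ℚ M : ℝ) * C := by
      rw [sum_ite_eq']
      split_ifs
      · exact le_rfl
      · positivity
    have h2 : ∑ i, ∑ σ : M ≃ₐ[ℚ] M, Real.log (max 1 (nmC ((σ (w i) : M) : Qb))) +
        ∑ ℓ ∈ P, ∑ i, ∑ σ : M ≃ₐ[ℚ] M, Real.log (max 1 (nm ℓ ((σ (w i) : M) : Qb))) =
        (n : ℝ) * ((Module.finrank ℚ M : ℝ) * h) := by
      rw [sum_comm (s := P), ← sum_add_distrib, sum_congr rfl fun i _ => (e1 i).symm, sum_const,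
        card_univ, Fintype.card_fin, nsmul_eq_mul]
    rw [← mul_sum, ← mul_add, sum_add_distrib, ← mul_sum]
    refine mul_le_mul_of_nonneg_left ?_ hcard.le
    linarith
  have e8 : 0 ≤ (H.card : ℝ) * ((Module.finrank ℚ M : ℝ) *
      (n * (2 * h) + C - Real.log H.card / 2)) := by
    have : (H.card : ℝ) * ((Module.finrank ℚ M : ℝ) * (n * (2 * h) + C - Real.log H.card / 2)) =
        (H.card : ℝ) * ((n : ℝ) * ((Module.finrank ℚ M : ℝ) * (2 * h)) +
          (Module.finrank ℚ M : ℝ) * C) -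
        (H.card : ℝ) * ((Module.finrank ℚ M : ℝ) * (Real.log H.card / 2)) := by ring
    rw [this]
    linarith
  have e9 : 0 ≤ n * (2 * h) + C - Real.log H.card / 2 := by
    have h1 := nonneg_of_mul_nonneg_right e8 hcard
    exact nonneg_of_mul_nonneg_right h1 hDpos
  rw [← Real.log_le_iff_le_exp hcard]
  linarith

end MP4270U
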