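import Pool.Agent.Lib_MP_4270a5_u.KumC
import Pool.Agent.Lib_MP_4270a5_u.RCm

/-!
# MP_4270a5_nt, piece RKC: `kum_cnt` with an arbitrary estimate at the prime `p`

PAPER PROOF. As `kum_cnt_sparse` (see `KumS.lean`), with `count_box` for `count_sparse`.
-/

open Polynomial IntermediateField Finset

namespace MP4270U

open MP4270 Pool.Agent.Sub

theorem kum_cnt_box (M : IntermediateField ℚ Qb) [FiniteDimensional ℚ M] [Normal ℚ M]
    {G : Type} [CommGroup G] [Fintype G] (p a : ℕ) [Fact p.Prime] (hG : ∀ τ : G, τ ^ p ^ a = 1)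
    [HasEnoughRootsOfUnity M (Monoid.exponent G)]
    {ι : Type} [Fintype ι] (π : ι → (G →* (M)ˣ)) (a' : ι → M)
    (y : G → M) (hy : ∀ τ, y τ = ∑ i, a' i * ((π i τ : (M)ˣ) : M)) (κ : ℝ) (hκ : 0 ≤ κ)
    (hbox : ∀ (σ : M ≃ₐ[ℚ] M) (q : ℕ) (S K : Fin q → (G →* (M)ˣ)), Function.Injective S →
      Function.Injective K → ((TK π a').submatrix S K).det ≠ 0 →
      Real.log (nm p ((σ ((TK π a').submatrix S K).det : M) : Qb)) ≤
        (Fintype.card G : ℝ) * (κ * Real.log p / (p - 1)) +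
        2 * ∑ τ, Real.log (max 1 (nm p ((σ (y τ) : M) : Qb))))
    (h : ℝ) (hyh : ∀ τ, hW (y τ : Qb) = h) (A : Finset (G →* (M)ˣ)) :
    (cnt (TK π a') A : ℝ) ≤ Real.exp (4 * Fintype.card G * h +
      2 * Fintype.card G * (κ * Real.log p / (p - 1))) := by
  classical
  obtain ⟨n, hn⟩ : ∃ n : ℕ, n = Fintype.card G := ⟨_, rfl⟩
  have hX : Fintype.card (G →* (M)ˣ) = n := by
    rw [hn, ← Nat.card_eq_fintype_card, ← Nat.card_eq_fintype_card]
    exact CommGroup.card_monoidHom_of_hasEnoughRootsOfUnity G M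
  have hnM : (Fintype.card G : M) = (n : M) := by rw [hn]
  obtain ⟨e⟩ : Nonempty ((G →* (M)ˣ) ≃ Fin n) := ⟨Fintype.equivFinOfCardEq hX⟩
  obtain ⟨eG⟩ : Nonempty (G ≃ Fin n) := ⟨Fintype.equivFinOfCardEq hn.symm⟩
  obtain ⟨S, hS⟩ := cnt_le n e (TK π a') A
  have hFs : Fst ((Fm M G).submatrix eG.symm e.symm) = (Fs M G).submatrix e.symm eG.symm := by
    ext i j
    simp [Fst, Fm, Fs]
  have hcm := count_box M p a hG κ hκ y n hn.symm eG ((Fm M G).submatrix eG.symm e.symm)
    ((TK π a').submatrix e.symm e.symm)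
    (by
      intro i j
      show ((((e.symm j) (eG.symm i) : (M)ˣ) : M)) ^ p ^ a = 1
      rw [← Units.val_pow_eq_pow_val, ← map_pow, hG, map_one, Units.val_one])
    (by
      rw [hFs, Matrix.submatrix_mul_equiv, Fs_mul_Fm, hnM, Matrix.submatrix_smul]
      show (n : M) • (Matrix.submatrix (1 : Matrix (G →* (M)ˣ) (G →* (M)ˣ) M) e.symm e.symm) = _
      rw [Matrix.submatrix_one_equiv])
    (by
      rw [hFs, ← Matrix.submatrix_diagonal_equiv, Matrix.submatrix_mul_equiv,
        Matrix.submatrix_mul_equiv, ← TK_F π a' y hy, hnM, Matrix.submatrix_smul]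
      rfl)
    A.card S
    (by
      intro σ K hK
      have h1 := hbox σ A.card (fun i => e.symm (S i)) (fun i => e.symm (K i))
        (e.symm.injective.comp S.injective) (e.symm.injective.comp K.injective) hK
      rw [← hn] at h1
      exact h1)
    h hyh
  rw [← hn]
  refine le_trans ?_ hcm
  exact_mod_cast hS

end MP4270U
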