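import Pool.Agent.Lib_MP_4270a5_u.Chr

/-!
# MP_4270a5_nt, piece RCH: the characters of a cyclic group

PAPER PROOF. `n = |G|`. `G` is isomorphic to the image of `ζ`, a finite subgroup of `Mˣ`, hence cyclic; a generator `g₀` has order `n` and `ζ g₀` has order `n`, so `k ↦ ζ ^ k` is injective on
`Fin n`; there are `n` characters (`CommGroup.card_monoidHom_of_hasEnoughRootsOfUnity`, `chr_card`), so it is bijective.
-/

namespace MP4270U

open Finset

theorem char_pow {M : Type} [Field M] {G : Type} [CommGroup G] [Fintype G]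
    [HasEnoughRootsOfUnity M (Monoid.exponent G)] (ζ : G →* Mˣ) (hζ : Function.Injective ζ) :
    ∃ r : (G →* Mˣ) ≃ Fin (Fintype.card G), ∀ χ : G →* Mˣ, χ = ζ ^ (r χ : ℕ) := by
  classical
  have hcyc : IsCyclic G := isCyclic_of_injective_ringHom ((Units.coeHom M).comp ζ)
    (Units.val_injective.comp hζ)
  obtain ⟨g, hg⟩ := hcyc.exists_generator
  have hord : orderOf (ζ g) = Fintype.card G := by
    rw [orderOf_injective ζ hζ, orderOf_eq_card_of_forall_mem_zpowers hg, Nat.card_eq_fintype_card]
  have hcard : Fintype.card (G →* Mˣ) = Fintype.card G := by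
    rw [← Nat.card_eq_fintype_card, ← Nat.card_eq_fintype_card]
    exact CommGroup.card_monoidHom_of_hasEnoughRootsOfUnity G M
  have hinj : Function.Injective (fun k : Fin (Fintype.card G) => ζ ^ (k : ℕ)) := by
    intro i j hij
    have h1 : (ζ g) ^ (i : ℕ) = (ζ g) ^ (j : ℕ) := by
      have h2 := DFunLike.congr_fun hij g
      simpa only [MonoidHom.pow_apply] using h2
    apply Fin.ext
    refine pow_injOn_Iio_orderOf ?_ ?_ h1
    · rw [Set.mem_Iio, hord]; exact i.2
    · rw [Set.mem_Iio, hord]; exact j.2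
  have hbij : Function.Bijective (fun k : Fin (Fintype.card G) => ζ ^ (k : ℕ)) := by
    rw [Fintype.bijective_iff_injective_and_card]
    exact ⟨hinj, by rw [Fintype.card_fin, hcard]⟩
  refine ⟨(Equiv.ofBijective _ hbij).symm, fun χ => ?_⟩
  exact ((Equiv.ofBijective _ hbij).apply_symm_apply χ).symm

end MP4270U
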