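import Pool.Agent.Lib_MP_4270a5_u.RLocA
import Pool.Agent.Lib_MP_4270a5_u.RCh
import Pool.Agent.Lib_MP_4270a5_nt.NmB

/-!
# MP_4270a5_nt, piece RLOCB: the local bound for the group matrix of the Kummer components

PAPER PROOF. `n = |G| = p^a`. `char_pow` gives `r`. Apply `loc_mat` to `T = (TK π t).map φ`, the points `ζ' τ = φ (ζ τ)` (injective), `x' = φ x`, `y' τ = φ (∑ t i * π i τ)`. `hTV`: `χ τ = (ζ τ)^(r χ)` and
`∑_χ χ τ * TK χ ψ = ∑_i t i * (π i * ψ) τ` (the only `χ` with `π i = χ / ψ` is `π i * ψ`). `hT`: `TK χ ψ = ∑_(i : π i = χ / ψ) t i`, and for such an `i`, `π i = ζ^k`, so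
`ζ^(k + r ψ) = ζ^(r χ)` and `n ∣ k + r ψ - r χ` (`ζ` has order `n` in the group of characters: `ζ^m = 1` iff `n ∣ m`, since `ζ` is injective on the cyclic group `G`; or from
`char_pow`), so `x^(r ψ) * t i * x^(-r χ) = (t i * x^(-k)) * (x^n)^m`, `m = (k + r ψ - r χ)/n ∈ ℤ`, is in `Up p`. `φ` of the determinant of a submatrix is the determinant of the image.
-/

open IntermediateField Polynomial Finset

namespace MP4270U

open MP4270

private theorem rlocb_dvd {G : Type} [CommGroup G] [Fintype G] {M : Type} [Field M]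
    [HasEnoughRootsOfUnity M (Monoid.exponent G)] (ζ : G →* Mˣ) (hζ : Function.Injective ζ)
    (u v : ℕ) (h : ζ ^ u = ζ ^ v) : ∃ m : ℤ, (u : ℤ) - v = (Fintype.card G : ℤ) * m := by
  classical
  have hcyc : IsCyclic G := isCyclic_of_injective_ringHom ((Units.coeHom M).comp ζ)
    (Units.val_injective.comp hζ)
  obtain ⟨g, hg⟩ := hcyc.exists_generator
  have hord : orderOf (ζ g) = Fintype.card G := by
    rw [orderOf_injective ζ hζ, orderOf_eq_card_of_forall_mem_zpowers hg, Nat.card_eq_fintype_card]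
  have h1 : (ζ g) ^ u = (ζ g) ^ v := by
    have h2 := DFunLike.congr_fun h g
    simpa only [MonoidHom.pow_apply] using h2
  have h3 : (ζ g) ^ ((u : ℤ) - v) = 1 := by
    rw [zpow_sub, zpow_natCast, zpow_natCast, h1, mul_inv_cancel]
  have h4 := orderOf_dvd_iff_zpow_eq_one.mpr h3
  rw [hord] at h4
  obtain ⟨m, hm⟩ := h4
  exact ⟨m, hm⟩

theorem loc_R {p : ℕ} [Fact p.Prime] (hp2 : p ≠ 2) {G : Type} [CommGroup G] [Fintype G] {M : Type} [Field M]
    [HasEnoughRootsOfUnity M (Monoid.exponent G)] (a : ℕ) (hcard : Fintype.card G = p ^ a)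
    (ζ : G →* Mˣ) (hζ : Function.Injective ζ) {ι : Type} [Fintype ι] (π : ι → (G →* Mˣ)) (t : ι → M)
    (x : M) (φ : M →+* PadicAlgCl p) (hx : ‖φ x‖ = 1) (hxn : φ x ^ p ^ a ∈ Up p)
    (hπ : ∀ i, ∃ k : ℕ, π i = ζ ^ k ∧ φ (t i) * (φ x ^ k)⁻¹ ∈ Up p) (q : ℕ) (S K : Fin q → (G →* Mˣ))
    (hS : Function.Injective S) (hK : Function.Injective K) :
    ‖φ ((TK π t).submatrix S K).det‖ ≤ (p : ℝ) ^ (((p ^ a : ℕ) : ℝ) / (p - 1)) *
      ∏ τ, max 1 ‖φ (∑ i, t i * ((π i τ : Mˣ) : M))‖ := by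
  classical
  obtain ⟨r, hr⟩ := char_pow ζ hζ
  have hx0 : φ x ≠ 0 := by
    intro h0
    rw [h0, norm_zero] at hx
    exact zero_ne_one hx
  have hdet : φ ((TK π t).submatrix S K).det = (((TK π t).map φ).submatrix S K).det := by
    rw [RingHom.map_det]
    rfl
  rw [hdet, ← hcard]
  refine loc_mat hp2 a (Fintype.card G) hcard (Fintype.equivFin G) r
    (fun τ => φ ((ζ τ : Mˣ) : M)) ?_ ?_ (φ x) hx ?_ ((TK π t).map φ) ?_
    (fun τ => φ (∑ i, t i * ((π i τ : Mˣ) : M))) ?_ q S K hS hK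
  · intro τ₁ τ₂ h
    exact hζ (Units.ext (φ.injective h))
  · intro τ
    have h1 : ((ζ τ : Mˣ) : M) ^ Fintype.card G = 1 := by
      rw [← Units.val_pow_eq_pow_val, ← map_pow, pow_card_eq_one, map_one, Units.val_one]
    rw [← map_pow, h1, map_one]
  · rw [hcard]
    exact hxn
  · intro χ ψ
    have h1 : (TK π t).map φ χ ψ = ∑ i, if π i = χ / ψ then φ (t i) else 0 := by
      rw [Matrix.map_apply, TK, Matrix.of_apply, map_sum]
      refine Finset.sum_congr rfl fun i _ => ?_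
      split_ifs
      · rfl
      · exact map_zero φ
    rw [h1, Finset.mul_sum, Finset.sum_mul]
    refine sum_mem fun i _ => ?_
    split_ifs with hi
    · obtain ⟨k, hk, hkU⟩ := hπ i
      have h2 : ζ ^ (k + (r ψ : ℕ)) = ζ ^ (r χ : ℕ) := by
        refine MonoidHom.ext fun g => ?_
        have e1 : π i g = ζ g ^ k := by rw [hk]; exact MonoidHom.pow_apply ζ k g
        have e2 : ψ g = ζ g ^ (r ψ : ℕ) :=
          (DFunLike.congr_fun (hr ψ) g).trans (MonoidHom.pow_apply ζ _ g)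
        have e3 : χ g = ζ g ^ (r χ : ℕ) :=
          (DFunLike.congr_fun (hr χ) g).trans (MonoidHom.pow_apply ζ _ g)
        have e4 : π i g = χ g / ψ g := by rw [hi]; exact MonoidHom.div_apply χ ψ g
        rw [MonoidHom.pow_apply, MonoidHom.pow_apply, pow_add, ← e1, ← e2, ← e3, e4,
          div_mul_cancel]
      obtain ⟨m, hm⟩ := rlocb_dvd ζ hζ _ _ h2
      have h3 : φ x ^ (r ψ : ℕ) * φ (t i) * (φ x ^ (r χ : ℕ))⁻¹ =
          (φ (t i) * (φ x ^ k)⁻¹) * (φ x ^ p ^ a) ^ m := by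
        have h4 : (φ x ^ p ^ a) ^ m = φ x ^ k * φ x ^ (r ψ : ℕ) * (φ x ^ (r χ : ℕ))⁻¹ := by
          rw [← hcard, ← zpow_natCast (φ x) (Fintype.card G), ← zpow_mul, ← hm, zpow_sub₀ hx0,
            Nat.cast_add, zpow_add₀ hx0, zpow_natCast, zpow_natCast, zpow_natCast, div_eq_mul_inv]
        rw [h4]
        have h5 : φ x ^ k ≠ 0 := pow_ne_zero _ hx0
        field_simp
      rw [h3]
      exact mul_mem hkU (zpow_mem hxn m)
    · rw [mul_zero, zero_mul]
      exact zero_mem _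
  · intro τ ψ
    have h1 : ∀ χ : G →* Mˣ, φ ((ζ τ : Mˣ) : M) ^ (r χ : ℕ) = φ ((χ τ : Mˣ) : M) := by
      intro χ
      rw [← map_pow, ← Units.val_pow_eq_pow_val, ← MonoidHom.pow_apply, ← hr χ]
    simp only [h1]
    have h2 : ∀ χ : G →* Mˣ, φ ((χ τ : Mˣ) : M) * (TK π t).map φ χ ψ =
        φ (((χ τ : Mˣ) : M) * TK π t χ ψ) := by
      intro χ
      rw [Matrix.map_apply, map_mul]
    rw [Finset.sum_congr rfl fun χ _ => h2 χ, ← map_sum, ← map_mul]
    congr 1
    simp only [TK, Matrix.of_apply, Finset.mul_sum]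
    rw [Finset.sum_comm, Finset.sum_mul]
    refine Finset.sum_congr rfl fun i _ => ?_
    rw [Finset.sum_eq_single (π i * ψ)]
    · have h6 : π i = π i * ψ / ψ := (mul_div_cancel_right (π i) ψ).symm
      rw [if_pos h6, MonoidHom.mul_apply, Units.val_mul]
      ring
    · intro χ _ hχ
      rw [if_neg, mul_zero]
      intro h3
      apply hχ
      have h6 : χ / ψ * ψ = χ := div_mul_cancel χ ψ
      rw [h3, h6]
    · intro h3
      exact absurd (Finset.mem_univ _) h3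

end MP4270U
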