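import Pool.Agent.Lib_MP_4270a5_u.RLocAP
import Pool.Agent.Lib_MP_4270a5_u.Chr
import Pool.Agent.Lib_MP_4270a5_nt.NmB

/-!
# MP_4270a5_nt, piece RLOCBP: the local bound for the group matrix, radical components plus integral components

PAPER PROOF. `H` = the subgroup of the group of characters generated by `ζ`. `ζ(G)` is cyclic of order `n = p^a`, so `ζ` has order `n`, `|H| = n`. Choose representatives: an equivalence
`r : (G →* Mˣ) ≃ C × Fin n`, `C = (G →* Mˣ) ⧸ H` (`Subgroup.groupEquivQuotientProdSubgroup`, `H ≃ Fin n` by `k ↦ ζ^k`) with `χ = c(χ) ζ^(r χ).2`, where `c(χ)` depends on the coset only. So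
`χ / ψ ∈ H` iff `(r χ).1 = (r ψ).1`, and then `χ / ψ = ζ^((r χ).2 - (r ψ).2)`. `T = TK π t` is the sum of `T_J` (the terms `i ∈ J`) and `Z` (the terms `i ∉ J`, integral entries). With
`t' r s = φ (∑_(i ∈ J, π i = ζ^(r - s)) t i)` (`ζ ^ (r : ℤ) / ζ ^ s`), `T_J` is the block matrix of `loc_mat_P`. The points: `G' = ζ(G) ⊆ Mˣ` has `n` elements, all `n`-th roots of unity; `ζ' k` = `φ` of
them (injective), `y k = φ (∑_(i ∈ J) t i * z^(k_i))` for the element `z` (`π i = ζ^(k_i)`), and `hy`: `∑_r z^r t'(r,s) = y z^s`. `ht`: as in `loc_R` (`RLocB.lean`). Finally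
`∏_τ max 1 ‖φ(y_J τ)‖ = (∏_k max 1 ‖y k‖)^|C|` (the fibres of `τ ↦ ζ τ` have `|G|/n = |C|` elements, `|G|` = number of characters), and `max 1 ‖φ(y_J τ)‖ = max 1 ‖φ(∑_i t i π i τ)‖`
because the difference is integral (characters have values of norm one). `|C| n = |G|`.
-/

open IntermediateField Polynomial Finset

namespace MP4270U

open MP4270

private theorem rlocbp_gen {G : Type} [CommGroup G] [Fintype G] {M : Type} [Field M]
    (ζ : G →* Mˣ) : ∃ g : G, orderOf (ζ g) = Nat.card ζ.range := by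
  have hfin : Finite ζ.range := Finite.of_surjective ζ.rangeRestrict ζ.rangeRestrict_surjective
  obtain ⟨h, hh⟩ := (inferInstance : IsCyclic ζ.range).exists_generator
  obtain ⟨g, hg⟩ := h.2
  refine ⟨g, ?_⟩
  rw [hg, Subgroup.orderOf_coe]
  exact orderOf_eq_card_of_forall_mem_zpowers hh

private theorem rlocbp_pow {G : Type} [CommGroup G] [Fintype G] {M : Type} [Field M]
    (ζ : G →* Mˣ) (τ : G) : ζ τ ^ Nat.card ζ.range = 1 := by
  have h1 : (⟨ζ τ, τ, rfl⟩ : ζ.range) ^ Nat.card ζ.range = 1 := pow_card_eq_one'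
  have h2 := congrArg (fun z : ζ.range => (z : Mˣ)) h1
  simpa using h2

private theorem rlocbp_dvd {G : Type} [CommGroup G] [Fintype G] {M : Type} [Field M]
    (ζ : G →* Mˣ) (u v : ℕ) (h : ∀ τ, ζ τ ^ u = ζ τ ^ v) :
    ∃ m : ℤ, (u : ℤ) - v = (Nat.card ζ.range : ℤ) * m := by
  obtain ⟨g, hg⟩ := rlocbp_gen ζ
  have h3 : (ζ g) ^ ((u : ℤ) - v) = 1 := by
    rw [zpow_sub, zpow_natCast, zpow_natCast, h g, mul_inv_cancel]
  have h4 := orderOf_dvd_iff_zpow_eq_one.mpr h3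
  rw [hg] at h4
  obtain ⟨m, hm⟩ := h4
  exact ⟨m, hm⟩

private theorem rlocbp_inj {G : Type} [CommGroup G] [Fintype G] {M : Type} [Field M]
    (ζ : G →* Mˣ) {n : ℕ} (hcard : Nat.card ζ.range = n) (u v : Fin n)
    (h : ∀ τ, ζ τ ^ (u : ℕ) = ζ τ ^ (v : ℕ)) : u = v := by
  obtain ⟨g, hg⟩ := rlocbp_gen ζ
  apply Fin.ext
  refine pow_injOn_Iio_orderOf ?_ ?_ (h g)
  · rw [Set.mem_Iio, hg, hcard]; exact u.2
  · rw [Set.mem_Iio, hg, hcard]; exact v.2

private theorem rlocbp_equiv {G : Type} [CommGroup G] [Fintype G] {M : Type} [Field M]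
    (ζ : G →* Mˣ) (n : ℕ) (hn : 0 < n) (hcard : Nat.card ζ.range = n) :
    ∃ (C : Type) (_ : Fintype C) (_ : DecidableEq C) (o : C → (G →* Mˣ))
      (g : C × Fin n ≃ (G →* Mˣ)),
      (∀ c k τ, g (c, k) τ = o c τ * ζ τ ^ (k : ℕ)) ∧
      (∀ (c c' : C) (k k' : Fin n) (m : ℕ),
        (∀ τ, g (c, k) τ = g (c', k') τ * ζ τ ^ m) → c = c') := by
  classical
  have hpow : ∀ k : ℕ, ∀ χ : G →* Mˣ, (∀ τ, χ τ = ζ τ ^ k) → χ ∈ Subgroup.zpowers ζ := by
    intro k χ h
    refine ⟨(k : ℤ), ?_⟩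
    refine MonoidHom.ext fun τ => ?_
    have h1 : (MonoidHom.eval τ) (ζ ^ (k : ℤ)) = ((MonoidHom.eval τ) ζ) ^ (k : ℤ) :=
      map_zpow (MonoidHom.eval τ) ζ (k : ℤ)
    rw [zpow_natCast] at h1
    exact h1.trans (h τ).symm
  have hmem : ∀ χ ∈ Subgroup.zpowers ζ, ∃ k : Fin n, ∀ τ, χ τ = ζ τ ^ (k : ℕ) := by
    intro χ hχ
    have h1 : χ ∈ Submonoid.powers ζ := (mem_powers_iff_mem_zpowers).2 hχ
    obtain ⟨m, hm⟩ := h1
    refine ⟨⟨m % n, Nat.mod_lt _ hn⟩, fun τ => ?_⟩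
    have h2 : χ τ = ζ τ ^ m := by
      rw [← hm]
      exact map_pow (MonoidHom.eval τ) ζ m
    rw [h2]
    exact pow_eq_pow_mod m (by rw [← hcard]; exact rlocbp_pow ζ τ)
  let C := (G →* Mˣ) ⧸ Subgroup.zpowers ζ
  have hfC : Finite C := inferInstance
  let P : ℕ → (G →* Mˣ) := fun k => ζ ^ k
  have hP : ∀ k τ, P k τ = ζ τ ^ k := fun k τ => MonoidHom.pow_apply ζ k τ
  have hPm : ∀ k, P k ∈ Subgroup.zpowers ζ := fun k => hpow k _ (hP k)
  let f : C × Fin n → (G →* Mˣ) := fun c => Quotient.out c.1 * P (c.2 : ℕ)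
  have hf1 : ∀ c, ((f c : G →* Mˣ) : C) = c.1 := by
    intro c
    have h1 : ((Quotient.out c.1 * P (c.2 : ℕ) : G →* Mˣ) : C) = ((Quotient.out c.1 : G →* Mˣ) : C) :=
      QuotientGroup.mk_mul_of_mem _ (hPm _)
    exact h1.trans (QuotientGroup.out_eq' c.1)
  have hfa : ∀ c k τ, f (c, k) τ = (Quotient.out c : G →* Mˣ) τ * ζ τ ^ (k : ℕ) := by
    intro c k τ
    have h1 : f (c, k) τ = (Quotient.out c : G →* Mˣ) τ * P (k : ℕ) τ := MonoidHom.mul_apply _ _ _
    rw [h1, hP]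
  have hbij : Function.Bijective f := by
    constructor
    · rintro ⟨c, k⟩ ⟨c', k'⟩ h
      have h1 : c = c' := by
        have h2 := hf1 (c, k)
        rw [h, hf1 (c', k')] at h2
        exact h2.symm
      subst h1
      have h2 : k = k' := by
        refine rlocbp_inj ζ hcard k k' fun τ => ?_
        have h3 := hfa c k τ
        rw [h, hfa c k' τ] at h3
        exact (mul_left_cancel h3).symm
      rw [h2]
    · intro χ
      have h1 : (Quotient.out (χ : C) : G →* Mˣ)⁻¹ * χ ∈ Subgroup.zpowers ζ := by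
        rw [← QuotientGroup.eq]
        exact QuotientGroup.out_eq' _
      obtain ⟨k, hk⟩ := hmem _ h1
      refine ⟨((χ : C), k), MonoidHom.ext fun τ => ?_⟩
      rw [hfa, ← hk τ, MonoidHom.mul_apply, MonoidHom.inv_apply, mul_inv_cancel_left]
  refine ⟨C, Fintype.ofFinite C, Classical.decEq C, fun c => Quotient.out c,
    Equiv.ofBijective f hbij, ?_, ?_⟩
  · intro c k τ
    exact hfa c k τ
  · intro c c' k k' m h
    have h1 : f (c, k) = f (c', k') * P m := by
      refine MonoidHom.ext fun τ => ?_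
      rw [MonoidHom.mul_apply, hP]
      exact h τ
    have h2 := hf1 (c, k)
    rw [h1] at h2
    have h3 : ((f (c', k') * P m : G →* Mˣ) : C) = ((f (c', k') : G →* Mˣ) : C) :=
      QuotientGroup.mk_mul_of_mem _ (hPm _)
    rw [h3, hf1 (c', k')] at h2
    exact h2.symm

theorem loc_R_P {p : ℕ} [Fact p.Prime] (hp2 : p ≠ 2) {G : Type} [CommGroup G] [Fintype G] {M : Type}
    [Field M] [HasEnoughRootsOfUnity M (Monoid.exponent G)] (a : ℕ) (ζ : G →* Mˣ)
    (hcard : Nat.card ζ.range = p ^ a) {ι : Type} [Fintype ι] (J : Finset ι) (π : ι → (G →* Mˣ))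
    (t : ι → M) (x : M) (φ : M →+* PadicAlgCl p) (hx : ‖φ x‖ = 1) (hxn : φ x ^ p ^ a ∈ Up p)
    (hJ : ∀ i ∈ J, ∃ k : ℕ, π i = ζ ^ k ∧ φ (t i) * (φ x ^ k)⁻¹ ∈ Up p)
    (hJ' : ∀ i, i ∉ J → ‖φ (t i)‖ ≤ 1) (q : ℕ) (S K : Fin q → (G →* Mˣ))
    (hS : Function.Injective S) (hK : Function.Injective K) :
    ‖φ ((TK π t).submatrix S K).det‖ ≤ (p : ℝ) ^ ((Fintype.card G : ℝ) / (p - 1)) *
      ∏ τ, max 1 ‖φ (∑ i, t i * ((π i τ : Mˣ) : M))‖ := by
  classical
  have hn : 0 < p ^ a := pow_pos (Fact.out : p.Prime).pos a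
  obtain ⟨C, hC1, hC2, o, g, hg, hgc⟩ := rlocbp_equiv ζ (p ^ a) hn hcard
  have hx0 : φ x ≠ 0 := by
    intro h0
    rw [h0, norm_zero] at hx
    exact zero_ne_one hx
  have hJp : ∀ i ∈ J, ∃ k : ℕ, (∀ τ, π i τ = ζ τ ^ k) ∧ φ (t i) * (φ x ^ k)⁻¹ ∈ Up p := by
    intro i hi
    obtain ⟨k, hk, hkU⟩ := hJ i hi
    exact ⟨k, fun τ => (DFunLike.congr_fun hk τ).trans (MonoidHom.pow_apply ζ k τ), hkU⟩
  let e : ζ.range ≃ Fin (p ^ a) := Finite.equivFinOfCardEq hcard
  have hpre : ∀ k : Fin (p ^ a), ∃ τ : G, ζ τ = ((e.symm k : ζ.range) : Mˣ) := fun k =>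
    (e.symm k).2
  choose pre hpre using hpre
  let t' : Matrix (Fin (p ^ a)) (Fin (p ^ a)) (PadicAlgCl p) := Matrix.of fun r s =>
    φ (∑ i ∈ J, if (∀ τ, π i τ * ζ τ ^ (s : ℕ) = ζ τ ^ (r : ℕ)) then t i else 0)
  let Z : Matrix (C × Fin (p ^ a)) (C × Fin (p ^ a)) (PadicAlgCl p) := Matrix.of fun i j =>
    φ (∑ l ∈ Jᶜ, if π l = g i / g j then t l else 0)
  let y : Fin (p ^ a) → PadicAlgCl p := fun k =>
    φ (∑ i ∈ J, t i * ((π i (pre k) : Mˣ) : M))
  have hsplit : ∀ i j : C × Fin (p ^ a), φ (TK π t (g i) (g j)) =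
      (if i.1 = j.1 then t' i.2 j.2 else 0) + Z i j := by
    intro i j
    have h1 : TK π t (g i) (g j) = (∑ l ∈ J, if π l = g i / g j then t l else 0) +
        ∑ l ∈ Jᶜ, if π l = g i / g j then t l else 0 := by
      rw [Finset.sum_add_sum_compl]
      rfl
    rw [h1, map_add]
    congr 1
    split_ifs with hij
    · show φ _ = φ _
      congr 1
      refine Finset.sum_congr rfl fun l _ => ?_
      have h2 : (π l = g i / g j) ↔ ∀ τ, π l τ * ζ τ ^ (j.2 : ℕ) = ζ τ ^ (i.2 : ℕ) := by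
        have hgi : ∀ τ, g i τ = o i.1 τ * ζ τ ^ (i.2 : ℕ) := fun τ => hg i.1 i.2 τ
        have hgj : ∀ τ, g j τ = o i.1 τ * ζ τ ^ (j.2 : ℕ) := fun τ => by
          rw [hij]; exact hg j.1 j.2 τ
        constructor
        · intro h τ
          have h3 : π l τ = g i τ / g j τ := by rw [h]; exact MonoidHom.div_apply _ _ _
          rw [h3, hgi, hgj, mul_div_mul_left_eq_div, div_mul_cancel]
        · intro h
          refine MonoidHom.ext fun τ => ?_
          have h3 : (g i / g j : G →* Mˣ) τ = g i τ / g j τ := MonoidHom.div_apply _ _ _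
          rw [h3, hgi, hgj, mul_div_mul_left_eq_div, ← h τ, mul_div_cancel_right]
      exact if_congr h2 rfl rfl
    · rw [map_sum]
      refine Finset.sum_eq_zero fun l hl => ?_
      rw [if_neg, map_zero]
      intro h
      obtain ⟨k, hk, -⟩ := hJp l hl
      apply hij
      refine hgc i.1 j.1 i.2 j.2 k fun τ => ?_
      have h3 : π l τ = g i τ / g j τ := by rw [h]; exact MonoidHom.div_apply _ _ _
      rw [← hk τ, h3]
      show g i τ = g j τ * (g i τ / g j τ)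
      rw [mul_div_cancel]
  have hdet : φ ((TK π t).submatrix S K).det =
      (((Matrix.of fun i j : C × Fin (p ^ a) => if i.1 = j.1 then t' i.2 j.2 else 0) + Z).submatrix
        (g.symm ∘ S) (g.symm ∘ K)).det := by
    rw [RingHom.map_det]
    congr 1
    ext b c
    have h1 := hsplit (g.symm (S b)) (g.symm (K c))
    rw [Equiv.apply_symm_apply, Equiv.apply_symm_apply] at h1
    exact h1
  have hunit : ∀ (i : ι) (τ : G), ‖φ ((π i τ : Mˣ) : M)‖ = 1 := by
    intro i τ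
    have h1 : ((π i τ : Mˣ) : M) ^ Fintype.card G = 1 := by
      rw [← Units.val_pow_eq_pow_val, ← map_pow, pow_card_eq_one, map_one, Units.val_one]
    have h2 : ‖φ ((π i τ : Mˣ) : M)‖ ^ Fintype.card G = 1 := by
      rw [← norm_pow, ← map_pow, h1, map_one, norm_one]
    exact (pow_eq_one_iff_of_nonneg (norm_nonneg _) Fintype.card_ne_zero).1 h2
  have key := loc_mat_P hp2 (C := C) a (p ^ a) rfl (fun k => φ (((e.symm k : ζ.range) : Mˣ) : M))
    ?_ ?_ (φ x) hx hxn t' ?_ y ?_ Z ?_ q (g.symm ∘ S) (g.symm ∘ K)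
    (g.symm.injective.comp hS) (g.symm.injective.comp hK)
  · rw [hdet]
    have hcX : Fintype.card C * p ^ a = Fintype.card G := by
      have h1 : Fintype.card (C × Fin (p ^ a)) = Fintype.card (G →* Mˣ) := Fintype.card_congr g
      have h2 : Fintype.card (G →* Mˣ) = Fintype.card G := by
        rw [← Nat.card_eq_fintype_card, ← Nat.card_eq_fintype_card]
        exact CommGroup.card_monoidHom_of_hasEnoughRootsOfUnity G M
      rw [Fintype.card_prod, Fintype.card_fin, h2] at h1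
      exact h1
    rw [hcX] at key
    refine key.trans (mul_le_mul_of_nonneg_left ?_ (Real.rpow_nonneg (Nat.cast_nonneg _) _))
    let F : G → Fin (p ^ a) := fun τ => e ⟨ζ τ, τ, rfl⟩
    have hfib : ∀ k : Fin (p ^ a), (Finset.univ.filter fun τ => F τ = k).card = Fintype.card C := by
      have h1 : ∀ k k' : Fin (p ^ a), (Finset.univ.filter fun τ => F τ = k).card =
          (Finset.univ.filter fun τ => F τ = k').card := by
        have h2 : ∀ k : Fin (p ^ a), (Finset.univ.filter fun τ => F τ = k) =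
            Finset.univ.filter fun τ => ζ τ = ζ (pre k) := by
          intro k
          refine Finset.filter_congr fun τ _ => ?_
          show e ⟨ζ τ, τ, rfl⟩ = k ↔ _
          rw [← Equiv.eq_symm_apply, hpre k]
          exact Subtype.ext_iff
        intro k k'
        rw [h2 k, h2 k']
        exact MonoidHom.card_fiber_eq_of_mem_range ζ ⟨pre k, rfl⟩ ⟨pre k', rfl⟩
      intro k
      have h3 : Fintype.card G = ∑ k' : Fin (p ^ a), (Finset.univ.filter fun τ => F τ = k').card := by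
        rw [← Finset.card_univ]
        exact Finset.card_eq_sum_card_fiberwise fun τ _ => Finset.mem_univ _
      rw [Finset.sum_congr rfl fun k' _ => h1 k' k, Finset.sum_const, Finset.card_univ,
        Fintype.card_fin, smul_eq_mul, ← hcX, mul_comm] at h3
      exact (Nat.eq_of_mul_eq_mul_left hn h3).symm
    have hprod : (∏ k, max 1 ‖y k‖) ^ Fintype.card C = ∏ τ, max 1 ‖y (F τ)‖ := by
      rw [← Finset.prod_fiberwise_of_maps_to (s := Finset.univ) (t := Finset.univ) (g := F)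
        (fun τ _ => Finset.mem_univ _) (fun τ => max 1 ‖y (F τ)‖), ← Finset.prod_pow]
      refine Finset.prod_congr rfl fun k _ => ?_
      rw [← hfib k, ← Finset.prod_const]
      refine Finset.prod_congr rfl fun τ hτ => ?_
      rw [(Finset.mem_filter.1 hτ).2]
    rw [hprod]
    refine Finset.prod_le_prod (fun τ _ => le_trans zero_le_one (le_max_left _ _)) fun τ _ => ?_
    have hyF : y (F τ) = φ (∑ i ∈ J, t i * ((π i τ : Mˣ) : M)) := by
      show φ _ = φ _
      congr 1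
      refine Finset.sum_congr rfl fun i hi => ?_
      obtain ⟨k, hk, -⟩ := hJp i hi
      have h1 : ζ (pre (F τ)) = ζ τ := by
        rw [hpre (F τ)]
        show ((e.symm (e ⟨ζ τ, τ, rfl⟩) : ζ.range) : Mˣ) = ζ τ
        rw [Equiv.symm_apply_apply]
      rw [hk (pre (F τ)), hk τ, h1]
    rw [hyF]
    refine max_le (le_max_left _ _) ?_
    have h1 : φ (∑ i ∈ J, t i * ((π i τ : Mˣ) : M)) =
        φ (∑ i, t i * ((π i τ : Mˣ) : M)) - φ (∑ i ∈ Jᶜ, t i * ((π i τ : Mˣ) : M)) := by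
      rw [← map_sub, ← Finset.sum_add_sum_compl J, add_sub_cancel_right]
    have h2 : ‖φ (∑ i ∈ Jᶜ, t i * ((π i τ : Mˣ) : M))‖ ≤ 1 := by
      rw [map_sum]
      refine IsUltrametricDist.norm_sum_le_of_forall_le_of_nonneg zero_le_one fun i hi => ?_
      rw [map_mul, norm_mul, hunit, mul_one]
      exact hJ' i (Finset.mem_compl.1 hi)
    rw [h1, sub_eq_add_neg]
    refine (IsUltrametricDist.norm_add_le_max _ _).trans (max_le (le_max_right _ _) ?_)
    rw [norm_neg]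
    exact h2.trans (le_max_left _ _)
  · intro k k' h
    exact e.symm.injective (Subtype.ext (Units.ext (φ.injective h)))
  · intro k
    have h1 : (((e.symm k : ζ.range) : Mˣ) : M) ^ p ^ a = 1 := by
      rw [← hpre k, ← Units.val_pow_eq_pow_val, ← hcard, rlocbp_pow, Units.val_one]
    rw [← map_pow, h1, map_one]
  · intro r s
    show φ x ^ (s : ℕ) * φ (∑ i ∈ J, _) * (φ x ^ (r : ℕ))⁻¹ ∈ Up p
    rw [map_sum, Finset.mul_sum, Finset.sum_mul]
    refine sum_mem fun i hi => ?_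
    split_ifs with hi2
    · obtain ⟨k, hk, hkU⟩ := hJp i hi
      have h2 : ∀ τ, ζ τ ^ (k + (s : ℕ)) = ζ τ ^ (r : ℕ) := by
        intro τ
        rw [pow_add, ← hk τ]
        exact hi2 τ
      obtain ⟨m, hm⟩ := rlocbp_dvd ζ _ _ h2
      rw [hcard] at hm
      have h3 : φ x ^ (s : ℕ) * φ (t i) * (φ x ^ (r : ℕ))⁻¹ =
          (φ (t i) * (φ x ^ k)⁻¹) * (φ x ^ p ^ a) ^ m := by
        have h4 : (φ x ^ p ^ a) ^ m = φ x ^ k * φ x ^ (s : ℕ) * (φ x ^ (r : ℕ))⁻¹ := by
          rw [← zpow_natCast (φ x) (p ^ a), ← zpow_mul, ← hm, zpow_sub₀ hx0,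
            Nat.cast_add, zpow_add₀ hx0, zpow_natCast, zpow_natCast, zpow_natCast, div_eq_mul_inv]
        rw [h4]
        have h5 : φ x ^ k ≠ 0 := pow_ne_zero _ hx0
        field_simp
      rw [h3]
      exact mul_mem hkU (zpow_mem hxn m)
    · rw [map_zero, mul_zero, zero_mul]
      exact zero_mem _
  · intro k s
    show ∑ r : Fin (p ^ a), φ (((e.symm k : ζ.range) : Mˣ) : M) ^ (r : ℕ) * φ (∑ i ∈ J, _) =
      φ (∑ i ∈ J, _) * φ (((e.symm k : ζ.range) : Mˣ) : M) ^ (s : ℕ)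
    rw [← hpre k, ← map_pow, ← map_mul]
    have h1 : ∀ r : Fin (p ^ a), φ ((ζ (pre k) : Mˣ) : M) ^ (r : ℕ) *
        φ (∑ i ∈ J, if (∀ τ, π i τ * ζ τ ^ (s : ℕ) = ζ τ ^ (r : ℕ)) then t i else 0) =
        φ (∑ i ∈ J, ((ζ (pre k) : Mˣ) : M) ^ (r : ℕ) *
          if (∀ τ, π i τ * ζ τ ^ (s : ℕ) = ζ τ ^ (r : ℕ)) then t i else 0) := by
      intro r
      rw [← Finset.mul_sum, map_mul, map_pow]
    rw [Finset.sum_congr rfl fun r _ => h1 r, ← map_sum]
    congr 1
    rw [Finset.sum_comm, Finset.sum_mul]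
    refine Finset.sum_congr rfl fun i hi => ?_
    obtain ⟨m, hm, -⟩ := hJp i hi
    have hr0 : (m + (s : ℕ)) % p ^ a < p ^ a := Nat.mod_lt _ hn
    have hr1 : ∀ τ, π i τ * ζ τ ^ (s : ℕ) = ζ τ ^ ((m + (s : ℕ)) % p ^ a) := by
      intro τ
      rw [hm τ, ← pow_add]
      exact pow_eq_pow_mod _ (by rw [← hcard]; exact rlocbp_pow ζ τ)
    rw [Finset.sum_eq_single (⟨(m + (s : ℕ)) % p ^ a, hr0⟩ : Fin (p ^ a))]
    · rw [if_pos hr1]
      show ((ζ (pre k) : Mˣ) : M) ^ ((m + (s : ℕ)) % p ^ a) * t i = _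
      rw [← Units.val_pow_eq_pow_val, ← hr1 (pre k), Units.val_mul, Units.val_pow_eq_pow_val]
      ring
    · intro r _ hr
      rw [if_neg, mul_zero]
      intro h
      apply hr
      refine rlocbp_inj ζ hcard _ _ fun τ => ?_
      rw [← h τ]
      exact hr1 τ
    · intro h
      exact absurd (Finset.mem_univ _) h
  · intro i j
    show ‖φ (∑ l ∈ Jᶜ, _)‖ ≤ 1
    rw [map_sum]
    refine IsUltrametricDist.norm_sum_le_of_forall_le_of_nonneg zero_le_one fun l hl => ?_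
    split_ifs
    · exact hJ' l (Finset.mem_compl.1 hl)
    · rw [map_zero, norm_zero]
      exact zero_le_one

end MP4270U
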