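import Pool.Agent.Lib_MP_4270a5_u.KumS
import Pool.Agent.Lib_MP_4270a5_u.Eig
import Pool.Agent.Lib_MP_4270a5_u.RKc
import Pool.Agent.Lib_MP_4270a5_u.RKb
import Pool.Agent.Lib_MP_4270a5_u.RLocBP

/-!
# MP_4270a5_nt, piece RALLP: the absolute bound, with the radical condition at some primes

PAPER PROOF. The proof of `kum_all_primes` (see `KumAll.lean`) with `kum_build_R` for `kum_build`, and `rp_prime_R` at the primes with `RadAtPP`.
-/

open Polynomial IntermediateField Finset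

namespace MP4270U

open MP4270

/-- The radical condition at `p`: for `i ∉ J` the term `b_i g_i` is integral above `p`; up to numbers `w_i` with `w_i^N₁ ∈ L`, `N₁` prime to `p`, the `g_i`, `i ∈ J`, are powers of `x = g i₀`;
`x^(p^v) ∈ L`, `x` is a unit at all places above `p`, and at all places above `p` the numbers `b_i w_i`, `i ∈ J`, and the powers `x^(p^j)` which are in `L` are in the maximal unramified
extension. -/
def RadAtP (L : IntermediateField ℚ Qb) {ι : Type} (b g : ι → Qb) (p : ℕ) [Fact p.Prime] : Prop :=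
  30000 * Real.log p ≤ p ∧ ∃ (J : Finset ι) (m : ℕ) (i₀ : ι) (k : ι → ℕ) (N₁ v : ℕ), m.Coprime p ∧
    (∀ i, i ∉ J → IsIntegral ℤ ((m : Qb) * (b i * g i))) ∧ 0 < N₁ ∧ N₁.Coprime p ∧
    (∀ i ∈ J, (g i / g i₀ ^ k i) ^ N₁ ∈ L) ∧ g i₀ ^ p ^ v ∈ L ∧
    ∀ φ : Qb →+* PadicAlgCl p, ‖φ (g i₀)‖ = 1 ∧ (∀ i ∈ J, φ (b i * g i / g i₀ ^ k i) ∈ Up p) ∧
      ∀ j, g i₀ ^ p ^ j ∈ L → φ (g i₀ ^ p ^ j) ∈ Up p

/-- The one-character condition at `p`: for `i ∉ J` the term `b_i g_i` is integral above `p`, and all `g_i`, `i ∈ J`, are equal to `g i₀` up to numbers `w_i` with `w_i^N₁ ∈ L`, `N₁` prime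
to `p`. -/
def OneAt (L : IntermediateField ℚ Qb) {ι : Type} (b g : ι → Qb) (p : ℕ) : Prop :=
  ∃ (J : Finset ι) (m : ℕ) (i₀ : ι) (N₁ : ℕ), m.Coprime p ∧ N₁.Coprime p ∧
    (∀ i, i ∉ J → IsIntegral ℤ ((m : Qb) * (b i * g i))) ∧ ∀ i ∈ J, (g i / g i₀) ^ N₁ ∈ L

private theorem rp_lift (M : IntermediateField ℚ Qb) [Normal ℚ M] (σ : M ≃ₐ[ℚ] M) :
    ∃ σ' : Qb ≃ₐ[ℚ] Qb, ∀ x : M, ((σ x : M) : Qb) = σ' (x : Qb) :=
  ⟨σ.liftNormal Qb, fun x => (σ.liftNormal_commutes Qb x).symm⟩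

private theorem rp_enough (M : IntermediateField ℚ Qb) (N : ℕ) [NeZero N]
    (hμ : ∀ z : Qb, z ^ N = 1 → z ∈ M) : HasEnoughRootsOfUnity M N := by
  have h0 : NeZero (N : Qb) := ⟨by exact_mod_cast NeZero.ne N⟩
  obtain ⟨ζ, hζ⟩ := HasEnoughRootsOfUnity.exists_primitiveRoot Qb N
  have h1 : ζ ∈ M := hμ ζ hζ.pow_eq_one
  refine ⟨⟨⟨ζ, h1⟩, ?_⟩, rootsOfUnity.isCyclic M N⟩
  exact IsPrimitiveRoot.of_map_of_injective (f := M.val) hζ M.val.injective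

private theorem rp_nm_nat {ℓ m : ℕ} (hℓ : ℓ.Prime) (h : ¬ ℓ ∣ m) : nm ℓ (m : Qb) = 1 := by
  have hm : m ≠ 0 := by
    rintro rfl
    exact h (dvd_zero ℓ)
  have h1 := pf_nat ℓ hℓ hm
  rw [Nat.factorization_eq_zero_of_not_dvd h, Nat.cast_zero, zero_mul, neg_zero] at h1
  exact Real.eq_one_of_pos_of_log_eq_zero (nm_pos ℓ (by exact_mod_cast hm)) h1

/-- the numerical condition for few terms -/
private theorem rp_num {p k : ℕ} (hp : p.Prime) {h : ℝ}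
    (hh : h < Real.log 2 / 40320) (hc : 30000 * ((k - 1 : ℕ) : ℝ) * Real.log p ≤ p) :
    2 * (k - 1) ≤ p ∧
      4 * h + 2 * (((k - 1 : ℕ) : ℝ) * Real.log p / (p - 1)) < Real.log 2 / 5040 := by
  have hl2 : 0.6931 < Real.log 2 := lt_trans (by norm_num) Real.log_two_gt_d9
  have h3 : 4 * h < Real.log 2 / 10080 := by
    have : Real.log 2 / 40320 * 4 = Real.log 2 / 10080 := by ring
    linarith
  have h4 : Real.log 2 / 5040 = Real.log 2 / 10080 + Real.log 2 / 10080 := by ring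
  rcases Nat.eq_zero_or_pos (k - 1) with hk0 | hk'
  · rw [hk0]
    refine ⟨by simp, ?_⟩
    have h5 : (0 : ℝ) < Real.log 2 / 10080 := by positivity
    simp only [Nat.cast_zero, zero_mul, zero_div, mul_zero, add_zero]
    rw [h4]
    linarith
  have hkR : (1 : ℝ) ≤ ((k - 1 : ℕ) : ℝ) := by exact_mod_cast hk'
  have hp2 : (2 : ℝ) ≤ p := by exact_mod_cast hp.two_le
  have hlp : Real.log 2 ≤ Real.log p := Real.log_le_log (by norm_num) hp2
  have hlp0 : 0 < Real.log p := by linarith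
  have h1 : 30000 * ((k - 1 : ℕ) : ℝ) * 0.6931 ≤ p := by
    have h2 : 30000 * ((k - 1 : ℕ) : ℝ) * 0.6931 ≤ 30000 * ((k - 1 : ℕ) : ℝ) * Real.log p :=
      mul_le_mul_of_nonneg_left (by linarith) (by positivity)
    linarith
  have hpbig : (20000 : ℝ) ≤ p := by linarith
  constructor
  · have h2 : (2 * (k - 1 : ℕ) : ℝ) ≤ p := by
      linarith
    exact_mod_cast h2
  · have h2 : ((k - 1 : ℕ) : ℝ) * Real.log p / (p - 1) ≤ 1 / 29500 := by
      rw [div_le_div_iff₀ (by linarith) (by norm_num)]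
      have h3 : ((k - 1 : ℕ) : ℝ) * Real.log p ≤ p / 30000 := by
        rw [le_div_iff₀ (by norm_num : (0 : ℝ) < 30000)]
        linarith
      linarith
    have h5 : (2 : ℝ) * (1 / 29500) < Real.log 2 / 10080 := by
      have h6 : (0.6931 : ℝ) / 10080 < Real.log 2 / 10080 :=
        div_lt_div_of_pos_right hl2 (by norm_num)
      have h7 : (2 : ℝ) * (1 / 29500) < 0.6931 / 10080 := by norm_num
      linarith
    rw [h4]
    linarith

section core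
variable (M : IntermediateField ℚ Qb) [FiniteDimensional ℚ M] [Normal ℚ M]
  {ι : Type} [Fintype ι] (G : Subgroup (ι → (M)ˣ)) [Finite G] (a : ι → M)

/-- the conjugates -/
private noncomputable def rpY (τ : G) : M := ∑ i, a i * ((τ.1 i : (M)ˣ) : M)

/-- `y τ` is a multiple of `y 1` by an `N`-th root of unity -/
private def rpP (N : ℕ) (τ : G) : Prop := ∃ ω : M, ω ^ N = 1 ∧ rpY M G a τ = ω * rpY M G a 1

variable {G a}

private theorem rpP_mul {N : ℕ}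
    (hs : ∀ τ : G, ∃ s : M ≃ₐ[ℚ] M, (∀ ω : M, ω ^ N = 1 → s ω = ω) ∧
      ∀ τ' : G, s (rpY M G a τ') = rpY M G a (τ * τ')) {τ τ' : G}
    (h : rpP M G a N τ) (h' : rpP M G a N τ') : rpP M G a N (τ * τ') := by
  obtain ⟨ω, hω, h1⟩ := h
  obtain ⟨ω', hω', h2⟩ := h'
  obtain ⟨s, hs1, hs2⟩ := hs τ
  refine ⟨ω' * ω, by rw [mul_pow, hω, hω', one_mul], ?_⟩
  have h3 := hs2 τ'
  have h4 := hs2 1
  rw [mul_one] at h4
  rw [h2, map_mul, hs1 ω' hω', h4, h1] at h3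
  rw [← h3, mul_assoc]

private theorem rpP_inv {N : ℕ} (hN : 0 < N)
    (hs : ∀ τ : G, ∃ s : M ≃ₐ[ℚ] M, (∀ ω : M, ω ^ N = 1 → s ω = ω) ∧
      ∀ τ' : G, s (rpY M G a τ') = rpY M G a (τ * τ')) {τ : G}
    (h : rpP M G a N τ) : rpP M G a N τ⁻¹ := by
  obtain ⟨ω, hω, h1⟩ := h
  obtain ⟨s, hs1, hs2⟩ := hs τ
  have hω0 : ω ≠ 0 := by
    rintro rfl
    rw [zero_pow hN.ne'] at hω
    exact zero_ne_one hω
  have hωi : (ω⁻¹) ^ N = 1 := by rw [inv_pow, hω, inv_one]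
  refine ⟨ω⁻¹, hωi, ?_⟩
  have h3 := hs2 τ⁻¹
  have h4 := hs2 1
  rw [mul_one] at h4
  rw [mul_inv_cancel] at h3
  apply s.injective
  rw [h3, map_mul, hs1 _ hωi, h4, h1, ← mul_assoc, inv_mul_cancel₀ hω0, one_mul]

private theorem rpP_one {N : ℕ} : rpP M G a N 1 := ⟨1, one_pow _, by rw [one_mul]⟩

/-- the subgroup of the `τ` with `rpP` -/
private def rpE {N : ℕ} (hN : 0 < N)
    (hs : ∀ τ : G, ∃ s : M ≃ₐ[ℚ] M, (∀ ω : M, ω ^ N = 1 → s ω = ω) ∧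
      ∀ τ' : G, s (rpY M G a τ') = rpY M G a (τ * τ')) : Subgroup G where
  carrier := {τ | rpP M G a N τ}
  mul_mem' h h' := rpP_mul M hs h h'
  one_mem' := rpP_one M
  inv_mem' h := rpP_inv M hN hs h

/-- one prime -/
private theorem rp_prime {N : ℕ} (hN : 0 < N) (hpow : ∀ τ : G, τ ^ N = 1)
    (hM : ∀ z : Qb, z ^ N = 1 → z ∈ M)
    (hs : ∀ τ : G, ∃ s : M ≃ₐ[ℚ] M, (∀ ω : M, ω ^ N = 1 → s ω = ω) ∧
      ∀ τ' : G, s (rpY M G a τ') = rpY M G a (τ * τ'))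
    (hy0 : rpY M G a 1 ≠ 0) (h : ℝ) (hh0 : 0 ≤ h) (hh : h < Real.log 2 / 40320)
    (hyh : ∀ τ : G, hW (rpY M G a τ : Qb) = h) {p : ℕ} (hp : p.Prime) (hpN : p ∣ N)
    (J : Finset ι) (m : ℕ) (hc : 30000 * ((J.card - 1 : ℕ) : ℝ) * Real.log p ≤ p)
    (hm : m.Coprime p)
    (hint : ∀ i, i ∉ J → IsIntegral ℤ ((m : Qb) * (a i : Qb)))
    (e : ℕ) (τ : G) (hτ : τ ^ p ^ e = 1) : rpP M G a N τ := by
  classical
  have hf : Fact p.Prime := ⟨hp⟩
  have hN0 : NeZero N := ⟨hN.ne'⟩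
  obtain ⟨Gp, hGp⟩ : ∃ Gp : Subgroup G, Gp = (powMonoidHom (p ^ e) : G →* G).ker := ⟨_, rfl⟩
  have hmem : ∀ x : G, x ∈ Gp ↔ x ^ p ^ e = 1 := by
    intro x
    rw [hGp, MonoidHom.mem_ker]
    rfl
  have hfin : Fintype Gp := Fintype.ofFinite _
  have hpe : ∀ x : Gp, x ^ p ^ e = 1 := fun x => by
    apply Subtype.ext
    exact (hmem x.1).1 x.2
  have hpN' : ∀ x : Gp, x ^ N = 1 := fun x => by
    apply Subtype.ext
    exact hpow x.1
  have hen : HasEnoughRootsOfUnity M N := rp_enough M N hM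
  have hen2 : HasEnoughRootsOfUnity M (Monoid.exponent Gp) :=
    HasEnoughRootsOfUnity.of_dvd M (Monoid.exponent_dvd_of_forall_pow_eq_one hpN')
  obtain ⟨π, hπ⟩ : ∃ π : ι → (Gp →* (M)ˣ), ∀ i x, π i x = x.1.1 i :=
    ⟨fun i => ((Pi.evalMonoidHom (fun _ : ι => (M)ˣ) i).comp G.subtype).comp Gp.subtype,
      fun _ _ => rfl⟩
  have hy : ∀ x : Gp, rpY M G a x.1 = ∑ i, a i * ((π i x : (M)ˣ) : M) := by
    intro x
    simp only [hπ]
    rfl
  have hsp : ∀ x : Gp, ∃ s : M ≃ₐ[ℚ] M, (∀ ω : M, ω ^ N = 1 → s ω = ω) ∧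
      ∀ x' : Gp, s (rpY M G a x'.1) = rpY M G a (x * x').1 := by
    intro x
    obtain ⟨s, h1, h2⟩ := hs x.1
    exact ⟨s, h1, fun x' => h2 x'.1⟩
  have key : ∃ χ : Gp →* (M)ˣ, ∀ x : Gp, rpY M G a x.1 = ((χ x : (M)ˣ) : M) *
      rpY M G a (1 : Gp).1 := by
    obtain ⟨hk2, hB⟩ := rp_num hp hh hc
    have henp : HasEnoughRootsOfUnity M p := HasEnoughRootsOfUnity.of_dvd M hpN
    have hp0 : NeZero p := ⟨hp.ne_zero⟩
    obtain ⟨ζ, hζ⟩ := HasEnoughRootsOfUnity.exists_primitiveRoot M p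
    have h3 : ¬ p ∣ m := fun h => by
      have h4 := Nat.dvd_gcd h (dvd_refl p)
      rw [hm.gcd_eq_one] at h4
      exact hp.one_lt.ne' (Nat.dvd_one.mp h4)
    have hJ : ∀ i, i ∉ J → ∀ σ : M ≃ₐ[ℚ] M, nm p ((σ (a i) : M) : Qb) ≤ 1 := by
      intro i hi σ
      obtain ⟨σ', hσ'⟩ := rp_lift M σ
      have h4 : IsIntegral ℤ (σ' ((m : Qb) * (a i : Qb))) :=
        map_isIntegral_int (σ' : Qb →+* Qb) (hint i hi)
      have h5 := nm_integral p _ h4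
      rw [map_mul, map_natCast, nm_mul, rp_nm_nat hp h3, one_mul] at h5
      rw [hσ']
      exact h5
    have hB0 : 0 ≤ ((J.card - 1 : ℕ) : ℝ) * Real.log p / (p - 1) := by
      have h1 : (1 : ℝ) ≤ p := by exact_mod_cast hp.one_lt.le
      exact div_nonneg (mul_nonneg (Nat.cast_nonneg _) (Real.log_nonneg h1)) (by linarith)
    refine eig_step N hpN' π a (fun x : Gp => rpY M G a x.1) hy hy0 hsp
      (4 * h + 2 * (((J.card - 1 : ℕ) : ℝ) * Real.log p / (p - 1)))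
      (by linarith) hB fun A => ?_
    have h1 := kum_cnt_sparse M p e hpe ζ hζ J hk2 π a hJ (fun x : Gp => rpY M G a x.1) hy h
      (fun x => hyh x.1) A
    refine h1.trans (le_of_eq ?_)
    congr 1
    ring
  obtain ⟨χ, hχ⟩ := key
  refine ⟨((χ ⟨τ, (hmem τ).2 hτ⟩ : (M)ˣ) : M), ?_, hχ ⟨τ, (hmem τ).2 hτ⟩⟩
  rw [← Units.val_pow_eq_pow_val, ← map_pow, hpN', map_one, Units.val_one]

/-- all `τ` -/
private theorem rp_all {N : ℕ} (hN : 0 < N)
    (hs : ∀ τ : G, ∃ s : M ≃ₐ[ℚ] M, (∀ ω : M, ω ^ N = 1 → s ω = ω) ∧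
      ∀ τ' : G, s (rpY M G a τ') = rpY M G a (τ * τ'))
    (hpr : ∀ p : ℕ, p.Prime → p ∣ N → ∀ (e : ℕ) (τ : G), τ ^ p ^ e = 1 → rpP M G a N τ) (n : ℕ) :
    n ∣ N → ∀ τ : G, τ ^ n = 1 → rpP M G a N τ := by
  induction n using Nat.recOnPosPrimePosCoprime with
  | prime_pow p n hp hn =>
    intro hd τ hτ
    exact hpr p hp ((dvd_pow_self p hn.ne').trans hd) n τ hτ
  | zero =>
    intro hd
    exact absurd (Nat.eq_zero_of_zero_dvd hd) hN.ne'
  | one =>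
    intro _ τ hτ
    rw [pow_one] at hτ
    rw [hτ]
    exact rpP_one M
  | coprime u v hu hv huv hPu hPv =>
    intro hd τ hτ
    have h1 : τ ^ u ∈ rpE M hN hs := hPv ((dvd_mul_left v u).trans hd) (τ ^ u) (by
      rw [← pow_mul]; exact hτ)
    have h2 : τ ^ v ∈ rpE M hN hs := hPu ((dvd_mul_right u v).trans hd) (τ ^ v) (by
      rw [← pow_mul, mul_comm]; exact hτ)
    have h3 : (1 : ℤ) = u * Nat.gcdA u v + v * Nat.gcdB u v := by
      rw [← Nat.gcd_eq_gcd_ab, huv.gcd_eq_one, Nat.cast_one]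
    have h4 : τ = (τ ^ u) ^ (Nat.gcdA u v) * (τ ^ v) ^ (Nat.gcdB u v) := by
      rw [← zpow_natCast, ← zpow_natCast, ← zpow_mul, ← zpow_mul, ← zpow_add, ← h3, zpow_one]
    have h5 : τ ∈ rpE M hN hs := by
      rw [h4]
      exact mul_mem (zpow_mem h1 _) (zpow_mem h2 _)
    exact h5

/-- one prime with the radical condition -/
private theorem rp_prime_R {N : ℕ} (hN : 0 < N) (hpow : ∀ τ : G, τ ^ N = 1)
    (hM : ∀ z : Qb, z ^ N = 1 → z ∈ M)
    (hs : ∀ τ : G, ∃ s : M ≃ₐ[ℚ] M, (∀ ω : M, ω ^ N = 1 → s ω = ω) ∧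
      ∀ τ' : G, s (rpY M G a τ') = rpY M G a (τ * τ'))
    (hy0 : rpY M G a 1 ≠ 0) (h : ℝ) (hh0 : 0 ≤ h) (hh : h < Real.log 2 / 40320)
    (hyh : ∀ τ : G, hW (rpY M G a τ : Qb) = h) (L : IntermediateField ℚ Qb) (b g : ι → Qb)
    (gM : ι → M) (ha : ∀ i, (a i : Qb) = b i * g i) (hgM : ∀ i, (gM i : Qb) = g i)
    (hrel : ∀ (i i₀ : ι) (k N₁ : ℕ), (g i / g i₀ ^ k) ^ N₁ ∈ L →
      ∀ τ : G, (τ.1 i / τ.1 i₀ ^ k) ^ N₁ = 1)
    (hfix : ∀ (i : ι) (n : ℕ), (∀ τ : G, (τ.1 i) ^ n = 1) → g i ^ n ∈ L)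
    {p : ℕ} [hf : Fact p.Prime] (hpN : p ∣ N) (hR : RadAtP L b g p)
    (e : ℕ) (τ : G) (hτ : τ ^ p ^ e = 1) : rpP M G a N τ := by
  classical
  have hp : p.Prime := Fact.out
  have hN0 : NeZero N := ⟨hN.ne'⟩
  obtain ⟨hc, J, mm, i₀, k, N₁, v, hmm, hint, hN₁, hcop, hw, hv, hφ⟩ := hR
  have hcp : ∀ j : ℕ, N₁.Coprime (p ^ j) := fun j => Nat.Coprime.pow_right j hcop
  -- the `p`-part of the group
  obtain ⟨E, hE⟩ : ∃ E : ℕ, E = N.factorization p := ⟨_, rfl⟩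
  obtain ⟨N', hN'⟩ : ∃ N' : ℕ, N = p ^ E * N' := by
    rw [hE]
    exact Nat.ordProj_dvd N p
  have hN'p : N'.Coprime p := by
    rw [Nat.coprime_comm, Nat.Prime.coprime_iff_not_dvd hp]
    rintro ⟨m, hm⟩
    have h1 : p ^ (E + 1) ∣ N := ⟨m, by rw [hN', hm, pow_succ]; ring⟩
    have h2 := (Nat.Prime.pow_dvd_iff_le_factorization hp hN.ne').1 h1
    omega
  obtain ⟨Gp, hGp⟩ : ∃ Gp : Subgroup G, Gp = (powMonoidHom (p ^ E) : G →* G).ker := ⟨_, rfl⟩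
  have hmem : ∀ x : G, x ∈ Gp ↔ x ^ p ^ E = 1 := by
    intro x
    rw [hGp, MonoidHom.mem_ker]
    rfl
  have hτE : τ ^ p ^ E = 1 := by
    have h1 : orderOf τ ∣ p ^ e := orderOf_dvd_of_pow_eq_one hτ
    have h2 : orderOf τ ∣ N := orderOf_dvd_of_pow_eq_one (hpow τ)
    obtain ⟨j, -, hj⟩ := (Nat.dvd_prime_pow hp).1 h1
    rw [hj, Nat.Prime.pow_dvd_iff_le_factorization hp hN.ne', ← hE] at h2
    exact orderOf_dvd_iff_pow_eq_one.1 (by rw [hj]; exact pow_dvd_pow p h2)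
  have hfin : Fintype Gp := Fintype.ofFinite _
  have hpe : ∀ x : Gp, x ^ p ^ E = 1 := fun x => by
    apply Subtype.ext
    exact (hmem x.1).1 x.2
  have hpN' : ∀ x : Gp, x ^ N = 1 := fun x => by
    apply Subtype.ext
    exact hpow x.1
  have hen : HasEnoughRootsOfUnity M N := rp_enough M N hM
  have hen2 : HasEnoughRootsOfUnity M (Monoid.exponent Gp) :=
    HasEnoughRootsOfUnity.of_dvd M (Monoid.exponent_dvd_of_forall_pow_eq_one hpN')
  obtain ⟨π, hπ⟩ : ∃ π : ι → (Gp →* (M)ˣ), ∀ i x, π i x = x.1.1 i :=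
    ⟨fun i => ((Pi.evalMonoidHom (fun _ : ι => (M)ˣ) i).comp G.subtype).comp Gp.subtype,
      fun _ _ => rfl⟩
  have hy : ∀ x : Gp, rpY M G a x.1 = ∑ i, a i * ((π i x : (M)ˣ) : M) := by
    intro x
    simp only [hπ]
    rfl
  have hsp : ∀ x : Gp, ∃ s : M ≃ₐ[ℚ] M, (∀ ω : M, ω ^ N = 1 → s ω = ω) ∧
      ∀ x' : Gp, s (rpY M G a x'.1) = rpY M G a (x * x').1 := by
    intro x
    obtain ⟨s, h1, h2⟩ := hs x.1
    exact ⟨s, h1, fun x' => h2 x'.1⟩
  -- the coordinates are powers of the coordinate `i₀`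
  obtain ⟨A, hA⟩ : ∃ A : ℕ, Nat.card (π i₀).range = p ^ A := by
    have h1 : IsPGroup p (π i₀).range := by
      rintro ⟨_, g, rfl⟩
      refine ⟨E, Subtype.ext ?_⟩
      show (π i₀ g) ^ p ^ E = 1
      rw [← map_pow, hpe, map_one]
    have h2 : Finite (π i₀).range := inferInstance
    exact h1.exists_card_eq
  have hcoord : ∀ i ∈ J, π i = π i₀ ^ k i := by
    intro i hi
    ext x : 1
    rw [MonoidHom.pow_apply, hπ, hπ]
    have h1 : (x.1.1 i / x.1.1 i₀ ^ k i) ^ N₁ = 1 := hrel i i₀ (k i) N₁ (hw i hi) x.1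
    have h2 : (x.1.1 i / x.1.1 i₀ ^ k i) ^ p ^ E = 1 := by
      have h3 := hpe x
      have h4 : ∀ j, (x.1.1 j) ^ p ^ E = 1 := fun j => by
        have h5 := congrArg (fun z : Gp => z.1.1 j) h3
        exact h5
      rw [div_pow, h4, ← pow_mul, mul_comm (k i), pow_mul, h4, one_pow, div_one]
    have h3 : orderOf (x.1.1 i / x.1.1 i₀ ^ k i) = 1 :=
      Nat.eq_one_of_dvd_coprimes (hcp E) (orderOf_dvd_of_pow_eq_one h1)
        (orderOf_dvd_of_pow_eq_one h2)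
    exact div_eq_one.1 (orderOf_eq_one_iff.1 h3)
  -- the power of `x` in `L`
  have hxL : g i₀ ^ p ^ A ∈ L := by
    refine hfix i₀ (p ^ A) fun τ' => ?_
    have h1 : (τ'.1 i₀) ^ p ^ v = 1 := by
      have h2 := hrel i₀ i₀ 0 (p ^ v) (by rw [pow_zero, div_one]; exact hv) τ'
      rw [pow_zero, div_one] at h2
      exact h2
    have h2 : τ' ^ N' ∈ Gp := by
      rw [hmem, ← pow_mul, mul_comm, ← hN']
      exact hpow τ'
    have h3 : ((τ'.1 i₀) ^ p ^ A) ^ N' = 1 := by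
      have h4 : (⟨π i₀ ⟨τ' ^ N', h2⟩, ⟨_, rfl⟩⟩ : (π i₀).range) ^ p ^ A = 1 := by
        rw [← hA]
        exact pow_card_eq_one'
      have h5 : (π i₀ ⟨τ' ^ N', h2⟩) ^ p ^ A = 1 := congrArg Subtype.val h4
      rw [← pow_mul, mul_comm, pow_mul]
      rw [hπ] at h5
      exact h5
    have h4 : ((τ'.1 i₀) ^ p ^ A) ^ p ^ v = 1 := by
      rw [← pow_mul, mul_comm, pow_mul, h1, one_pow]
    have h5 : orderOf ((τ'.1 i₀) ^ p ^ A) = 1 :=
      Nat.eq_one_of_dvd_coprimes (Nat.Coprime.pow_right v hN'p) (orderOf_dvd_of_pow_eq_one h3)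
        (orderOf_dvd_of_pow_eq_one h4)
    exact orderOf_eq_one_iff.1 h5
  have hp2 : p ≠ 2 := by
    rintro rfl
    have h1 := Real.log_two_gt_d9
    push_cast at hc
    linarith
  have key : ∃ χ : Gp →* (M)ˣ, ∀ x : Gp, rpY M G a x.1 = ((χ x : (M)ˣ) : M) *
      rpY M G a (1 : Gp).1 := by
    obtain ⟨-, hB⟩ := rp_num (k := 2) hp hh (by simpa using hc)
    have hB' : 4 * h + 2 * (1 * Real.log p / (p - 1)) < Real.log 2 / 5040 := by
      have h1 : (((2 - 1 : ℕ) : ℝ)) = 1 := by norm_num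
      rw [h1] at hB
      exact hB
    have hB0 : 0 ≤ 1 * Real.log p / ((p : ℝ) - 1) := by
      have h1 : (1 : ℝ) ≤ p := by exact_mod_cast hp.one_lt.le
      exact div_nonneg (mul_nonneg zero_le_one (Real.log_nonneg h1)) (by linarith)
    refine eig_step N hpN' π a (fun x : Gp => rpY M G a x.1) hy hy0 hsp
      (4 * h + 2 * (1 * Real.log p / (p - 1))) (by linarith) hB' fun A' => ?_
    have h1 := kum_cnt_box M p E hpe π a (fun x : Gp => rpY M G a x.1) hy 1 zero_le_one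
      (fun σ q S K hS hK hdet => ?_) h (fun x => hyh x.1) A'
    · refine h1.trans (le_of_eq ?_)
      congr 1
      ring
    · obtain ⟨σ', hσ'⟩ := rp_lift M σ
      obtain ⟨φ, hφe⟩ : ∃ φ : Qb →+* PadicAlgCl p, ∀ z : Qb, φ z = jj p (σ' z) :=
        ⟨(jj p).comp (σ' : Qb →+* Qb), fun _ => rfl⟩
      obtain ⟨ψ, hψ⟩ : ∃ ψ : M →+* PadicAlgCl p, ∀ z : M, ψ z = jj p ((σ z : M) : Qb) :=
        ⟨(jj p).comp ((algebraMap M Qb).comp (σ : M →+* M)), fun _ => rfl⟩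
      have hψφ : ∀ z : M, ψ z = φ (z : Qb) := fun z => by rw [hψ, hφe, hσ']
      obtain ⟨hφ1, hφ2, hφ3⟩ := hφ φ
      have h2 := loc_R_P hp2 A (π i₀) hA J π a (gM i₀) ψ (by rw [hψφ, hgM]; exact hφ1)
        (by
          rw [hψφ, hgM, ← map_pow]
          exact hφ3 A hxL)
        (fun i hi => ⟨k i, hcoord i hi, by
          have h3 := hφ2 i hi
          rw [map_div₀, map_pow, ← ha i, ← hgM i₀, ← hψφ, ← hψφ, div_eq_mul_inv] at h3
          exact h3⟩)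
        (fun i hi => by
          have h4 : IsIntegral ℤ (σ' ((mm : Qb) * (a i : Qb))) :=
            map_isIntegral_int (σ' : Qb →+* Qb) (by rw [ha i]; exact hint i hi)
          have h5 := nm_integral p _ h4
          have h3 : ¬ p ∣ mm := fun h => by
            have h4 := Nat.dvd_gcd h (dvd_refl p)
            rw [hmm.gcd_eq_one] at h4
            exact hp.one_lt.ne' (Nat.dvd_one.mp h4)
          rw [map_mul, map_natCast, nm_mul, rp_nm_nat hp h3, one_mul, nm_eq] at h5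
          rw [hψφ, hφe]
          exact h5) q S K hS hK
      have hpos : 0 < nm p ((σ ((TK π a).submatrix S K).det : M) : Qb) := by
        refine nm_pos p ?_
        intro h3
        have h4 : σ ((TK π a).submatrix S K).det = 0 := Subtype.ext h3
        exact hdet ((map_eq_zero σ).mp h4)
      have hp0 : (0 : ℝ) < p := by exact_mod_cast hp.pos
      have h3 : nm p ((σ ((TK π a).submatrix S K).det : M) : Qb) =
          ‖ψ ((TK π a).submatrix S K).det‖ := by rw [nm_eq, hψ]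
      rw [← h3] at h2
      have h4 := Real.log_le_log hpos h2
      have hC : (0 : ℝ) < (p : ℝ) ^ ((Fintype.card Gp : ℝ) / (p - 1)) :=
        Real.rpow_pos_of_pos hp0 _
      have hD : ∀ τ : Gp, (0 : ℝ) < max 1 ‖ψ (∑ i, a i * ((π i τ : (M)ˣ) : M))‖ := fun τ =>
        lt_of_lt_of_le one_pos (le_max_left _ _)
      rw [Real.log_mul hC.ne' (prod_pos fun τ _ => hD τ).ne', Real.log_rpow hp0,
        Real.log_prod fun τ _ => (hD τ).ne'] at h4
      have h5 : ∑ τ : Gp, Real.log (max 1 ‖ψ (∑ i, a i * ((π i τ : (M)ˣ) : M))‖) =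
          ∑ τ : Gp, Real.log (max 1 (nm p ((σ (rpY M G a τ.1) : M) : Qb))) := by
        refine sum_congr rfl fun τ _ => ?_
        rw [nm_eq, ← hψ, hy]
      have h6 : 0 ≤ ∑ τ : Gp, Real.log (max 1 (nm p ((σ (rpY M G a τ.1) : M) : Qb))) :=
        sum_nonneg fun τ _ => Real.log_nonneg (le_max_left _ _)
      rw [h5] at h4
      have h7 : (Fintype.card Gp : ℝ) / (p - 1) * Real.log p =
          (Fintype.card Gp : ℝ) * (1 * Real.log p / (p - 1)) := by ring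
      rw [h7] at h4
      linarith
  obtain ⟨χ, hχ⟩ := key
  refine ⟨((χ ⟨τ, (hmem τ).2 hτE⟩ : (M)ˣ) : M), ?_, hχ ⟨τ, (hmem τ).2 hτE⟩⟩
  rw [← Units.val_pow_eq_pow_val, ← map_pow, hpN', map_one, Units.val_one]

/-- one prime with the one-character condition -/
private theorem rp_prime_one {N : ℕ} (hN : 0 < N) (hpow : ∀ τ : G, τ ^ N = 1)
    (hM : ∀ z : Qb, z ^ N = 1 → z ∈ M)
    (hs : ∀ τ : G, ∃ s : M ≃ₐ[ℚ] M, (∀ ω : M, ω ^ N = 1 → s ω = ω) ∧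
      ∀ τ' : G, s (rpY M G a τ') = rpY M G a (τ * τ'))
    (hy0 : rpY M G a 1 ≠ 0) (h : ℝ) (hh0 : 0 ≤ h) (hh : h < Real.log 2 / 40320)
    (hyh : ∀ τ : G, hW (rpY M G a τ : Qb) = h) (L : IntermediateField ℚ Qb) (b g : ι → Qb)
    (ha : ∀ i, (a i : Qb) = b i * g i)
    (hrel : ∀ (i i₀ : ι) (k N₁ : ℕ), (g i / g i₀ ^ k) ^ N₁ ∈ L →
      ∀ τ : G, (τ.1 i / τ.1 i₀ ^ k) ^ N₁ = 1)
    {p : ℕ} (hp : p.Prime) (hpN : p ∣ N) (hO : OneAt L b g p)
    (e : ℕ) (τ : G) (hτ : τ ^ p ^ e = 1) : rpP M G a N τ := by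
  classical
  have hf : Fact p.Prime := ⟨hp⟩
  have hN0 : NeZero N := ⟨hN.ne'⟩
  obtain ⟨J, m, i₀, N₁, hm, hN₁, hint, hw⟩ := hO
  obtain ⟨Gp, hGp⟩ : ∃ Gp : Subgroup G, Gp = (powMonoidHom (p ^ e) : G →* G).ker := ⟨_, rfl⟩
  have hmem : ∀ x : G, x ∈ Gp ↔ x ^ p ^ e = 1 := by
    intro x
    rw [hGp, MonoidHom.mem_ker]
    rfl
  have hfin : Fintype Gp := Fintype.ofFinite _
  have hpe : ∀ x : Gp, x ^ p ^ e = 1 := fun x => by
    apply Subtype.ext
    exact (hmem x.1).1 x.2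
  have hpN' : ∀ x : Gp, x ^ N = 1 := fun x => by
    apply Subtype.ext
    exact hpow x.1
  have hen : HasEnoughRootsOfUnity M N := rp_enough M N hM
  have hen2 : HasEnoughRootsOfUnity M (Monoid.exponent Gp) :=
    HasEnoughRootsOfUnity.of_dvd M (Monoid.exponent_dvd_of_forall_pow_eq_one hpN')
  obtain ⟨π, hπ⟩ : ∃ π : ι → (Gp →* (M)ˣ), ∀ i x, π i x = x.1.1 i :=
    ⟨fun i => ((Pi.evalMonoidHom (fun _ : ι => (M)ˣ) i).comp G.subtype).comp Gp.subtype,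
      fun _ _ => rfl⟩
  have hcoord : ∀ i ∈ J, π i = π i₀ := by
    intro i hi
    ext x : 1
    rw [hπ, hπ]
    have h1 : (x.1.1 i / x.1.1 i₀ ^ 1) ^ N₁ = 1 :=
      hrel i i₀ 1 N₁ (by rw [pow_one]; exact hw i hi) x.1
    rw [pow_one] at h1
    have h2 : (x.1.1 i / x.1.1 i₀) ^ p ^ e = 1 := by
      have h3 := hpe x
      have h4 : ∀ j, (x.1.1 j) ^ p ^ e = 1 := fun j => by
        have h5 := congrArg (fun z : Gp => z.1.1 j) h3
        exact h5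
      rw [div_pow, h4, h4, div_one]
    have h3 : orderOf (x.1.1 i / x.1.1 i₀) = 1 :=
      Nat.eq_one_of_dvd_coprimes (Nat.Coprime.pow_right e hN₁) (orderOf_dvd_of_pow_eq_one h1)
        (orderOf_dvd_of_pow_eq_one h2)
    exact div_eq_one.1 (orderOf_eq_one_iff.1 h3)
  -- the merged family
  obtain ⟨π', hπ'⟩ : ∃ π' : Option {i // i ∉ J} → (Gp →* (M)ˣ), (π' none = π i₀) ∧
      ∀ i : {i // i ∉ J}, π' (some i) = π i :=
    ⟨fun o => o.elim (π i₀) fun i => π i, rfl, fun _ => rfl⟩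
  obtain ⟨a', ha'⟩ : ∃ a' : Option {i // i ∉ J} → M, (a' none = ∑ i ∈ J, a i) ∧
      ∀ i : {i // i ∉ J}, a' (some i) = a i :=
    ⟨fun o => o.elim (∑ i ∈ J, a i) fun i => a i, rfl, fun _ => rfl⟩
  have hy : ∀ x : Gp, rpY M G a x.1 = ∑ o, a' o * ((π' o x : (M)ˣ) : M) := by
    intro x
    rw [Fintype.sum_option, hπ'.1, ha'.1]
    have h1 : ∑ i : {i // i ∉ J}, a' (some i) * ((π' (some i) x : (M)ˣ) : M) =
        ∑ i ∈ Jᶜ, a i * ((π i x : (M)ˣ) : M) := by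
      rw [Finset.sum_subtype Jᶜ (p := fun i => i ∉ J) (fun i => Finset.mem_compl)]
      refine Finset.sum_congr rfl fun i _ => ?_
      rw [hπ'.2, ha'.2]
    have h2 : (∑ i ∈ J, a i) * ((π i₀ x : (M)ˣ) : M) = ∑ i ∈ J, a i * ((π i x : (M)ˣ) : M) := by
      rw [Finset.sum_mul]
      refine Finset.sum_congr rfl fun i hi => ?_
      rw [hcoord i hi]
    rw [h1, h2, Finset.sum_add_sum_compl]
    unfold rpY
    refine Finset.sum_congr rfl fun i _ => ?_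
    rw [hπ]
  have hsp : ∀ x : Gp, ∃ s : M ≃ₐ[ℚ] M, (∀ ω : M, ω ^ N = 1 → s ω = ω) ∧
      ∀ x' : Gp, s (rpY M G a x'.1) = rpY M G a (x * x').1 := by
    intro x
    obtain ⟨s, h1, h2⟩ := hs x.1
    exact ⟨s, h1, fun x' => h2 x'.1⟩
  have key : ∃ χ : Gp →* (M)ˣ, ∀ x : Gp, rpY M G a x.1 = ((χ x : (M)ˣ) : M) *
      rpY M G a (1 : Gp).1 := by
    have henp : HasEnoughRootsOfUnity M p := HasEnoughRootsOfUnity.of_dvd M hpN
    have hp0 : NeZero p := ⟨hp.ne_zero⟩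
    obtain ⟨ζ, hζ⟩ := HasEnoughRootsOfUnity.exists_primitiveRoot M p
    have h3 : ¬ p ∣ m := fun h => by
      have h4 := Nat.dvd_gcd h (dvd_refl p)
      rw [hm.gcd_eq_one] at h4
      exact hp.one_lt.ne' (Nat.dvd_one.mp h4)
    have hJ : ∀ o : Option {i // i ∉ J}, o ∉ ({none} : Finset (Option {i // i ∉ J})) →
        ∀ σ : M ≃ₐ[ℚ] M, nm p ((σ (a' o) : M) : Qb) ≤ 1 := by
      intro o ho σ
      rcases o with - | ⟨i, hi⟩
      · exact absurd (Finset.mem_singleton_self _) ho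
      · rw [ha'.2]
        obtain ⟨σ', hσ'⟩ := rp_lift M σ
        have h4 : IsIntegral ℤ (σ' ((m : Qb) * (a i : Qb))) :=
          map_isIntegral_int (σ' : Qb →+* Qb) (by rw [ha i]; exact hint i hi)
        have h5 := nm_integral p _ h4
        rw [map_mul, map_natCast, nm_mul, rp_nm_nat hp h3, one_mul] at h5
        rw [hσ']
        exact h5
    have hB : 4 * h < Real.log 2 / 5040 := by
      have h1 : Real.log 2 / 40320 * 4 = Real.log 2 / 10080 := by ring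
      have h2 : Real.log 2 / 5040 = Real.log 2 / 10080 + Real.log 2 / 10080 := by ring
      have h3 : 0 < Real.log 2 := Real.log_pos one_lt_two
      have h4 : 0 < Real.log 2 / 10080 := by positivity
      linarith
    refine eig_step N hpN' π' a' (fun x : Gp => rpY M G a x.1) hy hy0 hsp (4 * h) (by linarith) hB
      fun A => ?_
    have h1 := kum_cnt_sparse M p e hpe ζ hζ ({none} : Finset (Option {i // i ∉ J}))
      (by simp) π' a' hJ (fun x : Gp => rpY M G a x.1) hy h (fun x => hyh x.1) A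
    refine h1.trans (le_of_eq ?_)
    congr 1
    simp
    ring
  obtain ⟨χ, hχ⟩ := key
  refine ⟨((χ ⟨τ, (hmem τ).2 hτ⟩ : (M)ˣ) : M), ?_, hχ ⟨τ, (hmem τ).2 hτ⟩⟩
  rw [← Units.val_pow_eq_pow_val, ← map_pow, hpN', map_one, Units.val_one]

end core

theorem kum_all_P (L : IntermediateField ℚ Qb) [FiniteDimensional ℚ L] (N : ℕ) (hN : 0 < N)
    (hμ : ∀ z : Qb, z ^ N = 1 → z ∈ L) {ι : Type} [Fintype ι] (b g : ι → Qb)
    (hb : ∀ i, b i ∈ L) (hg : ∀ i, g i ^ N ∈ L) (hg0 : ∀ i, g i ≠ 0)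
    (hp : ∀ (p : ℕ) [Fact p.Prime], p ∣ N → RadAtP L b g p ∨ OneAt L b g p ∨
      ∃ (J : Finset ι) (m : ℕ),
      30000 * ((J.card - 1 : ℕ) : ℝ) * Real.log p ≤ p ∧ m.Coprime p ∧
      ∀ i, i ∉ J → IsIntegral ℤ ((m : Qb) * (b i * g i)))
    (hα0 : ∑ i, b i * g i ≠ 0) (hne : ∀ i, ∀ c ∈ L, ∑ i, b i * g i ≠ c * g i) :
    Real.log 2 / 40320 ≤ hW (∑ i, b i * g i) := by
  classical
  by_contra hcon
  push Not at hcon
  obtain ⟨M, hM1, hM2, G, hG, a, gM, hpow, hzM, ha, hgM, hs, hχ, hrel, hfix⟩ :=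
    kum_build_R L N hN hμ b g hb hg hg0 hα0 hne
  have hs' : ∀ τ : G, ∃ s : M ≃ₐ[ℚ] M, (∀ ω : M, ω ^ N = 1 → s ω = ω) ∧
      ∀ τ' : G, s (rpY M G a τ') = rpY M G a (τ * τ') := hs
  have hy1 : rpY M G a 1 = ∑ i, a i := by
    unfold rpY
    refine Finset.sum_congr rfl fun i _ => ?_
    have h1 : (((1 : G).1 i : (M)ˣ) : M) = 1 := rfl
    rw [h1, mul_one]
  have hy1v : ((rpY M G a 1 : M) : Qb) = ∑ i, b i * g i := by
    rw [hy1, IntermediateField.coe_sum]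
    exact Finset.sum_congr rfl fun i _ => ha i
  have hy0 : rpY M G a 1 ≠ 0 := fun h => hα0 (by rw [← hy1v, h]; rfl)
  have hyh : ∀ τ : G, hW (rpY M G a τ : Qb) = hW (∑ i, b i * g i) := by
    intro τ
    obtain ⟨s, -, h2⟩ := hs' τ
    obtain ⟨s', hs'⟩ := rp_lift M s
    have h3 := h2 1
    rw [mul_one] at h3
    rw [← h3, hs', hW_conj, hy1v]
  have hpr : ∀ p : ℕ, p.Prime → p ∣ N → ∀ (e : ℕ) (τ : G), τ ^ p ^ e = 1 → rpP M G a N τ := by
    intro p hpp hpN e τ hτ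
    have hf : Fact p.Prime := ⟨hpp⟩
    rcases hp p hpN with hR | hO | ⟨J, m, hc, hm, hint⟩
    · exact rp_prime_R M hN hpow hzM hs' hy0 _ (hW_nonneg _) hcon hyh L b g gM ha hgM hrel hfix hpN
        hR e τ hτ
    · exact rp_prime_one M hN hpow hzM hs' hy0 _ (hW_nonneg _) hcon hyh L b g ha hrel hpp hpN
        hO e τ hτ
    refine rp_prime M hN hpow hzM hs' hy0 _ (hW_nonneg _) hcon hyh hpp hpN J m hc hm ?_ e τ hτ
    intro i hi
    rw [ha i]
    exact hint i hi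
  have hall : ∀ τ : G, rpP M G a N τ := fun τ => rp_all M hN hs' hpr N dvd_rfl τ (hpow τ)
  have hne0 : ∀ τ : G, rpY M G a τ / rpY M G a 1 ≠ 0 := by
    intro τ
    obtain ⟨ω, hω, h1⟩ := hall τ
    rw [h1, mul_div_cancel_right₀ _ hy0]
    rintro rfl
    rw [zero_pow hN.ne'] at hω
    exact zero_ne_one hω
  let χ : G →* (M)ˣ :=
    { toFun := fun τ => Units.mk0 (rpY M G a τ / rpY M G a 1) (hne0 τ)
      map_one' := by
        apply Units.ext
        rw [Units.val_mk0, div_self hy0, Units.val_one]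
      map_mul' := by
        intro τ τ'
        apply Units.ext
        rw [Units.val_mul, Units.val_mk0, Units.val_mk0, Units.val_mk0]
        obtain ⟨ω', hω', h1⟩ := hall τ'
        obtain ⟨s, hs1, hs2⟩ := hs' τ
        have h3 := hs2 τ'
        have h4 := hs2 1
        rw [mul_one] at h4
        rw [h1, map_mul, hs1 ω' hω', h4] at h3
        rw [← h3, h1, mul_div_cancel_right₀ _ hy0]
        ring }
  obtain ⟨τ, hτ⟩ := hχ χ
  apply hτ
  have h1 : ((χ τ : (M)ˣ) : M) = rpY M G a τ / rpY M G a 1 := rfl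
  rw [h1, ← hy1, div_mul_cancel₀ _ hy0]
  rfl

end MP4270U
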