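import Mathlib

/-!
# MP_4270a5_nt, piece RCR: minors by Cramer's rule

PAPER PROOF. Lift `A` to a matrix `A'` over `U`. `1 + u A` has determinant `≠ 0` (`V (1 + u A) = diag(1 + u f) V`, `det V ≠ 0`, `1 + u f_k ≠ 0` since its norm is `≥ 1`);
`H = (1 + u A)⁻¹` has entries in `U` (inverse over `U`), `V H = diag((1 + u f_k)⁻¹) V`, `det H = ∏ (1 + u f_k)⁻¹`, so `‖det H‖ = ∏ (max 1 ‖f k‖)⁻¹`. Choose a bijection
`e : Fin n ≃ Fin q ⊕ {s // s ∉ Set.range S}` such that `e (S i) = inl i`, `e s = inr s`. `B i c` = `A i (K k)` if `e c = inl k`, and `if i = s then 1 else 0` if `e c = inr s`.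
After reindexing with `e` on both sides `B` is block triangular: `det B = det (A.submatrix S K)` (`Matrix.det_fromBlocks_zero₁₂` or `₂₁`, `Matrix.det_submatrix_equiv_self`).
`M = H * B` has entries in `U`, and `V M` has entries `(1 + u f_i)⁻¹ f_i V i (K k)` and `(1 + u f_i)⁻¹ V i s`, of norm `≤ 1` since `‖1 + u f_i‖ = max 1 ‖f_i‖`. So
`‖det H‖ ‖det B‖ ≤ c` by `hc`.
-/

namespace MP4270U

open Finset

private theorem rcr_block {R : Type*} [CommRing R] {n q : ℕ} (C : Matrix (Fin n) (Fin n) R)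
    (K : Fin q → Fin n) (hK : Function.Injective K) (P : Fin n → Prop) [DecidablePred P]
    (hP : ∀ j, P j ↔ j ∈ Set.range K) :
    (C.toSquareBlockProp P).det = (C.submatrix K K).det := by
  have e : ∃ e : Fin q ≃ {j // P j}, ∀ a, (e a : Fin n) = K a :=
    ⟨(Equiv.ofInjective K hK).trans (Equiv.subtypeEquivRight fun j => (hP j).symm), fun _ => rfl⟩
  obtain ⟨e, he⟩ := e
  rw [← Matrix.det_submatrix_equiv_self e]
  congr 1
  ext a b
  rw [Matrix.submatrix_apply, Matrix.toSquareBlockProp_def, Matrix.of_apply, he, he,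
    Matrix.submatrix_apply]

theorem cramer_bound {E : Type*} [NormedField E] [IsUltrametricDist E] (U : Subfield E) {n : ℕ}
    (V : Matrix (Fin n) (Fin n) E) (hV : V.det ≠ 0) (hV1 : ∀ i j, ‖V i j‖ ≤ 1) (c : ℝ)
    (hc : ∀ M : Matrix (Fin n) (Fin n) E, (∀ i j, M i j ∈ U) → (∀ i j, ‖(V * M) i j‖ ≤ 1) → ‖M.det‖ ≤ c)
    (A : Matrix (Fin n) (Fin n) E) (hA : ∀ i j, A i j ∈ U) (f : Fin n → E)
    (hVA : V * A = Matrix.diagonal f * V) (u : E) (hu : u ∈ U) (huf : ∀ k, ‖1 + u * f k‖ = max 1 ‖f k‖)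
    (q : ℕ) (S K : Fin q → Fin n) (hS : Function.Injective S) (hK : Function.Injective K) :
    ‖(A.submatrix S K).det‖ ≤ c * ∏ k, max 1 ‖f k‖ := by
  classical
  have hm0 : ∀ k, (0 : ℝ) < max 1 ‖f k‖ := fun k => lt_of_lt_of_le one_pos (le_max_left _ _)
  have hg0 : ∀ k, 1 + u * f k ≠ 0 := by
    intro k h0
    have h1 := huf k
    rw [h0, norm_zero] at h1
    exact (hm0 k).ne h1
  obtain ⟨g, hg⟩ : ∃ g : Fin n → E, ∀ k, g k = 1 + u * f k := ⟨_, fun _ => rfl⟩
  have hgn : ∀ k, ‖g k‖ = max 1 ‖f k‖ := fun k => by rw [hg, huf]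
  have hgne : ∀ k, g k ≠ 0 := fun k => by rw [hg]; exact hg0 k
  -- the matrix `1 + u A`
  obtain ⟨A', hA'⟩ : ∃ A' : Matrix (Fin n) (Fin n) U, ∀ i j, (A' i j : E) = A i j :=
    ⟨fun i j => ⟨A i j, hA i j⟩, fun _ _ => rfl⟩
  have hAm : A = A'.map U.subtype := by
    ext i j
    exact (hA' i j).symm
  obtain ⟨Q', hQ'⟩ : ∃ Q' : Matrix (Fin n) (Fin n) U, Q' = 1 + (⟨u, hu⟩ : U) • A' := ⟨_, rfl⟩
  have hQm : Q'.map U.subtype = 1 + u • A := by
    rw [hQ', hAm]
    ext i j
    by_cases hij : i = j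
    · subst hij
      simp
    · simp [Matrix.one_apply_ne hij]
  have hVQ : V * Q'.map U.subtype = Matrix.diagonal g * V := by
    rw [hQm, Matrix.mul_add, Matrix.mul_one, Matrix.mul_smul, hVA]
    ext i j
    rw [Matrix.add_apply, Matrix.smul_apply, Matrix.diagonal_mul, Matrix.diagonal_mul, hg,
      smul_eq_mul]
    ring
  have hQdet : (Q'.map U.subtype).det = ∏ k, g k := by
    have h1 := congrArg Matrix.det hVQ
    rw [Matrix.det_mul, Matrix.det_mul, Matrix.det_diagonal, mul_comm] at h1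
    exact mul_right_cancel₀ hV h1
  have hQ0 : Q'.det ≠ 0 := by
    intro h0
    have h1 := RingHom.map_det U.subtype Q'
    rw [h0, map_zero] at h1
    have h2 : (∏ k, g k) = 0 := by
      rw [← hQdet]
      exact h1.symm
    exact (prod_ne_zero_iff.2 fun k _ => hgne k) h2
  obtain ⟨H, hH⟩ : ∃ H : Matrix (Fin n) (Fin n) E, H = (Q'⁻¹).map U.subtype := ⟨_, rfl⟩
  have hQH : Q'.map U.subtype * H = 1 := by
    rw [hH, ← Matrix.map_mul, Matrix.mul_nonsing_inv _ (isUnit_iff_ne_zero.2 hQ0)]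
    exact Matrix.map_one _ (map_zero _) (map_one _)
  have hVH : V * H = Matrix.diagonal (fun k => (g k)⁻¹) * V := by
    have h1 : Matrix.diagonal (fun k => (g k)⁻¹) * (V * Q'.map U.subtype) = V := by
      rw [hVQ, ← Matrix.mul_assoc, Matrix.diagonal_mul_diagonal]
      have h2 : (fun k => (g k)⁻¹ * g k) = fun _ => (1 : E) :=
        funext fun k => inv_mul_cancel₀ (hgne k)
      rw [h2, Matrix.diagonal_one, Matrix.one_mul]
    calc V * H = Matrix.diagonal (fun k => (g k)⁻¹) * (V * Q'.map U.subtype) * H := by rw [h1]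
      _ = Matrix.diagonal (fun k => (g k)⁻¹) * V * (Q'.map U.subtype * H) := by
          simp only [Matrix.mul_assoc]
      _ = _ := by rw [hQH, Matrix.mul_one]
  have hHdet : ‖H.det‖ * ∏ k, max 1 ‖f k‖ = 1 := by
    have h1 := congrArg Matrix.det hQH
    rw [Matrix.det_mul, Matrix.det_one, hQdet] at h1
    have h2 := congrArg norm h1
    rw [norm_mul, norm_prod, norm_one, prod_congr rfl fun k _ => hgn k, mul_comm] at h2
    exact h2
  -- the permutation
  obtain ⟨σ, hσ⟩ : ∃ σ : Equiv.Perm (Fin n), ∀ a, σ (K a) = S a := by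
    refine ⟨((Equiv.ofInjective K hK).symm.trans (Equiv.ofInjective S hS)).extendSubtype,
      fun a => ?_⟩
    rw [Equiv.extendSubtype_apply_of_mem _ _ (Set.mem_range_self a)]
    have h1 : (Equiv.ofInjective K hK).symm ⟨K a, Set.mem_range_self a⟩ = a := by
      rw [Equiv.symm_apply_eq]
      rfl
    rw [Equiv.trans_apply, h1]
    rfl
  obtain ⟨B, hB⟩ : ∃ B : Matrix (Fin n) (Fin n) E, ∀ i j, B i j =
      if j ∈ Set.range K then A i j else if i = σ j then 1 else 0 := ⟨_, fun _ _ => rfl⟩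
  have hBU : ∀ i j, B i j ∈ U := by
    intro i j
    rw [hB]
    split_ifs
    · exact hA i j
    · exact U.one_mem
    · exact U.zero_mem
  have hBdet : ‖B.det‖ = ‖(A.submatrix S K).det‖ := by
    have h1 := Matrix.det_permute σ B
    have h2 : ‖(B.submatrix σ id).det‖ = ‖B.det‖ := by
      rw [h1]
      rcases Int.units_eq_one_or (Equiv.Perm.sign σ) with h | h <;> rw [h] <;> simp
    obtain ⟨P, hP⟩ : ∃ P : Fin n → Prop, ∀ j, P j ↔ j ∈ Set.range K := ⟨_, fun _ => Iff.rfl⟩
    rw [← h2, Matrix.twoBlockTriangular_det' (B.submatrix σ id) P]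
    · have h3 : ((B.submatrix σ id).toSquareBlockProp fun j => ¬ P j) = 1 := by
        ext i j
        rw [Matrix.toSquareBlockProp_def, Matrix.of_apply, Matrix.submatrix_apply, id, hB,
          if_neg (fun h => j.2 ((hP _).2 h))]
        by_cases hij : i = j
        · subst hij
          simp
        · rw [Matrix.one_apply_ne hij, if_neg]
          intro h
          exact hij (Subtype.ext (σ.injective h))
      rw [h3, Matrix.det_one, mul_one]
      rw [rcr_block _ K hK P hP]
      congr 2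
      ext a b
      rw [Matrix.submatrix_apply, Matrix.submatrix_apply, id, hB, Matrix.submatrix_apply,
        if_pos (Set.mem_range_self b), hσ]
    · intro i hi j hj
      rw [Matrix.submatrix_apply, id, hB, if_neg (fun h => hj ((hP _).2 h)), if_neg]
      intro h
      exact hj (by rw [← σ.injective h]; exact hi)
  -- the matrix `H B`
  have hM := hc (H * B) (by
      intro i j
      rw [Matrix.mul_apply]
      refine U.sum_mem fun k _ => U.mul_mem ?_ (hBU k j)
      rw [hH]
      exact ((Q'⁻¹) i k).2) (by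
      intro i j
      rw [← Matrix.mul_assoc, hVH, Matrix.mul_assoc, Matrix.diagonal_mul, norm_mul, norm_inv, hgn,
        inv_mul_le_iff₀ (hm0 i), mul_one]
      by_cases hj : j ∈ Set.range K
      · have h1 : (V * B) i j = f i * V i j := by
          have h2 := congrFun (congrFun hVA i) j
          rw [Matrix.diagonal_mul] at h2
          rw [← h2, Matrix.mul_apply, Matrix.mul_apply]
          refine sum_congr rfl fun k _ => ?_
          rw [hB, if_pos hj]
        rw [h1, norm_mul]
        calc ‖f i‖ * ‖V i j‖ ≤ ‖f i‖ * 1 := by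
              gcongr
              exact hV1 i j
          _ ≤ _ := by rw [mul_one]; exact le_max_right _ _
      · have h1 : (V * B) i j = V i (σ j) := by
          rw [Matrix.mul_apply, sum_eq_single (σ j)]
          · rw [hB, if_neg hj, if_pos rfl, mul_one]
          · intro k _ hk
            rw [hB, if_neg hj, if_neg hk, mul_zero]
          · intro h
            exact absurd (mem_univ _) h
        rw [h1]
        exact (hV1 _ _).trans (le_max_left _ _))
  rw [Matrix.det_mul, norm_mul, hBdet] at hM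
  have hP0 : (0 : ℝ) ≤ ∏ k, max 1 ‖f k‖ := prod_nonneg fun k _ => (hm0 k).le
  calc ‖(A.submatrix S K).det‖ = ‖H.det‖ * ‖(A.submatrix S K).det‖ * ∏ k, max 1 ‖f k‖ := by
        rw [mul_right_comm, hHdet, one_mul]
    _ ≤ c * ∏ k, max 1 ‖f k‖ := mul_le_mul_of_nonneg_right hM hP0

end MP4270U
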