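import Pool.Agent.Lib_MP_4270a5_u.RCr

/-!
# MP_4270a5_nt, piece RCRP: minors by Cramer's rule, with an integral perturbation

PAPER PROOF. As `cramer_bound` (`RCr.lean`) with the index type `Y` for `Fin n` (`S K : Fin q → Y`), up to the bordered matrix
`B` = columns `A e_(K k) + Z e_(K k)` for the `q` columns of `K`, and unit vectors `e_s` for the others (`det B = ±` the minor). Expand the columns `A e_k + ∑_s Z s k e_s` by multilinearity of the
determinant (`MultilinearMap.map_sum` for `Matrix.detRowAlternating` of the transpose, or one column after the other, by induction on a finite set of columns): `det B` is a sum of products of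
integral coefficients and determinants of matrices whose columns are all of the form `A e_k` or `e_s`; each of these is at most `c ∏ max 1 ‖f k‖` by the argument of `cramer_bound`
(`H` times the matrix has entries in `U` and `V H A e_k`, `V H e_s` are integral). The norm is ultrametric (`IsUltrametricDist.norm_sum_le_of_forall_le_of_nonneg`).
-/

namespace MP4270U

open Finset

private theorem cp_block {R : Type*} [CommRing R] {Y : Type*} [Fintype Y] [DecidableEq Y] {q : ℕ}
    (C : Matrix Y Y R) (K : Fin q → Y) (hK : Function.Injective K) (P : Y → Prop) [DecidablePred P]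
    (hP : ∀ j, P j ↔ j ∈ Set.range K) :
    (C.toSquareBlockProp P).det = (C.submatrix K K).det := by
  have e : ∃ e : Fin q ≃ {j // P j}, ∀ a, (e a : Y) = K a :=
    ⟨(Equiv.ofInjective K hK).trans (Equiv.subtypeEquivRight fun j => (hP j).symm), fun _ => rfl⟩
  obtain ⟨e, he⟩ := e
  rw [← Matrix.det_submatrix_equiv_self e]
  congr 1
  ext a b
  rw [Matrix.submatrix_apply, Matrix.toSquareBlockProp_def, Matrix.of_apply, he, he,
    Matrix.submatrix_apply]

/-- a minor as the determinant of a bordered matrix -/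
private theorem cp_border {E : Type*} [NormedField E] {Y : Type*} [Fintype Y] [DecidableEq Y]
    (C : Matrix Y Y E) (q : ℕ) (S K : Fin q → Y) (hS : Function.Injective S)
    (hK : Function.Injective K) :
    ∃ (P : Y → Prop) (σ : Y → Y), ∀ B : Matrix Y Y E, (∀ i j, P j → B i j = C i j) →
      (∀ i j, ¬ P j → B i j = if i = σ j then 1 else 0) →
      ‖B.det‖ = ‖(C.submatrix S K).det‖ := by
  classical
  obtain ⟨σ, hσ⟩ : ∃ σ : Equiv.Perm Y, ∀ a, σ (K a) = S a := by
    refine ⟨((Equiv.ofInjective K hK).symm.trans (Equiv.ofInjective S hS)).extendSubtype,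
      fun a => ?_⟩
    rw [Equiv.extendSubtype_apply_of_mem _ _ (Set.mem_range_self a)]
    have h1 : (Equiv.ofInjective K hK).symm ⟨K a, Set.mem_range_self a⟩ = a := by
      rw [Equiv.symm_apply_eq]
      rfl
    rw [Equiv.trans_apply, h1]
    rfl
  obtain ⟨P, hP⟩ : ∃ P : Y → Prop, ∀ j, P j ↔ j ∈ Set.range K := ⟨_, fun _ => Iff.rfl⟩
  refine ⟨P, σ, fun B hB1 hB2 => ?_⟩
  have h1 := Matrix.det_permute σ B
  have h2 : ‖(B.submatrix σ id).det‖ = ‖B.det‖ := by
    rw [h1]
    rcases Int.units_eq_one_or (Equiv.Perm.sign σ) with h | h <;> rw [h] <;> simp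
  rw [← h2, Matrix.twoBlockTriangular_det' (B.submatrix σ id) P]
  · have h3 : ((B.submatrix σ id).toSquareBlockProp fun j => ¬ P j) = 1 := by
      ext i j
      rw [Matrix.toSquareBlockProp_def, Matrix.of_apply, Matrix.submatrix_apply, id, hB2 _ _ j.2]
      by_cases hij : i = j
      · subst hij
        simp
      · rw [Matrix.one_apply_ne hij, if_neg]
        intro h
        exact hij (Subtype.ext (σ.injective h))
    rw [h3, Matrix.det_one, mul_one]
    rw [cp_block _ K hK P hP]
    congr 2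
    ext a b
    rw [Matrix.submatrix_apply, Matrix.submatrix_apply, id, hB1 _ _ ((hP _).2 ⟨b, rfl⟩),
      Matrix.submatrix_apply, hσ]
  · intro i hi j hj
    rw [Matrix.submatrix_apply, id, hB2 _ _ hj, if_neg]
    intro h
    exact hj (by rw [← σ.injective h]; exact hi)

/-- matrices whose columns are columns of `A` or unit vectors -/
private theorem cp_pure {E : Type*} [NormedField E] (U : Subfield E) {Y : Type*}
    [Fintype Y] [DecidableEq Y] (V : Matrix Y Y E) (hV : V.det ≠ 0) (hV1 : ∀ i j, ‖V i j‖ ≤ 1) (c : ℝ)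
    (hc : ∀ M : Matrix Y Y E, (∀ i j, M i j ∈ U) → (∀ i j, ‖(V * M) i j‖ ≤ 1) → ‖M.det‖ ≤ c)
    (A : Matrix Y Y E) (hA : ∀ i j, A i j ∈ U) (f : Y → E)
    (hVA : V * A = Matrix.diagonal f * V) (u : E) (hu : u ∈ U) (huf : ∀ k, ‖1 + u * f k‖ = max 1 ‖f k‖)
    (B : Matrix Y Y E) (hB : ∀ j, (∃ k, ∀ i, B i j = A i k) ∨ ∃ s, ∀ i, B i j = if i = s then 1 else 0) :
    ‖B.det‖ ≤ c * ∏ k, max 1 ‖f k‖ := by
  classical
  have hm0 : ∀ k, (0 : ℝ) < max 1 ‖f k‖ := fun k => lt_of_lt_of_le one_pos (le_max_left _ _)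
  have hg0 : ∀ k, 1 + u * f k ≠ 0 := by
    intro k h0
    have h1 := huf k
    rw [h0, norm_zero] at h1
    exact (hm0 k).ne h1
  obtain ⟨g, hg⟩ : ∃ g : Y → E, ∀ k, g k = 1 + u * f k := ⟨_, fun _ => rfl⟩
  have hgn : ∀ k, ‖g k‖ = max 1 ‖f k‖ := fun k => by rw [hg, huf]
  have hgne : ∀ k, g k ≠ 0 := fun k => by rw [hg]; exact hg0 k
  -- the matrix `1 + u A`
  obtain ⟨A', hA'⟩ : ∃ A' : Matrix Y Y U, ∀ i j, (A' i j : E) = A i j :=
    ⟨fun i j => ⟨A i j, hA i j⟩, fun _ _ => rfl⟩
  have hAm : A = A'.map U.subtype := by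
    ext i j
    exact (hA' i j).symm
  obtain ⟨Q', hQ'⟩ : ∃ Q' : Matrix Y Y U, Q' = 1 + (⟨u, hu⟩ : U) • A' := ⟨_, rfl⟩
  have hQm : Q'.map U.subtype = 1 + u • A := by
    rw [hQ', hAm]
    ext i j
    by_cases hij : i = j
    · subst hij
      simp
    · simp [Matrix.one_apply_ne hij]
  have hVQ : V * Q'.map U.subtype = Matrix.diagonal g * V := by
    rw [hQm, Matrix.mul_add, Matrix.mul_one, Matrix.mul_smul, hVA]
    ext i j
    rw [Matrix.add_apply, Matrix.smul_apply, Matrix.diagonal_mul, Matrix.diagonal_mul, hg,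
      smul_eq_mul]
    ring
  have hQdet : (Q'.map U.subtype).det = ∏ k, g k := by
    have h1 := congrArg Matrix.det hVQ
    rw [Matrix.det_mul, Matrix.det_mul, Matrix.det_diagonal, mul_comm] at h1
    exact mul_right_cancel₀ hV h1
  have hQ0 : Q'.det ≠ 0 := by
    intro h0
    have h1 := RingHom.map_det U.subtype Q'
    rw [h0, map_zero] at h1
    have h2 : (∏ k, g k) = 0 := by
      rw [← hQdet]
      exact h1.symm
    exact (prod_ne_zero_iff.2 fun k _ => hgne k) h2
  obtain ⟨H, hH⟩ : ∃ H : Matrix Y Y E, H = (Q'⁻¹).map U.subtype := ⟨_, rfl⟩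
  have hQH : Q'.map U.subtype * H = 1 := by
    rw [hH, ← Matrix.map_mul, Matrix.mul_nonsing_inv _ (isUnit_iff_ne_zero.2 hQ0)]
    exact Matrix.map_one _ (map_zero _) (map_one _)
  have hVH : V * H = Matrix.diagonal (fun k => (g k)⁻¹) * V := by
    have h1 : Matrix.diagonal (fun k => (g k)⁻¹) * (V * Q'.map U.subtype) = V := by
      rw [hVQ, ← Matrix.mul_assoc, Matrix.diagonal_mul_diagonal]
      have h2 : (fun k => (g k)⁻¹ * g k) = fun _ => (1 : E) :=
        funext fun k => inv_mul_cancel₀ (hgne k)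
      rw [h2, Matrix.diagonal_one, Matrix.one_mul]
    calc V * H = Matrix.diagonal (fun k => (g k)⁻¹) * (V * Q'.map U.subtype) * H := by rw [h1]
      _ = Matrix.diagonal (fun k => (g k)⁻¹) * V * (Q'.map U.subtype * H) := by
          simp only [Matrix.mul_assoc]
      _ = _ := by rw [hQH, Matrix.mul_one]
  have hHdet : ‖H.det‖ * ∏ k, max 1 ‖f k‖ = 1 := by
    have h1 := congrArg Matrix.det hQH
    rw [Matrix.det_mul, Matrix.det_one, hQdet] at h1
    have h2 := congrArg norm h1
    rw [norm_mul, norm_prod, norm_one, prod_congr rfl fun k _ => hgn k, mul_comm] at h2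
    exact h2
  have hBU : ∀ i j, B i j ∈ U := by
    intro i j
    rcases hB j with ⟨k, hk⟩ | ⟨s, hs⟩
    · rw [hk]
      exact hA i k
    · rw [hs]
      split_ifs
      · exact U.one_mem
      · exact U.zero_mem
  have hM := hc (H * B) (by
      intro i j
      rw [Matrix.mul_apply]
      refine U.sum_mem fun k _ => U.mul_mem ?_ (hBU k j)
      rw [hH]
      exact ((Q'⁻¹) i k).2) (by
      intro i j
      rw [← Matrix.mul_assoc, hVH, Matrix.mul_assoc, Matrix.diagonal_mul, norm_mul, norm_inv, hgn,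
        inv_mul_le_iff₀ (hm0 i), mul_one]
      rcases hB j with ⟨k, hk⟩ | ⟨s, hs⟩
      · have h1 : (V * B) i j = f i * V i k := by
          have h2 := congrFun (congrFun hVA i) k
          rw [Matrix.diagonal_mul] at h2
          rw [← h2, Matrix.mul_apply, Matrix.mul_apply]
          refine sum_congr rfl fun l _ => ?_
          rw [hk]
        rw [h1, norm_mul]
        calc ‖f i‖ * ‖V i k‖ ≤ ‖f i‖ * 1 := by
              gcongr
              exact hV1 i k
          _ ≤ _ := by rw [mul_one]; exact le_max_right _ _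
      · have h1 : (V * B) i j = V i s := by
          rw [Matrix.mul_apply, sum_eq_single s]
          · rw [hs, if_pos rfl, mul_one]
          · intro k _ hk
            rw [hs, if_neg hk, mul_zero]
          · intro h
            exact absurd (mem_univ _) h
        rw [h1]
        exact (hV1 _ _).trans (le_max_left _ _))
  rw [Matrix.det_mul, norm_mul] at hM
  have hP0 : (0 : ℝ) ≤ ∏ k, max 1 ‖f k‖ := prod_nonneg fun k _ => (hm0 k).le
  calc ‖B.det‖ = ‖H.det‖ * ‖B.det‖ * ∏ k, max 1 ‖f k‖ := by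
        rw [mul_right_comm, hHdet, one_mul]
    _ ≤ c * ∏ k, max 1 ‖f k‖ := mul_le_mul_of_nonneg_right hM hP0

/-- expansion of the perturbed columns -/
private theorem cp_expand {E : Type*} [NormedField E] [IsUltrametricDist E] {Y : Type*}
    [Fintype Y] [DecidableEq Y] (A : Matrix Y Y E) (D : ℝ)
    (hD : ∀ B : Matrix Y Y E, (∀ j, (∃ k, ∀ i, B i j = A i k) ∨
      ∃ s, ∀ i, B i j = if i = s then 1 else 0) → ‖B.det‖ ≤ D) (J : Finset Y) :
    ∀ B : Matrix Y Y E, (∀ j, j ∉ J → (∃ k, ∀ i, B i j = A i k) ∨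
      ∃ s, ∀ i, B i j = if i = s then 1 else 0) →
      (∀ j, j ∈ J → ∃ (k : Y) (z : Y → E), (∀ i, ‖z i‖ ≤ 1) ∧ ∀ i, B i j = A i k + z i) →
      ‖B.det‖ ≤ D := by
  classical
  have hD0 : 0 ≤ D := (norm_nonneg _).trans (hD 1 fun j => Or.inr ⟨j, fun i => Matrix.one_apply⟩)
  induction J using Finset.induction_on with
  | empty => exact fun B hB _ => hD B fun j => hB j (notMem_empty j)
  | insert j0 J hj0 ih =>
    intro B hB1 hB2
    obtain ⟨k, z, hz, hBz⟩ := hB2 j0 (mem_insert_self _ _)
    -- one column replaced by a pure one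
    have key : ∀ v : Y → E, ((∃ k, ∀ i, v i = A i k) ∨ ∃ s, ∀ i, v i = if i = s then 1 else 0) →
        ‖(B.updateCol j0 v).det‖ ≤ D := by
      intro v hv
      refine ih _ ?_ ?_
      · intro j hj
        by_cases hjj : j = j0
        · subst hjj
          simp only [Matrix.updateCol_self]
          exact hv
        · simp only [Matrix.updateCol_ne hjj]
          exact hB1 j fun h => (mem_insert.1 h).elim hjj hj
      · intro j hj
        have hjj : j ≠ j0 := fun h => hj0 (h ▸ hj)
        simp only [Matrix.updateCol_ne hjj]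
        exact hB2 j (mem_insert_of_mem hj)
    have h1 : B = B.updateCol j0 ((fun i => A i k) + ∑ s, z s • fun i => if i = s then (1 : E) else 0) := by
      ext i j
      by_cases hjj : j = j0
      · subst hjj
        rw [Matrix.updateCol_self, Pi.add_apply, hBz, Finset.sum_apply]
        congr 1
        rw [Finset.sum_eq_single i]
        · simp
        · intro s _ hs
          simp [Ne.symm hs]
        · intro h
          exact absurd (mem_univ _) h
      · rw [Matrix.updateCol_ne hjj]
    rw [h1, Matrix.det_updateCol_add]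
    refine (IsUltrametricDist.norm_add_le_max _ _).trans (max_le (key _ (Or.inl ⟨k, fun _ => rfl⟩)) ?_)
    have h2 : (B.updateCol j0 (∑ s, z s • fun i => if i = s then (1 : E) else 0)).det =
        ∑ s, z s * (B.updateCol j0 (fun i => if i = s then (1 : E) else 0)).det := by
      obtain ⟨L, hL⟩ : ∃ L : (Y → E) →ₗ[E] E, ∀ v, L v = (B.updateCol j0 v).det :=
        ⟨{ toFun := fun v => (B.updateCol j0 v).det
           map_add' := fun v w => Matrix.det_updateCol_add B j0 v w
           map_smul' := fun a v => Matrix.det_updateCol_smul B j0 a v }, fun _ => rfl⟩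
      rw [← hL, map_sum]
      refine sum_congr rfl fun s _ => ?_
      rw [map_smul, smul_eq_mul, hL]
    rw [h2]
    refine IsUltrametricDist.norm_sum_le_of_forall_le_of_nonneg hD0 fun s _ => ?_
    rw [norm_mul]
    calc ‖z s‖ * _ ≤ 1 * D := mul_le_mul (hz s) (key _ (Or.inr ⟨s, fun _ => rfl⟩)) (norm_nonneg _)
          zero_le_one
      _ = D := one_mul D

theorem cramer_pert {E : Type*} [NormedField E] [IsUltrametricDist E] (U : Subfield E) {Y : Type*}
    [Fintype Y] [DecidableEq Y] (V : Matrix Y Y E) (hV : V.det ≠ 0) (hV1 : ∀ i j, ‖V i j‖ ≤ 1) (c : ℝ)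
    (hc : ∀ M : Matrix Y Y E, (∀ i j, M i j ∈ U) → (∀ i j, ‖(V * M) i j‖ ≤ 1) → ‖M.det‖ ≤ c)
    (A : Matrix Y Y E) (hA : ∀ i j, A i j ∈ U) (f : Y → E)
    (hVA : V * A = Matrix.diagonal f * V) (u : E) (hu : u ∈ U) (huf : ∀ k, ‖1 + u * f k‖ = max 1 ‖f k‖)
    (Z : Matrix Y Y E) (hZ : ∀ i j, ‖Z i j‖ ≤ 1)
    (q : ℕ) (S K : Fin q → Y) (hS : Function.Injective S) (hK : Function.Injective K) :
    ‖((A + Z).submatrix S K).det‖ ≤ c * ∏ k, max 1 ‖f k‖ := by
  classical
  obtain ⟨P, σ, hPσ⟩ := cp_border (A + Z) q S K hS hK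
  obtain ⟨B, hB⟩ : ∃ B : Matrix Y Y E, ∀ i j, B i j =
      if P j then (A + Z) i j else if i = σ j then 1 else 0 := ⟨_, fun _ _ => rfl⟩
  rw [← hPσ B (fun i j hj => by rw [hB, if_pos hj]) (fun i j hj => by rw [hB, if_neg hj])]
  refine cp_expand A _ (fun B hB => cp_pure U V hV hV1 c hc A hA f hVA u hu huf B hB)
    (univ.filter P) B ?_ ?_
  · intro j hj
    have hj' : ¬ P j := fun h => hj (mem_filter.2 ⟨mem_univ _, h⟩)
    exact Or.inr ⟨σ j, fun i => by rw [hB, if_neg hj']⟩
  · intro j hj
    exact ⟨j, fun i => Z i j, fun i => hZ i j, fun i => by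
      rw [hB, if_pos (mem_filter.1 hj).2, Matrix.add_apply]⟩

end MP4270U
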