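import Pool.Agent.Lib_MP_4270a5_nt.Defs

/-!
# MP_4270a5_nt, fourth part: simple radical fields (definitions)
-/

open IntermediateField

namespace MP4270U

open MP4270

/-- The maximal unramified extension of `ℚ_p` inside `PadicAlgCl p`: generated by the roots of unity of order prime to `p`. -/
noncomputable def Up (p : ℕ) [Fact p.Prime] : IntermediateField ℚ_[p] (PadicAlgCl p) :=
  adjoin ℚ_[p] {z | ∃ m : ℕ, 0 < m ∧ m.Coprime p ∧ z ^ m = 1}

end MP4270U
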