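import Pool.Agent.Lib_MP_4270a5_u.FinC

/-!
# MP_4270a5_nt, piece RFINA: the coefficient field is the union of number fields

PAPER PROOFS. `lc_mono`: `z^m = 1` implies `z^(m m') = 1`, `z^n = γ` implies `z^(n n') = γ^(n')`. `lc_fd`: let `Γ` be generated by the finite set `T`; for `t ∈ T` let `r_t^n = t`; if
`z^n = γ`, `γ = ∏ t^(k_t)`, then `z = w ∏ r_t^(k_t)` with `w^n = 1`; so `Lc F Γ m n` is contained in `F ⊔ adjoin` of a finite set of algebraic numbers (the `m`-th and `n`-th roots of unity and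
the `r_t`); a subfield of a number field is a number field (`IntermediateField.finiteDimensional_of_le` or `Submodule.finiteDimensional_of_le`). The statement `z ∈ F ⊔ adjoin (finite set)` for all
`z` with `z^n ∈ Γ` can be proved by `Subgroup.closure_induction` on `γ` for the property: every `n`-th root of `γ` is in the field.
`cf_level`: `IntermediateField.adjoin_induction` (compare `mem_FS` in `Lib_MP_4270a5_nt/FSb.lean`), with `lc_mono`.
-/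

open Polynomial IntermediateField Finset

namespace MP4270U

open MP4270

/-- `F(μ_m, Γ^{1/n})` -/
noncomputable def Lc (F : IntermediateField ℚ ℂ) (Γ : Subgroup ℂˣ) (m n : ℕ) : IntermediateField ℚ ℂ :=
  F ⊔ IntermediateField.adjoin ℚ ({z : ℂ | z ^ m = 1} ∪ {z : ℂ | ∃ γ ∈ Γ, z ^ n = (γ : ℂ)})

theorem lc_mono (F : IntermediateField ℚ ℂ) (Γ : Subgroup ℂˣ) {m n m' n' : ℕ} (hm : m ∣ m') (hn : n ∣ n') :
    Lc F Γ m n ≤ Lc F Γ m' n' := by
  refine sup_le_sup_left ?_ F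
  refine adjoin.mono _ _ _ ?_
  rintro z (hz | ⟨γ, hγ, hz⟩)
  · obtain ⟨k, rfl⟩ := hm
    left
    change z ^ (m * k) = 1
    have hz' : z ^ m = 1 := hz
    rw [pow_mul, hz', one_pow]
  · obtain ⟨k, rfl⟩ := hn
    right
    refine ⟨γ ^ k, Γ.pow_mem hγ k, ?_⟩
    rw [pow_mul, hz, Units.val_pow_eq_pow_val]

private theorem rfina_fin {m : ℕ} (hm : 0 < m) : {z : ℂ | z ^ m = 1}.Finite := by
  refine (Polynomial.nthRootsFinset m (1 : ℂ)).finite_toSet.subset ?_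
  intro z hz
  exact (Polynomial.mem_nthRootsFinset hm _).2 hz

theorem lc_fd (F : IntermediateField ℚ ℂ) [FiniteDimensional ℚ F] (Γ : Subgroup ℂˣ) (hΓ : Γ.FG)
    (halg : ∀ g ∈ Γ, IsAlgebraic ℚ (g : ℂ)) {m n : ℕ} (hm : 0 < m) (hn : 0 < n) :
    FiniteDimensional ℚ (Lc F Γ m n) := by
  classical
  obtain ⟨T, hT⟩ := hΓ
  have hroot : ∀ w : ℂ, ∃ z : ℂ, z ^ n = w := fun w => IsAlgClosed.exists_pow_nat_eq w hn
  choose r hr using hroot
  set A : Set ℂ := ({z : ℂ | z ^ m = 1} ∪ {z : ℂ | z ^ n = 1}) ∪ ((fun t : ℂˣ => r (t : ℂ)) '' (T : Set ℂˣ)) with hA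
  have hAfin : A.Finite := ((rfina_fin hm).union (rfina_fin hn)).union (T.finite_toSet.image _)
  have hpow : ∀ (z : ℂ) (k : ℕ), 0 < k → IsAlgebraic ℚ (z ^ k) → IsIntegral ℚ z := by
    intro z k hk h
    exact IsIntegral.of_pow hk h.isIntegral
  have hAint : ∀ z ∈ A, IsIntegral ℚ z := by
    rintro z ((hz | hz) | ⟨t, ht, rfl⟩)
    · have hz' : z ^ m = 1 := hz
      refine hpow z m hm ?_
      rw [hz']
      exact isAlgebraic_one
    · have hz' : z ^ n = 1 := hz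
      refine hpow z n hn ?_
      rw [hz']
      exact isAlgebraic_one
    · refine hpow _ n hn ?_
      rw [hr]
      refine halg t ?_
      rw [← hT]
      exact Subgroup.subset_closure ht
  have : Finite A := hAfin
  have : FiniteDimensional ℚ (IntermediateField.adjoin ℚ A) := finiteDimensional_adjoin hAint
  set E : IntermediateField ℚ ℂ := F ⊔ IntermediateField.adjoin ℚ A with hE
  have : FiniteDimensional ℚ E := finiteDimensional_sup F (IntermediateField.adjoin ℚ A)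
  have hAE : ∀ z ∈ A, z ∈ E := fun z hz =>
    (le_sup_right : IntermediateField.adjoin ℚ A ≤ E) (subset_adjoin _ _ hz)
  have h1E : ∀ z : ℂ, z ^ n = 1 → z ∈ E := fun z hz => hAE z (Or.inl (Or.inr hz))
  have hkum : ∀ γ ∈ Γ, ∀ z : ℂ, z ^ n = (γ : ℂ) → z ∈ E := by
    intro γ hγ
    rw [← hT] at hγ
    induction hγ using Subgroup.closure_induction with
    | mem t ht =>
      intro z hz
      have hrt : r (t : ℂ) ^ n = (t : ℂ) := hr _
      have hrt0 : r (t : ℂ) ≠ 0 := by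
        intro h0
        rw [h0, zero_pow hn.ne'] at hrt
        exact t.ne_zero hrt.symm
      have h1 : z / r (t : ℂ) ∈ E := by
        refine h1E _ ?_
        rw [div_pow, hz, hrt, div_self t.ne_zero]
      have h2 : r (t : ℂ) ∈ E := hAE _ (Or.inr ⟨t, ht, rfl⟩)
      have h3 : z = z / r (t : ℂ) * r (t : ℂ) := (div_mul_cancel₀ z hrt0).symm
      rw [h3]
      exact mul_mem h1 h2
    | one =>
      intro z hz
      refine h1E z ?_
      rw [hz, Units.val_one]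
    | mul γ1 γ2 _ _ h1 h2 =>
      intro z hz
      have hr1 : r (γ1 : ℂ) ^ n = (γ1 : ℂ) := hr _
      have hr0 : r (γ1 : ℂ) ≠ 0 := by
        intro h0
        rw [h0, zero_pow hn.ne'] at hr1
        exact γ1.ne_zero hr1.symm
      have h3 : r (γ1 : ℂ) ∈ E := h1 _ hr1
      have h4 : z / r (γ1 : ℂ) ∈ E := by
        refine h2 _ ?_
        rw [div_pow, hz, hr1, Units.val_mul, mul_div_cancel_left₀ _ γ1.ne_zero]
      have h5 : z = z / r (γ1 : ℂ) * r (γ1 : ℂ) := (div_mul_cancel₀ z hr0).symm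
      rw [h5]
      exact mul_mem h4 h3
    | inv γ1 _ h1 =>
      intro z hz
      have h2 : z⁻¹ ∈ E := by
        refine h1 _ ?_
        rw [inv_pow, hz, Units.val_inv_eq_inv_val, inv_inv]
      have h3 := inv_mem h2
      rwa [inv_inv] at h3
  have hle : Lc F Γ m n ≤ E := by
    refine sup_le le_sup_left ?_
    rw [adjoin_le_iff]
    rintro z (hz | ⟨γ, hγ, hz⟩)
    · exact hAE z (Or.inl (Or.inl hz))
    · exact hkum γ hγ z hz
  exact Module.Finite.of_injective (IntermediateField.inclusion hle).toLinearMap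
    (IntermediateField.inclusion_injective hle)

theorem cf_level (F : IntermediateField ℚ ℂ) (Γ : Subgroup ℂˣ) (S : Finset ℕ) {x : ℂ} (hx : x ∈ cf F Γ S) :
    ∃ m n : ℕ, 0 < m ∧ 0 < n ∧ n.primeFactors ⊆ S ∧ x ∈ Lc F Γ m n := by
  have hdir : ∀ {m₁ n₁ m₂ n₂ : ℕ}, 0 < m₁ → 0 < n₁ → n₁.primeFactors ⊆ S → 0 < m₂ → 0 < n₂ →
      n₂.primeFactors ⊆ S →
      ∃ m n : ℕ, 0 < m ∧ 0 < n ∧ n.primeFactors ⊆ S ∧ Lc F Γ m₁ n₁ ≤ Lc F Γ m n ∧
        Lc F Γ m₂ n₂ ≤ Lc F Γ m n := by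
    intro m₁ n₁ m₂ n₂ hm₁ hn₁ hS₁ hm₂ hn₂ hS₂
    refine ⟨m₁ * m₂, n₁ * n₂, Nat.mul_pos hm₁ hm₂, Nat.mul_pos hn₁ hn₂, ?_, ?_, ?_⟩
    · rw [Nat.primeFactors_mul hn₁.ne' hn₂.ne']
      exact Finset.union_subset hS₁ hS₂
    · exact lc_mono F Γ (Dvd.intro _ rfl) (Dvd.intro _ rfl)
    · exact lc_mono F Γ (Dvd.intro_left _ rfl) (Dvd.intro_left _ rfl)
  have hle : ∀ m n, F ≤ Lc F Γ m n := fun m n => le_sup_left
  have hcf : cf F Γ S = IntermediateField.adjoin ℚ ((F : Set ℂ) ∪ ({z : ℂ | ∃ n : ℕ, 0 < n ∧ z ^ n = 1} ∪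
      {z : ℂ | ∃ n : ℕ, 0 < n ∧ n.primeFactors ⊆ S ∧ ∃ g ∈ Γ, z ^ n = (g : ℂ)})) := by
    rw [adjoin_union, adjoin_self]
    rfl
  rw [hcf] at hx
  induction hx using IntermediateField.adjoin_induction with
  | mem z hz =>
    rcases hz with hz | hz | hz
    · exact ⟨1, 1, one_pos, one_pos, by simp, hle 1 1 hz⟩
    · obtain ⟨n, hn, hzn⟩ := hz
      refine ⟨n, 1, hn, one_pos, by simp, ?_⟩
      exact (le_sup_right : IntermediateField.adjoin ℚ ({z : ℂ | z ^ n = 1} ∪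
        {z : ℂ | ∃ γ ∈ Γ, z ^ 1 = (γ : ℂ)}) ≤ _) (subset_adjoin _ _ (Or.inl hzn))
    · obtain ⟨n, hn, hnS, g, hg, hzg⟩ := hz
      refine ⟨1, n, one_pos, hn, hnS, ?_⟩
      exact (le_sup_right : IntermediateField.adjoin ℚ ({z : ℂ | z ^ 1 = 1} ∪
        {z : ℂ | ∃ γ ∈ Γ, z ^ n = (γ : ℂ)}) ≤ _) (subset_adjoin _ _ (Or.inr ⟨g, hg, hzg⟩))
  | algebraMap q =>
    exact ⟨1, 1, one_pos, one_pos, by simp, hle 1 1 (F.algebraMap_mem q)⟩
  | add x y _ _ hx hy =>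
    obtain ⟨m₁, n₁, hm₁, hn₁, hS₁, hx'⟩ := hx
    obtain ⟨m₂, n₂, hm₂, hn₂, hS₂, hy'⟩ := hy
    obtain ⟨m, n, hm, hn, hS', hle1, hle2⟩ := hdir hm₁ hn₁ hS₁ hm₂ hn₂ hS₂
    exact ⟨m, n, hm, hn, hS', add_mem (hle1 hx') (hle2 hy')⟩
  | inv x _ hx =>
    obtain ⟨m₁, n₁, hm₁, hn₁, hS₁, hx'⟩ := hx
    exact ⟨m₁, n₁, hm₁, hn₁, hS₁, inv_mem hx'⟩
  | mul x y _ _ hx hy =>
    obtain ⟨m₁, n₁, hm₁, hn₁, hS₁, hx'⟩ := hx
    obtain ⟨m₂, n₂, hm₂, hn₂, hS₂, hy'⟩ := hy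
    obtain ⟨m, n, hm, hn, hS', hle1, hle2⟩ := hdir hm₁ hn₁ hS₁ hm₂ hn₂ hS₂
    exact ⟨m, n, hm, hn, hS', mul_mem (hle1 hx') (hle2 hy')⟩

/-- all of finitely many elements at once -/
theorem cf_levels (F : IntermediateField ℚ ℂ) (Γ : Subgroup ℂˣ) (S : Finset ℕ) {κ : Type} [Fintype κ]
    (x : κ → ℂ) (hx : ∀ j, x j ∈ cf F Γ S) :
    ∃ m n : ℕ, 0 < m ∧ 0 < n ∧ n.primeFactors ⊆ S ∧ ∀ j, x j ∈ Lc F Γ m n := by
  have h := fun j => cf_level F Γ S (hx j)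
  choose m n hm hn hS h using h
  refine ⟨∏ j, m j, ∏ j, n j, Finset.prod_pos fun j _ => hm j, Finset.prod_pos fun j _ => hn j, ?_, ?_⟩
  · intro q hq
    have hqp : q.Prime := Nat.prime_of_mem_primeFactors hq
    have hqd : q ∣ ∏ j, n j := Nat.dvd_of_mem_primeFactors hq
    obtain ⟨j, _, hj⟩ := (hqp.prime.dvd_finsetProd_iff _).1 hqd
    exact hS j (Nat.mem_primeFactors.2 ⟨hqp, hj, (hn j).ne'⟩)
  · intro j
    exact lc_mono F Γ (Finset.dvd_prod_of_mem m (Finset.mem_univ j))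
      (Finset.dvd_prod_of_mem n (Finset.mem_univ j)) (h j)

theorem lc_le_cf (F : IntermediateField ℚ ℂ) (Γ : Subgroup ℂˣ) (S : Finset ℕ) {m n : ℕ} (hm : 0 < m)
    (hn : 0 < n) (hnS : n.primeFactors ⊆ S) : Lc F Γ m n ≤ cf F Γ S := by
  refine sup_le_sup_left ?_ F
  refine adjoin.mono _ _ _ ?_
  rintro z (hz | ⟨γ, hγ, hz⟩)
  · exact Or.inl ⟨m, hm, hz⟩
  · exact Or.inr ⟨n, hn, hnS, γ, hγ, hz⟩

end MP4270U
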