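import Pool.Agent.Lib_MP_4270a5_u.RUnC
import Pool.Agent.Lib_MP_4270a5_u.FinC
import Pool.Agent.Lib_MP_4270a5_u.RFinA
import Pool.Agent.Lib_MP_4270a5_nt.Bridge

/-!
# MP_4270a5_nt, piece RFINB: almost all primes are unramified in a number field and prime to a finitely generated group

PAPER PROOFS. `Unr p` is the field of the complex numbers `z` such that every algebraic number `x : Qb` with `ii x = z` goes into `Up p` under every embedding, and `z` is algebraic; it is defined as the image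
under `iiA` of the intermediate field `{x | ∀ φ, φ x ∈ Up p}` of `Qb`. `unr_root`: `z = ii x` (`z` is algebraic); for every `φ`: `‖φ x‖ = 1` because
`‖φ x‖^k = ‖φ (x^k)‖ = 1` (`hz1`), so `up_near`. `unr_field`: for `F` = the number field `F`, `F.comap iiA` is a number field; let `S` contain the prime divisors of its discriminant
(`NumberField.discr_ne_zero`); `up_disc` for the restriction of `φ` to it. `unr_unit`: `x` with `ii x = γ ∈ Γ` and a prime `p ∉ S'` (`S'` from `finC_S`): `s x` and `s' x⁻¹` are algebraic integers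
for numbers `s`, `s'` prime to `p`, so `‖φ x‖ ≤ 1`, `‖φ x⁻¹‖ ≤ 1` (compare `nm_integral` in `KumC.lean`; `‖(s : PadicAlgCl p)‖ = 1`).
-/

open Polynomial IntermediateField Finset

namespace MP4270U

open MP4270

/-- The field of the `z ∈ ℂ` which are algebraic and in the maximal unramified extension of `ℚ_p` under every embedding. -/
noncomputable def Unr (p : ℕ) [Fact p.Prime] : IntermediateField ℚ ℂ :=
  IntermediateField.map iiA
    { carrier := {x : Qb | ∀ φ : Qb →+* PadicAlgCl p, φ x ∈ Up p}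
      mul_mem' := fun {x y} hx hy φ => by rw [map_mul]; exact mul_mem (hx φ) (hy φ)
      add_mem' := fun {x y} hx hy φ => by rw [map_add]; exact add_mem (hx φ) (hy φ)
      algebraMap_mem' := fun q φ => by
        rw [eq_ratCast (algebraMap ℚ Qb), map_ratCast]
        exact SubfieldClass.ratCast_mem (Up p) q
      inv_mem' := fun x hx φ => by rw [map_inv₀]; exact inv_mem (hx φ) }

theorem mem_unr {p : ℕ} [Fact p.Prime] {x : Qb} (φ : Qb →+* PadicAlgCl p) (hx : ii x ∈ Unr p) :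
    φ x ∈ Up p := by
  obtain ⟨y, hy, hyx⟩ := hx
  have h1 : y = x := ii_inj hyx
  rw [← h1]
  exact hy φ

/-- all absolute values of the algebraic number `z` above `p` are one -/
def PU (p : ℕ) [Fact p.Prime] (z : ℂ) : Prop := ∀ (x : Qb) (φ : Qb →+* PadicAlgCl p), ii x = z → ‖φ x‖ = 1

theorem pu_root {p : ℕ} [Fact p.Prime] {z : ℂ} {k : ℕ} (hk0 : 0 < k) (h : PU p (z ^ k)) : PU p z := by
  intro x φ hx
  have h1 := h (x ^ k) φ (by rw [map_pow, hx])
  rw [map_pow, norm_pow] at h1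
  exact (pow_eq_one_iff_of_nonneg (norm_nonneg _) hk0.ne').1 h1

theorem unr_root {p : ℕ} [Fact p.Prime] {z : ℂ} {k : ℕ} (hk0 : 0 < k) (hk : k.Coprime p)
    (hz : z ^ k ∈ Unr p) (hz1 : PU p (z ^ k)) : z ∈ Unr p := by
  obtain ⟨y, -, hyz⟩ := id hz
  have hy : IsAlgebraic ℚ (z ^ k) := by
    rw [← hyz]
    exact (Algebra.IsAlgebraic.isAlgebraic (R := ℚ) y).algHom iiA
  have hzalg : IsAlgebraic ℚ z :=
    isAlgebraic_iff_isIntegral.mpr (IsIntegral.of_pow hk0 (isAlgebraic_iff_isIntegral.mp hy))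
  obtain ⟨x, hx⟩ := exists_ii z hzalg
  refine ⟨x, fun φ => ?_, hx⟩
  refine up_near hk0 hk ?_ (pu_root hk0 hz1 x φ hx)
  rw [← map_pow]
  exact mem_unr φ (by rw [map_pow, hx]; exact hz)

theorem pu_one (p : ℕ) [Fact p.Prime] : PU p 1 := by
  intro x φ hx
  have h1 : x = 1 := ii_inj (by rw [hx, map_one])
  rw [h1, map_one, norm_one]

private theorem rfb_int (p : ℕ) [Fact p.Prime] (φ : Qb →+* PadicAlgCl p) (x : Qb)
    (hx : IsIntegral ℤ x) : ‖φ x‖ ≤ 1 := by
  have h1 : IsIntegral ℤ (φ x) := hx.map φ.toIntAlgHom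
  have h2 : IsIntegral (NormedField.valuation (K := PadicAlgCl p)).integer (φ x) :=
    h1.tower_top
  exact (Valuation.integer.integers
    (NormedField.valuation (K := PadicAlgCl p))).mem_of_integral h2

private theorem rfb_nat (p : ℕ) [Fact p.Prime] {s : ℕ} (hs : ¬ p ∣ s) :
    ‖(s : PadicAlgCl p)‖ = 1 := by
  have hp : p.Prime := Fact.out
  rw [← map_natCast (algebraMap ℚ_[p] (PadicAlgCl p)), PadicAlgCl.norm_extends]
  exact (Padic.norm_natCast_eq_one_iff).2 ((Nat.Prime.coprime_iff_not_dvd hp).2 hs)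

/-- algebraic numbers with a denominator prime to `p` -/
private theorem rfb_le (p : ℕ) [Fact p.Prime] (φ : Qb →+* PadicAlgCl p) (x : Qb) (z : ℂ)
    (hx : ii x = z) {s : ℕ} (hs : ¬ p ∣ s) (h : IsIntegral ℤ ((s : ℂ) * z)) : ‖φ x‖ ≤ 1 := by
  have h1 : IsIntegral ℤ ((s : Qb) * x) := by
    rw [← hx, ← map_natCast ii s, ← map_mul] at h
    exact (isIntegral_algHom_iff (RingHom.toIntAlgHom ii) (RingHom.injective ii)).1 h
  have h2 := rfb_int p φ _ h1
  rwa [map_mul, map_natCast, norm_mul, rfb_nat p hs, one_mul] at h2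

private theorem rfb_comap (F : IntermediateField ℚ ℂ) [FiniteDimensional ℚ F] :
    FiniteDimensional ℚ (F.comap iiA) := by
  let f : F.comap iiA →ₗ[ℚ] F :=
    { toFun := fun x => ⟨iiA x, x.2⟩
      map_add' := fun x y => by
        apply Subtype.ext
        change iiA ((x : Qb) + y) = iiA x + iiA y
        exact map_add _ _ _
      map_smul' := fun q x => by
        apply Subtype.ext
        change iiA (q • (x : Qb)) = q • iiA x
        rw [Algebra.smul_def, Algebra.smul_def, map_mul, AlgHom.commutes] }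
  refine FiniteDimensional.of_injective f ?_
  intro x y hxy
  apply Subtype.ext
  have := congrArg Subtype.val hxy
  exact ii_inj this

private theorem rfb_log : ∃ B : ℕ, ∀ p : ℕ, B ≤ p → 30000 * Real.log p ≤ p := by
  have h1 := Real.isLittleO_log_id_atTop.bound (c := 1 / 30000) (by norm_num)
  have h2 := tendsto_natCast_atTop_atTop (R := ℝ) |>.eventually h1
  obtain ⟨B, hB⟩ := Filter.eventually_atTop.1 h2
  refine ⟨B, fun p hp => ?_⟩
  have h3 := hB p hp
  rw [Real.norm_eq_abs, Real.norm_eq_abs, id] at h3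
  have h4 := le_abs_self (Real.log p)
  have h5 : |(p : ℝ)| = p := abs_of_nonneg (Nat.cast_nonneg p)
  rw [h5] at h3
  linarith

/-- a number field is unramified at the primes which do not divide the discriminant -/
private theorem rfb_field (F : IntermediateField ℚ ℂ) [FiniteDimensional ℚ F] :
    ∃ T : Finset ℕ, ∀ (p : ℕ) [Fact p.Prime], p ∉ T → F ≤ Unr p := by
  have hfd := rfb_comap F
  have hnf : NumberField (F.comap iiA) := ⟨⟩
  refine ⟨(NumberField.discr (F.comap iiA)).natAbs.primeFactors, fun p hp hpT => ?_⟩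
  have hd : ¬ (p : ℤ) ∣ NumberField.discr (F.comap iiA) := by
    intro h
    refine hpT (Nat.mem_primeFactors.2 ⟨hp.out, Int.natCast_dvd.1 h, ?_⟩)
    exact Int.natAbs_ne_zero.2 (NumberField.discr_ne_zero _)
  intro z hz
  have hzalg : IsAlgebraic ℚ z := by
    have h1 := Algebra.IsAlgebraic.isAlgebraic (R := ℚ) (⟨z, hz⟩ : F)
    have h2 : algebraMap F ℂ ⟨z, hz⟩ = z := rfl
    rw [← h2]
    exact h1.algebraMap
  obtain ⟨x, hx⟩ := exists_ii z hzalg
  have hxF : x ∈ F.comap iiA := by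
    show iiA x ∈ F
    rw [iiA_apply, hx]
    exact hz
  refine ⟨x, fun φ => ?_, hx⟩
  exact up_disc p hd (φ.comp (algebraMap (F.comap iiA) Qb)) ⟨x, hxF⟩

/-- all primes outside a finite set are unramified in `F` and prime to `Γ` -/
theorem unr_exists (F : IntermediateField ℚ ℂ) [FiniteDimensional ℚ F] (Γ : Subgroup ℂˣ) (hΓ : Γ.FG)
    (halg : ∀ g ∈ Γ, IsAlgebraic ℚ (g : ℂ)) (S : Finset ℕ) :
    ∃ S' : Finset ℕ, S ⊆ S' ∧ (∀ γ ∈ Γ, ∃ s : ℕ, finC_num S' s ∧ IsIntegral ℤ ((s : ℂ) * (γ : ℂ))) ∧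
      ∀ (p : ℕ) [Fact p.Prime], p ∉ S' → 30000 * Real.log p ≤ p ∧ F ≤ Unr p ∧
        ∀ γ ∈ Γ, PU p (γ : ℂ) := by
  classical
  obtain ⟨S₁, hS₁, h1⟩ := finC_S Γ hΓ halg S
  obtain ⟨B, hB⟩ := rfb_log
  obtain ⟨T, hT⟩ := rfb_field F
  refine ⟨S₁ ∪ (range B ∪ T), hS₁.trans subset_union_left, fun γ hγ => ?_, fun p hp hpS => ?_⟩
  · obtain ⟨s, hs, h2, -⟩ := h1 γ hγ
    exact ⟨s, ⟨hs.1, hs.2.trans subset_union_left⟩, h2⟩
  · rw [mem_union, mem_union, not_or, not_or] at hpS
    obtain ⟨hp1, hp2, hp3⟩ := hpS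
    refine ⟨hB p (by simpa using hp2), hT p hp3, fun γ hγ x φ hx => ?_⟩
    obtain ⟨s, hs, h2, h3⟩ := h1 γ hγ
    have hps : ¬ p ∣ s := fun h =>
      hp1 (hs.2 (Nat.mem_primeFactors.2 ⟨hp.out, h, hs.1.ne'⟩))
    have h4 := rfb_le p φ x _ hx hps h2
    have h5 := rfb_le p φ x⁻¹ _ (by rw [map_inv₀, hx, Units.val_inv_eq_inv_val]) hps h3
    have hx0 : φ x ≠ 0 := by
      rw [Ne, map_eq_zero]
      intro h0
      rw [h0, map_zero] at hx
      exact γ.ne_zero hx.symm
    rw [map_inv₀, norm_inv] at h5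
    refine le_antisymm h4 ?_
    exact (inv_le_one₀ (norm_pos_iff.2 hx0)).1 h5

end MP4270U
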