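import Pool.Agent.Lib_MP_4270a5_u.RDef
import Pool.Agent.Lib_MP_4270a5_nt.Teich
import Pool.Agent.Lib_MP_4270a5_nt.Iso
import Pool.Agent.Lib_MP_4270a5_nt.RootU

/-!
# MP_4270a5_nt, piece RUNB: residue classes of the maximal unramified extension

PAPER PROOFS. `up_teich`: `teich` with `L = ℚ_p(x)`; `0` and the roots of unity of order prime to `p` are in `Up p` and have norm `≤ 1`.
`up_near`: let `θ` be as in `up_teich` for `z` (`‖θ‖ = 1` because `‖z‖ = 1`); in fact use `teich` so that `θ` is a root of unity of order prime to `p`. For an automorphism `σ` fixing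
`Up p` pointwise: `(σ z / z)^k = 1`, and `‖σ z - z‖ = ‖(σ z - θ) - (z - θ)‖ < 1` (`σ θ = θ`, `norm_equiv`), so `‖σ z / z - 1‖ < 1` and `σ z = z` by `norm_sub_one_coprime`
(`RootU.lean`). `mem_of_fixed`.
`up_shift`: let `m` be prime to `p`, `m > n`, and `ζ` a primitive `m`-th root of unity. For each `k` at most one `j < m` has `‖1 + ζ^j f k‖ ≠ max 1 ‖f k‖`: if `‖f k‖ ≠ 1` there is none; if
`‖f k‖ = 1` then `‖1 + ζ^j f k‖ < 1`, and two such `j` give `‖ζ^j - ζ^i‖ < 1`, so `i = j` (`norm_sub_one_coprime`). There are `m > n` values of `j`. (`u = ζ^j`; `n = 0` is trivial.)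
-/

open IntermediateField Polynomial

namespace MP4270U

open MP4270

variable {p : ℕ} [Fact p.Prime]

private theorem runb_teich (x : PadicAlgCl p) (hx : ‖x‖ ≤ 1) : ∃ y : PadicAlgCl p, ‖x - y‖ < 1 ∧
    (y = 0 ∨ ∃ n : ℕ, 0 < n ∧ n.Coprime p ∧ y ^ n = 1) := by
  have hfd : FiniteDimensional ℚ_[p] (adjoin ℚ_[p] {x}) :=
    adjoin.finiteDimensional (Algebra.IsIntegral.isIntegral x)
  obtain ⟨y, -, h1, h2⟩ := teich (adjoin ℚ_[p] {x}) (mem_adjoin_simple_self ℚ_[p] x) hx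
  exact ⟨y, h1, h2⟩

private theorem runb_mem {y : PadicAlgCl p} {n : ℕ} (hn : 0 < n) (hc : n.Coprime p) (h : y ^ n = 1) : y ∈ Up p :=
  subset_adjoin _ _ ⟨n, hn, hc, h⟩

theorem up_teich (x : PadicAlgCl p) (hx : ‖x‖ ≤ 1) : ∃ y ∈ Up p, ‖y‖ ≤ 1 ∧ ‖x - y‖ < 1 := by
  obtain ⟨y, h1, h2⟩ := runb_teich x hx
  rcases h2 with h2 | ⟨n, hn, hc, h⟩
  · refine ⟨y, ?_, ?_, h1⟩
    · rw [h2]
      exact zero_mem _
    · rw [h2, norm_zero]
      exact zero_le_one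
  · exact ⟨y, runb_mem hn hc h, (norm_root_one hn h).le, h1⟩

theorem up_near {z : PadicAlgCl p} {k : ℕ} (hk0 : 0 < k) (hk : k.Coprime p) (hz : z ^ k ∈ Up p)
    (hz1 : ‖z‖ = 1) : z ∈ Up p := by
  obtain ⟨θ, h1, h2⟩ := runb_teich z hz1.le
  rcases h2 with h2 | ⟨n, hn, hc, h⟩
  · rw [h2, sub_zero, hz1] at h1
    exact absurd h1 (lt_irrefl _)
  · have hθ := runb_mem hn hc h
    have hz0 : z ≠ 0 := by
      intro h0
      rw [h0, norm_zero] at hz1
      exact zero_ne_one hz1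
    refine mem_of_fixed (Up p) z fun σ hσ => ?_
    by_contra hne
    have h3 : (σ z / z) ^ k = 1 := by
      rw [div_pow, ← map_pow, hσ _ hz, div_self (pow_ne_zero k hz0)]
    have h4 : σ z / z ≠ 1 := by
      intro h5
      exact hne ((div_eq_one_iff_eq hz0).1 h5)
    have h5 := norm_sub_one_coprime hk h3 h4
    have h6 : σ z / z - 1 = (σ z - z) / z := by
      field_simp
    rw [h6, norm_div, hz1, div_one] at h5
    have h7 : σ z - z = σ (z - θ) - (z - θ) := by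
      rw [map_sub, hσ θ hθ]
      ring
    have h8 : ‖σ z - z‖ < 1 := by
      rw [h7, sub_eq_add_neg]
      refine lt_of_le_of_lt (IsUltrametricDist.norm_add_le_max _ _) (max_lt ?_ ?_)
      · rw [norm_equiv]
        exact h1
      · rw [norm_neg]
        exact h1
    rw [h5] at h8
    exact lt_irrefl _ h8

theorem up_shift (n : ℕ) (f : Fin n → PadicAlgCl p) :
    ∃ u ∈ Up p, ∀ k, ‖1 + u * f k‖ = max 1 ‖f k‖ := by
  have hp : p.Prime := Fact.out
  set m : ℕ := p * n + 1 with hm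
  have hm0 : 0 < m := Nat.succ_pos _
  have hmn : n < m := by
    have h1 : n ≤ p * n := Nat.le_mul_of_pos_left n hp.pos
    omega
  have hmc : m.Coprime p := by
    rw [hm]
    exact (Nat.coprime_mul_left_add_left 1 p n).2 (Nat.coprime_one_left p)
  haveI : NeZero m := ⟨hm0.ne'⟩
  obtain ⟨ζ, hζ⟩ := HasEnoughRootsOfUnity.exists_primitiveRoot (PadicAlgCl p) m
  have hζ1 : ‖ζ‖ = 1 := norm_root_one hm0 hζ.pow_eq_one
  by_contra hcon
  have h1 : ∀ j : Fin m, ∃ k : Fin n, ‖1 + ζ ^ (j : ℕ) * f k‖ ≠ max 1 ‖f k‖ := by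
    intro j
    by_contra h2
    push Not at h2
    refine hcon ⟨ζ ^ (j : ℕ), pow_mem (runb_mem hm0 hmc hζ.pow_eq_one) _, h2⟩
  choose g hg using h1
  obtain ⟨i, j, hij, hgij⟩ := Fintype.exists_ne_map_eq_of_card_lt g (by
    rw [Fintype.card_fin, Fintype.card_fin]
    exact hmn)
  have h2 : ∀ l : Fin m, ‖f (g l)‖ = 1 ∧ ‖1 + ζ ^ (l : ℕ) * f (g l)‖ < 1 := by
    intro l
    have h3 : ‖ζ ^ (l : ℕ) * f (g l)‖ = ‖f (g l)‖ := by
      rw [norm_mul, norm_pow, hζ1, one_pow, one_mul]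
    have h4 : ‖f (g l)‖ = 1 := by
      by_contra h5
      refine hg l ?_
      have h6 : ‖(1 : PadicAlgCl p)‖ ≠ ‖ζ ^ (l : ℕ) * f (g l)‖ := by
        rw [h3, norm_one]
        exact fun h7 => h5 h7.symm
      have h7 := IsUltrametricDist.norm_add_eq_max_of_norm_ne_norm h6
      rw [h7, h3, norm_one]
    refine ⟨h4, ?_⟩
    have h5 := hg l
    have h6 := IsUltrametricDist.norm_add_le_max (1 : PadicAlgCl p) (ζ ^ (l : ℕ) * f (g l))
    rw [h3, norm_one] at h6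
    have h7 := lt_of_le_of_ne h6 h5
    rwa [h4, max_self] at h7
  have h3 := (h2 i).2
  have h4 := (h2 j).2
  rw [hgij] at h3
  have h5 : ‖(ζ ^ (i : ℕ) - ζ ^ (j : ℕ)) * f (g j)‖ < 1 := by
    have h6 : (ζ ^ (i : ℕ) - ζ ^ (j : ℕ)) * f (g j) =
        (1 + ζ ^ (i : ℕ) * f (g j)) + -(1 + ζ ^ (j : ℕ) * f (g j)) := by ring
    rw [h6]
    refine lt_of_le_of_lt (IsUltrametricDist.norm_add_le_max _ _) (max_lt h3 ?_)
    rw [norm_neg]
    exact h4
  rw [norm_mul, (h2 j).1, mul_one] at h5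
  have hζ0 : ζ ≠ 0 := by
    intro h0
    rw [h0, norm_zero] at hζ1
    exact zero_ne_one hζ1
  have hζj : ζ ^ (j : ℕ) ≠ 0 := pow_ne_zero _ hζ0
  have h6 : (ζ ^ (i : ℕ) / ζ ^ (j : ℕ)) ^ m = 1 := by
    rw [div_pow, ← pow_mul, ← pow_mul, mul_comm (i : ℕ), mul_comm (j : ℕ), pow_mul, pow_mul, hζ.pow_eq_one,
      one_pow, one_pow, div_one]
  have h7 : ζ ^ (i : ℕ) / ζ ^ (j : ℕ) ≠ 1 := by
    intro h8
    have h9 := (div_eq_one_iff_eq hζj).1 h8
    exact hij (Fin.ext (hζ.pow_inj i.2 j.2 h9))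
  have h8 := norm_sub_one_coprime hmc h6 h7
  have h9 : ζ ^ (i : ℕ) / ζ ^ (j : ℕ) - 1 = (ζ ^ (i : ℕ) - ζ ^ (j : ℕ)) / ζ ^ (j : ℕ) := by
    rw [sub_div, div_self hζj]
  rw [h9, norm_div, norm_pow, hζ1, one_pow, div_one] at h8
  rw [h8] at h5
  exact lt_irrefl _ h5

end MP4270U
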