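import Pool.Agent.Lib_MP_4270a5_u.RUnA
import Pool.Agent.Lib_MP_4270a5_u.RUnB
import Pool.Agent.Lib_MP_4270a5_nt.GalB
import Pool.Agent.Lib_MP_4270a5_nt.AbC

/-!
# MP_4270a5_nt, piece RSTEP: Step 1, a `p`-power radical which becomes abelian is in the ground field

PAPER PROOF. `up_zeta`: if `z ≠ 1`, `z^p = 1`, then `‖z - 1‖ = p^(-1/(p-1))` (`norm_primitive_sub_one`, `k = 0`), which is not an integral power of `p` for `p > 2`, against `up_value`.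
`step_P`: let `z₀` be a primitive `p`-th root of unity; `z₀ ∉ L'` (`up_zeta` for one embedding `jj p`), so (`mem_of_fixed_Qb`) there is `σ` which fixes `L'` and `σ z₀ ≠ z₀`. Let `ζ` be a primitive
`p^s`-th root of unity (`s ≥ 1`; `s = 0` is trivial), `σ ζ = ζ^c`; then `p ∤ c - 1`. For `τ` fixing `L'`: `τ u = ω_τ u`, `ω_τ^(p^s) = 1` (`u^(p^s) ∈ L₀ ≤ L'`), and `σ τ u = τ σ u`
(`ab_comm`, `u ∈ L ≤ L' ⊔ μ_m`), so `σ(ω_τ) ω_σ = τ(ω_σ) ω_τ`, i.e. `ω_τ^(c-1) = τ(ω_σ)/ω_σ`. Let `θ^(p^s) = 1` with `θ^(c-1) = ω_σ` (`c - 1` is invertible modulo `p^s`). Then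
`(τ θ/θ)^(c-1) = ω_τ^(c-1)`, so `τ θ/θ = ω_τ`, and `w = u/θ` is fixed by all such `τ`: `w ∈ L'`. `w^(p^s) = u^(p^s) ∈ L₀`. For `ρ` fixing `L₀`: `ρ w = ω w`, `ω^(p^s) = 1`, and with `φ = jj p`:
`φ ω = (φ ∘ ρ) w / φ w ∈ Up p` (`hU` for the two embeddings `φ`, `φ ∘ ρ`), so `ω = 1` (`up_zeta` for a power of `ω`). So `w ∈ L₀`. So `θ = u/w ∈ L₀(u)`, and `hnt` for a power of `θ` gives
`θ = 1`, `u = w ∈ L₀`.
-/

open IntermediateField Polynomial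

namespace MP4270U

open MP4270

private theorem rstep_triv {K : Type*} [Field K] {p : ℕ} (P : K → Prop) (hpow : ∀ x n, P x → P (x ^ n))
    (h : ∀ z, P z → z ^ p = 1 → z = 1) (s : ℕ) (x : K) (hx : P x) (h1 : x ^ p ^ s = 1) : x = 1 := by
  induction s with
  | zero => rwa [pow_zero, pow_one] at h1
  | succ s ih =>
    refine ih (h _ (hpow x _ hx) ?_)
    rw [← pow_mul, ← pow_succ]
    exact h1

theorem up_zeta {p : ℕ} [Fact p.Prime] (hp2 : p ≠ 2) {z : PadicAlgCl p} (hz : z ∈ Up p) (hz1 : z ^ p = 1) :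
    z = 1 := by
  by_contra hne
  have hp : p.Prime := Fact.out
  have hp1 : (1 : ℝ) < p := by exact_mod_cast hp.one_lt
  have hord : orderOf z = p := orderOf_eq_prime hz1 hne
  have hprim : IsPrimitiveRoot z (p ^ (0 + 1)) := by
    have h1 := IsPrimitiveRoot.orderOf z
    have h2 : orderOf z = p ^ (0 + 1) := by rw [hord, zero_add, pow_one]
    rwa [h2] at h1
  have h1 := norm_primitive_sub_one hprim
  obtain ⟨k, hk⟩ := up_value (sub_mem hz (one_mem _)) (sub_ne_zero.2 hne)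
  rw [h1, ← Real.rpow_intCast, pow_zero, one_mul] at hk
  have h2 : (-(1 : ℝ)) / ((p : ℝ) - 1) = (k : ℝ) := by
    have hp0 : (0 : ℝ) < p := by linarith
    have h3 := congrArg Real.log hk
    rw [Real.log_rpow hp0, Real.log_rpow hp0] at h3
    exact mul_right_cancel₀ (Real.log_pos hp1).ne' h3
  have h3 : (p : ℝ) - 1 ≠ 0 := by linarith
  rw [div_eq_iff h3] at h2
  have h4 : (-1 : ℤ) = k * ((p : ℤ) - 1) := by exact_mod_cast h2
  have h5 : ((p : ℤ) - 1) ∣ 1 := ⟨-k, by linarith [mul_comm k ((p : ℤ) - 1)]⟩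
  have h6 := Int.le_of_dvd one_pos h5
  have h7 := hp.two_le
  omega

theorem step_P {p : ℕ} [Fact p.Prime] (hp2 : p ≠ 2) (L₀ L' L : IntermediateField ℚ Qb) (h0 : L₀ ≤ L')
    {m : ℕ} (hm : 0 < m) (hL : L ≤ L' ⊔ adjoin ℚ {z : Qb | z ^ m = 1})
    (hU : ∀ φ : Qb →+* PadicAlgCl p, ∀ x ∈ L', φ x ∈ Up p) (u : Qb) (hu0 : u ≠ 0) (hu : u ∈ L) (s : ℕ)
    (hus : u ^ p ^ s ∈ L₀) (hnt : ∀ z ∈ L₀ ⊔ adjoin ℚ {u}, z ^ p = 1 → z = 1) : u ∈ L₀ := by
  have hp : p.Prime := Fact.out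
  rcases Nat.eq_zero_or_pos s with hs | hs
  · rwa [hs, pow_zero, pow_one] at hus
  set N : ℕ := p ^ s with hN
  have hN0 : 0 < N := pow_pos hp.pos s
  haveI : NeZero N := ⟨hN0.ne'⟩
  obtain ⟨ζ, hζ⟩ := HasEnoughRootsOfUnity.exists_primitiveRoot Qb N
  -- the root of unity of order `p`
  set z₀ : Qb := ζ ^ p ^ (s - 1) with hz₀
  have hNs : p ^ (s - 1) * p = N := by
    rw [hN, ← pow_succ, Nat.sub_add_cancel hs]
  have hz₀p : z₀ ^ p = 1 := by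
    rw [hz₀, ← pow_mul, hNs]
    exact hζ.pow_eq_one
  have hz₀1 : z₀ ≠ 1 := by
    refine hζ.pow_ne_one_of_pos_of_lt (pow_pos hp.pos _).ne' ?_
    exact Nat.pow_lt_pow_right hp.one_lt (by omega)
  have hz₀L : z₀ ∉ L' := by
    intro h
    refine hz₀1 ((jj p).injective ?_)
    rw [map_one]
    refine up_zeta hp2 (hU (jj p) z₀ h) ?_
    rw [← map_pow, hz₀p, map_one]
  obtain ⟨σ, hσ, hσz⟩ : ∃ σ : Qb ≃ₐ[ℚ] Qb, (∀ y ∈ L', σ y = y) ∧ σ z₀ ≠ z₀ := by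
    by_contra h
    push Not at h
    exact hz₀L (mem_of_fixed_Qb L' z₀ fun σ hσ => h σ hσ)
  obtain ⟨c, -, hc⟩ := hζ.eq_pow_of_pow_eq_one (ξ := σ ζ) (by rw [← map_pow, hζ.pow_eq_one, map_one])
  set e : ℕ := c + N - 1 with he
  have he1 : e + 1 = c + N := by omega
  have hσζ : σ ζ = ζ ^ (e + 1) := by
    rw [he1, pow_add, hζ.pow_eq_one, mul_one, hc]
  have hroot : ∀ x : Qb, x ^ N = 1 → σ x = x ^ (e + 1) := by
    intro x hx
    obtain ⟨j, -, rfl⟩ := hζ.eq_pow_of_pow_eq_one hx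
    rw [map_pow, hσζ, ← pow_mul, ← pow_mul, mul_comm]
  have hep : ¬ p ∣ e := by
    rintro ⟨q, hq⟩
    refine hσz ?_
    rw [hz₀, map_pow, hσζ, ← pow_mul, mul_comm, pow_mul, ← hz₀, pow_succ, hq, pow_mul, hz₀p, one_pow, one_mul]
  have hcop : Nat.Coprime e N := by
    rw [hN]
    exact Nat.Coprime.pow_right s ((Nat.Prime.coprime_iff_not_dvd hp).2 hep).symm
  obtain ⟨k, hk⟩ : ∃ k : ℕ, ∀ x : Qb, x ^ N = 1 → x ^ (e * k) = x := by
    rcases Nat.lt_or_ge 1 N with hN1 | hN1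
    · obtain ⟨k, -, hk⟩ := Nat.exists_mul_mod_eq_one_of_coprime hcop hN1
      refine ⟨k, fun x hx => ?_⟩
      rw [← Nat.div_add_mod (e * k) N, hk, pow_add, pow_mul, hx, one_pow, one_mul, pow_one]
    · have h1 : N = 1 := le_antisymm hN1 hN0
      refine ⟨0, fun x hx => ?_⟩
      rw [h1, pow_one] at hx
      rw [hx, one_pow]
  have hfix : ∀ τ : Qb ≃ₐ[ℚ] Qb, (∀ y ∈ L', τ y = y) → (τ u / u) ^ N = 1 := by
    intro τ hτ
    rw [div_pow, ← map_pow, hτ _ (h0 hus), div_self (pow_ne_zero _ hu0)]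
  set ωσ : Qb := σ u / u with hωσ
  have hωσN : ωσ ^ N = 1 := hfix σ hσ
  have hωσ0 : ωσ ≠ 0 := by
    intro h
    rw [h, zero_pow hN0.ne'] at hωσN
    exact zero_ne_one hωσN
  set θ : Qb := ωσ ^ k with hθ
  have hθN : θ ^ N = 1 := by
    rw [hθ, ← pow_mul, mul_comm, pow_mul, hωσN, one_pow]
  have hθ0 : θ ≠ 0 := pow_ne_zero _ hωσ0
  have hθe : θ ^ e = ωσ := by
    rw [hθ, ← pow_mul, mul_comm]
    exact hk ωσ hωσN
  have hτθ : ∀ τ : Qb ≃ₐ[ℚ] Qb, (∀ y ∈ L', τ y = y) → τ (u / θ) = u / θ := by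
    intro τ hτ
    set ωτ : Qb := τ u / u with hωτ
    have hωτN : ωτ ^ N = 1 := hfix τ hτ
    have hωτ0 : ωτ ≠ 0 := by
      intro h
      rw [h, zero_pow hN0.ne'] at hωτN
      exact zero_ne_one hωτN
    have e1 : τ u = ωτ * u := by rw [hωτ, div_mul_cancel₀ _ hu0]
    have e2 : σ u = ωσ * u := by rw [hωσ, div_mul_cancel₀ _ hu0]
    have e3 := ab_comm L' hm σ τ hσ hτ (hL hu)
    rw [e1, e2, map_mul, map_mul, e1, e2, hroot ωτ hωτN] at e3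
    have e4 : ωτ ^ e * ωσ = τ ωσ := by
      have h1 : (ωτ * u) * (ωτ ^ e * ωσ) = (ωτ * u) * τ ωσ := by
        rw [pow_succ] at e3
        linear_combination e3
      exact mul_left_cancel₀ (mul_ne_zero hωτ0 hu0) h1
    have e5 : (τ θ / θ) ^ e = ωτ ^ e := by
      rw [div_pow, ← map_pow, hθe, div_eq_iff hωσ0, e4]
    have e6 : (τ θ / θ) ^ N = 1 := by
      rw [div_pow, ← map_pow, hθN, map_one, div_one]
    have e7 : τ θ / θ = ωτ := by
      rw [← hk _ e6, ← hk _ hωτN, pow_mul, pow_mul, e5]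
    have e8 : τ θ = ωτ * θ := by rw [← e7, div_mul_cancel₀ _ hθ0]
    rw [map_div₀, e1, e8, mul_div_mul_left _ _ hωτ0]
  set w : Qb := u / θ with hw
  have hw0 : w ≠ 0 := div_ne_zero hu0 hθ0
  have hwL : w ∈ L' := mem_of_fixed_Qb L' w hτθ
  have hwN : w ^ N = u ^ N := by rw [hw, div_pow, hθN, div_one]
  have hw1 : w ∈ L₀ := by
    refine mem_of_fixed_Qb L₀ w fun ρ hρ => ?_
    have h1 : (ρ w / w) ^ N = 1 := by
      rw [div_pow, ← map_pow, hwN, hρ _ hus, div_self (pow_ne_zero _ hu0)]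
    have h2 : jj p (ρ w / w) ∈ Up p := by
      rw [map_div₀]
      exact div_mem (hU ((jj p).comp (ρ : Qb →+* Qb)) w hwL) (hU (jj p) w hwL)
    have h3 : jj p (ρ w / w) = 1 := by
      refine rstep_triv (p := p) (fun x => x ∈ Up p) (fun x n hx => pow_mem hx n)
        (fun z hz hz1 => up_zeta hp2 hz hz1) s _ h2 ?_
      rw [← map_pow, ← hN, h1, map_one]
    have h4 : ρ w / w = 1 := (jj p).injective (by rw [h3, map_one])
    rwa [div_eq_one_iff_eq hw0] at h4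
  have hθu : θ = u / w := by
    rw [hw, div_div_cancel₀ hu0]
  have hθM : θ ∈ L₀ ⊔ adjoin ℚ {u} := by
    rw [hθu]
    exact div_mem ((le_sup_right : adjoin ℚ {u} ≤ L₀ ⊔ adjoin ℚ {u}) (mem_adjoin_simple_self ℚ u))
      ((le_sup_left : L₀ ≤ L₀ ⊔ adjoin ℚ {u}) hw1)
  have hθ1 : θ = 1 := by
    refine rstep_triv (p := p) (fun x => x ∈ L₀ ⊔ adjoin ℚ {u}) (fun x n hx => pow_mem hx n)
      hnt s θ hθM hθN
  rw [hw, hθ1, div_one] at hw1
  exact hw1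

end MP4270U
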