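import Pool.Agent.Lib_MP_4270a5_u.RAllP
import Pool.Agent.Lib_MP_4270a5_u.RStep

/-!
# MP_4270a5_nt, piece RSIMP: an element of a simple radical field plus an integral sum

PAPER PROOF. `A = ∑_(i < N) b_i g^i`, `b_i ∈ L₀`. `kum_all_P` for the terms `b_i g^i` and `d_j e_j`, exponent `N'`. At a prime `p ∣ N'` with `p ∤ N`: `OneAt` (`J` = the terms `b_i g^i`,
`i₀ = 0`, `N₁ = N`). At `p ∣ N`: `N = p^v N₁`, `e₀ < N`, `e₀ = 1` modulo `p^v`, `e₀ = 0` modulo `N₁`, `x = g^(e₀)`, `RadAtP`: `(g^i/x^i)^(N₁)` and `x^(p^v)` are powers of `g^N`;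
`φ(g^i/x^i) ∈ Up p` by `up_near`; if `u = x^(p^j) ∈ L` then `u ∈ L₀` by `step_P`.
-/

open Polynomial IntermediateField Finset

namespace MP4270U

open MP4270

private theorem simp_gen {K E : Type} [Field K] [Field E] [Algebra K E] (F : IntermediateField K E)
    {g A : E} (hint : IsIntegral F g) (hA : A ∈ F ⊔ adjoin K {g}) : ∃ P : F[X], aeval g P = A := by
  have h1 : A ∈ (F⟮g⟯ : IntermediateField F E) := by
    rw [← restrictScalars_adjoin_eq_sup] at hA
    exact hA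
  have h2 : A ∈ Algebra.adjoin F {g} := by
    rw [← IntermediateField.adjoin_simple_toSubalgebra_of_isAlgebraic hint.isAlgebraic]
    exact h1
  rw [Algebra.adjoin_singleton_eq_range_aeval] at h2
  obtain ⟨P, hP⟩ := h2
  exact ⟨P, hP⟩

private theorem simp_expand (L₀ : IntermediateField ℚ Qb) {N : ℕ} (hN : 0 < N) {g : Qb}
    (hg : g ^ N ∈ L₀) {A : Qb} (hA : A ∈ L₀ ⊔ adjoin ℚ {g}) :
    ∃ b : Fin N → Qb, (∀ i, b i ∈ L₀) ∧ A = ∑ i, b i * g ^ (i : ℕ) := by
  have hint : IsIntegral L₀ g := by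
    have h2 : IsAlgebraic ℚ g := Algebra.IsAlgebraic.isAlgebraic g
    exact (isAlgebraic_iff_isIntegral.mp h2).tower_top
  obtain ⟨P, hP⟩ := simp_gen L₀ hint hA
  obtain ⟨c, hc⟩ : ∃ c : L₀, (c : Qb) = g ^ N := ⟨⟨_, hg⟩, rfl⟩
  have hmon : (X ^ N - C c : L₀[X]).Monic := monic_X_pow_sub_C c hN.ne'
  have hroot : aeval g (X ^ N - C c : L₀[X]) = 0 := by
    rw [map_sub, map_pow, aeval_X, aeval_C, sub_eq_zero]
    exact hc.symm
  obtain ⟨R, hR⟩ : ∃ R : L₀[X], R = P %ₘ (X ^ N - C c) := ⟨_, rfl⟩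
  have hPR : aeval g P = aeval g R := by
    have h1 := modByMonic_add_div P (X ^ N - C c)
    rw [← hR] at h1
    rw [← h1, map_add, map_mul, hroot, zero_mul, add_zero]
  have hdeg : R.natDegree < N := by
    have h1 := natDegree_modByMonic_lt P hmon (by
      intro h
      have h2 := natDegree_X_pow_sub_C (n := N) (r := c)
      rw [h, natDegree_one] at h2
      omega)
    rwa [natDegree_X_pow_sub_C, ← hR] at h1
  refine ⟨fun i => (R.coeff i : L₀), fun i => (R.coeff i).2, ?_⟩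
  rw [← hP, hPR, aeval_eq_sum_range' hdeg, Finset.sum_range]
  refine Finset.sum_congr rfl fun i _ => ?_
  rw [Algebra.smul_def]
  rfl

private theorem simp_crt {p N v N₁ : ℕ} (hN : N = p ^ v * N₁) (hN0 : 0 < N) (hc : (p ^ v).Coprime N₁) :
    ∃ e₀ < N, ∃ t s : ℤ, (N₁ : ℤ) * (1 - e₀) = N * t ∧ (e₀ : ℤ) * (p ^ v : ℕ) = N * s := by
  have hpv : p ^ v ≠ 0 := by
    rintro h
    rw [h, zero_mul] at hN
    omega
  have hN₁ : N₁ ≠ 0 := by
    rintro h
    rw [h, mul_zero] at hN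
    omega
  obtain ⟨k, hk1, hk2⟩ := Nat.chineseRemainder hc 1 0
  refine ⟨((Nat.chineseRemainder hc 1 0 : {k // _}) : ℕ), ?_, ?_⟩
  · rw [hN]
    exact Nat.chineseRemainder_lt_mul hc 1 0 hpv hN₁
  · obtain ⟨e₀, he₀⟩ : ∃ e₀ : ℕ, e₀ = ((Nat.chineseRemainder hc 1 0 : {k // _}) : ℕ) := ⟨_, rfl⟩
    have h1 : e₀ ≡ 1 [MOD p ^ v] := by rw [he₀]; exact (Nat.chineseRemainder hc 1 0).2.1
    have h2 : e₀ ≡ 0 [MOD N₁] := by rw [he₀]; exact (Nat.chineseRemainder hc 1 0).2.2
    rw [← he₀]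
    have h3 : ((p ^ v : ℕ) : ℤ) ∣ 1 - e₀ := (Nat.modEq_iff_dvd.1 h1)
    have h4 : N₁ ∣ e₀ := (Nat.modEq_zero_iff_dvd.1 h2)
    obtain ⟨t, ht⟩ := h3
    obtain ⟨s, hs⟩ := h4
    refine ⟨t, s, ?_, ?_⟩
    · rw [ht, hN]
      push_cast
      ring
    · rw [hs, hN]
      push_cast
      ring

theorem sim_P (L₀ L' L : IntermediateField ℚ Qb) [FiniteDimensional ℚ L] (h0 : L₀ ≤ L') (h1 : L' ≤ L)
    {M : ℕ} (hM : 0 < M) (hLM : L ≤ L' ⊔ adjoin ℚ {z : Qb | z ^ M = 1}) (N N' : ℕ) (hN : 0 < N)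
    (hN' : 0 < N') (hμ : ∀ z : Qb, z ^ N' = 1 → z ∈ L) (g : Qb) (hg0 : g ≠ 0)
    (hg : g ^ N ∈ L₀) (hgN' : g ^ N' ∈ L) {κ : Type} [Fintype κ] (d e : κ → Qb) (hd : ∀ j, d j ∈ L)
    (he : ∀ j, e j ^ N' ∈ L) (he0 : ∀ j, e j ≠ 0)
    (hp : ∀ (p : ℕ) [Fact p.Prime], p ∣ N' →
      (∃ m : ℕ, m.Coprime p ∧ ∀ j, IsIntegral ℤ ((m : Qb) * (d j * e j))) ∧
      (p ∣ N → 30000 * Real.log p ≤ p ∧ (∀ z ∈ L₀ ⊔ adjoin ℚ {g}, z ^ p = 1 → z = 1) ∧
        ∀ φ : Qb →+* PadicAlgCl p, ‖φ g‖ = 1 ∧ ∀ x ∈ L', φ x ∈ Up p))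
    (A α : Qb) (hA : A ∈ L₀ ⊔ adjoin ℚ {g}) (hα : α = A + ∑ j, d j * e j) (hα0 : α ≠ 0)
    (hne : ∀ c ∈ L, (∀ j : ℕ, α ≠ c * g ^ j) ∧ ∀ j, α ≠ c * e j) :
    Real.log 2 / 40320 ≤ hW α := by
  classical
  obtain ⟨b, hb, hAb⟩ := simp_expand L₀ hN hg hA
  have hsum : ∑ i : Fin N ⊕ κ, Sum.elim b d i * Sum.elim (fun i : Fin N => g ^ (i : ℕ)) e i = α := by
    rw [Fintype.sum_sum_type, hα, hAb]
    simp only [Sum.elim_inl, Sum.elim_inr]
  have hL0 : L₀ ≤ L := h0.trans h1
  have hkey := kum_all_P L N' hN' hμ (ι := Fin N ⊕ κ) (Sum.elim b d)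
    (Sum.elim (fun i : Fin N => g ^ (i : ℕ)) e)
    (by
      rintro (i | j)
      · exact hL0 (hb i)
      · exact hd j)
    (by
      rintro (i | j)
      · rw [Sum.elim_inl, ← pow_mul, mul_comm, pow_mul]
        exact pow_mem hgN' _
      · exact he j)
    (by
      rintro (i | j)
      · exact pow_ne_zero _ hg0
      · exact he0 j)
    (by
      intro p hpf hpN'
      have hpp : p.Prime := hpf.out
      obtain ⟨⟨m, hm, hint⟩, hpr⟩ := hp p hpN'
      by_cases hpN : p ∣ N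
      · left
        obtain ⟨hlog, hnt, hφ⟩ := hpr hpN
        have hp2 : p ≠ 2 := by
          rintro rfl
          have h2 := Real.log_two_gt_d9
          push_cast at hlog
          linarith
        obtain ⟨v, hv⟩ : ∃ v : ℕ, v = N.factorization p := ⟨_, rfl⟩
        obtain ⟨N₁, hN₁⟩ : ∃ N₁ : ℕ, N = p ^ v * N₁ := by
          rw [hv]
          exact Nat.ordProj_dvd N p
        have hN₁p : N₁.Coprime p := by
          rw [Nat.coprime_comm, Nat.Prime.coprime_iff_not_dvd hpp]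
          rintro ⟨m', hm'⟩
          have h2 : p ^ (v + 1) ∣ N := ⟨m', by rw [hN₁, hm', pow_succ]; ring⟩
          have h3 := (Nat.Prime.pow_dvd_iff_le_factorization hpp hN.ne').1 h2
          omega
        have hN₁0 : 0 < N₁ := by
          rcases Nat.eq_zero_or_pos N₁ with h2 | h2
          · rw [h2, mul_zero] at hN₁
            omega
          · exact h2
        obtain ⟨e₀, he₀, t, s, ht, hs⟩ := simp_crt hN₁ hN
          (Nat.Coprime.pow_left v (Nat.coprime_comm.1 hN₁p))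
        have hw : ∀ i : ℕ, (g ^ i / (g ^ e₀) ^ i) ^ N₁ = (g ^ N) ^ (t * (i : ℤ)) := by
          intro i
          rw [← zpow_natCast g i, ← zpow_natCast g e₀, ← zpow_natCast (g ^ (e₀ : ℤ)) i, ← zpow_mul,
            ← zpow_sub₀ hg0, ← zpow_natCast _ N₁, ← zpow_mul, ← zpow_natCast g N, ← zpow_mul]
          congr 1
          linear_combination (i : ℤ) * ht
        have hx : ∀ j : ℕ, ((g ^ e₀) ^ p ^ j) ^ p ^ v = (g ^ N) ^ (s * (p ^ j : ℕ)) := by
          intro j
          rw [← zpow_natCast g e₀, ← zpow_natCast (g ^ (e₀ : ℤ)) (p ^ j),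
            ← zpow_natCast _ (p ^ v), ← zpow_mul, ← zpow_mul, ← zpow_natCast g N, ← zpow_mul]
          congr 1
          linear_combination ((p ^ j : ℕ) : ℤ) * hs
        refine ⟨hlog, univ.image Sum.inl, m, Sum.inl ⟨e₀, he₀⟩,
          Sum.elim (fun i : Fin N => (i : ℕ)) (fun _ => 0), N₁, v, hm, ?_, hN₁0, hN₁p, ?_, ?_, ?_⟩
        · rintro (i | j) hi
          · exact absurd (mem_image_of_mem _ (mem_univ i)) hi
          · exact hint j
        · rintro (i | j) hi
          · rw [Sum.elim_inl, Sum.elim_inl, Sum.elim_inl, hw]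
            exact zpow_mem (hL0 hg) _
          · simp at hi
        · have h2 := hx 0
          rw [pow_zero, pow_one] at h2
          rw [Sum.elim_inl, h2]
          exact zpow_mem (hL0 hg) _
        · intro φ
          obtain ⟨hφ1, hφ2⟩ := hφ φ
          refine ⟨?_, ?_, ?_⟩
          · rw [Sum.elim_inl, map_pow, norm_pow, hφ1, one_pow]
          · rintro (i | j) hi
            · simp only [Sum.elim_inl]
              rw [mul_div_assoc, map_mul]
              refine mul_mem (hφ2 _ (h0 (hb i))) ?_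
              refine up_near hN₁0 hN₁p ?_ ?_
              · rw [← map_pow, hw]
                exact hφ2 _ (h0 (zpow_mem hg _))
              · rw [map_div₀, map_pow, map_pow, map_pow, norm_div, norm_pow, norm_pow, norm_pow,
                  hφ1, one_pow, one_pow, one_pow, div_one]
            · simp at hi
          · intro j hj
            rw [Sum.elim_inl] at hj ⊢
            refine hφ2 _ (h0 ?_)
            refine step_P hp2 L₀ L' L h0 hM hLM (fun ψ x hx' => (hφ ψ).2 x hx') _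
              (pow_ne_zero _ (pow_ne_zero _ hg0)) hj v ?_ ?_
            · show ((g ^ e₀) ^ p ^ j) ^ p ^ v ∈ L₀
              rw [hx]
              exact zpow_mem hg _
            · intro z hz hz1
              refine hnt z ?_ hz1
              have h2 : L₀ ⊔ adjoin ℚ {(g ^ e₀) ^ p ^ j} ≤ L₀ ⊔ adjoin ℚ {g} := by
                refine sup_le_sup_left ?_ _
                rw [adjoin_simple_le_iff]
                exact pow_mem (pow_mem (mem_adjoin_simple_self ℚ g) _) _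
              exact h2 hz
      · right
        left
        refine ⟨univ.image Sum.inl, m, Sum.inl ⟨0, hN⟩, N, hm, ?_, ?_, ?_⟩
        · rw [Nat.coprime_comm]
          exact (Nat.Prime.coprime_iff_not_dvd hpp).2 hpN
        · rintro (i | j) hi
          · exact absurd (mem_image_of_mem _ (mem_univ i)) hi
          · exact hint j
        · rintro (i | j) hi
          · rw [Sum.elim_inl, Sum.elim_inl, pow_zero, div_one, ← pow_mul, mul_comm, pow_mul]
            exact pow_mem (hL0 hg) _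
          · simp at hi)
    (by rw [hsum]; exact hα0)
    (by
      rintro (i | j) c hc
      · rw [hsum]
        exact (hne c hc).1 i
      · rw [hsum]
        exact (hne c hc).2 j)
  rw [hsum] at hkey
  exact hkey

end MP4270U
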