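import Pool.Agent.Lib_MP_4270a5_u.RFinB
import Pool.Agent.Lib_MP_4270a5_u.RSimP
import Pool.Agent.Lib_MP_4270a5_u.FinA

/-!
# MP_4270a5_nt, piece RFINC: `sim_P` in `ℂ`

PAPER PROOF. Transfer to `Qb` with `comap iiA` and `exists_ii`, compare `fin_D` in `FinD.lean`: lifts of `g`, `A`, the `d j` and the `e j`; `(F ⊔ adjoin ℚ T).comap iiA ≤ F.comap iiA ⊔ adjoin ℚ (ii ⁻¹' T)` for
`F ≤` the algebraic numbers and `T` a set of algebraic numbers (the image of the right side under `iiA` contains `F` and `T`). Drop the `j` with `e j = 0` (sum over the subtype).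
-/

open Polynomial IntermediateField Finset

namespace MP4270U

open MP4270

/-- the elements of a number field are algebraic -/
private theorem rfinc_alg (F : IntermediateField ℚ ℂ) [FiniteDimensional ℚ F] {x : ℂ} (hx : x ∈ F) :
    IsAlgebraic ℚ x := by
  have h1 := Algebra.IsAlgebraic.isAlgebraic (R := ℚ) (⟨x, hx⟩ : F)
  have h2 : algebraMap F ℂ ⟨x, hx⟩ = x := rfl
  rw [← h2]
  exact h1.algebraMap

/-- roots of algebraic numbers are algebraic -/
private theorem rfinc_root {x : ℂ} {n : ℕ} (hn : 0 < n) (hx : IsAlgebraic ℚ (x ^ n)) :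
    IsAlgebraic ℚ x :=
  isAlgebraic_iff_isIntegral.mpr (IsIntegral.of_pow hn (isAlgebraic_iff_isIntegral.mp hx))

private theorem rfinc_fd (F : IntermediateField ℚ ℂ) [FiniteDimensional ℚ F] :
    FiniteDimensional ℚ (F.comap iiA) := by
  let f : F.comap iiA →ₗ[ℚ] F :=
    { toFun := fun x => ⟨iiA x, x.2⟩
      map_add' := fun x y => by
        apply Subtype.ext
        change iiA ((x : Qb) + y) = iiA x + iiA y
        exact map_add _ _ _
      map_smul' := fun q x => by
        apply Subtype.ext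
        change iiA (q • (x : Qb)) = q • iiA x
        rw [Algebra.smul_def, Algebra.smul_def, map_mul, AlgHom.commutes] }
  refine FiniteDimensional.of_injective f ?_
  intro x y hxy
  apply Subtype.ext
  have := congrArg Subtype.val hxy
  exact ii_inj this

/-- the inverse image of a field generated by a field of algebraic numbers and a set of algebraic numbers -/
private theorem rfinc_comap (F : IntermediateField ℚ ℂ) (hF : ∀ x ∈ F, IsAlgebraic ℚ x) (T : Set ℂ)
    (hT : ∀ x ∈ T, IsAlgebraic ℚ x) {x : Qb} (hx : ii x ∈ F ⊔ adjoin ℚ T) :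
    x ∈ F.comap iiA ⊔ adjoin ℚ (ii ⁻¹' T) := by
  have h1 : F ⊔ adjoin ℚ T ≤ IntermediateField.map iiA (F.comap iiA ⊔ adjoin ℚ (ii ⁻¹' T)) := by
    refine sup_le ?_ (adjoin_le_iff.2 ?_)
    · intro z hz
      obtain ⟨y, hy⟩ := exists_ii z (hF z hz)
      have h2 : y ∈ F.comap iiA := by
        show ii y ∈ F
        rw [hy]
        exact hz
      exact ⟨y, (le_sup_left : F.comap iiA ≤ _) h2, hy⟩
    · intro z hz
      obtain ⟨y, hy⟩ := exists_ii z (hT z hz)
      have h2 : y ∈ ii ⁻¹' T := by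
        show ii y ∈ T
        rw [hy]
        exact hz
      exact ⟨y, (le_sup_right : adjoin ℚ (ii ⁻¹' T) ≤ F.comap iiA ⊔ adjoin ℚ (ii ⁻¹' T))
        (subset_adjoin _ _ h2), hy⟩
  obtain ⟨y, hy, hyx⟩ := h1 hx
  have h3 : y = x := ii_inj hyx
  rw [← h3]
  exact hy

theorem fin_sim (L₀ L' L : IntermediateField ℚ ℂ) [FiniteDimensional ℚ L] (h0 : L₀ ≤ L') (h1 : L' ≤ L)
    {M : ℕ} (hM : 0 < M) (hLM : L ≤ L' ⊔ adjoin ℚ {z : ℂ | z ^ M = 1}) (N N' : ℕ) (hN : 0 < N)
    (hN' : 0 < N') (hμ : ∀ z : ℂ, z ^ N' = 1 → z ∈ L) (g : ℂ) (hg0 : g ≠ 0)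
    (hg : g ^ N ∈ L₀) (hgN' : g ^ N' ∈ L) {κ : Type} [Fintype κ] (d e : κ → ℂ) (hd : ∀ j, d j ∈ L)
    (he : ∀ j, e j ^ N' ∈ L) (he0 : ∀ j, e j ≠ 0)
    (hp : ∀ (p : ℕ) [Fact p.Prime], p ∣ N' →
      (∃ m : ℕ, m.Coprime p ∧ ∀ j, IsIntegral ℤ ((m : ℂ) * (d j * e j))) ∧
      (p ∣ N → 30000 * Real.log p ≤ p ∧ (∀ z ∈ L₀ ⊔ adjoin ℚ {g}, z ^ p = 1 → z = 1) ∧
        PU p g ∧ L' ≤ Unr p))
    (A α : ℂ) (hA : A ∈ L₀ ⊔ adjoin ℚ {g}) (hα : α = A + ∑ j, d j * e j) (hα0 : α ≠ 0)
    (hne : ∀ c ∈ L, (∀ j : ℕ, α ≠ c * g ^ j) ∧ ∀ j, α ≠ c * e j) :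
    Real.log 2 / 40320 ≤ wh α := by
  classical
  have hfd := rfinc_fd L
  have halgL : ∀ x ∈ L, IsAlgebraic ℚ x := fun x hx => rfinc_alg L hx
  have halg0 : ∀ x ∈ L₀, IsAlgebraic ℚ x := fun x hx => halgL x (h1 (h0 hx))
  have halg' : ∀ x ∈ L', IsAlgebraic ℚ x := fun x hx => halgL x (h1 hx)
  have hgalg : IsAlgebraic ℚ g := rfinc_root hN (halg0 _ hg)
  obtain ⟨g', hg'⟩ := exists_ii g hgalg
  have hAalg : IsAlgebraic ℚ A := by
    have h2 : L₀ ⊔ adjoin ℚ {g} ≤ algebraicClosure ℚ ℂ := by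
      refine sup_le (fun y hy => mem_algebraicClosure_iff.2 (halg0 y hy)) ?_
      rw [adjoin_simple_le_iff]
      exact mem_algebraicClosure_iff.2 hgalg
    exact mem_algebraicClosure_iff.1 (h2 hA)
  obtain ⟨A', hA'⟩ := exists_ii A hAalg
  have hd' : ∀ j, ∃ x : Qb, ii x = d j := fun j => exists_ii _ (halgL _ (hd j))
  have he' : ∀ j, ∃ x : Qb, ii x = e j := fun j => exists_ii _ (rfinc_root hN' (halgL _ (he j)))
  choose d' hd'e using hd'
  choose e' he'e using he'
  have hmem : ∀ (F : IntermediateField ℚ ℂ) (x : Qb), ii x ∈ F → x ∈ F.comap iiA :=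
    fun F x hx => hx
  have hmem' : ∀ (F : IntermediateField ℚ ℂ) (x : Qb), x ∈ F.comap iiA → ii x ∈ F :=
    fun F x hx => hx
  have hsum : ii (A' + ∑ j, d' j * e' j) = α := by
    rw [map_add, map_sum, hα, hA']
    congr 1
    exact Finset.sum_congr rfl fun j _ => by rw [map_mul, hd'e, he'e]
  have hpre : ii ⁻¹' {g} = {g'} := by
    ext x
    constructor
    · intro hx
      have h2 : ii x = ii g' := by rw [hg']; exact hx
      exact ii_inj h2
    · intro hx
      have h2 : x = g' := hx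
      show ii x = g
      rw [h2, hg']
  have key := sim_P (L₀.comap iiA) (L'.comap iiA) (L.comap iiA)
    (fun x hx => h0 hx) (fun x hx => h1 hx) hM
    (by
      intro x hx
      have h2 := rfinc_comap L' halg' {z : ℂ | z ^ M = 1} (fun z hz => rfinc_root hM (by
        have h3 : z ^ M = 1 := hz
        rw [h3]
        exact isAlgebraic_one)) (hLM (hmem' L x hx))
      have h3 : ii ⁻¹' {z : ℂ | z ^ M = 1} = {z : Qb | z ^ M = 1} := by
        ext z
        constructor
        · intro hz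
          have h4 : ii z ^ M = 1 := hz
          rw [← map_pow, ← map_one ii] at h4
          exact ii_inj h4
        · intro hz
          have h4 : z ^ M = 1 := hz
          show ii z ^ M = 1
          rw [← map_pow, h4, map_one]
      rw [h3] at h2
      exact h2)
    N N' hN hN' (fun z hz => hmem L z (hμ _ (by rw [← map_pow, hz, map_one]))) g'
    (fun h => hg0 (by rw [← hg', h, map_zero]))
    (hmem _ _ (by rw [map_pow, hg']; exact hg)) (hmem _ _ (by rw [map_pow, hg']; exact hgN'))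
    d' e' (fun j => hmem _ _ (by rw [hd'e]; exact hd j))
    (fun j => hmem _ _ (by rw [map_pow, he'e]; exact he j))
    (fun j h => he0 j (by rw [← he'e, h, map_zero]))
    (by
      intro p hpf hpN'
      obtain ⟨⟨m, hm, hint⟩, hpr⟩ := hp p hpN'
      refine ⟨⟨m, hm, fun j => ?_⟩, fun hpN => ?_⟩
      · have h2 := hint j
        rw [← hd'e, ← he'e, ← map_mul, ← map_natCast ii m, ← map_mul] at h2
        exact (isIntegral_algHom_iff (RingHom.toIntAlgHom ii) (RingHom.injective ii)).1 h2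
      · obtain ⟨hlog, hnt, hpu, hunr⟩ := hpr hpN
        refine ⟨hlog, fun z hz hz1 => ?_, fun φ => ⟨hpu g' φ hg', fun x hx => mem_unr φ (hunr (hmem' _ _ hx))⟩⟩
        have h2 : L₀.comap iiA ⊔ adjoin ℚ {g'} ≤ (L₀ ⊔ adjoin ℚ {g}).comap iiA := by
          refine sup_le (fun x hx => (le_sup_left : L₀ ≤ _) (hmem' _ _ hx)) ?_
          rw [adjoin_simple_le_iff]
          refine hmem _ _ ?_
          rw [hg']
          exact (le_sup_right : adjoin ℚ {g} ≤ L₀ ⊔ adjoin ℚ {g}) (mem_adjoin_simple_self ℚ g)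
        have h3 := hnt (ii z) (hmem' _ _ (h2 hz)) (by rw [← map_pow, hz1, map_one])
        rw [← map_one ii] at h3
        exact ii_inj h3)
    A' (A' + ∑ j, d' j * e' j)
    (by
      have h2 := rfinc_comap L₀ halg0 {g} (fun z hz => by
        have h3 : z = g := hz
        rw [h3]
        exact hgalg) (x := A') (by rw [hA']; exact hA)
      rw [hpre] at h2
      exact h2)
    rfl (fun h => hα0 (by rw [← hsum, h, map_zero]))
    (fun c hc => ⟨fun j h => (hne (ii c) (hmem' _ _ hc)).1 j (by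
        rw [← hsum, h, map_mul, map_pow, hg']),
      fun j h => (hne (ii c) (hmem' _ _ hc)).2 j (by rw [← hsum, h, map_mul, he'e])⟩)
  unfold hW dn at key
  rw [← minpoly_ii, hsum] at key
  exact key

end MP4270U
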