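import Pool.Agent.Lib_MP_4270a5_u.RFinC

/-!
# MP_4270a5_nt, piece RFIND: an element of a simple radical field plus an `S`-integral sum

PAPER PROOF. `F₁ = F(Γ)`, `S'` from `unr_exists`, `c` the minimum of the constant of `final_C` (`k = 1`) and `log 2 / 40320`. Let `β = ∑ b_j e_j` (`S'`-integral terms), `N N_e` a common exponent,
`N N_e = N₁ N₂` and `N = A₁ A₂` with `S'`-numbers `N₁`, `A₁` and `N₂`, `A₂` prime to `S'`; `A₂ ∣ N₂`. `g = g_S g₁`, `g_S^(A₁) ∈ Γ`, `g₁^(A₂) ∈ Γ`, and in the same way for the `e_j`.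
`L₀ = F₁(μ_m, Γ^(1/n), g_S)`, `L' = F₁(μ_m, Γ^(1/(n n₀ A₁)))`, `L = L'(μ_M)`. `fin_sim`.
-/

open Polynomial IntermediateField Finset

namespace MP4270U

open MP4270

private theorem rfd_rep (Γ : Subgroup ℂˣ) (F : IntermediateField ℚ ℂ) (S S' : Finset ℕ)
    (hSS : S ⊆ S') (hcf : cf F Γ S ≤ cf F Γ S') (α : ℂ) (hα : α ∈ Subring.closure
        ({z : ℂ | z ∈ cf F Γ S ∧ ∃ s : ℕ, 0 < s ∧ s.primeFactors ⊆ S ∧ IsIntegral ℤ ((s : ℂ) * z)} ∪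
          {z : ℂ | ∃ n : ℕ, 0 < n ∧ ∃ γ ∈ Γ, z ^ n = (γ : ℂ)})) :
    finC_Rep (cf F Γ S') Γ S' α := by
  have h1 : IsIntegral ℤ (((1 : ℕ) : ℂ) * 1) := by simpa using isIntegral_one
  have hone : ∃ s : ℕ, finC_num S' s ∧ IsIntegral ℤ ((s : ℂ) * 1) := ⟨1, finC_num_one _, h1⟩
  induction hα using Subring.closure_induction with
  | mem z hz =>
    rcases hz with ⟨hz1, s, hs, hs1, hs2⟩ | hz
    · rw [← mul_one z]
      exact finC_Rep_one _ _ _ (hcf hz1) ⟨s, ⟨hs, hs1.trans hSS⟩, hs2⟩ (finC_D_one Γ)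
    · rw [← one_mul z]
      exact finC_Rep_one _ _ _ (IntermediateField.one_mem _) hone hz
  | zero => exact ⟨Empty, inferInstance, fun _ => 0, fun _ => 0, fun j => j.elim, by simp⟩
  | one =>
    rw [← one_mul (1 : ℂ)]
    exact finC_Rep_one _ _ _ (IntermediateField.one_mem _) hone (finC_D_one Γ)
  | add x y _ _ hx hy => exact finC_Rep_add hx hy
  | neg x _ hx => exact finC_Rep_neg hx
  | mul x y _ _ hx hy => exact finC_Rep_mul hx hy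

/-- splitting an element of the division group into an `S`-part and a part prime to `S` -/
private theorem rfd_split (Γ : Subgroup ℂˣ) {z : ℂ} {N₁ N₂ : ℕ} (hN₁ : 0 < N₁) (hN₂ : 0 < N₂)
    (hco : N₁.Coprime N₂) (hz : ∃ γ ∈ Γ, z ^ (N₁ * N₂) = (γ : ℂ)) :
    ∃ a b : ℤ, z = z ^ a * z ^ b ∧ (∃ γ ∈ Γ, (z ^ a) ^ N₁ = (γ : ℂ)) ∧
      ∃ γ ∈ Γ, (z ^ b) ^ N₂ = (γ : ℂ) := by
  have hz0 : z ≠ 0 := by
    rintro rfl
    obtain ⟨γ, -, h1⟩ := hz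
    rw [zero_pow (Nat.mul_pos hN₁ hN₂).ne'] at h1
    exact γ.ne_zero h1.symm
  have hbez : (N₁ : ℤ) * N₁.gcdA N₂ + N₂ * N₁.gcdB N₂ = 1 := by
    rw [← Nat.gcd_eq_gcd_ab, hco.gcd_eq_one]
    rfl
  obtain ⟨γ, hγ, h1⟩ := hz
  have hw : ∀ w : ℤ, (z ^ (N₁ * N₂)) ^ w = ((γ ^ w : ℂˣ) : ℂ) := by
    intro w
    rw [h1, Units.val_zpow_eq_zpow_val]
  refine ⟨(N₂ : ℤ) * N₁.gcdB N₂, (N₁ : ℤ) * N₁.gcdA N₂, ?_, ⟨γ ^ N₁.gcdB N₂, Γ.zpow_mem hγ _, ?_⟩,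
    ⟨γ ^ N₁.gcdA N₂, Γ.zpow_mem hγ _, ?_⟩⟩
  · rw [← zpow_add₀ hz0]
    have h2 : (N₂ : ℤ) * N₁.gcdB N₂ + (N₁ : ℤ) * N₁.gcdA N₂ = 1 := by linear_combination hbez
    rw [h2, zpow_one]
  · rw [← hw, ← zpow_natCast, ← zpow_natCast, ← zpow_mul, ← zpow_mul]
    congr 1
    push_cast
    ring
  · rw [← hw, ← zpow_natCast, ← zpow_natCast, ← zpow_mul, ← zpow_mul]
    congr 1
    push_cast
    ring

private theorem rfd_fd_roots {M : ℕ} (hM : 0 < M) :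
    FiniteDimensional ℚ (adjoin ℚ {z : ℂ | z ^ M = 1}) := by
  have hfin : {z : ℂ | z ^ M = 1}.Finite := by
    have h1 : {z : ℂ | z ^ M = 1} ⊆ ((X ^ M - 1 : ℂ[X]).rootSet ℂ) := by
      intro z hz
      rw [Polynomial.mem_rootSet]
      refine ⟨X_pow_sub_C_ne_zero hM 1, ?_⟩
      have hz' : z ^ M = 1 := hz
      simp [hz']
    exact (Polynomial.rootSet_finite _ _).subset h1
  have h2 : Finite {z : ℂ | z ^ M = 1} := hfin
  refine IntermediateField.finiteDimensional_adjoin fun x hx => ?_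
  have hx' : x ^ M = 1 := hx
  exact IsIntegral.of_pow hM (by rw [hx']; exact isIntegral_one)

theorem fin_P (Γ : Subgroup ℂˣ) (hΓ : Γ.FG) (halg : ∀ g ∈ Γ, IsAlgebraic ℚ (g : ℂ))
    (F : IntermediateField ℚ ℂ) [FiniteDimensional ℚ F] (S : Finset ℕ) :
    ∃ c : ℝ, 0 < c ∧ ∀ m n N : ℕ, 0 < m → 0 < n → n.primeFactors ⊆ S → 0 < N → ∀ g : ℂ,
      (∃ γ ∈ Γ, g ^ N = (γ : ℂ)) →
      (∀ p : ℕ, p.Prime → p ∣ N → p ∉ S → ∀ z ∈ Lc F Γ m n ⊔ adjoin ℚ {g}, z ^ p = 1 → z = 1) →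
      ∀ A ∈ Lc F Γ m n ⊔ adjoin ℚ {g}, ∀ β ∈ Subring.closure
        ({z : ℂ | z ∈ cf F Γ S ∧ ∃ s : ℕ, 0 < s ∧ s.primeFactors ⊆ S ∧ IsIntegral ℤ ((s : ℂ) * z)} ∪
          {z : ℂ | ∃ n : ℕ, 0 < n ∧ ∃ γ ∈ Γ, z ^ n = (γ : ℂ)}),
      ∀ α : ℂ, α = A + β → α ≠ 0 →
        (¬ ∃ n : ℕ, 0 < n ∧ ∃ γ ∈ Γ, α ^ n = (γ : ℂ)) → c ≤ wh α := by
  classical
  obtain ⟨T, hT⟩ := hΓ
  -- the field `F(Γ)`
  obtain ⟨F₁, hF₁⟩ : ∃ F₁ : IntermediateField ℚ ℂ,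
      F₁ = F ⊔ adjoin ℚ ((fun t : ℂˣ => (t : ℂ)) '' (T : Set ℂˣ)) := ⟨_, rfl⟩
  have hTΓ : ∀ t ∈ T, t ∈ Γ := fun t ht => by
    rw [← hT]
    exact Subgroup.subset_closure ht
  have hfd1 : FiniteDimensional ℚ F₁ := by
    have h1 : Finite ((fun t : ℂˣ => (t : ℂ)) '' (T : Set ℂˣ)) :=
      (T.finite_toSet.image _).to_subtype
    have h2 : FiniteDimensional ℚ (adjoin ℚ ((fun t : ℂˣ => (t : ℂ)) '' (T : Set ℂˣ))) := by
      refine IntermediateField.finiteDimensional_adjoin ?_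
      rintro _ ⟨t, ht, rfl⟩
      exact isAlgebraic_iff_isIntegral.mp (halg t (hTΓ t ht))
    rw [hF₁]
    exact IntermediateField.finiteDimensional_sup _ _
  have hFF₁ : F ≤ F₁ := by rw [hF₁]; exact le_sup_left
  have hΓF₁ : ∀ γ ∈ Γ, (γ : ℂ) ∈ F₁ := by
    intro γ hγ
    rw [← hT] at hγ
    induction hγ using Subgroup.closure_induction with
    | mem x hx =>
      rw [hF₁]
      exact (le_sup_right : adjoin ℚ _ ≤ F ⊔ adjoin ℚ _) (subset_adjoin ℚ _ ⟨x, hx, rfl⟩)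
    | one => exact F₁.one_mem
    | mul x y _ _ hx hy =>
      rw [Units.val_mul]
      exact F₁.mul_mem hx hy
    | inv x _ hx =>
      rw [Units.val_inv_eq_inv_val]
      exact F₁.inv_mem hx
  have hΓ : Γ.FG := ⟨T, hT⟩
  obtain ⟨S', hSS', hSint, hunr⟩ := unr_exists F₁ Γ hΓ halg S
  obtain ⟨c, hc, H⟩ := final_C F Γ hΓ halg S' 1
  refine ⟨min c (Real.log 2 / 40320), lt_min hc (div_pos (Real.log_pos (by norm_num))
    (by norm_num)), ?_⟩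
  intro m n N hm hn hnS hN g hgN hnt A hA β hβ α hα hα0 hne
  have hcf : cf F Γ S ≤ cf F Γ S' := by
    unfold cf
    refine sup_le_sup_left (IntermediateField.adjoin.mono _ _ _ (Set.union_subset_union_right _ ?_)) _
    rintro z ⟨n, hn, h1, h2⟩
    exact ⟨n, hn, h1.trans hSS', h2⟩
  obtain ⟨κ, _, b, e, h, hsum⟩ := rfd_rep Γ F S S' hSS' hcf β hβ
  choose hb hbs he using h
  choose s hs hsi using hbs
  have hSint' : ∀ γ ∈ Γ, ∃ s : ℕ, finC_num S' s ∧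
      IsIntegral ℤ ((s : ℂ) * (γ : ℂ)) ∧ IsIntegral ℤ ((s : ℂ) * ((γ⁻¹ : ℂˣ) : ℂ)) := by
    intro γ hγ
    obtain ⟨s₁, hs₁, h1⟩ := hSint γ hγ
    obtain ⟨s₂, hs₂, h2⟩ := hSint γ⁻¹ (Γ.inv_mem hγ)
    refine ⟨s₁ * s₂, finC_num_mul hs₁ hs₂, ?_, ?_⟩
    · have e1 : ((s₁ * s₂ : ℕ) : ℂ) * (γ : ℂ) = (s₂ : ℂ) * ((s₁ : ℂ) * (γ : ℂ)) := by
        push_cast
        ring
      rw [e1]
      exact (finC_nat s₂).mul h1
    · have e1 : ((s₁ * s₂ : ℕ) : ℂ) * ((γ⁻¹ : ℂˣ) : ℂ) = (s₁ : ℂ) * ((s₂ : ℂ) * ((γ⁻¹ : ℂˣ) : ℂ)) := by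
        push_cast
        ring
      rw [e1]
      exact (finC_nat s₁).mul h2
  have hts : ∀ j, ∃ s : ℕ, finC_num S' s ∧ IsIntegral ℤ ((s : ℂ) * e j) := fun j =>
    finC_int hSint' (he j)
  choose t ht hti using hts
  choose k hk γ hγ hek using he
  obtain ⟨mm, hmm⟩ : ∃ mm : ℕ, mm = ∏ j, (s j * t j) := ⟨_, rfl⟩
  have hmS : finC_num S' mm := by
    rw [hmm]
    exact finC_num_prod _ _ fun j _ => finC_num_mul (hs j) (ht j)
  have hint : ∀ j, IsIntegral ℤ ((mm : ℂ) * (b j * e j)) := by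
    intro j
    obtain ⟨q, hq⟩ : s j * t j ∣ mm := by
      rw [hmm]
      exact dvd_prod_of_mem _ (mem_univ j)
    have e1 : (mm : ℂ) * (b j * e j) = (q : ℂ) * ((s j : ℂ) * b j * ((t j : ℂ) * e j)) := by
      rw [hq]
      push_cast
      ring
    rw [e1]
    exact (finC_nat q).mul ((hsi j).mul (hti j))
  -- the exponents
  obtain ⟨Nt, hNt⟩ : ∃ Nt : ℕ, Nt = N * ∏ j, k j := ⟨_, rfl⟩
  have hNt0 : 0 < Nt := by
    rw [hNt]
    exact Nat.mul_pos hN (prod_pos fun j _ => hk j)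
  obtain ⟨N₁, N₂, hNN, hN₁, hN₂, hcop⟩ := finC_split S' Nt hNt0
  obtain ⟨A₁, A₂, hAA, hA₁, hA₂, hcopA⟩ := finC_split S' N hN
  have hA₂N₂ : A₂ ∣ N₂ := by
    have h1 : A₂ ∣ N₁ * N₂ := by
      rw [← hNN, hNt, hAA]
      exact (dvd_mul_left A₂ A₁).trans (dvd_mul_right _ _)
    exact (Nat.coprime_comm.1 (hcopA N₁ hN₁)).dvd_of_dvd_mul_left h1
  obtain ⟨a₁, b₁, hg1, hgS, hgA⟩ := rfd_split Γ hA₁.1 hA₂ (hcopA A₁ hA₁)
    (z := g) (by rw [← hAA]; exact hgN)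
  have heN : ∀ j, ∃ δ ∈ Γ, e j ^ (N₁ * N₂) = (δ : ℂ) := by
    intro j
    obtain ⟨q, hq⟩ : k j ∣ Nt := by
      rw [hNt]
      exact (dvd_prod_of_mem k (mem_univ j)).trans (dvd_mul_left _ _)
    refine ⟨γ j ^ q, Γ.pow_mem (hγ j) q, ?_⟩
    rw [← hNN, hq, pow_mul, hek, Units.val_pow_eq_pow_val]
  choose a₂ b₂ he1 heS heN₂ using fun j => rfd_split Γ hN₁.1 hN₂ (hcop N₁ hN₁) (heN j)
  have hg0 : g ≠ 0 := by
    rintro rfl
    obtain ⟨γ, -, h1⟩ := hgN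
    rw [zero_pow hN.ne'] at h1
    exact γ.ne_zero h1.symm
  have he0 : ∀ j, e j ≠ 0 := by
    intro j h0
    have h1 := hek j
    rw [h0, zero_pow (hk j).ne'] at h1
    exact (γ j).ne_zero h1.symm
  -- the coefficients
  obtain ⟨d, hd⟩ : ∃ d : κ → ℂ, ∀ j, d j = b j * e j ^ (a₂ j) := ⟨_, fun _ => rfl⟩
  have hdcf : ∀ j, d j ∈ cf F Γ S' := by
    intro j
    rw [hd]
    refine (cf F Γ S').mul_mem (hb j) ?_
    obtain ⟨δ, hδ, h1⟩ := heS j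
    exact (le_sup_right : _ ≤ cf F Γ S') (IntermediateField.subset_adjoin _ _
      (Or.inr ⟨N₁, hN₁.1, hN₁.2, δ, hδ, h1⟩))
  obtain ⟨M₀, n₀, hM₀, hn₀, hn₀S, hdL⟩ := cf_levels F Γ S' d hdcf
  have hde : ∀ j, d j * e j ^ (b₂ j) = b j * e j := by
    intro j
    rw [hd, mul_assoc, ← he1 j]
  -- the fields
  obtain ⟨n', hn'⟩ : ∃ n' : ℕ, n' = n * n₀ * A₁ := ⟨_, rfl⟩
  have hn'S : finC_num S' n' := by
    rw [hn']
    exact finC_num_mul (finC_num_mul ⟨hn, hnS.trans hSS'⟩ ⟨hn₀, hn₀S⟩) hA₁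
  obtain ⟨M, hM⟩ : ∃ M : ℕ, M = m * M₀ * N₂ := ⟨_, rfl⟩
  have hM0 : 0 < M := by
    rw [hM]
    exact Nat.mul_pos (Nat.mul_pos hm hM₀) hN₂
  obtain ⟨L', hL'⟩ : ∃ L' : IntermediateField ℚ ℂ, L' = Lc F₁ Γ m n' := ⟨_, rfl⟩
  obtain ⟨L, hL⟩ : ∃ L : IntermediateField ℚ ℂ, L = L' ⊔ adjoin ℚ {z : ℂ | z ^ M = 1} := ⟨_, rfl⟩
  obtain ⟨L₀, hL₀⟩ : ∃ L₀ : IntermediateField ℚ ℂ, L₀ = Lc F₁ Γ m n ⊔ adjoin ℚ {g ^ a₁} := ⟨_, rfl⟩
  have hmemroot : ∀ (F : IntermediateField ℚ ℂ) (m n : ℕ) (z : ℂ), z ^ m = 1 → z ∈ Lc F Γ m n :=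
    fun F m n z hz => (le_sup_right : adjoin ℚ _ ≤ Lc F Γ m n) (subset_adjoin ℚ _ (Or.inl hz))
  have hmemrad : ∀ (F : IntermediateField ℚ ℂ) (m n : ℕ) (z : ℂ), (∃ γ ∈ Γ, z ^ n = (γ : ℂ)) →
      z ∈ Lc F Γ m n :=
    fun F m n z hz => (le_sup_right : adjoin ℚ _ ≤ Lc F Γ m n) (subset_adjoin ℚ _ (Or.inr hz))
  have hgmem : g ^ a₁ ∈ L' := by
    rw [hL']
    refine hmemrad _ _ _ _ ?_
    obtain ⟨δ, hδ, h1⟩ := hgS
    refine ⟨δ ^ (n * n₀), Γ.pow_mem hδ _, ?_⟩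
    rw [hn', mul_comm (n * n₀) A₁, pow_mul, h1, Units.val_pow_eq_pow_val]
  have h0 : L₀ ≤ L' := by
    rw [hL₀]
    refine sup_le ?_ ?_
    · rw [hL']
      exact lc_mono F₁ Γ dvd_rfl ⟨n₀ * A₁, by rw [hn']; ring⟩
    · rw [adjoin_simple_le_iff]
      exact hgmem
  have h1 : L' ≤ L := by rw [hL]; exact le_sup_left
  have hF₁L' : F₁ ≤ L' := by rw [hL']; exact le_sup_left
  have hfdL : FiniteDimensional ℚ L := by
    have h2 : FiniteDimensional ℚ L' := by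
      rw [hL']
      exact lc_fd F₁ Γ hΓ halg hm hn'S.1
    have h3 := rfd_fd_roots hM0
    rw [hL]
    exact IntermediateField.finiteDimensional_sup _ _
  have hrootL : ∀ (M' : ℕ), M' ∣ M → ∀ z : ℂ, z ^ M' = 1 → z ∈ L := by
    rintro M' ⟨q, hq⟩ z hz
    rw [hL]
    refine (le_sup_right : adjoin ℚ _ ≤ _) (subset_adjoin ℚ _ ?_)
    show z ^ M = 1
    rw [hq, pow_mul, hz, one_pow]
  have hLcf : L ≤ cf F Γ S' := by
    have h3 : F₁ ≤ cf F Γ S' := by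
      rw [hF₁]
      refine sup_le le_sup_left (adjoin_le_iff.2 ?_)
      rintro _ ⟨t, ht, rfl⟩
      exact (le_sup_right : _ ≤ cf F Γ S') (subset_adjoin _ _
        (Or.inr ⟨1, one_pos, by simp, t, hTΓ t ht, pow_one _⟩))
    rw [hL, hL']
    refine sup_le (sup_le h3 (adjoin_le_iff.2 ?_)) (adjoin_le_iff.2 ?_)
    · rintro z (hz | hz)
      · exact (le_sup_right : _ ≤ cf F Γ S') (subset_adjoin _ _ (Or.inl ⟨m, hm, hz⟩))
      · exact (le_sup_right : _ ≤ cf F Γ S') (subset_adjoin _ _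
          (Or.inr ⟨n', hn'S.1, hn'S.2, hz⟩))
    · intro z hz
      exact (le_sup_right : _ ≤ cf F Γ S') (subset_adjoin _ _ (Or.inl ⟨M, hM0, hz⟩))
  have hΓL : ∀ γ ∈ Γ, (γ : ℂ) ∈ L := fun γ hγ => h1 (hF₁L' (hΓF₁ γ hγ))
  have hdL' : ∀ j, d j ∈ L := by
    intro j
    refine (?_ : Lc F Γ M₀ n₀ ≤ L) (hdL j)
    refine sup_le (hFF₁.trans (hF₁L'.trans h1)) (adjoin_le_iff.2 ?_)
    rintro z (hz | ⟨δ, hδ, hz⟩)
    · exact hrootL M₀ ⟨m * N₂, by rw [hM]; ring⟩ z hz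
    · refine h1 ?_
      rw [hL']
      refine hmemrad _ _ _ _ ⟨δ ^ (n * A₁), Γ.pow_mem hδ _, ?_⟩
      rw [hn', show n * n₀ * A₁ = n₀ * (n * A₁) by ring, pow_mul, hz, Units.val_pow_eq_pow_val]
  -- the field of the statement
  have hEle : L₀ ⊔ adjoin ℚ {g ^ b₁} ≤ Lc F Γ m n ⊔ adjoin ℚ {g} := by
    have hgE : g ∈ Lc F Γ m n ⊔ adjoin ℚ {g} :=
      (le_sup_right : adjoin ℚ {g} ≤ _) (mem_adjoin_simple_self ℚ g)
    have h3 : F₁ ≤ Lc F Γ m n := by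
      rw [hF₁]
      refine sup_le le_sup_left (adjoin_le_iff.2 ?_)
      rintro _ ⟨t, ht, rfl⟩
      obtain ⟨z, hz⟩ := IsAlgClosed.exists_pow_nat_eq (t : ℂ) hn
      have h4 : z ∈ Lc F Γ m n := hmemrad F m n z ⟨t, hTΓ t ht, hz⟩
      show (t : ℂ) ∈ Lc F Γ m n
      rw [← hz]
      exact pow_mem h4 n
    rw [hL₀]
    refine sup_le (sup_le (sup_le (h3.trans le_sup_left) ?_) ?_) ?_
    · exact le_sup_right.trans (le_sup_left : Lc F Γ m n ≤ _)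
    · rw [adjoin_simple_le_iff]
      exact zpow_mem hgE _
    · rw [adjoin_simple_le_iff]
      exact zpow_mem hgE _
  have hAmem : A ∈ L₀ ⊔ adjoin ℚ {g ^ b₁} := by
    refine (?_ : Lc F Γ m n ⊔ adjoin ℚ {g} ≤ _) hA
    refine sup_le (sup_le ?_ ?_) ?_
    · rw [hL₀]
      exact hFF₁.trans ((le_sup_left.trans le_sup_left : F₁ ≤ Lc F₁ Γ m n ⊔ _).trans le_sup_left)
    · rw [hL₀]
      exact (le_sup_right.trans (le_sup_left : Lc F₁ Γ m n ≤ _)).trans le_sup_left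
    · rw [adjoin_simple_le_iff]
      have h3 : g ^ a₁ ∈ L₀ ⊔ adjoin ℚ {g ^ b₁} := by
        refine (le_sup_left : L₀ ≤ _) ?_
        rw [hL₀]
        exact (le_sup_right : adjoin ℚ {g ^ a₁} ≤ _) (mem_adjoin_simple_self ℚ _)
      have h4 : g ^ b₁ ∈ L₀ ⊔ adjoin ℚ {g ^ b₁} :=
        (le_sup_right : adjoin ℚ {g ^ b₁} ≤ _) (mem_adjoin_simple_self ℚ _)
      have h5 := mul_mem h3 h4
      rw [← hg1] at h5
      exact h5
  have hpS : ∀ p : ℕ, p.Prime → p ∣ N₂ → p ∉ S' := by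
    intro p hp hpN h
    have h2 : finC_num S' p := ⟨hp.pos, by
      rw [hp.primeFactors]
      exact singleton_subset_iff.2 h⟩
    exact hp.one_lt.ne' (Nat.Coprime.eq_one_of_dvd (hcop p h2) hpN)
  have hcopS : ∀ p : ℕ, p.Prime → p ∉ S' → ∀ q : ℕ, finC_num S' q → q.Coprime p := by
    intro p hp hpS q hq
    refine Nat.Coprime.symm ((Nat.Prime.coprime_iff_not_dvd hp).2 fun hd => hpS ?_)
    exact hq.2 (Nat.mem_primeFactors.2 ⟨hp, hd, hq.1.ne'⟩)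
  by_cases hex : ∀ c ∈ L, (∀ j : ℕ, α ≠ c * (g ^ b₁) ^ j) ∧ ∀ j, α ≠ c * e j ^ (b₂ j)
  · refine (min_le_right _ _).trans ?_
    refine fin_sim L₀ L' L h0 h1 hM0 (le_of_eq hL) A₂ N₂ hA₂ hN₂
      (hrootL N₂ ⟨m * M₀, by rw [hM]; ring⟩) (g ^ b₁) (zpow_ne_zero _ hg0) ?_ ?_ d
      (fun j => e j ^ (b₂ j)) hdL' ?_ (fun j => zpow_ne_zero _ (he0 j)) ?_ A α hAmem ?_ hα0 hex
    · obtain ⟨δ, hδ, h2⟩ := hgA
      rw [h2, hL₀]
      exact (le_sup_left.trans le_sup_left : F₁ ≤ Lc F₁ Γ m n ⊔ _) (hΓF₁ δ hδ)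
    · obtain ⟨δ, hδ, h2⟩ := hgA
      obtain ⟨q, hq⟩ := hA₂N₂
      rw [hq, pow_mul, h2]
      exact pow_mem (hΓL δ hδ) _
    · intro j
      obtain ⟨δ, hδ, h2⟩ := heN₂ j
      show (e j ^ (b₂ j)) ^ N₂ ∈ L
      rw [h2]
      exact hΓL δ hδ
    · intro p hpf hpN₂
      have hpp : p.Prime := hpf.out
      have hpS' := hpS p hpp hpN₂
      obtain ⟨hlog, hFu, hΓu⟩ := hunr p hpS'
      refine ⟨⟨mm, hcopS p hpp hpS' mm hmS, fun j => ?_⟩, fun hpA => ⟨hlog, ?_, ?_, ?_⟩⟩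
      · rw [hde]
        exact hint j
      · intro z hz hz1
        exact hnt p hpp (hpA.trans (by rw [hAA]; exact dvd_mul_left _ _)) (fun h => hpS' (hSS' h))
          z (hEle hz) hz1
      · obtain ⟨δ, hδ, h2⟩ := hgA
        refine pu_root hA₂ ?_
        rw [h2]
        exact hΓu δ hδ
      · rw [hL']
        refine sup_le hFu (adjoin_le_iff.2 ?_)
        rintro z (hz | ⟨δ, hδ, hz⟩)
        · have hpm : m.Coprime p := by
            rw [Nat.coprime_comm, Nat.Prime.coprime_iff_not_dvd hpp]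
            rintro ⟨q, hq⟩
            obtain ⟨ζ, hζ⟩ : ∃ ζ : ℂ, IsPrimitiveRoot ζ p :=
              ⟨_, Complex.isPrimitiveRoot_exp p hpp.ne_zero⟩
            have h2 : ζ ∈ Lc F Γ m n ⊔ adjoin ℚ {g} := by
              refine (le_sup_left : Lc F Γ m n ≤ _) (hmemroot F m n ζ ?_)
              rw [hq, pow_mul, hζ.pow_eq_one, one_pow]
            have h3 := hnt p hpp (hpA.trans (by rw [hAA]; exact dvd_mul_left _ _))
              (fun h => hpS' (hSS' h)) ζ h2 hζ.pow_eq_one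
            rw [h3, IsPrimitiveRoot.one_left_iff] at hζ
            exact hpp.one_lt.ne' hζ
          have hz' : z ^ m = 1 := hz
          refine unr_root hm hpm ?_ ?_
          · rw [hz']
            exact one_mem _
          · rw [hz']
            exact pu_one p
        · refine unr_root hn'S.1 (hcopS p hpp hpS' n' hn'S) ?_ ?_
          · rw [hz]
            exact hFu (hΓF₁ δ hδ)
          · rw [hz]
            exact hΓu δ hδ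
    · rw [hα, hsum]
      congr 1
      exact Finset.sum_congr rfl fun j _ => (hde j).symm
  · push Not at hex
    refine (min_le_left _ _).trans ?_
    obtain ⟨c', hc', hex⟩ := hex
    have hgD : ∀ j : ℕ, ∃ n : ℕ, 0 < n ∧ ∃ γ ∈ Γ, ((g ^ b₁) ^ j) ^ n = (γ : ℂ) := by
      intro j
      obtain ⟨δ, hδ, h2⟩ := hgA
      refine ⟨A₂, hA₂, δ ^ j, Γ.pow_mem hδ j, ?_⟩
      rw [← pow_mul, mul_comm, pow_mul, h2, Units.val_pow_eq_pow_val]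
    by_cases h2 : ∀ j : ℕ, α ≠ c' * (g ^ b₁) ^ j
    · obtain ⟨j, hj⟩ := hex h2
      obtain ⟨δ, hδ, h3⟩ := heN₂ j
      exact H (fun _ => c') (fun _ => e j ^ (b₂ j)) (fun _ => hLcf hc')
        (fun _ => ⟨N₂, hN₂, δ, hδ, h3⟩) α (by simpa using hj) hα0 hne
    · push Not at h2
      obtain ⟨j, hj⟩ := h2
      exact H (fun _ => c') (fun _ => (g ^ b₁) ^ j) (fun _ => hLcf hc') (fun _ => hgD j) α
        (by simpa using hj) hα0 hne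

end MP4270U
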