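import Pool.Agent.Lib_MP_4270a5_u.RFinB

/-!
# MP_4270a5_nt, piece RFINE: unramified fields and units, explicit forms
-/

open Polynomial IntermediateField Finset

namespace MP4270U

open MP4270

/-- A number field whose discriminant is prime to `p` lies in the unramified field at `p`. -/
theorem unr_of_discr (F : IntermediateField ℚ ℂ) [NumberField F] (p : ℕ) [Fact p.Prime]
    (h : ¬ (p : ℤ) ∣ NumberField.discr F) : F ≤ Unr p := by
  intro z hz
  have hfd : FiniteDimensional ℚ F := NumberField.to_finiteDimensional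
  have halg : ∀ w : F, IsAlgebraic ℚ (w : ℂ) := by
    intro w
    have h1 := Algebra.IsAlgebraic.isAlgebraic (R := ℚ) w
    have h2 : algebraMap F ℂ w = (w : ℂ) := rfl
    rw [← h2]
    exact h1.algebraMap
  have hle : ∀ w : F, (w : ℂ) ∈ iiA.fieldRange := by
    intro w
    obtain ⟨x, hx⟩ := exists_ii (w : ℂ) (halg w)
    exact ⟨x, hx⟩
  -- the embedding of `F` into `Qb`
  let e0 : Qb ≃+* ii.fieldRange := RingEquiv.ofBijective ii.rangeRestrictField
    ⟨fun x y hxy => ii_inj (congrArg Subtype.val hxy), ii.rangeRestrictField_bijective.2⟩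
  let e : F →+* Qb := (e0.symm : ii.fieldRange →+* Qb).comp
    ((F.val : F →+* ℂ).codRestrict ii.fieldRange (fun w => by
      obtain ⟨x, hx⟩ := exists_ii (w : ℂ) (halg w)
      exact ⟨x, hx⟩))
  have he : ∀ w : F, ii (e w) = (w : ℂ) := by
    intro w
    have h1 : e0 (e w) = ((F.val : F →+* ℂ).codRestrict ii.fieldRange (fun w => by
      obtain ⟨x, hx⟩ := exists_ii (w : ℂ) (halg w)
      exact ⟨x, hx⟩)) w := e0.apply_symm_apply _
    exact congrArg Subtype.val h1
  refine ⟨e ⟨z, hz⟩, ?_, he ⟨z, hz⟩⟩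
  intro φ
  exact up_disc p h (φ.comp e) ⟨z, hz⟩

/-- An element integral over `ℤ` has norm `≤ 1`. -/
private theorem rfine_int {p : ℕ} [Fact p.Prime] {z : PadicAlgCl p} (hz : IsIntegral ℤ z) : ‖z‖ ≤ 1 := by
  by_contra hc
  push Not at hc
  obtain ⟨P, hP, hP0⟩ := hz
  have h1 : z ^ P.natDegree = -∑ i ∈ Finset.range P.natDegree, ((P.coeff i : ℤ) : PadicAlgCl p) * z ^ i := by
    have h2 := hP0
    rw [hP.as_sum, Polynomial.eval₂_add, Polynomial.eval₂_pow, Polynomial.eval₂_X,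
      Polynomial.eval₂_finsetSum] at h2
    have h3 : ∑ i ∈ Finset.range P.natDegree, Polynomial.eval₂ (algebraMap ℤ (PadicAlgCl p)) z
        (C (P.coeff i) * X ^ i) = ∑ i ∈ Finset.range P.natDegree, ((P.coeff i : ℤ) : PadicAlgCl p) * z ^ i := by
      refine Finset.sum_congr rfl fun i _ => ?_
      rw [Polynomial.eval₂_mul, Polynomial.eval₂_C, Polynomial.eval₂_pow, Polynomial.eval₂_X]
      simp
    rw [h3] at h2
    exact eq_neg_of_add_eq_zero_left h2
  have hz0 : (0 : ℝ) < ‖z‖ := by linarith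
  rcases Nat.eq_zero_or_pos P.natDegree with h0 | h0
  · rw [h0] at h1
    simp at h1
  · have h4 : ‖z ^ P.natDegree‖ ≤ ‖z‖ ^ (P.natDegree - 1) := by
      rw [h1, norm_neg]
      refine IsUltrametricDist.norm_sum_le_of_forall_le_of_nonneg (by positivity) ?_
      intro i hi
      rw [norm_mul, norm_pow]
      have h5 : ‖((P.coeff i : ℤ) : PadicAlgCl p)‖ ≤ 1 := by
        have h6 : ((P.coeff i : ℤ) : PadicAlgCl p) = ((((P.coeff i : ℤ) : ℚ_[p])) : PadicAlgCl p) := by
          simp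
        rw [h6, PadicAlgCl.norm_extends]
        exact Padic.norm_int_le_one _
      have h7 : ‖z‖ ^ i ≤ ‖z‖ ^ (P.natDegree - 1) :=
        pow_le_pow_right₀ hc.le (by have := Finset.mem_range.1 hi; omega)
      calc ‖((P.coeff i : ℤ) : PadicAlgCl p)‖ * ‖z‖ ^ i ≤ 1 * ‖z‖ ^ (P.natDegree - 1) := by gcongr
        _ = _ := one_mul _
    rw [norm_pow] at h4
    have h8 : ‖z‖ ^ (P.natDegree - 1) < ‖z‖ ^ P.natDegree := pow_lt_pow_right₀ hc (by omega)
    linarith

/-- A unit up to numbers prime to `p`. -/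
theorem pu_of_int {p : ℕ} [Fact p.Prime] {z : ℂ} (hz0 : z ≠ 0) (m : ℕ) (hm : m.Coprime p)
    (h1 : IsIntegral ℤ ((m : ℂ) * z)) (h2 : IsIntegral ℤ ((m : ℂ) * z⁻¹)) : PU p z := by
  intro x φ hx
  have hm1 : ‖(m : PadicAlgCl p)‖ = 1 := by
    have h3 : ((m : ℕ) : PadicAlgCl p) = ((((m : ℕ) : ℚ_[p])) : PadicAlgCl p) := by simp
    rw [h3, PadicAlgCl.norm_extends]
    exact Padic.norm_natCast_eq_one_iff.2 hm.symm
  have hx0 : x ≠ 0 := by
    rintro rfl
    rw [map_zero] at hx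
    exact hz0 hx.symm
  have key : ∀ y : Qb, IsIntegral ℤ ((m : ℂ) * ii y) → ‖φ y‖ ≤ 1 := by
    intro y hy
    have h3 : ((m : ℂ) * ii y) = (RingHom.toIntAlgHom ii) ((m : Qb) * y) := by
      change _ = ii ((m : Qb) * y)
      rw [map_mul ii (m : Qb) y, map_natCast]
    rw [h3] at hy
    have h4 : IsIntegral ℤ ((m : Qb) * y) :=
      (isIntegral_algHom_iff (RingHom.toIntAlgHom ii) (RingHom.injective ii)).1 hy
    have h5 : ‖φ ((m : Qb) * y)‖ ≤ 1 := rfine_int (map_isIntegral_int φ h4)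
    rw [map_mul, map_natCast, norm_mul, hm1, one_mul] at h5
    exact h5
  have h3 : ‖φ x‖ ≤ 1 := key x (by rw [hx]; exact h1)
  have h4 : ‖φ x⁻¹‖ ≤ 1 := key x⁻¹ (by rw [map_inv₀, hx]; exact h2)
  rw [map_inv₀, norm_inv] at h4
  have h5 : 0 < ‖φ x‖ := norm_pos_iff.2 (by
    rw [Ne, map_eq_zero]
    exact hx0)
  have h6 : 1 ≤ ‖φ x‖ := by
    have := (inv_le_one_iff₀).1 h4
    rcases this with h | h
    · linarith
    · exact h
  linarith

end MP4270U
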