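import Pool.Agent.Lib_MP_4270a5_u.RFinD
import Pool.Agent.Lib_MP_4270a5_u.RFinE

/-!
# MP_4270a5_nt, piece RFINF: real radical fields and the absolute form

PAPER PROOF. `fin_real`: `fin_P` with `S = {2}`, `m = n = 1`; all elements of the field are real, so it contains no primitive `p`-th root of unity for `p > 2`.
`fin_abs`: `fin_sim` with `L' = L₀`, `L = L₀(μ_N)`, no terms `d_j e_j`.
-/

open Polynomial IntermediateField Finset

namespace MP4270U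

open MP4270

/-- the real numbers -/
private noncomputable def rffR : IntermediateField ℚ ℂ := (IsScalarTower.toAlgHom ℚ ℝ ℂ).fieldRange

private theorem rff_mem {z : ℂ} : z ∈ rffR ↔ z.im = 0 := by
  unfold rffR
  rw [AlgHom.mem_fieldRange]
  constructor
  · rintro ⟨x, rfl⟩
    exact Complex.ofReal_im x
  · intro hz
    exact ⟨z.re, Complex.ext (Complex.ofReal_re _) (by rw [hz]; exact Complex.ofReal_im _)⟩

theorem fin_real (Γ : Subgroup ℂˣ) (hΓ : Γ.FG) (halg : ∀ g ∈ Γ, IsAlgebraic ℚ (g : ℂ))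
    (hreal : ∀ g ∈ Γ, (g : ℂ).im = 0) (F : IntermediateField ℚ ℂ) [FiniteDimensional ℚ F]
    (hF : ∀ x ∈ F, x.im = 0) :
    ∃ c : ℝ, 0 < c ∧ ∀ g : ℂ, g.im = 0 → (∃ n : ℕ, 0 < n ∧ ∃ γ ∈ Γ, g ^ n = (γ : ℂ)) →
      ∀ A ∈ F ⊔ adjoin ℚ {g}, ∀ β ∈ Subring.closure {z : ℂ | ∃ n : ℕ, 0 < n ∧ ∃ γ ∈ Γ, z ^ n = (γ : ℂ)},
      ∀ α : ℂ, α = A + β → α ≠ 0 →
        (¬ ∃ n : ℕ, 0 < n ∧ ∃ γ ∈ Γ, α ^ n = (γ : ℂ)) → c ≤ wh α := by
  obtain ⟨c, hc, H⟩ := fin_P Γ hΓ halg F {2}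
  refine ⟨c, hc, fun g hg hgΓ A hA β hβ α hα hα0 hne => ?_⟩
  obtain ⟨N, hN, hgN⟩ := hgΓ
  have hR : Lc F Γ 1 1 ⊔ adjoin ℚ {g} ≤ rffR := by
    refine sup_le (sup_le (fun x hx => rff_mem.2 (hF x hx)) (adjoin_le_iff.2 ?_)) ?_
    · rintro z (hz | ⟨γ, hγ, hz⟩)
      · have hz' : z ^ 1 = 1 := hz
        rw [pow_one] at hz'
        rw [hz']
        exact one_mem _
      · rw [pow_one] at hz
        rw [hz]
        exact rff_mem.2 (hreal γ hγ)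
    · rw [adjoin_simple_le_iff]
      exact rff_mem.2 hg
  refine H 1 1 N one_pos one_pos (by simp) hN g hgN ?_ A ?_ β ?_ α hα hα0 hne
  · intro p hp _ hpS z hz hz1
    have hp2 : p ≠ 2 := fun h => hpS (by rw [h]; exact Finset.mem_singleton_self 2)
    have hodd : Odd p := hp.odd_of_ne_two hp2
    have h1 := rff_mem.1 (hR hz)
    have h2 : z = ((z.re : ℝ) : ℂ) := Complex.ext (Complex.ofReal_re _).symm (by
      rw [h1, Complex.ofReal_im])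
    rw [h2] at hz1 ⊢
    have h3 : z.re ^ p = 1 ^ p := by
      rw [one_pow]
      exact_mod_cast hz1
    have h4 : z.re = 1 := hodd.strictMono_pow.injective h3
    rw [h4, Complex.ofReal_one]
  · exact (sup_le_sup_right (le_sup_left : F ≤ Lc F Γ 1 1) _) hA
  · exact Subring.closure_mono Set.subset_union_right hβ

theorem fin_abs (L₀ : IntermediateField ℚ ℂ) [NumberField L₀] (N : ℕ) (hN : 0 < N) (g : ℂ) (hg0 : g ≠ 0)
    (hg : g ^ N ∈ L₀)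
    (hp : ∀ p : ℕ, p.Prime → p ∣ N → 30000 * Real.log p ≤ p ∧ ¬ (p : ℤ) ∣ NumberField.discr L₀ ∧
      (∃ m : ℕ, m.Coprime p ∧ IsIntegral ℤ ((m : ℂ) * g) ∧ IsIntegral ℤ ((m : ℂ) * g⁻¹)) ∧
      ∀ z ∈ L₀ ⊔ adjoin ℚ {g}, z ^ p = 1 → z = 1)
    (α : ℂ) (hα : α ∈ L₀ ⊔ adjoin ℚ {g}) (hα0 : α ≠ 0)
    (hne : ∀ c ∈ L₀ ⊔ adjoin ℚ {z : ℂ | z ^ N = 1}, ∀ j : ℕ, α ≠ c * g ^ j) :
    Real.log 2 / 40320 ≤ wh α := by
  have hfd : FiniteDimensional ℚ L₀ := inferInstance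
  have hfd2 : FiniteDimensional ℚ (adjoin ℚ {z : ℂ | z ^ N = 1}) := by
    have hfin : {z : ℂ | z ^ N = 1}.Finite := by
      have h1 : {z : ℂ | z ^ N = 1} ⊆ ((X ^ N - 1 : ℂ[X]).rootSet ℂ) := by
        intro z hz
        rw [Polynomial.mem_rootSet]
        refine ⟨X_pow_sub_C_ne_zero hN 1, ?_⟩
        have hz' : z ^ N = 1 := hz
        simp [hz']
      exact (Polynomial.rootSet_finite _ _).subset h1
    have h2 : Finite {z : ℂ | z ^ N = 1} := hfin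
    refine IntermediateField.finiteDimensional_adjoin fun x hx => ?_
    have hx' : x ^ N = 1 := hx
    exact IsIntegral.of_pow hN (by rw [hx']; exact isIntegral_one)
  obtain ⟨L, hL⟩ : ∃ L : IntermediateField ℚ ℂ, L = L₀ ⊔ adjoin ℚ {z : ℂ | z ^ N = 1} := ⟨_, rfl⟩
  have hfdL : FiniteDimensional ℚ L := by
    rw [hL]
    exact IntermediateField.finiteDimensional_sup _ _
  have h1 : L₀ ≤ L := by rw [hL]; exact le_sup_left
  refine fin_sim L₀ L₀ L le_rfl h1 hN (le_of_eq hL) N N hN hN ?_ g hg0 hg (h1 hg) (κ := Empty)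
    (fun j => j.elim) (fun j => j.elim) (fun j => j.elim) (fun j => j.elim) (fun j => j.elim) ?_ α α hα
    (by simp) hα0 (fun c hc => ⟨fun j => hne c (by rw [← hL]; exact hc) j, fun j => j.elim⟩)
  · intro z hz
    rw [hL]
    exact (le_sup_right : adjoin ℚ _ ≤ _) (subset_adjoin ℚ _ hz)
  · intro p hpf hpN
    obtain ⟨hlog, hd, ⟨m, hm, hi1, hi2⟩, hnt⟩ := hp p hpf.out hpN
    exact ⟨⟨1, Nat.coprime_one_left p, fun j => j.elim⟩, fun _ => ⟨hlog, hnt,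
      pu_of_int hg0 m hm hi1 hi2, unr_of_discr L₀ p hd⟩⟩

end MP4270U
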