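import Pool.Agent.Lib_MP_4270a5_u.RDef
import Pool.Agent.Lib_MP_4270a5_nt.Unram
import Pool.Agent.Lib_MP_4270a5_nt.Iso
import Pool.Agent.Lib_MP_4270a5_nt.RootU
import Pool.Agent.Lib_MP_4270a5_nt.Frob
import Pool.Agent.Lib_MP_4270a5_nt.Teich

/-!
# MP_4270a5_nt, piece RUNA: three facts about the maximal unramified extension

PAPER PROOFS. Every `u ∈ Up p` lies in `ℚ_p(ζ)` for ONE root of unity `ζ` of order prime to `p` (the adjunction of a finite set of roots of unity of orders prime to `p` is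
generated by one: all are `m`-th roots of unity, `m` the product of the orders; or argue with finite sets as in `unram_value`, `Lib_MP_4270a5_nt/Unram.lean`).
`up_value`: `unram_value` (or `unram_norm` with `K = ⊥` and the norm on `ℚ_p`).
`up_frob`: `unram_expand` with `K = ⊥`: `u = g(ζ)`, coefficients `c_i ∈ ℚ_p` of norm `≤ ‖u‖ ≤ 1`, so `c_i ∈ ℤ_p`, `c_i^p = c_i mod p`. Let `ζ^m = 1`, `p^f = 1 mod m` (`f ≥ 1`). Then
`u^(p^(f k)) = ∑ c_i^(p^(f k)) ζ^i = u mod p` (binomial theorem mod `p`, compare `frob_pow_sum` in `Frob.lean`), for every `k`. For `f k ≥ a`, `y = u^(p^(f k - a))`.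
`up_root`: let `η` be a root of `X^p - u` in `PadicAlgCl p`, `‖η‖ = 1`, `∏_(ζ^p = 1) (η - ζ) = η^p - 1 = u - 1` has norm `≤ p^(-2)`, so for some `ζ`, `‖η - ζ‖ ≤ p^(-2/p) < p^(-1/(p-1))`
(`p > 2`). Replace `η` by `η ζ⁻¹`: `‖η - 1‖ < p^(-1/(p-1))`. For an automorphism `σ` of `PadicAlgCl p` fixing `Up p`, `σ η = ω η`, `ω^p = 1`, `‖σ η - 1‖ = ‖η - 1‖` (`norm_equiv`), so
`‖ω - 1‖ < p^(-1/(p-1))` and `ω = 1` (`norm_sub_ge`). `mem_of_fixed` (`Iso.lean`).
-/

open IntermediateField Polynomial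

namespace MP4270U

open MP4270

variable {p : ℕ} [Fact p.Prime]

private theorem una_frob_int (z : ℤ_[p]) (N : ℕ) : ‖z ^ p ^ N - z‖ ≤ (p : ℝ)⁻¹ := by
  have h1 : PadicInt.toZMod (z ^ p ^ N - z) = (0 : ZMod p) := by
    rw [map_sub, map_pow, ZMod.pow_card_pow, sub_self]
  have h2 : z ^ p ^ N - z ∈ RingHom.ker (PadicInt.toZMod (p := p)) := h1
  rw [PadicInt.ker_toZMod, PadicInt.maximalIdeal_eq_span_p, Ideal.mem_span_singleton] at h2
  obtain ⟨y, hy⟩ := h2
  rw [hy, norm_mul, PadicInt.norm_p]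
  exact mul_le_of_le_one_right (inv_nonneg.mpr (Nat.cast_nonneg p)) (PadicInt.norm_le_one y)

private theorem una_frob (c : ℚ_[p]) (hc : ‖c‖ ≤ 1) (N : ℕ) : ‖c ^ p ^ N - c‖ ≤ (p : ℝ)⁻¹ := by
  have h := una_frob_int (⟨c, hc⟩ : ℤ_[p]) N
  exact h

/-- a root of unity of order prime to `p` -/
private def una_rt (η : PadicAlgCl p) : Prop := ∃ m : ℕ, 0 < m ∧ m.Coprime p ∧ η ^ m = 1

private theorem una_rt_mul {η η' : PadicAlgCl p} (h : una_rt η) (h' : una_rt η') : una_rt (η * η') := by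
  obtain ⟨m, h1, h2, h3⟩ := h
  obtain ⟨m', h1', h2', h3'⟩ := h'
  refine ⟨m * m', Nat.mul_pos h1 h1', Nat.Coprime.mul_left h2 h2', ?_⟩
  rw [mul_pow, pow_mul, h3, one_pow, mul_comm m m', pow_mul, h3', one_pow, one_mul]

private theorem una_rt_one : una_rt (1 : PadicAlgCl p) := ⟨1, one_pos, Nat.coprime_one_left p, one_pow 1⟩

private theorem una_rt_pow {η : PadicAlgCl p} (h : una_rt η) (i : ℕ) : una_rt (η ^ i) := by
  induction i with
  | zero =>
    rw [pow_zero]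
    exact una_rt_one
  | succ i ih =>
    rw [pow_succ]
    exact una_rt_mul ih h

private theorem una_rt_up {η : PadicAlgCl p} (h : una_rt η) : η ∈ Up p :=
  subset_adjoin _ _ h

private theorem una_rt_norm {η : PadicAlgCl p} (h : una_rt η) : ‖η‖ = 1 := by
  obtain ⟨m, h1, _, h3⟩ := h
  exact norm_root_one h1 h3

/-- the integral combinations of roots of unity of order prime to `p` -/
private noncomputable def una_M (p : ℕ) [Fact p.Prime] : AddSubmonoid (PadicAlgCl p) :=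
  AddSubmonoid.closure {z | ∃ c : ℚ_[p], ‖c‖ ≤ 1 ∧ ∃ η, una_rt η ∧ z = algebraMap ℚ_[p] (PadicAlgCl p) c * η}

private theorem una_M_mul {x η : PadicAlgCl p} (hx : x ∈ una_M p) (h : una_rt η) : x * η ∈ una_M p := by
  unfold una_M at hx
  induction hx using AddSubmonoid.closure_induction with
  | mem z hz =>
    obtain ⟨c, hc, η', hη', rfl⟩ := hz
    exact AddSubmonoid.subset_closure ⟨c, hc, η' * η, una_rt_mul hη' h, by rw [mul_assoc]⟩
  | zero =>
    rw [zero_mul]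
    exact zero_mem _
  | add a b _ _ ha hb =>
    rw [add_mul]
    exact add_mem ha hb

private theorem una_M_of (T : Finset (PadicAlgCl p)) (hT : ∀ y ∈ T, una_rt y) :
    ∀ x ∈ adjoin ℚ_[p] (T : Set (PadicAlgCl p)), ‖x‖ ≤ 1 → x ∈ una_M p := by
  classical
  induction T using Finset.induction_on with
  | empty =>
    intro x hx h1
    rw [Finset.coe_empty, IntermediateField.adjoin_empty, IntermediateField.mem_bot] at hx
    obtain ⟨q, rfl⟩ := hx
    have h2 : ‖q‖ ≤ 1 := by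
      rw [← PadicAlgCl.norm_extends p q]
      exact h1
    exact AddSubmonoid.subset_closure ⟨q, h2, 1, una_rt_one, by rw [mul_one]⟩
  | insert a T ha ih =>
    intro x hx h1
    have ha' := hT a (Finset.mem_insert_self a T)
    obtain ⟨n, k1, k2, k3⟩ := ha'
    have h4 : x ∈ adjoin ℚ_[p] (T : Set (PadicAlgCl p)) ⊔ ℚ_[p]⟮a⟯ := by
      rw [← IntermediateField.adjoin_union, Set.union_comm]
      rw [Finset.coe_insert, Set.insert_eq] at hx
      exact hx
    obtain ⟨g, hg1, hg2⟩ := unram_expand _ k1 k2 k3 h4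
    rw [← hg1, Polynomial.aeval_eq_sum_range]
    refine sum_mem fun i _ => ?_
    rw [Algebra.smul_def]
    refine una_M_mul ?_ (una_rt_pow (hT a (Finset.mem_insert_self a T)) i)
    exact ih (fun y hy => hT y (Finset.mem_insert_of_mem hy)) _ (g.coeff i).2 ((hg2 i).trans h1)

private theorem una_M_up {u : PadicAlgCl p} (hu : u ∈ Up p) (h1 : ‖u‖ ≤ 1) : u ∈ una_M p := by
  obtain ⟨T, hT1, hT2⟩ := IntermediateField.exists_finset_of_mem_adjoin hu
  exact una_M_of T (fun y hy => hT1 hy) u hT2 h1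

/-- The ring of integral elements. -/
private def una_O (p : ℕ) [Fact p.Prime] : Subring (PadicAlgCl p) where
  carrier := {x | ‖x‖ ≤ 1}
  mul_mem' := by
    intro a b ha hb
    show ‖a * b‖ ≤ 1
    rw [norm_mul]
    exact mul_le_one₀ ha (norm_nonneg _) hb
  one_mem' := by
    show ‖(1 : PadicAlgCl p)‖ ≤ 1
    rw [norm_one]
  add_mem' := by
    intro a b ha hb
    exact (IsUltrametricDist.norm_add_le_max a b).trans (max_le ha hb)
  zero_mem' := by
    show ‖(0 : PadicAlgCl p)‖ ≤ 1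
    rw [norm_zero]
    exact zero_le_one
  neg_mem' := by
    intro a ha
    show ‖-a‖ ≤ 1
    rw [norm_neg]
    exact ha

private theorem una_pow_add {a b : PadicAlgCl p} (ha : ‖a‖ ≤ 1) (hb : ‖b‖ ≤ 1) (f : ℕ) :
    ‖(a + b) ^ p ^ f - (a ^ p ^ f + b ^ p ^ f)‖ ≤ (p : ℝ)⁻¹ := by
  obtain ⟨r, hr⟩ := exists_add_pow_prime_pow_eq (Fact.out : p.Prime) (⟨a, ha⟩ : una_O p) ⟨b, hb⟩ f
  have h1 := congrArg (Subtype.val) hr
  have h2 : (a + b) ^ p ^ f = a ^ p ^ f + b ^ p ^ f + (p : PadicAlgCl p) * a * b * r.1 := h1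
  rw [h2, add_sub_cancel_left, norm_mul, norm_mul, norm_mul, RootU_norm_p, mul_assoc, mul_assoc]
  exact mul_le_of_le_one_right (inv_nonneg.mpr (Nat.cast_nonneg p))
    (mul_le_one₀ ha (mul_nonneg (norm_nonneg _) (norm_nonneg _))
      (mul_le_one₀ hb (norm_nonneg _) r.2))

private theorem una_key {u : PadicAlgCl p} (hu : u ∈ una_M p) :
    ‖u‖ ≤ 1 ∧ ∃ f : ℕ, 0 < f ∧ ∀ k : ℕ, ‖u ^ p ^ (f * k) - u‖ ≤ (p : ℝ)⁻¹ := by
  have hp := (Fact.out : p.Prime)
  unfold una_M at hu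
  induction hu using AddSubmonoid.closure_induction with
  | mem z hz =>
    obtain ⟨c, hc, η, hη, rfl⟩ := hz
    have hη1 := una_rt_norm hη
    obtain ⟨m, h1, h2, h3⟩ := hη
    refine ⟨?_, m.totient, Nat.totient_pos.mpr h1, fun k => ?_⟩
    · rw [norm_mul, hη1, mul_one, PadicAlgCl.norm_extends]
      exact hc
    · have h4 : η ^ p ^ (m.totient * k) = η := by
        have h5 : p ^ (m.totient * k) ≡ 1 [MOD m] := by
          rw [pow_mul]
          have := (Nat.ModEq.pow_totient (Nat.Coprime.symm h2)).pow k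
          rwa [one_pow] at this
        have h6 : 1 ≤ p ^ (m.totient * k) := Nat.one_le_pow _ _ hp.pos
        obtain ⟨t, ht⟩ := (Nat.modEq_iff_dvd' h6).mp h5.symm
        have h7 : p ^ (m.totient * k) = m * t + 1 := by omega
        rw [h7, pow_succ, pow_mul, h3, one_pow, one_mul]
      rw [mul_pow, h4, ← sub_mul, norm_mul, hη1, mul_one, ← map_pow, ← map_sub, PadicAlgCl.norm_extends]
      exact una_frob c hc _
  | zero =>
    refine ⟨?_, 1, one_pos, fun k => ?_⟩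
    · rw [norm_zero]
      exact zero_le_one
    · rw [zero_pow (pow_ne_zero _ hp.ne_zero), sub_zero, norm_zero]
      exact inv_nonneg.mpr (Nat.cast_nonneg p)
  | add a b _ _ ha hb =>
    obtain ⟨ha1, f, hf, ha2⟩ := ha
    obtain ⟨hb1, f', hf', hb2⟩ := hb
    refine ⟨(IsUltrametricDist.norm_add_le_max a b).trans (max_le ha1 hb1), f * f', Nat.mul_pos hf hf', fun k => ?_⟩
    have e1 := una_pow_add ha1 hb1 (f * f' * k)
    have e2 : ‖a ^ p ^ (f * f' * k) - a‖ ≤ (p : ℝ)⁻¹ := by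
      rw [mul_assoc]
      exact ha2 (f' * k)
    have e3 : ‖b ^ p ^ (f * f' * k) - b‖ ≤ (p : ℝ)⁻¹ := by
      rw [mul_comm f f', mul_assoc]
      exact hb2 (f * k)
    have e4 : (a + b) ^ p ^ (f * f' * k) - (a + b) =
        ((a + b) ^ p ^ (f * f' * k) - (a ^ p ^ (f * f' * k) + b ^ p ^ (f * f' * k))) +
          ((a ^ p ^ (f * f' * k) - a) + (b ^ p ^ (f * f' * k) - b)) := by ring
    rw [e4]
    exact (IsUltrametricDist.norm_add_le_max _ _).trans (max_le e1
      ((IsUltrametricDist.norm_add_le_max _ _).trans (max_le e2 e3)))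

theorem up_value {u : PadicAlgCl p} (hu : u ∈ Up p) (hu0 : u ≠ 0) : ∃ k : ℤ, ‖u‖ = (p : ℝ) ^ k := by
  obtain ⟨T, hT1, hT2⟩ := IntermediateField.exists_finset_of_mem_adjoin hu
  have : FiniteDimensional ℚ_[p] (adjoin ℚ_[p] (T : Set (PadicAlgCl p))) :=
    IntermediateField.finiteDimensional_adjoin fun x _ => Algebra.IsIntegral.isIntegral x
  exact unram_value (adjoin ℚ_[p] (T : Set (PadicAlgCl p))) T (fun y hy => hT1 hy) rfl u hT2 hu0

theorem up_frob {u : PadicAlgCl p} (hu : u ∈ Up p) (h1 : ‖u‖ ≤ 1) (a : ℕ) :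
    ∃ y ∈ Up p, ‖y ^ p ^ a - u‖ ≤ (p : ℝ)⁻¹ := by
  obtain ⟨_, f, hf, hk⟩ := una_key (una_M_up hu h1)
  refine ⟨u ^ p ^ (f * a - a), pow_mem hu _, ?_⟩
  have h2 : a ≤ f * a := Nat.le_mul_of_pos_left a hf
  rw [← pow_mul, ← pow_add, Nat.sub_add_cancel h2]
  exact hk a

theorem up_root (hp2 : p ≠ 2) {u : PadicAlgCl p} (hu : u ∈ Up p) (h : ‖u - 1‖ ≤ ((p : ℝ)⁻¹) ^ 2) :
    ∃ z ∈ Up p, z ^ p = u := by
  classical
  have hp := (Fact.out : p.Prime)
  have hp1 : (1 : ℝ) < p := by exact_mod_cast hp.one_lt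
  have hp0 : (0 : ℝ) < p := by linarith
  have hp3 : (3 : ℝ) ≤ p := by
    have : 3 ≤ p := by
      have := hp.two_le
      omega
    exact_mod_cast this
  have hpi : (p : ℝ)⁻¹ < 1 := inv_lt_one_of_one_lt₀ hp1
  have hpi0 : 0 < (p : ℝ)⁻¹ := inv_pos.mpr hp0
  have hu1 : ‖u‖ = 1 := by
    have h2 : ‖u - 1‖ < 1 := h.trans_lt (pow_lt_one₀ hpi0.le hpi two_ne_zero)
    have h3 : ‖(u - 1) + 1‖ = max ‖u - 1‖ ‖(1 : PadicAlgCl p)‖ := by
      refine IsUltrametricDist.norm_add_eq_max_of_norm_ne_norm ?_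
      rw [norm_one]
      exact h2.ne
    rw [sub_add_cancel, norm_one, max_eq_right h2.le] at h3
    exact h3
  obtain ⟨η, hη⟩ := IsAlgClosed.exists_pow_nat_eq u hp.pos
  have hne : NeZero ((p : ℕ) : PadicAlgCl p) := ⟨by exact_mod_cast hp.ne_zero⟩
  obtain ⟨ω, hω⟩ : ∃ ω : PadicAlgCl p, IsPrimitiveRoot ω p :=
    HasEnoughRootsOfUnity.exists_primitiveRoot (PadicAlgCl p) p
  have hprod : ∏ ζ ∈ nthRootsFinset p (1 : PadicAlgCl p), (η - ζ) = u - 1 := by
    have h2 := X_pow_sub_one_eq_prod hp.pos hω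
    have h3 := congrArg (eval η) h2
    rw [eval_sub, eval_pow, eval_X, eval_one, eval_prod, hη] at h3
    rw [h3]
    refine Finset.prod_congr rfl fun ζ _ => ?_
    rw [eval_sub, eval_X, eval_C]
  have hcard : (nthRootsFinset p (1 : PadicAlgCl p)).card = p := hω.card_nthRootsFinset
  set c : ℝ := (p : ℝ) ^ (-(2 : ℝ) / p) with hc
  have hc0 : 0 < c := Real.rpow_pos_of_pos hp0 _
  have hcp : c ^ p = ((p : ℝ)⁻¹) ^ 2 := by
    rw [hc, ← Real.rpow_natCast, ← Real.rpow_mul hp0.le, div_mul_cancel₀ _ hp0.ne', Real.rpow_neg hp0.le, inv_pow]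
    norm_num
  have hclt : c < (p : ℝ) ^ (-(1 : ℝ) / (p - 1)) := by
    refine Real.rpow_lt_rpow_of_exponent_lt hp1 ?_
    rw [div_lt_div_iff₀ hp0 (by linarith)]
    linarith
  obtain ⟨ζ, hζ, hζ2⟩ : ∃ ζ ∈ nthRootsFinset p (1 : PadicAlgCl p), ‖η - ζ‖ ≤ c := by
    by_contra hno
    push Not at hno
    have hne' : (nthRootsFinset p (1 : PadicAlgCl p)).Nonempty := by
      rw [← Finset.card_pos, hcard]
      exact hp.pos
    have h2 : ∏ _ζ ∈ nthRootsFinset p (1 : PadicAlgCl p), c < ∏ ζ ∈ nthRootsFinset p (1 : PadicAlgCl p), ‖η - ζ‖ :=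
      Finset.prod_lt_prod_of_nonempty (fun _ _ => hc0) hno hne'
    rw [Finset.prod_const, hcard, ← norm_prod, hprod, hcp] at h2
    exact absurd h (not_le.mpr h2)
  have hζ1 : ζ ^ p = 1 := (mem_nthRootsFinset hp.pos (1 : PadicAlgCl p)).mp hζ
  have hζn : ‖ζ‖ = 1 := norm_root_one hp.pos hζ1
  have hζ0 : ζ ≠ 0 := by
    intro h0
    rw [h0, norm_zero] at hζn
    exact zero_ne_one hζn
  set z := η / ζ with hz
  have hzp : z ^ p = u := by rw [hz, div_pow, hη, hζ1, div_one]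
  have hz1 : ‖z - 1‖ ≤ c := by
    have h2 : z - 1 = (η - ζ) / ζ := by
      rw [hz, sub_div, div_self hζ0]
    rw [h2, norm_div, hζn, div_one]
    exact hζ2
  have hzn : ‖z‖ = 1 := by
    have h2 : ‖z‖ ^ p = 1 := by rw [← norm_pow, hzp, hu1]
    exact (pow_eq_one_iff_of_nonneg (norm_nonneg z) hp.ne_zero).1 h2
  have hz0 : z ≠ 0 := by
    intro h0
    rw [h0, norm_zero] at hzn
    exact zero_ne_one hzn
  refine ⟨z, mem_of_fixed (Up p) z fun σ hσ => ?_, hzp⟩
  have h2 : (σ z) ^ p = z ^ p := by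
    rw [← map_pow, hzp, hσ u hu]
  have h3 : (σ z / z) ^ p = 1 := by
    rw [div_pow, h2, div_self (pow_ne_zero _ hz0)]
  by_contra hne2
  have h4 : σ z / z ≠ 1 := by
    intro h5
    rw [div_eq_one_iff_eq hz0] at h5
    exact hne2 h5
  have h5 := norm_sub_ge (p := p) (k := 1) (ζ := σ z / z) (ζ' := 1) (by rw [pow_one]; exact h3) (one_pow _) h4
  have h6 : σ z / z - 1 = ((σ z - 1) - (z - 1)) / z := by
    field_simp
    ring
  have h7 : ‖σ z - 1‖ = ‖z - 1‖ := by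
    have : σ z - 1 = σ (z - 1) := by rw [map_sub, map_one]
    rw [this, norm_equiv]
  have h8 : ‖(σ z - 1) - (z - 1)‖ ≤ c := by
    rw [sub_eq_add_neg]
    refine (IsUltrametricDist.norm_add_le_max _ _).trans (max_le ?_ ?_)
    · rw [h7]
      exact hz1
    · rw [norm_neg]
      exact hz1
  rw [h6, norm_div, hzn, div_one] at h5
  exact absurd (h5.trans h8) (not_le.mpr hclt)

end MP4270U
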