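import Pool.Agent.Lib_MP_4270a5_u.RCr
import Pool.Agent.Lib_MP_4270a5_u.RUnA
import Pool.Agent.Lib_MP_4270a5_u.RUnB
import Pool.Agent.Lib_MP_4270a5_u.Latt

/-!
# MP_4270a5_nt, piece RLOCA: the local bound for the minors, matrix form

PAPER PROOF. `U = (Up p).toSubfield`. Index everything by `Fin n`: `ρ k = ζ (eG.symm k) * x`, `V k j = ρ k ^ j`, `A i j = x^j * T (r.symm i) (r.symm j) * (x^i)⁻¹` (in `U` by `hT`),
`f k = y (eG.symm k)`. `V A = diag(f) V`: `∑_i (ζ x)^i x^j T_(i j) x^(-i) = x^j ∑_i ζ^i T_(i j) = x^j y ζ^j` (`hTV`, reindexed by `r`). `det V ≠ 0` (`Matrix.det_vandermonde_ne_zero_iff`,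
the `ρ k` are distinct), `‖V k j‖ ≤ 1`. The hypothesis `hc` of `cramer_bound` with `c = p^(n/(p-1))` is `latt_det` (`up_value`, `up_frob`, `up_root` for `hU1`-`hU3`, `γ = x^n`,
`ρ k ^ n = x^n`; from `‖det M‖^(p-1) ≤ p^n` take the `(p-1)`-th root, `Real.rpow`). `up_shift` gives `u`. Finally `T.submatrix S K` = `D₁ * (A.submatrix (r ∘ S) (r ∘ K)) * D₂` with the
diagonal matrices `D₁ = diag(x^(r (S i)))`, `D₂ = diag((x^(r (K j)))⁻¹)` of determinants of norm `1`.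
-/

open IntermediateField Polynomial Finset

namespace MP4270U

open MP4270

private theorem rloc_root {p : ℕ} [Fact p.Prime] (n : ℕ) {D : ℝ} (hD : D ^ (p - 1) ≤ (p : ℝ) ^ n) :
    D ≤ (p : ℝ) ^ ((n : ℝ) / (p - 1)) := by
  have hp : p.Prime := Fact.out
  have hp0 : (0 : ℝ) < p := by exact_mod_cast hp.pos
  have hp1 : (1 : ℝ) < p := by exact_mod_cast hp.one_lt
  by_contra hcon
  push Not at hcon
  have h1 : ((p : ℝ) ^ ((n : ℝ) / (p - 1))) ^ (p - 1) < D ^ (p - 1) :=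
    pow_lt_pow_left₀ hcon (Real.rpow_nonneg hp0.le _) (Nat.sub_pos_of_lt hp.one_lt).ne'
  have h2 : ((p : ℝ) ^ ((n : ℝ) / (p - 1))) ^ (p - 1) = (p : ℝ) ^ n := by
    rw [← Real.rpow_natCast, ← Real.rpow_mul hp0.le, ← Real.rpow_natCast, Nat.cast_sub hp.one_lt.le,
      Nat.cast_one, div_mul_cancel₀]
    linarith
  rw [h2] at h1
  exact absurd (h1.trans_le hD) (lt_irrefl _)

private theorem rloc_zeta {p : ℕ} [Fact p.Prime] (ζ : PadicAlgCl p) (hζ : IsPrimitiveRoot ζ p) :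
    ‖ζ - 1‖ ^ (p - 1) = (p : ℝ)⁻¹ := by
  have hp : p.Prime := Fact.out
  have hp0 : (0 : ℝ) < p := by exact_mod_cast hp.pos
  have hp1 : (1 : ℝ) < p := by exact_mod_cast hp.one_lt
  have h1 := norm_primitive_sub_one (p := p) (k := 0) (ζ := ζ) (by simpa using hζ)
  have h2 : (p : ℝ) - 1 ≠ 0 := by linarith
  rw [h1, ← Real.rpow_natCast, ← Real.rpow_mul hp0.le, Nat.cast_sub hp.one_lt.le, Nat.cast_one,
    pow_zero, one_mul, div_mul_cancel₀ _ h2, Real.rpow_neg_one]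

private theorem rloc_latt {p : ℕ} [Fact p.Prime] (hp2 : p ≠ 2) (a n : ℕ) (hn : n = p ^ a)
    (γ : PadicAlgCl p) (hγ : γ ∈ Up p) (hγ1 : ‖γ‖ = 1) (ρ : Fin n → PadicAlgCl p)
    (hρ : Function.Injective ρ) (hργ : ∀ i, ρ i ^ n = γ)
    (M : Matrix (Fin n) (Fin n) (PadicAlgCl p)) (hM : ∀ i j, M i j ∈ (Up p).toSubfield)
    (hVM : ∀ i j, ‖(Matrix.vandermonde ρ * M) i j‖ ≤ 1) :
    ‖M.det‖ ≤ (p : ℝ) ^ ((n : ℝ) / (p - 1)) := by
  refine rloc_root n (latt_det hp2 (RootU_norm_p p) rloc_zeta (Up p).toSubfield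
    (fun u hu hu0 => up_value hu hu0) (fun u hu hu1 a => up_frob hu hu1.le a)
    (fun u hu h => up_root hp2 hu h) a n hn γ hγ hγ1 ρ hρ hργ M hM fun i k => ?_)
  have h1 := hVM i k
  rw [Matrix.mul_apply] at h1
  simpa only [Matrix.vandermonde_apply] using h1

theorem loc_mat {p : ℕ} [Fact p.Prime] (hp2 : p ≠ 2) {G X : Type} [Fintype G] [Fintype X] [DecidableEq X]
    (a n : ℕ) (hn : n = p ^ a) (eG : G ≃ Fin n) (r : X ≃ Fin n) (ζ : G → PadicAlgCl p)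
    (hζ : Function.Injective ζ) (hζn : ∀ τ, ζ τ ^ n = 1) (x : PadicAlgCl p) (hx : ‖x‖ = 1)
    (hxn : x ^ n ∈ Up p) (T : Matrix X X (PadicAlgCl p))
    (hT : ∀ χ ψ, x ^ (r ψ : ℕ) * T χ ψ * (x ^ (r χ : ℕ))⁻¹ ∈ Up p) (y : G → PadicAlgCl p)
    (hTV : ∀ τ ψ, ∑ χ, ζ τ ^ (r χ : ℕ) * T χ ψ = y τ * ζ τ ^ (r ψ : ℕ)) (q : ℕ) (S K : Fin q → X)
    (hS : Function.Injective S) (hK : Function.Injective K) :
    ‖(T.submatrix S K).det‖ ≤ (p : ℝ) ^ ((n : ℝ) / (p - 1)) * ∏ τ, max 1 ‖y τ‖ := by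
  classical
  have hp : p.Prime := Fact.out
  have hx0 : x ≠ 0 := by
    intro h0
    rw [h0, norm_zero] at hx
    exact zero_ne_one hx
  have hn0 : 0 < n := by rw [hn]; exact pow_pos hp.pos a
  have hζ1 : ∀ τ, ‖ζ τ‖ = 1 := fun τ => norm_root_one hn0 (hζn τ)
  obtain ⟨ρ, hρ⟩ : ∃ ρ : Fin n → PadicAlgCl p, ∀ k, ρ k = ζ (eG.symm k) * x := ⟨_, fun _ => rfl⟩
  obtain ⟨A, hA⟩ : ∃ A : Matrix (Fin n) (Fin n) (PadicAlgCl p), ∀ i j,
      A i j = x ^ (j : ℕ) * T (r.symm i) (r.symm j) * (x ^ (i : ℕ))⁻¹ :=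
    ⟨fun i j => x ^ (j : ℕ) * T (r.symm i) (r.symm j) * (x ^ (i : ℕ))⁻¹, fun _ _ => rfl⟩
  have hρinj : Function.Injective ρ := by
    intro k l hkl
    rw [hρ, hρ] at hkl
    exact eG.symm.injective (hζ (mul_right_cancel₀ hx0 hkl))
  have hργ : ∀ k, ρ k ^ n = x ^ n := fun k => by rw [hρ, mul_pow, hζn, one_mul]
  have hV : (Matrix.vandermonde ρ).det ≠ 0 := Matrix.det_vandermonde_ne_zero_iff.2 hρinj
  have hV1 : ∀ i j, ‖Matrix.vandermonde ρ i j‖ ≤ 1 := by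
    intro i j
    rw [Matrix.vandermonde_apply, norm_pow, hρ, norm_mul, hζ1, hx, one_mul, one_pow]
  have hAU : ∀ i j, A i j ∈ (Up p).toSubfield := by
    intro i j
    have h1 := hT (r.symm i) (r.symm j)
    rw [Equiv.apply_symm_apply, Equiv.apply_symm_apply] at h1
    rw [hA]
    exact h1
  have hVA : Matrix.vandermonde ρ * A =
      Matrix.diagonal (fun k => y (eG.symm k)) * Matrix.vandermonde ρ := by
    ext k j
    rw [Matrix.mul_apply, Matrix.diagonal_mul, Matrix.vandermonde_apply]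
    have h1 := hTV (eG.symm k) (r.symm j)
    rw [← Equiv.sum_comp r.symm, Equiv.apply_symm_apply] at h1
    simp only [Equiv.apply_symm_apply] at h1
    calc ∑ i, Matrix.vandermonde ρ k i * A i j
        = ∑ i : Fin n, x ^ (j : ℕ) * (ζ (eG.symm k) ^ (i : ℕ) * T (r.symm i) (r.symm j)) := by
          refine sum_congr rfl fun i _ => ?_
          have h2 : x ^ (i : ℕ) ≠ 0 := pow_ne_zero _ hx0
          rw [Matrix.vandermonde_apply, hA, hρ, mul_pow]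
          field_simp
      _ = x ^ (j : ℕ) * (y (eG.symm k) * ζ (eG.symm k) ^ (j : ℕ)) := by rw [← mul_sum, h1]
      _ = y (eG.symm k) * ρ k ^ (j : ℕ) := by rw [hρ, mul_pow]; ring
  obtain ⟨u, hu, huf⟩ := up_shift n (fun k => y (eG.symm k))
  have h1 := cramer_bound (Up p).toSubfield (Matrix.vandermonde ρ) hV hV1
    ((p : ℝ) ^ ((n : ℝ) / (p - 1)))
    (fun M hM hVM => rloc_latt hp2 a n hn (x ^ n) hxn (by rw [norm_pow, hx, one_pow]) ρ hρinj hργ M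
      hM hVM) A hAU (fun k => y (eG.symm k)) hVA u hu huf q (fun i => r (S i)) (fun i => r (K i))
    (r.injective.comp hS) (r.injective.comp hK)
  have h2 : ∏ k, max 1 ‖y (eG.symm k)‖ = ∏ τ, max 1 ‖y τ‖ :=
    Equiv.prod_comp eG.symm (fun τ => max 1 ‖y τ‖)
  rw [h2] at h1
  refine le_trans (le_of_eq ?_) h1
  have h3 : T.submatrix S K = Matrix.diagonal (fun i => x ^ (r (S i) : ℕ)) *
      (A.submatrix (fun i => r (S i)) (fun i => r (K i))) *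
        Matrix.diagonal (fun j => (x ^ (r (K j) : ℕ))⁻¹) := by
    ext i j
    rw [Matrix.mul_diagonal, Matrix.diagonal_mul, Matrix.submatrix_apply, Matrix.submatrix_apply, hA,
      Equiv.symm_apply_apply, Equiv.symm_apply_apply]
    have h4 : x ^ (r (S i) : ℕ) ≠ 0 := pow_ne_zero _ hx0
    have h5 : x ^ (r (K j) : ℕ) ≠ 0 := pow_ne_zero _ hx0
    field_simp
  rw [h3, Matrix.det_mul, Matrix.det_mul, Matrix.det_diagonal, Matrix.det_diagonal, norm_mul,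
    norm_mul, norm_prod, norm_prod]
  have h6 : ∏ i, ‖x ^ (r (S i) : ℕ)‖ = 1 :=
    prod_eq_one fun i _ => by rw [norm_pow, hx, one_pow]
  have h7 : ∏ i, ‖(x ^ (r (K i) : ℕ))⁻¹‖ = 1 :=
    prod_eq_one fun i _ => by rw [norm_inv, norm_pow, hx, one_pow, inv_one]
  rw [h6, h7, one_mul, mul_one]

end MP4270U
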