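import Pool.Agent.Lib_MP_4270a5_u.RCrP
import Pool.Agent.Lib_MP_4270a5_u.RUnA
import Pool.Agent.Lib_MP_4270a5_u.RUnB
import Pool.Agent.Lib_MP_4270a5_u.LattB

/-!
# MP_4270a5_nt, piece RLOCAP: the local bound for the minors, matrix form, several blocks, integral perturbation

PAPER PROOF. `U = (Up p).toSubfield`, `Y = C × Fin n`, `ρ k = ζ k * x`, `V (c, k) (c', r) = if c = c' then ρ k ^ r else 0`, `A (c, r) (c', s) = if c = c' then x^s * t r s * (x^r)⁻¹ else 0`
(entries in `U`), `f (c, k) = y k`. `V A = diag(f) V` (from `hy`), `det V ≠ 0` (block diagonal Vandermonde, the `ρ k` are distinct), entries of norm `≤ 1`. The hypothesis `hc` of `cramer_pert` with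
`c = p^(|C| n/(p-1))` is `latt_det_block` (`up_value`, `up_frob`, `up_root`, `norm_primitive_sub_one` in `RootU.lean`; `γ = x^n`; take the `(p-1)`-th root with `Real.rpow`). `up_shift` gives `u` for the
`y k`. With `D = diag(x^r)` (all of norm one): `T + Z = D (A + D⁻¹ Z D) D⁻¹`, so the minors of `T + Z` have the same norm as those of `A + D⁻¹ Z D`.
-/

open IntermediateField Polynomial Finset

namespace MP4270U

open MP4270

/-- A block matrix times a matrix: only one block contributes. -/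
private theorem rlocap_mul {E : Type*} [Field E] {C : Type*} [Fintype C] [DecidableEq C] {n : ℕ}
    (g : Fin n → Fin n → E) (M : Matrix (C × Fin n) (C × Fin n) E) (i : C × Fin n) (k : C × Fin n) :
    ((Matrix.of fun i j : C × Fin n => if i.1 = j.1 then g i.2 j.2 else 0) * M) i k =
      ∑ r : Fin n, g i.2 r * M (i.1, r) k := by
  rw [Matrix.mul_apply, Fintype.sum_prod_type]
  rw [Finset.sum_eq_single i.1]
  · refine Finset.sum_congr rfl fun r _ => ?_
    simp
  · intro c _ hc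
    refine Finset.sum_eq_zero fun r _ => ?_
    simp [hc.symm]
  · intro h
    exact absurd (Finset.mem_univ _) h

theorem loc_mat_P {p : ℕ} [Fact p.Prime] (hp2 : p ≠ 2) {C : Type} [Fintype C] [DecidableEq C]
    (a n : ℕ) (hn : n = p ^ a) (ζ : Fin n → PadicAlgCl p) (hζ : Function.Injective ζ)
    (hζn : ∀ k, ζ k ^ n = 1) (x : PadicAlgCl p) (hx : ‖x‖ = 1) (hxn : x ^ n ∈ Up p)
    (t : Matrix (Fin n) (Fin n) (PadicAlgCl p)) (ht : ∀ r s : Fin n, x ^ (s : ℕ) * t r s * (x ^ (r : ℕ))⁻¹ ∈ Up p)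
    (y : Fin n → PadicAlgCl p) (hy : ∀ k s : Fin n, ∑ r : Fin n, ζ k ^ (r : ℕ) * t r s = y k * ζ k ^ (s : ℕ))
    (Z : Matrix (C × Fin n) (C × Fin n) (PadicAlgCl p)) (hZ : ∀ i j, ‖Z i j‖ ≤ 1) (q : ℕ)
    (S K : Fin q → C × Fin n) (hS : Function.Injective S) (hK : Function.Injective K) :
    ‖(((Matrix.of fun i j : C × Fin n => if i.1 = j.1 then t i.2 j.2 else 0) + Z).submatrix S K).det‖ ≤
      (p : ℝ) ^ (((Fintype.card C * n : ℕ) : ℝ) / (p - 1)) *
        (∏ k, max 1 ‖y k‖) ^ Fintype.card C := by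
  classical
  have hp : p.Prime := Fact.out
  have hp1 : (1 : ℝ) < p := by exact_mod_cast hp.one_lt
  have hn0 : 0 < n := by rw [hn]; exact pow_pos hp.pos _
  have hx0 : x ≠ 0 := by
    intro h0
    rw [h0, norm_zero] at hx
    exact zero_ne_one hx
  have hxp : ∀ m : ℕ, x ^ m ≠ 0 := fun m => pow_ne_zero m hx0
  have hxpn : ∀ m : ℕ, ‖x ^ m‖ = 1 := fun m => by rw [norm_pow, hx, one_pow]
  have hζ1 : ∀ k, ‖ζ k‖ = 1 := fun k => norm_root_one hn0 (hζn k)
  set U : Subfield (PadicAlgCl p) := (Up p).toSubfield with hU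
  have hUm : ∀ z, z ∈ U ↔ z ∈ Up p := fun z => Iff.rfl
  set ρ : Fin n → PadicAlgCl p := fun k => ζ k * x with hρ
  have hρinj : Function.Injective ρ := by
    intro i j hij
    exact hζ (mul_right_cancel₀ hx0 hij)
  have hρ1 : ∀ k, ‖ρ k‖ = 1 := fun k => by
    rw [hρ]
    simp only [norm_mul, hζ1, hx, one_mul]
  have hργ : ∀ k, ρ k ^ n = x ^ n := fun k => by
    rw [hρ]
    simp only [mul_pow, hζn, one_mul]
  set V : Matrix (C × Fin n) (C × Fin n) (PadicAlgCl p) :=
    Matrix.of fun i j : C × Fin n => if i.1 = j.1 then ρ i.2 ^ (j.2 : ℕ) else 0 with hVdef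
  set A : Matrix (C × Fin n) (C × Fin n) (PadicAlgCl p) :=
    Matrix.of fun i j : C × Fin n => if i.1 = j.1 then
      x ^ (j.2 : ℕ) * t i.2 j.2 * (x ^ (i.2 : ℕ))⁻¹ else 0 with hAdef
  have hV : V.det ≠ 0 := by
    have h1 : V = (Matrix.blockDiagonal (fun _ : C => Matrix.vandermonde ρ)).submatrix
        (Equiv.prodComm C (Fin n)) (Equiv.prodComm C (Fin n)) := by
      ext i j
      rw [hVdef, Matrix.of_apply, Matrix.submatrix_apply, Matrix.blockDiagonal_apply]
      rfl
    rw [h1, Matrix.det_submatrix_equiv_self, Matrix.det_blockDiagonal]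
    exact Finset.prod_ne_zero_iff.2 fun _ _ => Matrix.det_vandermonde_ne_zero_iff.2 hρinj
  have hV1 : ∀ i j, ‖V i j‖ ≤ 1 := by
    intro i j
    rw [hVdef, Matrix.of_apply]
    split_ifs
    · rw [norm_pow, hρ1, one_pow]
    · rw [norm_zero]
      exact zero_le_one
  have hA : ∀ i j, A i j ∈ U := by
    intro i j
    rw [hAdef, Matrix.of_apply]
    split_ifs
    · exact ht _ _
    · exact U.zero_mem
  have hVA : V * A = Matrix.diagonal (fun i : C × Fin n => y i.2) * V := by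
    ext i j
    rw [hVdef, rlocap_mul (fun k r => ρ k ^ (r : ℕ)), Matrix.diagonal_mul]
    rw [Matrix.of_apply]
    by_cases hij : i.1 = j.1
    · rw [if_pos hij]
      have h1 : ∀ r : Fin n, ρ i.2 ^ (r : ℕ) * A (i.1, r) j =
          x ^ (j.2 : ℕ) * (ζ i.2 ^ (r : ℕ) * t r j.2) := by
        intro r
        rw [hAdef, Matrix.of_apply, if_pos hij]
        simp only [hρ, mul_pow]
        field_simp
      rw [Finset.sum_congr rfl fun r _ => h1 r, ← Finset.mul_sum, hy]
      simp only [hρ, mul_pow]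
      ring
    · rw [if_neg hij, mul_zero]
      refine Finset.sum_eq_zero fun r _ => ?_
      rw [hAdef, Matrix.of_apply, if_neg hij, mul_zero]
  obtain ⟨u, hu, huf⟩ := up_shift n y
  have hc : ∀ M : Matrix (C × Fin n) (C × Fin n) (PadicAlgCl p), (∀ i j, M i j ∈ U) →
      (∀ i j, ‖(V * M) i j‖ ≤ 1) → ‖M.det‖ ≤ (p : ℝ) ^ (((Fintype.card C * n : ℕ) : ℝ) / (p - 1)) := by
    intro M hM hVM
    have hpr : ∀ ζ : PadicAlgCl p, IsPrimitiveRoot ζ p → ‖ζ - 1‖ ^ (p - 1) = (p : ℝ)⁻¹ := by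
      intro ζ hζ'
      have h1 : IsPrimitiveRoot ζ (p ^ (0 + 1)) := by simpa using hζ'
      have h2 := norm_primitive_sub_one h1
      rw [h2, pow_zero, one_mul, ← Real.rpow_natCast, ← Real.rpow_mul (by linarith)]
      have h3 : (-(1 : ℝ) / (p - 1)) * ((p - 1 : ℕ) : ℝ) = -1 := by
        rw [Nat.cast_sub hp.one_lt.le, Nat.cast_one]
        have : (p : ℝ) - 1 ≠ 0 := by linarith
        field_simp
      rw [h3, Real.rpow_neg_one]
    have h1 := latt_det_block hp2 (RootU_norm_p p) hpr U (fun u hu hu0 => up_value hu hu0)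
      (fun u hu h1 a => up_frob hu h1.le a) (fun u hu h => up_root hp2 hu h) a n hn (x ^ n) hxn
      (by rw [norm_pow, hx, one_pow]) ρ hρinj hργ M hM (by
        intro i c k
        have h2 := hVM (c, i) k
        rw [hVdef, rlocap_mul (fun k r => ρ k ^ (r : ℕ))] at h2
        exact h2)
    have hp1' : ((p - 1 : ℕ) : ℝ) = (p : ℝ) - 1 := by
      rw [Nat.cast_sub hp.one_lt.le, Nat.cast_one]
    have h3 : ‖M.det‖ = (‖M.det‖ ^ (p - 1)) ^ (1 / ((p : ℝ) - 1)) := by
      rw [← Real.rpow_natCast, ← Real.rpow_mul (norm_nonneg _), hp1']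
      rw [mul_one_div_cancel (by linarith), Real.rpow_one]
    rw [h3]
    refine (Real.rpow_le_rpow (pow_nonneg (norm_nonneg _) _) h1 (by
      apply div_nonneg zero_le_one
      linarith)).trans (le_of_eq ?_)
    rw [← Real.rpow_natCast, ← Real.rpow_mul (by linarith), mul_one_div]
  set Z' : Matrix (C × Fin n) (C × Fin n) (PadicAlgCl p) :=
    Matrix.of fun i j => x ^ (j.2 : ℕ) * Z i j * (x ^ (i.2 : ℕ))⁻¹ with hZ'def
  have hZ' : ∀ i j, ‖Z' i j‖ ≤ 1 := by
    intro i j
    rw [hZ'def, Matrix.of_apply, norm_mul, norm_mul, norm_inv, hxpn, hxpn, inv_one, mul_one, one_mul]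
    exact hZ i j
  have hmain := cramer_pert U V hV hV1 _ hc A hA (fun i : C × Fin n => y i.2) hVA u hu
    (fun k => huf k.2) Z' hZ' q S K hS hK
  have hprod : ∏ k : C × Fin n, max 1 ‖y k.2‖ = (∏ k, max 1 ‖y k‖) ^ Fintype.card C := by
    rw [Fintype.prod_prod_type]
    exact (Finset.prod_const (∏ k, max 1 ‖y k‖)).trans (by rw [Finset.card_univ])
  rw [hprod] at hmain
  have hsub : ((Matrix.of fun i j : C × Fin n => if i.1 = j.1 then t i.2 j.2 else 0) + Z).submatrix S K =
      Matrix.of fun i j => x ^ ((S i).2 : ℕ) *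
        (Matrix.of fun i j => (x ^ ((K j).2 : ℕ))⁻¹ * ((A + Z').submatrix S K) i j) i j := by
    ext i j
    simp only [Matrix.of_apply, Matrix.submatrix_apply, Matrix.add_apply, hAdef, hZ'def]
    have h1 := hxp (S i).2
    have h2 := hxp (K j).2
    by_cases hij : (S i).1 = (K j).1
    · rw [if_pos hij, if_pos hij]
      field_simp
    · rw [if_neg hij, if_neg hij]
      field_simp
      ring
  rw [hsub, Matrix.det_mul_column, Matrix.det_mul_row, norm_mul, norm_mul, norm_prod, norm_prod]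
  have h1 : ∏ i : Fin q, ‖x ^ ((S i).2 : ℕ)‖ = 1 := Finset.prod_eq_one fun i _ => hxpn _
  have h2 : ∏ i : Fin q, ‖(x ^ ((K i).2 : ℕ))⁻¹‖ = 1 := Finset.prod_eq_one fun i _ => by
    rw [norm_inv, hxpn, inv_one]
  rw [h1, h2, one_mul, one_mul]
  exact hmain

end MP4270U
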