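import Pool.Agent.Lib_MP_4270a5_u.RUnB

/-!
# MP_4270a5_nt, piece RUNC: number fields whose discriminant is prime to `p`

PAPER PROOF. Suppose `φ x ∉ Up p` for some `x`; then there is an automorphism `σ` of `PadicAlgCl p` over `ℚ_p` which fixes `Up p` pointwise and `σ (φ x) ≠ φ x` (`mem_of_fixed`), so `φ` and
`ψ = σ ∘ φ` are two different embeddings of `K`. For an algebraic integer `w` of `K`: `‖φ w‖ ≤ 1`; `up_teich` gives `θ ∈ Up p` with `‖φ w - θ‖ < 1`, so
`‖ψ w - θ‖ = ‖σ (φ w - θ)‖ < 1` and `‖φ w - ψ w‖ < 1`. Discriminant (`NumberField.discr`, `NumberField.coe_discr`, `Algebra.discr_eq_det_embeddingsMatrixReindex_pow_two` for the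
algebraically closed field `PadicAlgCl p`, an algebra over `ℚ`): `discr K = det (φ_i (w_j))^2`, `w` an integral basis; subtracting the row `ψ` from the row `φ`
(`Matrix.det_updateRow_add_smul_self` or `det_eq_of_forall_row_eq_smul_add_const`) shows `‖det‖ < 1` (all entries have norm `≤ 1`, one row has norm `< 1`; Leibniz formula),
so `‖(discr K : PadicAlgCl p)‖ < 1` and `p ∣ discr K` (`padicNorm`/`Padic.norm_intCast_lt_one_iff`, `PadicAlgCl.norm_extends`), a contradiction.
-/

open IntermediateField Polynomial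

namespace MP4270U

open MP4270

/-- An element integral over `ℤ` has norm `≤ 1`. -/
private theorem runc_int {p : ℕ} [Fact p.Prime] {z : PadicAlgCl p} (hz : IsIntegral ℤ z) : ‖z‖ ≤ 1 := by
  by_contra hc
  push Not at hc
  obtain ⟨P, hP, hP0⟩ := hz
  have h1 : z ^ P.natDegree = -∑ i ∈ Finset.range P.natDegree, ((P.coeff i : ℤ) : PadicAlgCl p) * z ^ i := by
    have h2 := hP0
    rw [hP.as_sum, Polynomial.eval₂_add, Polynomial.eval₂_pow, Polynomial.eval₂_X,
      Polynomial.eval₂_finsetSum] at h2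
    have h3 : ∑ i ∈ Finset.range P.natDegree, Polynomial.eval₂ (algebraMap ℤ (PadicAlgCl p)) z
        (C (P.coeff i) * X ^ i) = ∑ i ∈ Finset.range P.natDegree, ((P.coeff i : ℤ) : PadicAlgCl p) * z ^ i := by
      refine Finset.sum_congr rfl fun i _ => ?_
      rw [Polynomial.eval₂_mul, Polynomial.eval₂_C, Polynomial.eval₂_pow, Polynomial.eval₂_X]
      simp
    rw [h3] at h2
    exact eq_neg_of_add_eq_zero_left h2
  have hz0 : (0 : ℝ) < ‖z‖ := by linarith
  rcases Nat.eq_zero_or_pos P.natDegree with h0 | h0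
  · rw [h0] at h1
    simp at h1
  · have h4 : ‖z ^ P.natDegree‖ ≤ ‖z‖ ^ (P.natDegree - 1) := by
      rw [h1, norm_neg]
      refine IsUltrametricDist.norm_sum_le_of_forall_le_of_nonneg (by positivity) ?_
      intro i hi
      rw [norm_mul, norm_pow]
      have h5 : ‖((P.coeff i : ℤ) : PadicAlgCl p)‖ ≤ 1 := by
        have h6 : ((P.coeff i : ℤ) : PadicAlgCl p) = ((((P.coeff i : ℤ) : ℚ_[p])) : PadicAlgCl p) := by
          simp
        rw [h6, PadicAlgCl.norm_extends]
        exact Padic.norm_int_le_one _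
      have h7 : ‖z‖ ^ i ≤ ‖z‖ ^ (P.natDegree - 1) :=
        pow_le_pow_right₀ hc.le (by have := Finset.mem_range.1 hi; omega)
      calc ‖((P.coeff i : ℤ) : PadicAlgCl p)‖ * ‖z‖ ^ i ≤ 1 * ‖z‖ ^ (P.natDegree - 1) := by gcongr
        _ = _ := one_mul _
    rw [norm_pow] at h4
    have h8 : ‖z‖ ^ (P.natDegree - 1) < ‖z‖ ^ P.natDegree := pow_lt_pow_right₀ hc (by omega)
    linarith

/-- A determinant with entries of norm `≤ 1` and one column of norm `< 1` has norm `< 1`. -/
private theorem runc_det {p : ℕ} [Fact p.Prime] {ι : Type*} [Fintype ι] [DecidableEq ι]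
    (M : Matrix ι ι (PadicAlgCl p)) (h : ∀ i j, ‖M i j‖ ≤ 1) (j0 : ι) (h0 : ∀ i, ‖M i j0‖ < 1) :
    ‖M.det‖ < 1 := by
  rw [Matrix.det_apply]
  obtain ⟨τ, _, hτ⟩ := IsUltrametricDist.exists_norm_finsetSum_le_of_nonempty
    (t := (Finset.univ : Finset (Equiv.Perm ι))) ⟨1, Finset.mem_univ _⟩
    (fun σ => Equiv.Perm.sign σ • ∏ i, M (σ i) i)
  refine lt_of_le_of_lt hτ ?_
  have h1 : ‖Equiv.Perm.sign τ • ∏ i, M (τ i) i‖ = ∏ i, ‖M (τ i) i‖ := by
    rcases Int.units_eq_one_or (Equiv.Perm.sign τ) with h2 | h2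
    · rw [h2, one_smul, norm_prod]
    · rw [h2]
      simp
  rw [h1, ← Finset.mul_prod_erase Finset.univ (fun i => ‖M (τ i) i‖) (Finset.mem_univ j0)]
  calc ‖M (τ j0) j0‖ * ∏ i ∈ Finset.univ.erase j0, ‖M (τ i) i‖ ≤ ‖M (τ j0) j0‖ * 1 := by
        refine mul_le_mul_of_nonneg_left ?_ (norm_nonneg _)
        exact Finset.prod_le_one (fun i _ => norm_nonneg _) (fun i _ => h _ _)
    _ = ‖M (τ j0) j0‖ := mul_one _
    _ < 1 := h0 _

theorem up_disc {K : Type} [Field K] [NumberField K] (p : ℕ) [Fact p.Prime]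
    (h : ¬ (p : ℤ) ∣ NumberField.discr K) (φ : K →+* PadicAlgCl p) (x : K) : φ x ∈ Up p := by
  classical
  by_contra hx
  have h1 : ∃ σ : PadicAlgCl p ≃ₐ[ℚ_[p]] PadicAlgCl p, (∀ y ∈ Up p, σ y = y) ∧ σ (φ x) ≠ φ x := by
    by_contra hc
    push Not at hc
    exact hx (mem_of_fixed (Up p) (φ x) hc)
  obtain ⟨σ, hσ, hσx⟩ := h1
  apply h
  -- the matrix of the embeddings
  let b : Module.Free.ChooseBasisIndex ℤ (NumberField.RingOfIntegers K) → K :=
    fun i => NumberField.integralBasis K i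
  have hbint : ∀ i, IsIntegral ℤ (b i) := by
    intro i
    have h2 : b i = algebraMap (NumberField.RingOfIntegers K) K (NumberField.RingOfIntegers.basis K i) :=
      NumberField.integralBasis_apply K i
    rw [h2]
    exact NumberField.RingOfIntegers.isIntegral_coe _
  have hint : ∀ (τ : K →+* PadicAlgCl p) i, ‖τ (b i)‖ ≤ 1 := by
    intro τ i
    exact runc_int (map_isIntegral_int τ (hbint i))
  have hcard : Fintype.card (Module.Free.ChooseBasisIndex ℤ (NumberField.RingOfIntegers K)) =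
      Fintype.card (K →ₐ[ℚ] PadicAlgCl p) := by
    rw [AlgHom.card, ← NumberField.RingOfIntegers.rank K, Module.finrank_eq_card_chooseBasisIndex]
  let e : Module.Free.ChooseBasisIndex ℤ (NumberField.RingOfIntegers K) ≃ (K →ₐ[ℚ] PadicAlgCl p) :=
    Fintype.equivOfCardEq hcard
  have hdisc : ((NumberField.discr K : ℤ) : PadicAlgCl p) =
      (Algebra.embeddingsMatrixReindex ℚ (PadicAlgCl p) b e).det ^ 2 := by
    rw [← Algebra.discr_eq_det_embeddingsMatrixReindex_pow_two]
    have h2 := NumberField.coe_discr K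
    have h3 : algebraMap ℚ (PadicAlgCl p) ((NumberField.discr K : ℤ) : ℚ) =
        ((NumberField.discr K : ℤ) : PadicAlgCl p) := by simp
    rw [← h3, h2]
  -- the two columns
  let ψ : K →+* PadicAlgCl p := (σ : PadicAlgCl p →+* PadicAlgCl p).comp φ
  set j0 := e.symm φ.toRatAlgHom with hj0
  set j1 := e.symm ψ.toRatAlgHom with hj1
  have hne : j0 ≠ j1 := by
    intro hc
    have h2 : φ.toRatAlgHom = ψ.toRatAlgHom := e.symm.injective hc
    have h3 : φ.toRatAlgHom x = ψ.toRatAlgHom x := by rw [h2]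
    exact hσx h3.symm
  have hent : ∀ i j, Algebra.embeddingsMatrixReindex ℚ (PadicAlgCl p) b e i j = e j (b i) := fun i j => rfl
  have he0 : ∀ i, e j0 (b i) = φ (b i) := by
    intro i
    rw [hj0, Equiv.apply_symm_apply]
    rfl
  have he1 : ∀ i, e j1 (b i) = σ (φ (b i)) := by
    intro i
    rw [hj1, Equiv.apply_symm_apply]
    rfl
  have hclose : ∀ i, ‖φ (b i) - σ (φ (b i))‖ < 1 := by
    intro i
    obtain ⟨θ, hθ, _, hθ1⟩ := up_teich (φ (b i)) (hint φ i)
    have h2 : ‖σ (φ (b i)) - θ‖ < 1 := by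
      have h3 : σ (φ (b i)) - θ = σ (φ (b i) - θ) := by rw [map_sub, hσ θ hθ]
      rw [h3, norm_equiv]
      exact hθ1
    have h4 : φ (b i) - σ (φ (b i)) = (φ (b i) - θ) + -(σ (φ (b i)) - θ) := by ring
    rw [h4]
    refine lt_of_le_of_lt (IsUltrametricDist.norm_add_le_max _ _) ?_
    rw [norm_neg]
    exact max_lt hθ1 h2
  have hdet : ‖(Algebra.embeddingsMatrixReindex ℚ (PadicAlgCl p) b e).det‖ < 1 := by
    rw [← Matrix.det_updateCol_add_smul_self _ hne (-1)]
    refine runc_det _ ?_ j0 ?_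
    · intro i j
      by_cases hj : j = j0
      · rw [hj, Matrix.updateCol_self, hent, hent, he0, he1, smul_eq_mul, neg_one_mul, ← sub_eq_add_neg]
        exact (hclose i).le
      · rw [Matrix.updateCol_ne hj, hent]
        exact hint (e j : K →+* PadicAlgCl p) i
    · intro i
      rw [Matrix.updateCol_self, hent, hent, he0, he1, smul_eq_mul, neg_one_mul, ← sub_eq_add_neg]
      exact hclose i
  have hnd : ‖((NumberField.discr K : ℤ) : PadicAlgCl p)‖ < 1 := by
    rw [hdisc, norm_pow]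
    exact pow_lt_one₀ (norm_nonneg _) hdet (by norm_num)
  have h6 : ((NumberField.discr K : ℤ) : PadicAlgCl p) =
      ((((NumberField.discr K : ℤ) : ℚ_[p])) : PadicAlgCl p) := by
    simp
  rw [h6, PadicAlgCl.norm_extends] at hnd
  exact Padic.norm_intCast_lt_one_iff.1 hnd

end MP4270U
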