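import Pool.Agent.Lib_MP_4270a5_u.Defs

/-!
# MP_4270a5_nt, piece RK: small facts on ranks
-/

namespace MP4270U

open Finset

variable {K : Type*} [Field K] {X : Type*} [Fintype X] [DecidableEq X]

theorem rk_add {l m : Type*} [Fintype l] [Fintype m] (A B : Matrix l m K) :
    (A + B).rank ≤ A.rank + B.rank := by
  unfold Matrix.rank
  refine le_trans (Submodule.finrank_mono ?_)
    (Submodule.finrank_add_le_finrank_add_finrank (LinearMap.range A.mulVecLin) (LinearMap.range B.mulVecLin))
  rintro _ ⟨v, rfl⟩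
  rw [Matrix.mulVecLin_add, LinearMap.add_apply]
  exact Submodule.add_mem_sup ⟨v, rfl⟩ ⟨v, rfl⟩

theorem rk_neg {l m : Type*} [Fintype l] [Fintype m] (A : Matrix l m K) : (-A).rank = A.rank := by
  have h1 : ∀ B : Matrix l m K, (-B).rank ≤ B.rank := by
    intro B
    unfold Matrix.rank
    refine Submodule.finrank_mono ?_
    rintro _ ⟨v, rfl⟩
    refine ⟨-v, ?_⟩
    rw [Matrix.mulVecLin_apply, Matrix.mulVecLin_apply, Matrix.mulVec_neg, Matrix.neg_mulVec]
  apply le_antisymm (h1 A)
  have h2 := h1 (-A)
  rwa [neg_neg] at h2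

theorem rk_sub {l m : Type*} [Fintype l] [Fintype m] (A B : Matrix l m K) :
    (A - B).rank ≤ A.rank + B.rank := by
  rw [sub_eq_add_neg, ← rk_neg B]
  exact rk_add A (-B)

/-- only the rows in `A` are nonzero -/
theorem rk_rows {l m : Type*} [Fintype l] [Fintype m] (M : Matrix l m K) (A : Finset l)
    (h : ∀ a b, a ∉ A → M a b = 0) : M.rank ≤ A.card := by
  apply Matrix.rank_le_card_of_support_subset
  intro a ha
  by_contra hn
  exact ha (funext fun b => h a b hn)

/-- only the columns in `B` are nonzero -/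
theorem rk_cols {l m : Type*} [Fintype l] [Fintype m] (M : Matrix l m K) (B : Finset m)
    (h : ∀ a b, b ∉ B → M a b = 0) : M.rank ≤ B.card := by
  rw [← Matrix.rank_transpose]
  exact rk_rows M.transpose B fun a b ha => h b a ha

/-- the rank of a diagonal matrix -/
theorem rk_diag [DecidableEq K] (w : X → K) : (Matrix.diagonal w).rank = hammingNorm w := by
  rw [Matrix.rank_diagonal, Fintype.card_subtype]
  rfl

/-- a nonsingular submatrix -/
theorem rk_minor {l m : Type*} [Fintype l] [Fintype m] {r : ℕ} (M : Matrix l m K) (i : Fin r → l)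
    (j : Fin r → m) (h : (M.submatrix i j).det ≠ 0) : r ≤ M.rank := by
  have h1 := Matrix.rank_submatrix_le M i j
  rwa [Matrix.rank_of_det_ne_zero h, Fintype.card_fin] at h1

end MP4270U
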